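import Pool.Agent.MP_39a890_nt.ms.Spec

/-! Project MS: the statements for the forms `q`, `a q + d`, and the reflection of the bilinear
estimate. -/

set_option autoImplicit false

noncomputable section

namespace Pool.Agent.MP_39a890_nt.MS

open MeasureTheory Finset Filter
open scoped ArithmeticFunction.vonMangoldt
open Pool.Agent.MP_678834_nt Pool.Agent.MP_678834_nt.HL9

def TIIpFor (F : ℕ → ℕ → ℕ → Finset ℕ) : Prop := ∀ K B : ℕ, K + 2 ≤ B → ∃ (C₀ : ℕ) (C N₀ : ℝ),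
  ∀ (N A H Q : ℕ) (β : ℕ → ℂ), N₀ ≤ N → 2 * Real.log N ^ B * 2 ^ B ≤ Q →
    (Q : ℝ) ≤ Real.log N ^ (B + 1) →
    Real.log N ^ C₀ ≤ A → A * Real.log N ^ C₀ ≤ H → 8 * H ≤ N →
    ∑ a ∈ F C₀ N A, ∑ b ∈ Icc 1 H, ‖∑ n ∈ Ioc N (2 * N), β n *
        (((Λ (a * n + b) : ℝ) : ℂ) - lamS Q (a * n + b))‖ ^ 2 ≤
      C * A * H * N / Real.log N ^ K * ∑ n ∈ Ioc N (2 * N), ‖β n‖ ^ 2

def MTpStmt : Prop := ∀ K B : ℕ, ∃ C N₀ : ℝ, ∀ N Q a b : ℕ, N₀ ≤ N →
  (Q : ℝ) ≤ Real.log N ^ B → a.Coprime b →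
    ‖∑ n ∈ Ioc N (2 * N), ((Λ n : ℝ) : ℂ) * lamS Q (a * n + b) - sgm Q (a * b) * N‖ ≤
      C * N / Real.log N ^ K

def VMpFor (F : ℕ → ℕ → ℕ → Finset ℕ) : Prop := ∀ K : ℕ, ∃ (C₀ : ℕ) (C N₀ : ℝ), ∀ N A H : ℕ,
  N₀ ≤ N → Real.log N ^ C₀ ≤ A → A * Real.log N ^ C₀ ≤ H → 8 * H ≤ N →
    ∃ Ex : Finset (ℕ × ℕ), (Ex.card : ℝ) ≤ C * A * H / Real.log N ^ K ∧
      ∀ a ∈ F C₀ N A, ∀ b ∈ Icc 1 H, a.Coprime b → (a, b) ∉ Ex →
        |∑ n ∈ Ioc N (2 * N), Λ n * Λ (a * n + b) - sing (a * b) * N| ≤ 3 * N / Real.log N ^ 2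

def CNTpStmt : Prop := ∃ C N₀ : ℝ, ∀ N a b : ℕ, N₀ ≤ N → 2 ≤ a → (a : ℝ) ≤ N / Real.log N ^ 10 →
  1 ≤ b → b ≤ N → Even (a * b) →
  |∑ n ∈ Ioc N (2 * N), Λ n * Λ (a * n + b) - sing (a * b) * N| ≤ 3 * N / Real.log N ^ 2 →
    |(((Ioc N (2 * N)).filter fun q : ℕ => q.Prime ∧ (a * q + b).Prime).card : ℝ) *
      (Real.log N * Real.log (a * N)) / (sing (a * b) * N) - 1| ≤ C / Real.log N

def FINpFor (F : ℕ → ℕ → ℕ → Finset ℕ) : Prop := ∀ K : ℕ, ∃ (C₀ : ℕ) (C N₀ : ℝ), ∀ N A H : ℕ,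
  N₀ ≤ (N : ℝ) → Real.log N ^ C₀ ≤ (A : ℝ) → (A : ℝ) * Real.log N ^ C₀ ≤ H → 8 * H ≤ N →
    ∃ Ex : Finset (ℕ × ℕ), (Ex.card : ℝ) ≤ C * A * H / Real.log N ^ K ∧
      ∀ a ∈ F C₀ N A, ∀ b ∈ Icc 1 H, a.Coprime b → Even (a * b) → (a, b) ∉ Ex →
        |(((Ioc N (2 * N)).filter fun q : ℕ => q.Prime ∧ (a * q + b).Prime).card : ℝ) *
          (Real.log N * Real.log (a * N)) / (sing (a * b) * N) - 1| ≤ C / Real.log N

/-- families that are stable under a small change of `N` -/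
def Stab (F : ℕ → ℕ → ℕ → Finset ℕ) : Prop :=
  ∀ C N N' A : ℕ, 2 ≤ Real.log N → N ≤ N' → N' ≤ 2 * N → F (2 * C) N A ⊆ F C N' A

theorem log_le {N N' : ℕ} (hL : 2 ≤ Real.log N) (h1 : N ≤ N') (h2 : N' ≤ 2 * N) :
    Real.log N ≤ Real.log N' ∧ Real.log N' ≤ Real.log N + 1 := by
  have hN : (0 : ℝ) < N := by
    rcases Nat.eq_zero_or_pos N with rfl | h
    · norm_num at hL
    · exact_mod_cast h
  have h3 : (N : ℝ) ≤ N' := by exact_mod_cast h1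
  have h4 : (N' : ℝ) ≤ 2 * N := by exact_mod_cast h2
  refine ⟨Real.log_le_log hN h3, (Real.log_le_log (hN.trans_le h3) h4).trans ?_⟩
  rw [Real.log_mul two_ne_zero hN.ne']
  linarith [Real.log_two_lt_d9]

theorem log_pow_le {N N' : ℕ} (hL : 2 ≤ Real.log N) (h1 : N ≤ N') (h2 : N' ≤ 2 * N) (C : ℕ) :
    Real.log N' ^ C ≤ Real.log N ^ (2 * C) := by
  obtain ⟨h3, h4⟩ := log_le hL h1 h2
  rw [pow_mul]
  exact pow_le_pow_left₀ (by linarith) (by nlinarith) C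

theorem stab_gd : Stab gd := fun C N N' A hL h1 h2 a ha => by
  obtain ⟨h3, p, h4, h5⟩ := mem_filter.1 ha
  exact mem_filter.2 ⟨h3, p, h4, (log_pow_le hL h1 h2 C).trans_lt h5⟩

theorem one_le_log {N : ℕ} (h : 3 ≤ N) : 1 ≤ Real.log N := by
  have h3 : (3 : ℝ) ≤ N := by exact_mod_cast h
  rw [Real.le_log_iff_exp_le (by linarith)]
  linarith [Real.exp_one_lt_three]

theorem fam_gd : Fam gd := ⟨fun _ _ _ => filter_subset _ _, fun C C' N A h hN a ha => by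
  obtain ⟨h3, p, h4, h5⟩ := mem_filter.1 ha
  exact mem_filter.2 ⟨h3, p, h4, (pow_le_pow_right₀ (one_le_log hN) h).trans_lt h5⟩⟩

theorem fam_fb : Fam fb := ⟨fun _ _ _ => by unfold fb; split_ifs <;> simp,
  fun _ _ _ _ _ _ => Subset.refl _⟩

theorem tiip (F : ℕ → ℕ → ℕ → Finset ℕ) (hF : Fam F) (hS : Stab F) (h : TIIFor F) : TIIpFor F := by
  intro K B hKB
  obtain ⟨C₀, C, N₀, h⟩ := h K B hKB
  obtain ⟨N₁, hN₁⟩ := eventually_atTop.1 ((ev_log 2).and (eventually_ge_atTop N₀))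
  refine ⟨2 * C₀ + 1, 8 * |C|, N₁, fun N A H Q β hN hQ1 hQ2 hA hH h8 => ?_⟩
  obtain ⟨hL, hN0⟩ := hN₁ N hN
  set L := Real.log N with hLdef
  have hL1 : (1 : ℝ) ≤ L ^ (2 * C₀) := one_le_pow₀ (by linarith)
  have hp : L ^ (2 * C₀) * 2 ≤ L ^ (2 * C₀ + 1) := by rw [pow_succ]; gcongr
  have hA2 : (2 : ℝ) ≤ A := by linarith
  have hA1 : 2 ≤ A := by exact_mod_cast hA2
  have hAH : 2 * A ≤ H := by
    have : (2 : ℝ) * A ≤ H := by nlinarith
    exact_mod_cast this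
  set k := H / A + 1 with hk
  have k1 : H < A * k := Nat.lt_mul_div_succ H (by omega)
  have k2 : A * k ≤ H + A := by rw [hk, mul_add, mul_one]; exact Nat.add_le_add_right (Nat.mul_div_le H A) A
  have k3 : k ≤ N := by nlinarith
  have n1 : N ≤ N + k := Nat.le_add_right _ _
  have n2 : N + k ≤ 2 * N := by omega
  obtain ⟨l1, l2⟩ := log_le hL n1 n2
  have l3 := log_pow_le hL n1 n2 C₀
  have hN3 : 3 ≤ N := by omega
  set β' : ℕ → ℂ := fun n => if n ≤ 2 * N + k then β (n - k) else 0 with hβ'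
  have e1 : ∀ g : ℕ → ℂ → ℂ, (∀ n, g n 0 = 0) →
      ∑ n ∈ Ioc (N + k) (2 * (N + k)), g n (β' n) = ∑ n ∈ Ioc N (2 * N), g (n + k) (β n) := by
    intro g hg
    rw [← sum_subset (s₁ := Ioc (N + k) (2 * N + k)) (Ioc_subset_Ioc_right (by omega))
      fun n hn hn' => by
        rw [mem_Ioc] at hn hn'
        simp only [hβ']
        rw [if_neg (by omega), hg], ← map_add_right_Ioc, sum_map]
    refine sum_congr rfl fun n hn => ?_
    have := (mem_Ioc.1 hn).2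
    simp only [hβ', addRightEmbedding_apply]
    rw [if_pos (by omega), Nat.add_sub_cancel]
  have e2 : ∑ n ∈ Ioc (N + k) (2 * (N + k)), ‖β' n‖ ^ 2 = ∑ n ∈ Ioc N (2 * N), ‖β n‖ ^ 2 := by
    have := e1 (fun _ z => ((‖z‖ ^ 2 : ℝ) : ℂ)) (by simp)
    exact_mod_cast this
  have key := h (N + k) A (4 * H) Q β' (hN0.trans (by exact_mod_cast n1))
    (by
      refine le_trans ?_ hQ1
      have : Real.log (N + k : ℕ) ^ B ≤ (L * 2) ^ B := pow_le_pow_left₀ (by linarith) (by linarith) B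
      rw [mul_pow] at this
      have h0 : 0 ≤ L ^ B * 2 ^ B := by positivity
      linarith)
    (hQ2.trans (pow_le_pow_left₀ (by linarith) l1 _)) (by linarith)
    (by
      push_cast at l3 ⊢
      have : (A : ℝ) * Real.log (N + k) ^ C₀ ≤ A * L ^ (2 * C₀ + 1) := by gcongr; linarith
      have h0 : (0 : ℝ) ≤ H := Nat.cast_nonneg _
      linarith) (by omega)
  rw [e2] at key
  have hsub : F (2 * C₀ + 1) N A ⊆ F C₀ (N + k) A :=
    (hF.anti _ _ N A (Nat.le_succ _) hN3).trans (hS C₀ N (N + k) A hL n1 n2)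
  refine le_trans ?_ (key.trans ?_)
  · refine le_trans (sum_le_sum fun a ha => ?_) (sum_le_sum_of_subset_of_nonneg hsub
      fun _ _ _ => by positivity)
    obtain ⟨a1, a2⟩ := mem_Ioc.1 (hF.sub _ _ _ ha)
    have a3 : A * k ≤ a * k := Nat.mul_le_mul_right k a1.le
    have a4 : a * k ≤ 2 * A * k := Nat.mul_le_mul_right k a2
    have a5 : 2 * A * k = 2 * (A * k) := by ring
    set G : ℕ → ℝ := fun b => ‖∑ n ∈ Ioc (N + k) (2 * (N + k)), β' n *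
        (((Λ (a * n - b) : ℝ) : ℂ) - lamS Q (a * n - b))‖ ^ 2 with hG
    have e3 : ∀ b ∈ Icc 1 H, ‖∑ n ∈ Ioc N (2 * N), β n *
        (((Λ (a * n + b) : ℝ) : ℂ) - lamS Q (a * n + b))‖ ^ 2 = G (a * k - b) := by
      intro b hb
      have hb2 := (mem_Icc.1 hb).2
      simp only [hG]
      rw [e1 (fun n z => z * (((Λ (a * n - (a * k - b)) : ℝ) : ℂ) - lamS Q (a * n - (a * k - b))))
        (by simp)]
      refine congrArg (fun z : ℂ => ‖z‖ ^ 2) (sum_congr rfl fun n _ => ?_)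
      rw [show a * (n + k) - (a * k - b) = a * n + b by rw [mul_add]; omega]
    rw [sum_congr rfl e3, ← sum_image (s := Icc 1 H) (g := fun b => a * k - b) (f := G)
      fun x hx y hy hxy => by
        have := (mem_Icc.1 (mem_coe.1 hx)).2
        have := (mem_Icc.1 (mem_coe.1 hy)).2
        simp only at hxy
        omega]
    refine sum_le_sum_of_subset_of_nonneg (fun b hb => ?_) fun _ _ _ => by positivity
    obtain ⟨x, hx, rfl⟩ := mem_image.1 hb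
    rw [mem_Icc] at hx ⊢
    omega
  · refine mul_le_mul_of_nonneg_right ?_ (by positivity)
    have n3 : ((N + k : ℕ) : ℝ) ≤ 2 * N := by exact_mod_cast n2
    have l4 : L ^ K ≤ Real.log (N + k : ℕ) ^ K := pow_le_pow_left₀ (by linarith) l1 _
    have l5 : 0 < L ^ K := by positivity
    calc C * A * ((4 * H : ℕ) : ℝ) * ((N + k : ℕ) : ℝ) / Real.log (N + k : ℕ) ^ K
        ≤ |C| * A * ((4 * H : ℕ) : ℝ) * (2 * N) / L ^ K := by gcongr; exact le_abs_self C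
      _ = _ := by push_cast; ring

end Pool.Agent.MP_39a890_nt.MS
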