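import Pool.Agent.MP_39a890_nt.ms.Spec

/-! Project MS, second part: shifts of both signs, arbitrary end points, counts up to `x`. -/

set_option autoImplicit false

noncomputable section

namespace Pool.Agent.MP_39a890_nt.MS

open MeasureTheory Finset
open scoped ArithmeticFunction.vonMangoldt
open Pool.Agent.MP_678834_nt Pool.Agent.MP_678834_nt.HL9

/-- shift up or down -/
def sh (s : Bool) (y b : ℕ) : ℕ := bif s then y + b else y - b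

@[simp] theorem sh_true (y b : ℕ) : sh true y b = y + b := rfl

@[simp] theorem sh_false (y b : ℕ) : sh false y b = y - b := rfl

/-- the family decreases when `N` grows -/
def Mono (F : ℕ → ℕ → ℕ → Finset ℕ) : Prop :=
  ∀ C N N' A : ℕ, 3 ≤ N → N ≤ N' → F C N' A ⊆ F C N A

def TII2For (F : ℕ → ℕ → ℕ → Finset ℕ) : Prop := ∀ K B : ℕ, K + 2 ≤ B → ∃ (C₀ : ℕ) (C N₀ : ℝ),
  ∀ (s : Bool) (N A H Q : ℕ) (β : ℕ → ℂ), N₀ ≤ N → Real.log N ^ B ≤ Q →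
    (Q : ℝ) ≤ Real.log N ^ (B + 1) →
    Real.log N ^ C₀ ≤ A → A * Real.log N ^ C₀ ≤ H → 8 * H ≤ N →
    ∑ a ∈ F C₀ N A, ∑ b ∈ Icc 1 H, ‖∑ n ∈ Ioc N (2 * N), β n *
        (((Λ (sh s (a * n) b) : ℝ) : ℂ) - lamS Q (sh s (a * n) b))‖ ^ 2 ≤
      C * A * H * N / Real.log N ^ K * ∑ n ∈ Ioc N (2 * N), ‖β n‖ ^ 2

def MT2Stmt : Prop := ∀ K B : ℕ, ∃ C N₀ : ℝ, ∀ (s : Bool) (N M Q a b : ℕ), N₀ ≤ N →
  N ≤ M → M ≤ 2 * N → (Q : ℝ) ≤ Real.log N ^ B → a.Coprime b → b ≤ a * N →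
    ‖∑ n ∈ Ioc N M, ((Λ n : ℝ) : ℂ) * lamS Q (sh s (a * n) b) -
      sgm Q (a * b) * ((M : ℂ) - N)‖ ≤ C * N / Real.log N ^ K

def VM2For (F : ℕ → ℕ → ℕ → Finset ℕ) : Prop := ∀ K J : ℕ, ∃ (C₀ : ℕ) (C N₀ : ℝ),
  ∀ (s : Bool) (N M A H : ℕ), N₀ ≤ N → N ≤ M → M ≤ 2 * N →
    Real.log N ^ C₀ ≤ A → A * Real.log N ^ C₀ ≤ H → 8 * H ≤ N →
    ∃ Ex : Finset (ℕ × ℕ), (Ex.card : ℝ) ≤ C * A * H / Real.log N ^ K ∧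
      ∀ a ∈ F C₀ N A, ∀ b ∈ Icc 1 H, a.Coprime b → (a, b) ∉ Ex →
        |∑ n ∈ Ioc N M, Λ n * Λ (sh s (a * n) b) - sing (a * b) * ((M : ℝ) - N)| ≤
          3 * N / Real.log N ^ J

def UNIFor (F : ℕ → ℕ → ℕ → Finset ℕ) : Prop := ∀ K : ℕ, ∃ (C₀ : ℕ) (C x₀ : ℝ), 0 ≤ C ∧
  ∀ (s : Bool) (x : ℝ) (A H : ℕ), x₀ ≤ x →
    Real.log x ^ C₀ ≤ A → A * Real.log x ^ C₀ ≤ H → A * H * Real.log x ^ C₀ ≤ x →
    ∃ Ex : Finset (ℕ × ℕ), (Ex.card : ℝ) ≤ C * A * H / Real.log x ^ K ∧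
      ∀ a ∈ F C₀ ⌊x⌋₊ A, ∀ b ∈ Icc 1 H, a.Coprime b → (a, b) ∉ Ex → ∀ y : ℕ,
        (y : ℝ) ≤ 2 * x / A →
        |∑ n ∈ Icc 1 y, Λ n * Λ (sh s (a * n) b) - sing (a * b) * y| ≤
          C * (1 + sing (a * b)) * (x / A) / Real.log x ^ 2

def CNT2Stmt : Prop := ∀ C₁ : ℝ, ∃ C x₀ : ℝ, ∀ (s : Bool) (x : ℝ) (a b : ℕ), x₀ ≤ x → 1 ≤ a →
  1 ≤ b → (a : ℝ) ^ 2 * Real.log x ^ 10 ≤ x → (b : ℝ) * Real.log x ^ 4 ≤ x → Even (a * b) →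
  (∀ y : ℕ, (y : ℝ) ≤ 2 * x / a →
    |∑ n ∈ Icc 1 y, Λ n * Λ (sh s (a * n) b) - sing (a * b) * y| ≤
      C₁ * (1 + sing (a * b)) * (x / a) / Real.log x ^ 2) →
    |(((Icc 1 ⌊2 * x⌋₊).filter fun q : ℕ => q.Prime ∧ (sh s (a * q) b).Prime ∧
        ((sh s (a * q) b : ℕ) : ℝ) ≤ x).card : ℝ) * (a * Real.log (x / a) * Real.log x) /
      (sing (a * b) * x) - 1| ≤ C * Real.log (Real.log x) / Real.log x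

end Pool.Agent.MP_39a890_nt.MS
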