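import Pool.Agent.MP_39a890_nt.ms.Top
import Pool.Agent.MP_39a890_nt.ms.Spec2

/-! Project MS: the facts on the main family. -/

set_option autoImplicit false

namespace Pool.Agent.MP_39a890_nt.MS

open Finset

theorem mono_gd : Mono gd := fun C N N' A hN h a ha => by
  obtain ⟨h3, p, h4, h5⟩ := mem_filter.1 ha
  have h1 := one_le_log hN
  have h2 : Real.log N ≤ Real.log N' :=
    Real.log_le_log (by exact_mod_cast (by omega : 0 < N)) (by exact_mod_cast h)
  exact mem_filter.2 ⟨h3, p, h4, (pow_le_pow_left₀ (by linarith) h2 C).trans_lt h5⟩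

end Pool.Agent.MP_39a890_nt.MS
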