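import Pool.Agent.MP_39a890_nt.ms.Spec2

/-! Project MS: the bilinear estimate for shifts of both signs. -/

set_option autoImplicit false

noncomputable section

namespace Pool.Agent.MP_39a890_nt.MS

open MeasureTheory Finset
open scoped ArithmeticFunction.vonMangoldt
open Pool.Agent.MP_3d0d30_nt.Six (E ck)
open Pool.Agent.MP_678834_nt Pool.Agent.MP_678834_nt.HL9

namespace TII2

theorem sq_add (u v : ℂ) : ‖u + v‖ ^ 2 ≤ 2 * ‖u‖ ^ 2 + 2 * ‖v‖ ^ 2 := by
  have h := pow_le_pow_left₀ (norm_nonneg _) (norm_add_le u v) 2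
  nlinarith [sq_nonneg (‖u‖ - ‖v‖)]

theorem norm_lamS (Q y : ℕ) : ‖lamS Q y‖ ≤ (Q : ℝ) ^ 2 := by
  unfold lamS
  refine (norm_sum_le _ _).trans ?_
  refine (sum_le_card_nsmul _ _ (Q : ℝ) fun r hr => ?_).trans (by simp [sq])
  rw [norm_mul, Complex.norm_real, Real.norm_eq_abs]
  have h1 : |rho r| ≤ 1 := (abs_rho_le r).trans (by rw [one_div]; exact Nat.cast_inv_le_one _)
  have h2 : ‖ram r y‖ ≤ Q := by
    unfold ram
    refine (norm_sum_le _ _).trans ?_
    simp only [Pool.Agent.MP_3d0d30_nt.Six.norm_E, sum_const, nsmul_eq_mul, mul_one]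
    have := (card_filter_le (range r) fun b => Nat.Coprime b r).trans_eq (card_range r)
    exact_mod_cast this.trans (mem_Icc.1 hr).2
  calc _ ≤ 1 * (Q : ℝ) := mul_le_mul h1 h2 (norm_nonneg _) zero_le_one
    _ = Q := one_mul _

theorem shift {M : Type} [AddCommMonoid M] (f : ℕ → M) (N k : ℕ) :
    ∑ m ∈ Ioc N (2 * N), (if N + k < m then f (m - k) else 0) = ∑ n ∈ Ioc N (2 * N - k), f n := by
  rw [← sum_filter]
  refine sum_nbij' (fun m => m - k) (fun n => n + k) ?_ ?_ ?_ ?_ ?_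
  · intro m hm
    simp only [mem_filter, mem_Ioc] at hm ⊢
    omega
  · intro m hm
    simp only [mem_filter, mem_Ioc] at hm ⊢
    omega
  · intro m hm
    simp only [mem_filter, mem_Ioc] at hm
    omega
  · intro m _
    simp
  · intro m _
    rfl

theorem ident (β g : ℕ → ℂ) {N k a d : ℕ} (hk : k ≤ N) (hd : d ≤ a * k) :
    ∑ n ∈ Ioc N (2 * N), β n * g (a * n + d) =
      ∑ m ∈ Ioc N (2 * N), (if N + k < m then β (m - k) else 0) * g (a * m - (a * k - d)) +
        ∑ n ∈ Ioc (2 * N - k) (2 * N), β n * g (a * n + d) := by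
  rw [← sum_Ioc_consecutive _ (show N ≤ 2 * N - k by omega) (show 2 * N - k ≤ 2 * N by omega),
    ← shift (fun n => β n * g (a * n + d)) N k]
  congr 1
  refine sum_congr rfl fun m _ => ?_
  split_ifs with h
  · obtain ⟨n, rfl⟩ : ∃ n, m = n + k := ⟨m - k, by omega⟩
    rw [Nat.add_sub_cancel, mul_add]
    congr 2
    omega
  · simp

theorem tail (β g : ℕ → ℂ) {N k : ℕ} {W : ℝ} (hk : k ≤ N)
    (hW : ∀ n ∈ Ioc (2 * N - k) (2 * N), ‖g n‖ ≤ W) :
    ‖∑ n ∈ Ioc (2 * N - k) (2 * N), β n * g n‖ ^ 2 ≤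
      k * W ^ 2 * ∑ n ∈ Ioc N (2 * N), ‖β n‖ ^ 2 := by
  have h1 : ‖∑ n ∈ Ioc (2 * N - k) (2 * N), β n * g n‖ ≤
      ∑ n ∈ Ioc (2 * N - k) (2 * N), ‖β n‖ * ‖g n‖ :=
    (norm_sum_le _ _).trans_eq (sum_congr rfl fun n _ => norm_mul _ _)
  refine (pow_le_pow_left₀ (norm_nonneg _) h1 2).trans ((sum_mul_sq_le_sq_mul_sq _ _ _).trans ?_)
  rw [mul_comm]
  refine mul_le_mul ?_ (sum_le_sum_of_subset_of_nonneg (Ioc_subset_Ioc_left (by omega))
    fun _ _ _ => by positivity) (sum_nonneg fun _ _ => by positivity) (by positivity)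
  refine (sum_le_card_nsmul _ _ (W ^ 2) fun n hn =>
    pow_le_pow_left₀ (norm_nonneg _) (hW n hn) 2).trans (le_of_eq ?_)
  rw [Nat.card_Ioc, nsmul_eq_mul, show 2 * N - (2 * N - k) = k by omega]

theorem reind (Φ : ℕ → ℝ) (hΦ : ∀ b, 0 ≤ Φ b) {H H₂ c : ℕ} (h1 : H < c) (h2 : c ≤ H₂) :
    ∑ d ∈ Icc 1 H, Φ (c - d) ≤ ∑ b ∈ Icc 1 H₂, Φ b := by
  rw [← sum_image (s := Icc 1 H) (g := fun d => c - d) (f := Φ) (fun x hx y hy h => by
    have hx' := mem_Icc.1 (mem_coe.1 hx)
    have hy' := mem_Icc.1 (mem_coe.1 hy)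
    simp only at h
    omega)]
  refine sum_le_sum_of_subset_of_nonneg (fun b hb => ?_) fun _ _ _ => hΦ _
  obtain ⟨d, hd, rfl⟩ := mem_image.1 hb
  simp only [mem_Icc] at hd ⊢
  omega

end TII2

open TII2 in
theorem tii2 : ∀ F, Fam F → TIIFor F → TII2For F := by
  intro F hF hT K B hKB
  obtain ⟨C₀, C, N₀, h⟩ := hT K B hKB
  refine ⟨C₀ + (K + (4 * B + 4)), 8 * max C 0 + 32, max N₀ (Real.exp 4),
    fun s N A H Q β hN hQ1 hQ2 hA hH hHN => ?_⟩
  have hN4 : Real.exp 4 ≤ N := (le_max_right _ _).trans hN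
  have hN5 : (5 : ℝ) ≤ N := by linarith [Real.add_one_le_exp 4]
  have N0 : (0 : ℝ) < N := by linarith
  have N3 : 3 ≤ N := by
    have : (3 : ℝ) ≤ N := by linarith
    exact_mod_cast this
  have l4 : 4 ≤ Real.log N := (Real.le_log_iff_exp_le N0).2 hN4
  have pw : ∀ {m n : ℕ}, m ≤ n → Real.log N ^ m ≤ Real.log N ^ n := fun h =>
    pow_le_pow_right₀ (by linarith) h
  have l0 : 0 < Real.log N := by linarith
  have A1 : (1 : ℝ) ≤ A := (one_le_pow₀ (by linarith)).trans hA
  have nA : 1 ≤ A := by exact_mod_cast A1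
  have hA' : Real.log N ^ C₀ ≤ A := (pw (Nat.le_add_right _ _)).trans hA
  have hH' : A * Real.log N ^ C₀ ≤ H :=
    (mul_le_mul_of_nonneg_left (pw (Nat.le_add_right _ _)) (by linarith)).trans hH
  have AH : (A : ℝ) ≤ H :=
    (le_mul_of_one_le_right (by linarith) (one_le_pow₀ (by linarith))).trans hH'
  have nAH : A ≤ H := by exact_mod_cast AH
  have sub := hF.anti C₀ (C₀ + (K + (4 * B + 4))) N A (Nat.le_add_right _ _) N3
  have S0 : 0 ≤ ∑ n ∈ Ioc N (2 * N), ‖β n‖ ^ 2 := sum_nonneg fun _ _ => by positivity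
  have C0 : 0 ≤ max C 0 := le_max_right _ _
  have CC : C ≤ max C 0 := le_max_left _ _
  cases s with
  | false =>
    have m := h N A H Q β ((le_max_left _ _).trans hN) hQ1 hQ2 hA' hH' (by omega)
    simp only [sh_false]
    refine (sum_le_sum_of_subset_of_nonneg sub fun _ _ _ =>
      sum_nonneg fun _ _ => by positivity).trans (m.trans ?_)
    gcongr
    linarith
  | true =>
    simp only [sh_true]
    obtain ⟨k, hk⟩ : ∃ k, k = H / A + 1 := ⟨_, rfl⟩
    have k1 : H < A * k := by rw [hk]; exact Nat.lt_mul_div_succ H nA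
    have k2 : A * k ≤ 2 * H := by
      have := Nat.mul_div_le H A
      rw [hk, mul_add]
      omega
    have k3 : k ≤ N := by nlinarith
    have m := h N A (2 * (A * k)) Q (fun m => if N + k < m then β (m - k) else 0)
      ((le_max_left _ _).trans hN) hQ1 hQ2 hA'
      (hH'.trans (by exact_mod_cast (by omega : H ≤ 2 * (A * k)))) (by omega)
    have b2 : ∑ m ∈ Ioc N (2 * N), ‖if N + k < m then β (m - k) else 0‖ ^ 2 ≤
        ∑ n ∈ Ioc N (2 * N), ‖β n‖ ^ 2 := by
      refine le_trans (le_of_eq ?_) (sum_le_sum_of_subset_of_nonneg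
        (Ioc_subset_Ioc_right (show 2 * N - k ≤ 2 * N by omega)) fun _ _ _ => by positivity)
      rw [← shift (fun n => ‖β n‖ ^ 2) N k]
      refine sum_congr rfl fun m _ => ?_
      split_ifs <;> simp
    obtain ⟨S, hS⟩ : ∃ S, S = ∑ n ∈ Ioc N (2 * N), ‖β n‖ ^ 2 := ⟨_, rfl⟩
    have H2 : ((2 * (A * k) : ℕ) : ℝ) ≤ 4 * H := by exact_mod_cast (by omega : 2 * (A * k) ≤ 4 * H)
    replace m := m.trans (show _ ≤ max C 0 * A * (4 * H) * N / Real.log N ^ K * S by
      rw [hS]
      refine (mul_le_mul_of_nonneg_right (show _ ≤ max C 0 * A * (4 * H) * N / Real.log N ^ K by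
        gcongr) (sum_nonneg fun _ _ => by positivity)).trans ?_
      gcongr)
    have HN : (8 : ℝ) * H ≤ N := by exact_mod_cast hHN
    have kk : (k : ℝ) * Real.log N ^ (K + (4 * B + 4)) ≤ N := by
      have : (A : ℝ) * k ≤ 2 * H := by exact_mod_cast k2
      have h2 := (pw (Nat.le_add_left _ C₀)).trans hA
      have h3 := mul_le_mul_of_nonneg_left h2 (Nat.cast_nonneg (α := ℝ) k)
      linarith
    have tl : ∀ a ∈ F (C₀ + (K + (4 * B + 4))) N A, ∀ d ∈ Icc 1 H,
        ‖∑ n ∈ Ioc (2 * N - k) (2 * N), β n *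
          (((Λ (a * n + d) : ℝ) : ℂ) - lamS Q (a * n + d))‖ ^ 2 ≤
          16 * N / Real.log N ^ K * S := by
      intro a ha d hd
      have ha' := mem_Ioc.1 (hF.sub _ _ _ ha)
      have hd' := mem_Icc.1 hd
      refine (tail β (fun n => ((Λ (a * n + d) : ℝ) : ℂ) - lamS Q (a * n + d))
        (W := 4 * Real.log N ^ (2 * B + 2)) k3 fun n hn => ?_).trans ?_
      · have hn' := mem_Ioc.1 hn
        refine (norm_sub_le _ _).trans ?_
        have e1 : ‖((Λ (a * n + d) : ℝ) : ℂ)‖ ≤ 3 * Real.log N := by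
          rw [Complex.norm_real, Real.norm_of_nonneg ArithmeticFunction.vonMangoldt_nonneg]
          refine ArithmeticFunction.vonMangoldt_le_log.trans ?_
          have : a * n + d ≤ N ^ 3 := by
            have h1 : a * n ≤ N * (2 * N) := Nat.mul_le_mul (by omega) hn'.2
            have h2 : d ≤ N * N := le_trans (by omega) (Nat.le_mul_self N)
            calc a * n + d ≤ 3 * (N * N) := by linarith
              _ ≤ N * (N * N) := Nat.mul_le_mul_right _ N3
              _ = N ^ 3 := by ring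
          refine (Real.log_le_log (by exact_mod_cast (by omega : 0 < a * n + d))
            (show _ ≤ (N : ℝ) ^ 3 by exact_mod_cast this)).trans_eq ?_
          rw [Real.log_pow]
          norm_num
        have e2 : ‖lamS Q (a * n + d)‖ ≤ Real.log N ^ (2 * B + 2) :=
          (norm_lamS _ _).trans ((pow_le_pow_left₀ (Nat.cast_nonneg _) hQ2 2).trans_eq (by ring))
        have e3 : Real.log N ≤ Real.log N ^ (2 * B + 2) := by
          simpa using pw (show 1 ≤ 2 * B + 2 by omega)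
        linarith
      · rw [← hS] at S0 ⊢
        refine mul_le_mul_of_nonneg_right ?_ S0
        rw [le_div_iff₀ (by positivity)]
        calc _ = 16 * ((k : ℝ) * Real.log N ^ (K + (4 * B + 4))) := by ring
          _ ≤ _ := by linarith
    rw [← hS] at S0 ⊢
    have card : ((F (C₀ + (K + (4 * B + 4))) N A).card : ℝ) ≤ A := by
      have := card_le_card (hF.sub (C₀ + (K + (4 * B + 4))) N A)
      rw [Nat.card_Ioc] at this
      exact_mod_cast (by omega : _ ≤ A)
    calc _ ≤ ∑ a ∈ F (C₀ + (K + (4 * B + 4))) N A, (2 * ∑ b ∈ Icc 1 (2 * (A * k)),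
          ‖∑ m ∈ Ioc N (2 * N), (if N + k < m then β (m - k) else 0) *
            (((Λ (a * m - b) : ℝ) : ℂ) - lamS Q (a * m - b))‖ ^ 2 +
          2 * (H * (16 * N / Real.log N ^ K * S))) := by
          refine sum_le_sum fun a ha => ?_
          have ha' := mem_Ioc.1 (hF.sub _ _ _ ha)
          have c1 : A * k ≤ a * k := Nat.mul_le_mul_right _ ha'.1.le
          have c2 : a * k ≤ 2 * (A * k) := by
            rw [← mul_assoc]; exact Nat.mul_le_mul_right _ ha'.2
          refine le_trans (sum_le_sum fun d hd => ?_) (le_trans (le_of_eq sum_add_distrib)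
            (add_le_add ((mul_sum _ _ _).ge.trans (mul_le_mul_of_nonneg_left
              (reind _ (fun _ => by positivity) (c := a * k) (H := H) (by omega) c2) zero_le_two))
              (le_of_eq (by rw [sum_const, Nat.card_Icc]; simp; ring :
                ∑ _d ∈ Icc 1 H, 2 * (16 * N / Real.log N ^ K * S) = _))))
          rw [ident β (fun y => ((Λ y : ℝ) : ℂ) - lamS Q y) k3
            (show d ≤ a * k by have := (mem_Icc.1 hd).2; omega)]
          exact (sq_add _ _).trans (add_le_add le_rfl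
            (mul_le_mul_of_nonneg_left (tl a ha d hd) zero_le_two))
      _ ≤ 2 * (max C 0 * A * (4 * H) * N / Real.log N ^ K * S) +
          A * (2 * (H * (16 * N / Real.log N ^ K * S))) := by
          rw [sum_add_distrib, ← mul_sum, sum_const, nsmul_eq_mul]
          refine add_le_add (mul_le_mul_of_nonneg_left ((sum_le_sum_of_subset_of_nonneg sub
            fun _ _ _ => sum_nonneg fun _ _ => by positivity).trans m) zero_le_two) ?_
          gcongr
      _ = _ := by ring

end Pool.Agent.MP_39a890_nt.MS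

end
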