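import Pool.Agent.MP_39a890_nt.ms.Spec

/-! The additive window is replaced by a multiplicative one. -/

set_option autoImplicit false

noncomputable section

namespace Pool.Agent.MP_39a890_nt.MS

open MeasureTheory Finset
open Pool.Agent.MP_db1c88_nt.z94 (ei blk DP wide wt mem_wide)
open Pool.Agent.MP_678834_nt Pool.Agent.MP_678834_nt.HL9

namespace AM

theorem zl {x : ℝ} (h : x ≤ -1) : w1 x = 0 := bump_w1.2 x fun hx => absurd hx.1 (not_lt.2 h)

theorem zr {x : ℝ} (h : 3 ≤ x) : w1 x = 0 := bump_w1.2 x fun hx => absurd hx.2 (not_lt.2 h)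

theorem lg1 {y m : ℝ} (hm : 0 < m) (hy : 0 < y) : (y - m) / y ≤ Real.log y - Real.log m := by
  have := Real.log_le_sub_one_of_pos (div_pos hm hy)
  rw [Real.log_div hm.ne' hy.ne'] at this
  have e : (y - m) / y = 1 - m / y := by field_simp
  linarith

theorem lg2 {y m : ℝ} (hm : 0 < m) (hy : 0 < y) : Real.log y - Real.log m ≤ (y - m) / m := by
  have := Real.log_le_sub_one_of_pos (div_pos hy hm)
  rw [Real.log_div hy.ne' hm.ne'] at this
  have e : (y - m) / m = y / m - 1 := by field_simp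
  linarith

/-- the two arguments are close -/
theorem close {X X' δ H y m : ℝ} (hH : 0 < H) (hX : 20 * H ≤ X) (hy : X ≤ y) (h1 : X' ≤ y)
    (h2 : y ≤ X' * (1 + δ)) (hδ : 0 ≤ δ) (hm : m ≤ y) (hm' : y - 10 * H ≤ m) :
    |(y - m) - X' * (Real.log y - Real.log m)| ≤ 200 * H * (δ + H / X) := by
  have hX0 : 0 < X := by linarith
  have hy0 : 0 < y := by linarith
  have hm0 : X / 2 ≤ m := by linarith
  have hm1 : 0 < m := by linarith
  have hX' : 0 < X' := by
    by_contra h
    have := mul_nonpos_of_nonpos_of_nonneg (not_lt.1 h) (by linarith : 0 ≤ 1 + δ)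
    linarith
  have a1 := lg1 hm1 hy0
  have a2 := lg2 hm1 hy0
  set l := Real.log y - Real.log m
  set d := y - m with hd
  have d0 : 0 ≤ d := by linarith
  have d1 : d ≤ 10 * H := by linarith
  have l0 : 0 ≤ l := le_trans (by positivity) a1
  have hq : 0 ≤ H / X := by positivity
  rw [abs_le]
  constructor
  · have b1 : X' * l ≤ y * (d / m) := mul_le_mul h1 a2 l0 hy0.le
    have b2 : y * (d / m) = d + d * (d / m) := by rw [hd]; field_simp; ring
    have b3 : d / m ≤ 20 * (H / X) := by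
      rw [div_le_iff₀ hm1]
      have : 20 * (H / X) * (X / 2) = 10 * H := by field_simp; ring
      nlinarith [mul_le_mul_of_nonneg_left hm0 (by positivity : 0 ≤ 20 * (H / X))]
    have b4 : d * (d / m) ≤ 10 * H * (20 * (H / X)) :=
      mul_le_mul d1 b3 (by positivity) (by positivity)
    nlinarith [mul_nonneg hH.le hδ]
  · have b1 : d ≤ y * l := by rwa [div_le_iff₀' hy0] at a1
    have b2 : y * l ≤ X' * (1 + δ) * l := mul_le_mul_of_nonneg_right h2 l0
    by_cases h : X' * l ≤ d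
    · have b3 : δ * (X' * l) ≤ δ * (10 * H) := mul_le_mul_of_nonneg_left (h.trans d1) hδ
      nlinarith [mul_nonneg hH.le hδ, mul_nonneg hH.le hq]
    · nlinarith [mul_nonneg hH.le hδ, mul_nonneg hH.le hq]

/-- the pointwise estimate -/
theorem pt {C X X' δ : ℝ} {L H y b m : ℕ} (hC : ∀ x y : ℝ, |w1 x - w1 y| ≤ C * |x - y|)
    (hC0 : 0 ≤ C) (hL : 1 ≤ L) (hLH : L ≤ H) (hb : b ≤ H) (hX : 20 * (H : ℝ) ≤ X) (hy : X ≤ y)
    (h1 : X' ≤ y) (h2 : (y : ℝ) ≤ X' * (1 + δ)) (hδ : 0 ≤ δ) (hδ1 : δ ≤ 1) (hm : 1 ≤ m) :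
    |w1 (((y : ℝ) - m) / L - ((b : ℝ) / L + 1)) -
      w1 (X' / L * (Real.log y - Real.log m) - ((b : ℝ) / L + 1))| ≤
      if m ∈ Ico (y - 10 * H) y then C * (200 * H * (δ + H / X) / L) else 0 := by
  have hL0 : (0 : ℝ) < L := by exact_mod_cast hL
  have hLH' : (L : ℝ) ≤ H := by exact_mod_cast hLH
  have hb' : (b : ℝ) ≤ H := by exact_mod_cast hb
  have hm0 : (0 : ℝ) < m := by exact_mod_cast hm
  have hy0 : (0 : ℝ) < y := by linarith
  have hX' : (y : ℝ) ≤ 2 * X' := by
    by_contra h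
    have h3 : 0 < X' := by
      by_contra h'
      have := mul_nonpos_of_nonpos_of_nonneg (not_lt.1 h') (by linarith : 0 ≤ 1 + δ)
      linarith
    nlinarith
  have hbL : 0 ≤ (b : ℝ) / L := by positivity
  have e2 : X' / L * (Real.log y - Real.log m) = X' * (Real.log y - Real.log m) / L := by ring
  split_ifs with h
  · obtain ⟨h3, h4⟩ := mem_Ico.1 h
    have h5 : (m : ℝ) ≤ y := by exact_mod_cast h4.le
    have h6 : (y : ℝ) - 10 * H ≤ m := by
      have : y ≤ m + 10 * H := by omega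
      have : (y : ℝ) ≤ m + 10 * H := by exact_mod_cast this
      linarith
    refine (hC _ _).trans (mul_le_mul_of_nonneg_left ?_ hC0)
    rw [sub_sub_sub_cancel_right, e2, ← sub_div, abs_div, abs_of_pos hL0]
    exact div_le_div_of_nonneg_right (close (by linarith) hX hy h1 h2 hδ h5 h6) hL0.le
  · rw [mem_Ico, not_and_or, not_le, not_lt] at h
    rcases h with h | h
    · have h3 : (m : ℝ) + 10 * H ≤ y := by
        have : m + 10 * H ≤ y := by omega
        exact_mod_cast this
      have k : ∀ a : ℝ, 5 * H ≤ a → w1 (a / L - ((b : ℝ) / L + 1)) = 0 := fun a ha => by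
        refine zr ?_
        have : (4 : ℝ) ≤ (a - b) / L := by rw [le_div_iff₀ hL0]; linarith
        rw [sub_div] at this
        linarith
      have a1 := lg1 hm0 hy0
      rw [div_le_iff₀' hy0] at a1
      have l0 : 0 ≤ Real.log y - Real.log m :=
        sub_nonneg.2 (Real.log_le_log hm0 (by linarith))
      rw [e2, k _ (by linarith), k _ (by nlinarith [mul_le_mul_of_nonneg_right hX' l0])]
      simp
    · have h3 : (y : ℝ) ≤ m := by exact_mod_cast h
      have k : ∀ a : ℝ, a ≤ 0 → w1 (a / L - ((b : ℝ) / L + 1)) = 0 := fun a ha => by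
        refine zl ?_
        have := div_nonpos_of_nonpos_of_nonneg ha hL0.le
        linarith
      have l0 : Real.log y - Real.log m ≤ 0 := sub_nonpos.2 (Real.log_le_log hy0 h3)
      rw [e2, k _ (by linarith), k _ (mul_nonpos_of_nonneg_of_nonpos (by linarith) l0)]
      simp

/-- the first sum as a sum over the wide block -/
theorem fst (ψ : ℕ → ℂ) {X : ℝ} {L y b : ℕ} (hL : 1 ≤ L) (hX : 0 < X)
    (hy : X + b + 4 * L ≤ y) (hy4 : (y : ℝ) ≤ 4 * X) :
    ∑ j ∈ range (4 * L), (kn L j : ℂ) * ψ (y - b - j) =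
      (1 / zz L : ℝ) * ∑ m ∈ wide X 4, ψ m * (wt X 4 m : ℝ) *
        (w1 (((y : ℝ) - m) / L - ((b : ℝ) / L + 1)) : ℝ) := by
  have hL0 : (0 : ℝ) < L := by exact_mod_cast hL
  have hn : b + 4 * L ≤ y := by
    have : (b : ℝ) + 4 * L ≤ y := by linarith
    exact_mod_cast this
  have hc : ∀ j ∈ range (4 * L), ((y - b - j : ℕ) : ℝ) = y - b - j := fun j hj => by
    have := mem_range.1 hj
    rw [Nat.cast_sub (by omega), Nat.cast_sub (by omega)]
  have hr : ∀ j ∈ range (4 * L), X ≤ (y : ℝ) - b - j ∧ (y : ℝ) - b - j ≤ 4 * X := fun j hj => by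
    have h1 : (j : ℝ) ≤ 4 * L := by exact_mod_cast (mem_range.1 hj).le
    have h2 : (0 : ℝ) ≤ j := by positivity
    have h3 : (0 : ℝ) ≤ b := by positivity
    constructor <;> linarith
  rw [← sum_subset (s₁ := (range (4 * L)).image fun j => y - b - j) (s₂ := wide X 4), sum_image,
    mul_sum]
  · refine sum_congr rfl fun j hj => ?_
    have e : ((y : ℝ) - (y - b - j)) / L - ((b : ℝ) / L + 1) = j / L - 1 := by ring
    rw [wt_eq, hc j hj, w1_eq_one hX (hr j hj).1 (hr j hj).2, e, kn]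
    push_cast
    ring
  · intro i hi j hj h
    have h1 := mem_range.1 (mem_coe.1 hi)
    have h2 := mem_range.1 (mem_coe.1 hj)
    simp only at h
    omega
  · intro m hm
    obtain ⟨j, hj, rfl⟩ := mem_image.1 hm
    have h1 := mem_range.1 hj
    refine (mem_wide hX.le (by norm_num)).2 ⟨by omega, ?_⟩
    rw [hc j hj]
    linarith [(hr j hj).2]
  · intro m _ hm
    have : w1 (((y : ℝ) - m) / L - ((b : ℝ) / L + 1)) = 0 := by
      refine bump_w1.2 _ fun hx => hm ?_
      have e : ((y : ℝ) - m) / L - ((b : ℝ) / L + 1) = (y - m - b) / L - 1 := by ring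
      rw [e] at hx
      have h1 : (0 : ℝ) < (y - m - b) / L := by linarith [hx.1]
      have h2 : ((y : ℝ) - m - b) / L < 4 := by linarith [hx.2]
      rw [lt_div_iff₀ hL0] at h1
      rw [div_lt_iff₀ hL0] at h2
      have h3 : m + b < y := by
        have : (m : ℝ) + b < y := by linarith
        exact_mod_cast this
      have h4 : y < m + b + 4 * L := by
        have : (y : ℝ) < m + b + 4 * L := by linarith
        exact_mod_cast this
      exact mem_image.2 ⟨y - b - m, mem_range.2 (by omega), by omega⟩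
    rw [this]
    simp

end AM

theorem am (ker : KERStmt) : AMStmt := by
  obtain ⟨C, hC1, hC, hk⟩ := ker
  refine ⟨2000 * C, by linarith, fun ψ X X' Λ₀ δ L H y b hL hLH hb hX hψ hy hy4 h1 h2 hδ hδ1 => ?_⟩
  have hL0 : (1 : ℝ) ≤ L := by exact_mod_cast hL
  have hLH' : (L : ℝ) ≤ H := by exact_mod_cast hLH
  have hX0 : 0 < X := by linarith
  have hb0 : (0 : ℝ) ≤ b := by positivity
  have hΛ : 0 ≤ Λ₀ := (norm_nonneg _).trans (hψ 1 ((mem_wide hX0.le (by norm_num)).2
    ⟨le_rfl, by push_cast; linarith⟩))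
  have hz := (hk L hL).1
  set K := C * (200 * H * (δ + H / X) / L) with hK
  have hK0 : 0 ≤ K := by positivity
  rw [AM.fst ψ hL hX0 hy hy4, ← mul_sub, ← sum_sub_distrib, norm_mul, Complex.norm_real,
    Real.norm_of_nonneg (by apply div_nonneg <;> linarith)]
  have h3 : ∀ m ∈ wide X 4, ‖ψ m * (wt X 4 m : ℝ) *
      (w1 (((y : ℝ) - m) / L - ((b : ℝ) / L + 1)) : ℝ) - ψ m * (wt X 4 m : ℝ) *
      (w1 (X' / L * (Real.log y - Real.log m) - ((b : ℝ) / L + 1)) : ℝ)‖ ≤
      if m ∈ Ico (y - 10 * H) y then Λ₀ * K else 0 := fun m hm => by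
    have := AM.pt hC (by linarith) hL hLH hb hX (by linarith) h1 h2 hδ hδ1
      ((mem_wide hX0.le (by norm_num)).1 hm).1
    rw [← mul_sub, ← Complex.ofReal_sub, norm_mul, norm_mul, Complex.norm_real, Complex.norm_real,
      wt_eq, Real.norm_of_nonneg (w1_nonneg _), Real.norm_eq_abs]
    have h4 : ‖ψ m‖ * w1 (Real.log m - Real.log X) ≤ Λ₀ :=
      (mul_le_of_le_one_right (norm_nonneg _) (w1_le_one _)).trans (hψ m hm)
    refine (mul_le_mul h4 this (abs_nonneg _) hΛ).trans (le_of_eq ?_)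
    split_ifs <;> simp [hK]
  have h4 : ∑ m ∈ wide X 4, (if m ∈ Ico (y - 10 * H) y then Λ₀ * K else 0) ≤
      10 * H * (Λ₀ * K) := by
    rw [← sum_filter, sum_const, nsmul_eq_mul]
    refine mul_le_mul_of_nonneg_right ?_ (by positivity)
    have : ((wide X 4).filter fun m => m ∈ Ico (y - 10 * H) y).card ≤ 10 * H := by
      refine (card_le_card fun m hm => (mem_filter.1 hm).2).trans ?_
      rw [Nat.card_Ico]
      omega
    exact_mod_cast this
  have h5 : 1 / zz L ≤ 1 / (L : ℝ) := one_div_le_one_div_of_le (by linarith) hz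
  refine (mul_le_mul h5 ((norm_sum_le_of_le _ h3).trans h4) (norm_nonneg _)
    (by positivity)).trans (le_of_eq ?_)
  rw [hK]
  field_simp
  ring

end Pool.Agent.MP_39a890_nt.MS
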