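import Pool.Agent.MP_39a890_nt.ms.Spec

/-! The mean square of the dilated exponential sums on an arc around a rational number. -/

set_option autoImplicit false

noncomputable section

namespace Pool.Agent.MP_39a890_nt.MS

open MeasureTheory Finset
open Pool.Agent.MP_3d0d30_nt.Six (E)
open Pool.Agent.MP_3d0d30_nt Pool.Agent.MP_678834_nt Pool.Agent.MP_678834_nt.HL9

namespace ARC

variable {g : ℝ → ℝ} {q : ℕ}

/-- the integral over one cell -/
def K (g : ℝ → ℝ) (q : ℕ) (m : ℤ) : ℝ := ∫ θ in ((m : ℝ) / q)..(((m : ℝ) + 1) / q), g θ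

theorem adj (hg : Continuous g) (t : ℤ) (n : ℕ) :
    ∑ i ∈ range n, K g q (t + i) = ∫ θ in ((t : ℝ) / q)..(((t : ℝ) + n) / q), g θ := by
  induction n with
  | zero => simp
  | succ n ih =>
    rw [sum_range_succ, ih, K]
    push_cast
    rw [intervalIntegral.integral_add_adjacent_intervals (hg.intervalIntegrable _ _)
      (hg.intervalIntegrable _ _), add_assoc]

theorem K_nonneg (h0 : ∀ x, 0 ≤ g x) (m : ℤ) : 0 ≤ K g q m :=
  intervalIntegral.integral_nonneg
    (div_le_div_of_nonneg_right (by linarith) (Nat.cast_nonneg _)) fun x _ => h0 x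

theorem K_per (hp : ∀ (x : ℝ) (k : ℤ), g (x + k) = g x) (hq : 1 ≤ q) (m : ℤ) :
    K g q (m % q) = K g q m := by
  have q0 : (q : ℝ) ≠ 0 := by positivity
  have e : (m : ℝ) = (m % q : ℤ) + q * (m / q : ℤ) := by
    exact_mod_cast (Int.emod_add_mul_ediv m q).symm
  have e1 : (m : ℝ) / q = ((m % q : ℤ) : ℝ) / q + (m / q : ℤ) := by
    rw [e]
    field_simp
  have e2 : ((m : ℝ) + 1) / q = (((m % q : ℤ) : ℝ) + 1) / q + (m / q : ℤ) := by
    rw [add_div, add_div, e1]
    ring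
  rw [K, K, e1, e2, ← intervalIntegral.integral_comp_add_right]
  simp only [hp]

theorem fib (hq : 1 ≤ q) {r : ℤ} (hr : r.natAbs.Coprime q) (A : ℕ) (s : ℤ) (c : ℕ) :
    ((Ioc A (2 * A)).filter fun a : ℕ => ((a * r + s) % q).toNat = c).card ≤ A / q + 1 := by
  have q0 : (q : ℤ) ≠ 0 := by omega
  rw [← card_range (A / q + 1)]
  refine card_le_card_of_injOn (fun a => (a - A) / q) (fun a ha => ?_) fun a ha b hb e => ?_
  · have := mem_Ioc.1 (mem_filter.1 (mem_coe.1 ha)).1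
    exact mem_coe.2 (mem_range.2 (Nat.lt_succ_of_le (Nat.div_le_div_right (by omega))))
  · obtain ⟨a1, a2⟩ := mem_filter.1 (mem_coe.1 ha)
    obtain ⟨b1, b2⟩ := mem_filter.1 (mem_coe.1 hb)
    rw [mem_Ioc] at a1 b1
    have n1 := Int.emod_nonneg (a * r + s) q0
    have n2 := Int.emod_nonneg (b * r + s) q0
    have e1 : (a * r + s) % (q : ℤ) = (b * r + s) % q := by omega
    have d1 : (q : ℤ) ∣ ((b : ℤ) - a) * r := by
      have d := Int.ModEq.dvd e1
      rwa [show b * r + s - (a * r + s) = ((b : ℤ) - a) * r by ring] at d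
    have co : IsCoprime (q : ℤ) r := by
      rw [Int.isCoprime_iff_gcd_eq_one, Int.gcd, Int.natAbs_natCast]
      exact hr.symm
    have d2 := co.dvd_of_dvd_mul_right d1
    have m1 : (a - A) % q = (b - A) % q := by
      refine (Nat.modEq_iff_dvd (n := q)).2 ?_
      rwa [Nat.cast_sub b1.1.le, Nat.cast_sub a1.1.le, sub_sub_sub_cancel_right]
    have k1 := Nat.div_add_mod (a - A) q
    have k2 := Nat.div_add_mod (b - A) q
    have e' : (a - A) / q = (b - A) / q := e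
    rw [e', m1] at k1
    omega

theorem hit (hg : Continuous g) (h0 : ∀ x, 0 ≤ g x) (hp : ∀ (x : ℝ) (k : ℤ), g (x + k) = g x)
    (hq : 1 ≤ q) {r : ℤ} (hr : r.natAbs.Coprime q) (A : ℕ) (s : ℤ) :
    ∑ a ∈ Ioc A (2 * A), K g q (a * r + s) ≤ ((A : ℝ) / q + 1) * ∫ θ in (0 : ℝ)..1, g θ := by
  have q0 : (q : ℤ) ≠ 0 := by omega
  have q1 : (q : ℝ) ≠ 0 := by positivity
  have e := adj (q := q) hg 0 q
  simp only [zero_add, Int.cast_zero, zero_div, div_self q1] at e
  rw [← e, mul_sum, ← sum_fiberwise_of_maps_to (t := range q)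
    (g := fun a : ℕ => ((a * r + s) % q).toNat) fun a _ => mem_range.2 (by
      have := Int.emod_lt_of_pos (a * r + s) (show (0 : ℤ) < q by omega)
      omega)]
  refine sum_le_sum fun c _ => ?_
  rw [sum_congr rfl (g := fun _ => K g q c) fun a ha => by
    rw [← (mem_filter.1 ha).2, Int.toNat_of_nonneg (Int.emod_nonneg _ q0), K_per hp hq],
    sum_const, nsmul_eq_mul]
  refine mul_le_mul_of_nonneg_right ?_ (K_nonneg h0 _)
  have f1 : _ ≤ ((A / q + 1 : ℕ) : ℝ) := Nat.cast_le.2 (fib hq hr A s c)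
  have f2 : ((A / q : ℕ) : ℝ) ≤ (A : ℝ) / q := Nat.cast_div_le
  push_cast at f1
  linarith

theorem main (hg : Continuous g) (h0 : ∀ x, 0 ≤ g x) (hp : ∀ (x : ℝ) (k : ℤ), g (x + k) = g x)
    (hq : 1 ≤ q) {r : ℤ} (hr : r.natAbs.Coprime q) {A : ℕ} (hA : 1 ≤ A) {x y γ : ℝ} (hxy : x ≤ y)
    (hx : r / q - γ ≤ x) (hy : y ≤ r / q + γ) :
    ∫ θ in x..y, ∑ a ∈ Ioc A (2 * A), g (a * θ) ≤
      4 * (1 / q + 1 / A) * (A * γ * q + 1) * ∫ θ in (0 : ℝ)..1, g θ := by
  have q1 : (0 : ℝ) < q := by positivity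
  have A1 : (0 : ℝ) < A := by positivity
  have hγ : 0 ≤ γ := by linarith
  have hP : 0 ≤ ∫ θ in (0 : ℝ)..1, g θ :=
    intervalIntegral.integral_nonneg zero_le_one fun x _ => h0 x
  obtain ⟨J, J1, J2⟩ : ∃ J : ℕ, 2 * A * γ * q ≤ J ∧ (J : ℝ) ≤ 2 * A * γ * q + 1 :=
    ⟨_, Nat.le_ceil _, (Nat.ceil_lt_add_one (by positivity)).le⟩
  have J3 : 2 * A * γ ≤ J / q := (le_div_iff₀ q1).2 J1
  have s1 : ∀ a ∈ Ioc A (2 * A), ∫ θ in x..y, g (a * θ) ≤
      (A : ℝ)⁻¹ * ∑ i ∈ range (2 * J), K g q (a * r - J + i) := by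
    intro a ha
    rw [mem_Ioc] at ha
    have a1 : (A : ℝ) ≤ a := by exact_mod_cast ha.1.le
    have a2 : (a : ℝ) ≤ 2 * A := by exact_mod_cast ha.2
    have a0 : (0 : ℝ) < a := by linarith
    have a3 : a * γ ≤ 2 * A * γ := mul_le_mul_of_nonneg_right a2 hγ
    have b1 := mul_le_mul_of_nonneg_left hx a0.le
    have b2 := mul_le_mul_of_nonneg_left hy a0.le
    have b3 := mul_le_mul_of_nonneg_left hxy a0.le
    rw [intervalIntegral.integral_comp_mul_left _ a0.ne', adj hg, smul_eq_mul]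
    refine mul_le_mul (inv_anti₀ A1 a1) ?_
      (intervalIntegral.integral_nonneg b3 fun x _ => h0 x) (by positivity)
    refine intervalIntegral.integral_mono_interval ?_ b3 ?_ (Filter.Eventually.of_forall h0)
      (hg.intervalIntegrable _ _)
    · push_cast
      rw [show ((a : ℝ) * r - J) / q = a * (r / q) - J / q by ring]
      linarith
    · push_cast
      rw [show ((a : ℝ) * r - J + 2 * J) / q = a * (r / q) + J / q by ring]
      linarith
  rw [intervalIntegral.integral_finsetSum (f := fun (a : ℕ) (θ : ℝ) => g (a * θ)) fun a _ =>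
    Continuous.intervalIntegrable (by fun_prop) _ _]
  refine (sum_le_sum s1).trans ?_
  rw [← mul_sum, sum_comm]
  have s2 : ∑ i ∈ range (2 * J), ∑ a ∈ Ioc A (2 * A), K g q (a * r - J + i) ≤
      (2 * J : ℝ) * (((A : ℝ) / q + 1) * ∫ θ in (0 : ℝ)..1, g θ) := by
    refine (sum_le_card_nsmul _ _ _ fun i _ => ?_).trans_eq
      (by rw [card_range, nsmul_eq_mul, Nat.cast_mul, Nat.cast_ofNat])
    have := hit hg h0 hp hq hr A (i - J)
    simp only [show ∀ a : ℕ, a * r + ((i : ℤ) - J) = a * r - J + i from fun a => by ring] at this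
    exact this
  refine (mul_le_mul_of_nonneg_left s2 (by positivity)).trans ?_
  rw [show (A : ℝ)⁻¹ * ((2 * J : ℝ) * (((A : ℝ) / q + 1) * ∫ θ in (0 : ℝ)..1, g θ)) =
    (2 * J) * ((1 / q + 1 / A) * ∫ θ in (0 : ℝ)..1, g θ) by field_simp,
    show 4 * (1 / q + 1 / A : ℝ) * (A * γ * q + 1) * ∫ θ in (0 : ℝ)..1, g θ =
    (4 * (A * γ * q + 1)) * ((1 / q + 1 / A) * ∫ θ in (0 : ℝ)..1, g θ) by ring]
  exact mul_le_mul_of_nonneg_right (by linarith) (by positivity)

end ARC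

theorem arc : ARCStmt := by
  refine ⟨4, by norm_num, fun S β A q r x y γ hA hq hr hxy hx hy => ?_⟩
  have e : ∀ (a : ℕ) (θ : ℝ), SA S β a θ = Win.TP S β (fun n => -(n : ℤ)) (a * θ) := by
    intro a θ
    refine sum_congr rfl fun n _ => ?_
    congr 2
    push_cast
    ring
  simp only [e]
  rw [← Win.parseval S β (fun n => -(n : ℤ)) fun i _ j _ h => by omega]
  refine ARC.main (g := fun θ => ‖Win.TP S β (fun n => -(n : ℤ)) θ‖ ^ 2) (by fun_prop)
    (fun _ => by positivity) (fun θ k => ?_) hq hr hA hxy hx hy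
  congr 2
  refine sum_congr rfl fun n _ => ?_
  rw [mul_add, Six.E_add, ← Int.cast_mul, E_int, mul_one]

end Pool.Agent.MP_39a890_nt.MS
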