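import Pool.Agent.MP_39a890_nt.ms.Spec
import Pool.Agent.MP_39a890_nt.h21.SG2

/-! From von Mangoldt weights to the number of prime pairs `q`, `a q - b`. -/

set_option autoImplicit false

noncomputable section

namespace Pool.Agent.MP_39a890_nt.MS

open Finset Filter
open scoped ArithmeticFunction.vonMangoldt
open Pool.Agent.MP_678834_nt Pool.Agent.MP_678834_nt.HL9
open Pool.Agent.MP_678834_nt.HL9.Final (np np_nonneg)

namespace CNT

theorem point {L M : ℝ} {n m : ℕ} (hL : 1 ≤ L) (h1 : L ≤ M) (h2 : M ≤ 2 * L)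
    (b1 : |L - Real.log n| ≤ 1) (b2 : |M - Real.log m| ≤ 1) :
    |L * M * (if n.Prime ∧ m.Prime then 1 else 0) - Λ n * Λ m| ≤
      3 * M * (if n.Prime ∧ m.Prime then 1 else 0) + 3 * L * (np n + np m) := by
  have b4 : 0 ≤ Real.log n := Real.log_natCast_nonneg n
  have p1 := np_nonneg n
  have p2 := np_nonneg m
  have m1 : 0 ≤ Λ n := ArithmeticFunction.vonMangoldt_nonneg
  have m2 : 0 ≤ Λ m := ArithmeticFunction.vonMangoldt_nonneg
  have b3 : Real.log n ≤ 2 * L := by linarith [(abs_le.1 b1).1]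
  have m3 : Λ n ≤ 3 * L := ArithmeticFunction.vonMangoldt_le_log.trans (by linarith)
  have m4 : Λ m ≤ 3 * L :=
    ArithmeticFunction.vonMangoldt_le_log.trans (by linarith [(abs_le.1 b2).1])
  have l0 : 0 ≤ 3 * L := by linarith
  by_cases hp : n.Prime ∧ m.Prime
  · rw [if_pos hp, ArithmeticFunction.vonMangoldt_apply_prime hp.1,
      ArithmeticFunction.vonMangoldt_apply_prime hp.2,
      show L * M * 1 - Real.log n * Real.log m =
        (L - Real.log n) * M + Real.log n * (M - Real.log m) by ring]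
    refine ((abs_add_le _ _).trans ?_).trans (le_add_of_nonneg_right (by positivity))
    rw [abs_mul, abs_mul, abs_of_nonneg b4, abs_of_nonneg (show 0 ≤ M by linarith)]
    calc _ ≤ 1 * M + 2 * L * 1 := by gcongr; linarith
      _ ≤ _ := by linarith
  · rw [if_neg hp, mul_zero, mul_zero, zero_add, zero_sub, abs_neg,
      abs_of_nonneg (by positivity)]
    rcases not_and_or.1 hp with h | h
    · have : np n = Λ n := if_neg h
      rw [this]
      linarith [mul_le_mul_of_nonneg_left m4 m1, mul_nonneg l0 p2]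
    · have : np m = Λ m := if_neg h
      rw [this]
      linarith [mul_le_mul_of_nonneg_right m3 m2, mul_nonneg l0 p1]

end CNT

theorem cnt : CNTStmt := by
  obtain ⟨c, hc, hs⟩ := Tp.sing_lower
  obtain ⟨N₀, hN₀⟩ := eventually_atTop.1 ((ev_log 8).and (eventually_ge_atTop (4 : ℝ)))
  refine ⟨(4 + 5 * (75 / c)) * 2, N₀, fun N a b hN ha haN hb hbN he h => ?_⟩
  obtain ⟨l1, l2⟩ := hN₀ N hN
  set L := Real.log N with hL
  set M := Real.log (a * N) with hM
  have N0 : (0 : ℝ) < N := by linarith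
  have N1 : 1 ≤ N := by exact_mod_cast (by linarith : (1 : ℝ) ≤ N)
  have L0 : 0 < L := by linarith
  have L1 : 1 ≤ L := by linarith
  have a2 : (2 : ℝ) ≤ a := by exact_mod_cast ha
  have aN : (a : ℝ) ≤ N := haN.trans (div_le_self N0.le (one_le_pow₀ L1))
  have M1 : L ≤ M := Real.log_le_log N0 (by nlinarith)
  have M2 : M ≤ 2 * L := by
    rw [hM, Real.log_mul (by linarith) N0.ne']
    linarith [Real.log_le_log (by linarith) aN]
  have s1 := hs (a * b) (by positivity) he
  have s0 : 0 < sing (a * b) := hc.trans_le s1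
  have k1 : ∀ n ∈ Ioc N (2 * N), a * N ≤ 2 * (a * n - b) ∧ a * n ≤ 2 * (a * N) ∧ b < a * n :=
    fun n hn => by
      obtain ⟨n1, n2⟩ := mem_Ioc.1 hn
      have e1 := Nat.mul_le_mul_left a n1.le
      have e2 := Nat.mul_le_mul_left a n2
      have e3 := Nat.mul_le_mul_right N ha
      rw [mul_left_comm] at e2
      omega
  have k2 : N ≤ a * N := Nat.le_mul_of_pos_left N (by omega)
  have w := (abs_sum_le_sum_abs _ _).trans (sum_le_sum fun n (hn : n ∈ Ioc N (2 * N)) =>
    CNT.point (n := n) (m := a * n - b) L1 M1 M2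
      (SG.log_near N0 (by exact_mod_cast (by have := mem_Ioc.1 hn; omega))
        (by exact_mod_cast (mem_Ioc.1 hn).2))
      (SG.log_near (by positivity) (by exact_mod_cast (k1 n hn).1)
        (by exact_mod_cast (by have := k1 n hn; omega))))
  rw [sum_sub_distrib, sum_add_distrib, ← mul_sum, ← mul_sum, ← mul_sum, sum_add_distrib,
    sum_boole] at w
  have p1 := SG.sum_np_le (Ioc N (2 * N)) (fun n => n) (2 * (a * N)) (by omega) (fun _ _ _ _ e => e)
    fun n hn => by have := mem_Ioc.1 hn; exact mem_Ioc.2 ⟨by omega, by omega⟩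
  have p2 := SG.sum_np_le (Ioc N (2 * N)) (fun n => a * n - b) (2 * (a * N)) (by omega)
    (fun x hx y hy e => Nat.eq_of_mul_eq_mul_left (show 0 < a by omega) (by
      have := k1 x hx
      have := k1 y hy
      omega))
    fun n hn => by have := k1 n hn; exact mem_Ioc.2 ⟨by omega, by omega⟩
  have q1 : Real.sqrt (2 * (a * N) : ℕ) ≤ 2 * (N / L ^ 5) := by
    rw [Real.sqrt_le_iff]
    push_cast
    refine ⟨by positivity, ?_⟩
    calc _ ≤ 4 * (N / L ^ 10 * N) := by gcongr; norm_num
      _ = _ := by field_simp; norm_num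
  have q2 : Real.log (2 * (a * N) : ℕ) ≤ 3 * L := by
    push_cast
    rw [Real.log_mul two_ne_zero (by positivity)]
    linarith [Real.log_two_lt_d9]
  have q3 : 2 * Real.sqrt (2 * (a * N) : ℕ) * Real.log (2 * (a * N) : ℕ) ≤
      2 * (2 * (N / L ^ 5)) * (3 * L) :=
    mul_le_mul (by linarith) q2 (Real.log_natCast_nonneg _) (by positivity)
  have q4 : 3 * L * (∑ n ∈ Ioc N (2 * N), np n + ∑ n ∈ Ioc N (2 * N), np (a * n - b)) ≤
      72 * (N / L) :=
    calc _ ≤ 3 * L * (2 * (2 * (N / L ^ 5)) * (3 * L) + 2 * (2 * (N / L ^ 5)) * (3 * L)) :=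
          mul_le_mul_of_nonneg_left (by linarith) (by linarith)
      _ = 72 * (N / L / L ^ 2) := by field_simp; norm_num
      _ ≤ _ := mul_le_mul_of_nonneg_left (div_le_self (by positivity) (one_le_pow₀ L1))
          (by norm_num)
  have q5 : 3 * (N : ℝ) / L ^ 2 ≤ 3 * (N / L) := by
    rw [mul_div_assoc, sq, ← div_div]
    gcongr
    exact div_le_self (by positivity) L1
  set y : ℝ := (((Ioc N (2 * N)).filter fun q : ℕ => q.Prime ∧ (a * q - b).Prime).card : ℝ)
  have y0 : 0 ≤ y := Nat.cast_nonneg _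
  have M0 : 0 < M := by linarith
  have q6 : 3 * M * y ≤ 2 / (L / 2) * (y * (L * M)) :=
    calc _ ≤ 4 * M * y := by gcongr; norm_num
      _ = _ := by field_simp; ring
  have q7 : 75 * (N / L) ≤ 75 / c * (sing (a * b) * N) / (L / 2) :=
    calc _ = 75 / c * (c * N) / L := by field_simp
      _ ≤ _ := by gcongr; linarith
  refine (SG.scal (K := 75 / c) (L := L / 2) (by positivity) (by positivity) (by linarith)
    (by positivity) ?_).trans (le_of_eq (by field_simp))
  have a1 := abs_le.1 w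
  have a3 := abs_le.1 h
  rw [abs_le]
  constructor <;> linarith [a1.1, a1.2, a3.1, a3.2]

end Pool.Agent.MP_39a890_nt.MS

end
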