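import Pool.Agent.MP_39a890_nt.ms.Spec2
import Pool.Agent.MP_39a890_nt.h21.SG2

/-! From von Mangoldt weights to the number of prime pairs up to `x`. -/

set_option autoImplicit false

noncomputable section

namespace Pool.Agent.MP_39a890_nt.MS

open Finset Filter
open scoped ArithmeticFunction.vonMangoldt
open Pool.Agent.MP_678834_nt Pool.Agent.MP_678834_nt.HL9
open Pool.Agent.MP_678834_nt.HL9.Final (np np_nonneg)

namespace CNT2

theorem point {P L R : ℝ} {n m : ℕ} (h1 : L ≤ 2 * P) (b3 : Real.log n ≤ 2 * L)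
    (b5 : Real.log m ≤ L) (b1 : |P - Real.log n| ≤ R) (b2 : |L - Real.log m| ≤ R) :
    |P * L * (if n.Prime ∧ m.Prime then 1 else 0) - Λ n * Λ m| ≤
      6 * R * P * (if n.Prime ∧ m.Prime then 1 else 0) + 2 * L * (np n + np m) := by
  have b4 : 0 ≤ Real.log n := Real.log_natCast_nonneg n
  have L0 : 0 ≤ L := by linarith
  have R0 : 0 ≤ R := (abs_nonneg _).trans b1
  have p1 := np_nonneg n
  have p2 := np_nonneg m
  have m1 : 0 ≤ Λ n := ArithmeticFunction.vonMangoldt_nonneg
  have m2 : 0 ≤ Λ m := ArithmeticFunction.vonMangoldt_nonneg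
  have m3 : Λ n ≤ 2 * L := ArithmeticFunction.vonMangoldt_le_log.trans b3
  have m4 : Λ m ≤ 2 * L := ArithmeticFunction.vonMangoldt_le_log.trans (by linarith)
  have l0 : 0 ≤ 2 * L := by linarith
  by_cases hp : n.Prime ∧ m.Prime
  · rw [if_pos hp, ArithmeticFunction.vonMangoldt_apply_prime hp.1,
      ArithmeticFunction.vonMangoldt_apply_prime hp.2,
      show P * L * 1 - Real.log n * Real.log m =
        (P - Real.log n) * L + Real.log n * (L - Real.log m) by ring]
    refine ((abs_add_le _ _).trans ?_).trans (le_add_of_nonneg_right (by positivity))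
    rw [abs_mul, abs_mul, abs_of_nonneg b4, abs_of_nonneg L0]
    calc _ ≤ R * L + 2 * L * R := by gcongr
      _ ≤ _ := by linarith [mul_le_mul_of_nonneg_left h1 R0]
  · rw [if_neg hp, mul_zero, mul_zero, zero_add, zero_sub, abs_neg,
      abs_of_nonneg (by positivity)]
    rcases not_and_or.1 hp with h | h
    · have : np n = Λ n := if_neg h
      rw [this]
      linarith [mul_le_mul_of_nonneg_left m4 m1, mul_nonneg l0 p2]
    · have : np m = Λ m := if_neg h
      rw [this]
      linarith [mul_le_mul_of_nonneg_right m3 m2, mul_nonneg l0 p1]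

theorem small {P L : ℝ} {n m : ℕ} (h0 : 0 ≤ P) (h1 : P ≤ L) (b3 : Real.log n ≤ 2 * L)
    (b5 : Real.log m ≤ L) :
    |P * L * (if n.Prime ∧ m.Prime then 1 else 0) - Λ n * Λ m| ≤ 2 * L * L := by
  have L0 : 0 ≤ L := by linarith
  have m1 : 0 ≤ Λ n := ArithmeticFunction.vonMangoldt_nonneg
  have m2 : 0 ≤ Λ m := ArithmeticFunction.vonMangoldt_nonneg
  have a := mul_le_mul (ArithmeticFunction.vonMangoldt_le_log.trans b3)
    (ArithmeticFunction.vonMangoldt_le_log.trans b5) m2 (by linarith)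
  have b := mul_nonneg m1 m2
  have c := mul_le_mul_of_nonneg_right h1 L0
  have d := mul_nonneg h0 L0
  rw [abs_le]
  split_ifs <;> constructor <;> linarith

theorem cut (s : Bool) {x : ℝ} {a b : ℕ} (ha : 1 ≤ a) (hb : (b : ℝ) ≤ x) : ∃ y : ℕ,
    (∀ q : ℕ, ((sh s (a * q) b : ℕ) : ℝ) ≤ x ↔ q ≤ y) ∧ |(y : ℝ) - x / a| ≤ b / a + 1 ∧
      (y : ℝ) ≤ 2 * x / a := by
  have a0 : (0 : ℝ) < a := by exact_mod_cast ha
  have b0 : (0 : ℝ) ≤ b := Nat.cast_nonneg b
  have c0 : (0 : ℝ) ≤ b / a := by positivity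
  have c1 : (b : ℝ) / a ≤ x / a := by gcongr
  cases s
  · have n : 0 ≤ (x + b) / a := div_nonneg (by linarith) a0.le
    have f1 := Nat.floor_le n
    have f2 := Nat.lt_floor_add_one ((x + b) / a)
    refine ⟨⌊(x + b) / a⌋₊, fun q => ?_, ?_, ?_⟩
    · rw [Nat.le_floor_iff n, le_div_iff₀ a0, sh_false]
      rcases le_total b (a * q) with h | h
      · rw [Nat.cast_sub h]
        push_cast
        constructor <;> intro <;> linarith
      · have : (a : ℝ) * q ≤ b := by exact_mod_cast h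
        rw [Nat.sub_eq_zero_of_le h]
        push_cast
        constructor <;> intro <;> linarith
    · rw [add_div] at f1 f2 ⊢
      rw [abs_le]
      constructor <;> linarith
    · rw [add_div] at f1 ⊢
      rw [mul_div_assoc]
      linarith
  · have n : 0 ≤ (x - b) / a := div_nonneg (by linarith) a0.le
    have f1 := Nat.floor_le n
    have f2 := Nat.lt_floor_add_one ((x - b) / a)
    refine ⟨⌊(x - b) / a⌋₊, fun q => ?_, ?_, ?_⟩
    · rw [Nat.le_floor_iff n, le_div_iff₀ a0, sh_true]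
      push_cast
      constructor <;> intro <;> linarith
    · rw [sub_div] at f1 f2 ⊢
      rw [abs_le]
      constructor <;> linarith
    · rw [sub_div] at f1 ⊢
      rw [mul_div_assoc]
      linarith

theorem sh_ge (s : Bool) (y b : ℕ) : (y : ℝ) - b ≤ sh s y b := by
  have : y ≤ sh s y b + b := by cases s <;> simp only [sh_true, sh_false] <;> omega
  have : (y : ℝ) ≤ sh s y b + b := by exact_mod_cast this
  linarith

theorem sh_inj (s : Bool) {y z b : ℕ} (h : 0 < sh s y b) (e : sh s y b = sh s z b) : y = z := by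
  cases s <;> simp only [sh_true, sh_false] at h e <;> omega

end CNT2

theorem cnt2 : CNT2Stmt := by
  intro C₁
  obtain ⟨c, hc, hs⟩ := Tp.sing_lower
  obtain ⟨x₀, hx₀⟩ := eventually_atTop.1 ((ev_log 2).and ((eventually_ge_atTop (4 : ℝ)).and
    ((Real.tendsto_log_atTop.eventually (ev_log_pow one_pos 1 48)).and
      (Real.tendsto_log_atTop.eventually (ev_log 1)))))
  obtain ⟨K, hK⟩ : ∃ K : ℝ, K = 34 / c + |C₁| * (1 / c + 1) + 2 := ⟨_, rfl⟩
  refine ⟨(4 + 5 * K) * 12, x₀, fun s x a b hx ha hb h1 h2 he h => ?_⟩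
  obtain ⟨l1, l2, l3, l4⟩ := hx₀ x hx
  rw [pow_one, Real.rpow_one] at l3
  set L := Real.log x with hL
  set l := Real.log L with hl
  set X := x / a with hX
  set P := Real.log X with hP
  have x0 : 0 < x := by linarith
  have L0 : 0 < L := by linarith
  have L1 : 1 ≤ L := by linarith
  have a1 : (1 : ℝ) ≤ a := by exact_mod_cast ha
  have a0 : (0 : ℝ) < a := by linarith
  have X0 : 0 < X := by positivity
  have Xx : X ≤ x := div_le_self x0.le a1
  have aX : a * X = x := mul_div_cancel₀ _ a0.ne'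
  have r1 : 1 ≤ Real.sqrt x := Real.one_le_sqrt.2 (by linarith)
  have r2 : Real.sqrt x ≤ X / L ^ 5 := by
    rw [Real.sqrt_le_iff]
    refine ⟨by positivity, ?_⟩
    rw [hX, div_pow, div_pow, div_div, le_div_iff₀ (by positivity), ← pow_mul, sq x]
    gcongr
  have r3 : X / L ^ 5 ≤ X / L := by
    gcongr
    exact le_self_pow₀ L1 (by norm_num)
  have P1 : L ≤ 2 * P := by
    have := Real.log_le_log (by linarith) (r2.trans (div_le_self X0.le (one_le_pow₀ L1)))
    rw [Real.log_sqrt x0.le] at this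
    linarith
  have P2 : P ≤ L := Real.log_le_log X0 Xx
  have b1 : (b : ℝ) ≤ x / L ^ 4 := (le_div_iff₀ (by positivity)).2 h2
  have s1 := hs (a * b) (by positivity) he
  have s0 : 0 < sing (a * b) := hc.trans_le s1
  obtain ⟨y, y1, y2, y3⟩ := CNT2.cut s ha (b1.trans (div_le_self x0.le (one_le_pow₀ L1)))
  replace h := h y y3
  rw [mul_div_assoc, ← hX] at y3
  have z1 : y ≤ ⌊2 * x⌋₊ := Nat.le_floor (by linarith)
  have z2 : 1 ≤ ⌊2 * x⌋₊ := Nat.le_floor (by push_cast; linarith)
  have z3 := Nat.floor_le (show 0 ≤ 2 * x by linarith)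
  have two := Real.log_two_lt_d9
  rw [show (Icc 1 ⌊2 * x⌋₊).filter (fun q : ℕ => q.Prime ∧ (sh s (a * q) b).Prime ∧
      ((sh s (a * q) b : ℕ) : ℝ) ≤ x) =
      (Icc 1 y).filter fun q : ℕ => q.Prime ∧ (sh s (a * q) b).Prime by
    ext q
    simp only [mem_filter, mem_Icc, y1]
    exact ⟨fun e => ⟨⟨e.1.1, e.2.2.2⟩, e.2.1, e.2.2.1⟩,
      fun e => ⟨⟨e.1.1, e.1.2.trans z1⟩, e.2.1, e.2.2, e.1.2⟩⟩]
  have g1 : ∀ n ∈ Icc 1 y, Real.log n ≤ P + 1 ∧ Real.log (sh s (a * n) b : ℕ) ≤ L := fun n hn => by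
    obtain ⟨n1, n2⟩ := mem_Icc.1 hn
    have n3 : (n : ℝ) ≤ y := by exact_mod_cast n2
    have := Real.log_le_log (by exact_mod_cast n1) (n3.trans y3)
    rw [Real.log_mul two_ne_zero X0.ne'] at this
    refine ⟨by linarith, ?_⟩
    rcases Nat.eq_zero_or_pos (sh s (a * n) b) with e | e
    · rw [e, Nat.cast_zero, Real.log_zero]
      exact L0.le
    · exact Real.log_le_log (by exact_mod_cast e) ((y1 n).2 n2)
  have g2 : ∀ n : ℕ, ¬ (n : ℝ) ≤ X / L ^ 3 → x / L ^ 3 / 2 ≤ (sh s (a * n) b : ℕ) := fun n hn => by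
    have e1 := CNT2.sh_ge s (a * n) b
    have e2 := mul_le_mul_of_nonneg_left (not_le.1 hn).le a0.le
    rw [← mul_div_assoc, aX] at e2
    have e3 : x / L ^ 4 ≤ x / L ^ 3 / 2 := by
      rw [pow_succ L 3, ← div_div]
      gcongr
    push_cast at e1
    linarith
  have g3 : ∀ n : ℕ, ¬ (n : ℝ) ≤ X / L ^ 3 → 0 < sh s (a * n) b := fun n hn =>
    Nat.cast_pos.1 (lt_of_lt_of_le (by positivity) (g2 n hn))
  have w1 := sum_le_card_nsmul ((Icc 1 y).filter fun n : ℕ => (n : ℝ) ≤ X / L ^ 3) _ _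
    fun n hn => CNT2.small (n := n) (m := sh s (a * n) b) (by linarith) P2
      (by linarith [(g1 n (mem_filter.1 hn).1).1]) (g1 n (mem_filter.1 hn).1).2
  have w2 := sum_le_sum (s := (Icc 1 y).filter fun n : ℕ => ¬ (n : ℝ) ≤ X / L ^ 3) fun n hn =>
    CNT2.point (R := 4 * l) (n := n) (m := sh s (a * n) b) P1
      (by linarith [(g1 n (mem_filter.1 hn).1).1]) (g1 n (mem_filter.1 hn).1).2 (by
        have := Real.log_le_log (by positivity) (not_le.1 (mem_filter.1 hn).2).le
        rw [Real.log_div X0.ne' (by positivity), Real.log_pow] at this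
        push_cast at this
        rw [abs_le]
        constructor <;> linarith [(g1 n (mem_filter.1 hn).1).1]) (by
        have := Real.log_le_log (by positivity) (g2 n (mem_filter.1 hn).2)
        rw [Real.log_div (by positivity) two_ne_zero, Real.log_div x0.ne' (by positivity),
          Real.log_pow] at this
        push_cast at this
        rw [abs_le]
        constructor <;> linarith [(g1 n (mem_filter.1 hn).1).2])
  have w := (abs_sum_le_sum_abs _ _).trans
    ((sum_filter_add_sum_filter_not _ _ _).ge.trans (add_le_add w1 w2))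
  rw [sum_sub_distrib, sum_add_distrib, ← mul_sum, ← mul_sum, ← mul_sum, sum_add_distrib,
    sum_boole, sum_boole, nsmul_eq_mul] at w
  have p1 := SG.sum_np_le ((Icc 1 y).filter fun n : ℕ => ¬ (n : ℝ) ≤ X / L ^ 3) (fun n => n) _ z2
    (fun _ _ _ _ e => e) fun n hn => by
      have := mem_Icc.1 (mem_filter.1 hn).1
      exact mem_Ioc.2 ⟨by omega, by omega⟩
  have p2 := SG.sum_np_le ((Icc 1 y).filter fun n : ℕ => ¬ (n : ℝ) ≤ X / L ^ 3)
    (fun n => sh s (a * n) b) _ z2 (fun u hu v _ e => Nat.eq_of_mul_eq_mul_left ha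
      (CNT2.sh_inj s (g3 u (mem_filter.1 hu).2) e)) fun n hn =>
    mem_Ioc.2 ⟨g3 n (mem_filter.1 hn).2, Nat.le_floor (by
      linarith [(y1 n).2 (mem_Icc.1 (mem_filter.1 hn).1).2])⟩
  have q1 : Real.sqrt (⌊2 * x⌋₊ : ℕ) ≤ 2 * (X / L ^ 5) := by
    refine le_trans ?_ (mul_le_mul_of_nonneg_left r2 zero_le_two)
    rw [Real.sqrt_le_iff, mul_pow, Real.sq_sqrt x0.le]
    exact ⟨by positivity, by linarith⟩
  have q2 : Real.log (⌊2 * x⌋₊ : ℕ) ≤ 2 * L := by
    have := Real.log_le_log (by exact_mod_cast z2) z3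
    rw [Real.log_mul two_ne_zero x0.ne'] at this
    linarith
  have q3 := mul_le_mul (mul_le_mul_of_nonneg_left q1 zero_le_two) q2
    (Real.log_natCast_nonneg _) (by positivity)
  have q4 : 2 * L * (2 * (2 * (X / L ^ 5)) * (2 * L) + 2 * (2 * (X / L ^ 5)) * (2 * L)) ≤
      32 * (X / L) :=
    calc _ = 32 * (X / L / L ^ 2) := by field_simp; norm_num
      _ ≤ _ := mul_le_mul_of_nonneg_left (div_le_self (by positivity) (one_le_pow₀ L1))
          (by norm_num)
  have q5 := mul_le_mul_of_nonneg_left (add_le_add (p1.trans q3) (p2.trans q3))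
    (show 0 ≤ 2 * L by linarith)
  have q6 : (((Icc 1 y).filter fun n : ℕ => (n : ℝ) ≤ X / L ^ 3).card : ℝ) * (2 * L * L) ≤
      2 * (X / L) := by
    have : ((Icc 1 y).filter fun n : ℕ => (n : ℝ) ≤ X / L ^ 3).card ≤ ⌊X / L ^ 3⌋₊ :=
      (card_le_card fun n hn => mem_Icc.2 ⟨(mem_Icc.1 (mem_filter.1 hn).1).1,
        Nat.le_floor (mem_filter.1 hn).2⟩).trans (by simp)
    calc _ ≤ X / L ^ 3 * (2 * L * L) := by
          gcongr
          exact (Nat.cast_le.2 this).trans (Nat.floor_le (by positivity))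
      _ = _ := by field_simp
  set Y : ℝ := (((Icc 1 y).filter fun q : ℕ => q.Prime ∧ (sh s (a * q) b).Prime).card : ℝ)
  have Y0 : 0 ≤ Y := Nat.cast_nonneg _
  have P0 : 0 < P := by linarith
  have q7 : 6 * (4 * l) * P * ((((Icc 1 y).filter fun n : ℕ => ¬ (n : ℝ) ≤ X / L ^ 3).filter
      fun q : ℕ => q.Prime ∧ (sh s (a * q) b).Prime).card : ℝ) ≤
      2 / (L / (12 * l)) * (P * L * Y) :=
    calc _ ≤ 6 * (4 * l) * P * Y := mul_le_mul_of_nonneg_left
          (Nat.cast_le.2 (card_le_card (filter_subset_filter _ (filter_subset _ _))))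
          (by positivity)
      _ = _ := by field_simp; ring
  set σ := sing (a * b)
  have t1 : |σ * y - σ * X| ≤ 2 * (σ * (X / L)) := by
    have e1 : (b : ℝ) / a ≤ X / L := by
      rw [hX, div_right_comm]
      gcongr
      exact b1.trans (by gcongr; exact le_self_pow₀ L1 (by norm_num))
    rw [← mul_sub, abs_mul, abs_of_pos s0, mul_left_comm]
    gcongr
    linarith
  have t2 : X / L ≤ 1 / c * (σ * (X / L)) :=
    calc _ = 1 / c * (c * (X / L)) := by field_simp
      _ ≤ _ := by gcongr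
  have t3 : C₁ * (1 + σ) * X / L ^ 2 ≤ |C₁| * (1 / c + 1) * (σ * (X / L)) :=
    calc _ = C₁ * ((1 + σ) * (X / L) / L) := by field_simp
      _ ≤ |C₁| * ((1 + σ) * (X / L)) := mul_le_mul (le_abs_self _)
          (div_le_self (by positivity) L1) (by positivity) (abs_nonneg _)
      _ ≤ _ := by
          rw [mul_assoc]
          exact mul_le_mul_of_nonneg_left (by linarith) (abs_nonneg _)
  have K0 : 0 ≤ K := by rw [hK]; positivity
  have t4 : K * (σ * (X / L)) ≤ K * (σ * X) / (L / (12 * l)) :=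
    calc _ = K * (σ * X) / L := by ring
      _ ≤ _ := by
          gcongr
          exact div_le_self L0.le (by linarith)
  have t5 : K * (σ * (X / L)) = 34 * (1 / c * (σ * (X / L))) +
      |C₁| * (1 / c + 1) * (σ * (X / L)) + 2 * (σ * (X / L)) := by rw [hK]; ring
  rw [show Y * (a * P * L) / (σ * x) = P * L * Y / (σ * X) by rw [← aX]; field_simp]
  refine (SG.scal (K := K) (L := L / (12 * l)) (by positivity) K0
    ((le_div_iff₀ (by positivity)).2 (by linarith)) (by positivity) ?_).trans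
    (le_of_eq (by field_simp))
  have a1 := abs_le.1 w
  have a2 := abs_le.1 h
  have a3 := abs_le.1 t1
  rw [abs_le]
  constructor <;> linarith [a1.1, a1.2, a2.1, a2.2, a3.1, a3.2]

end Pool.Agent.MP_39a890_nt.MS

end
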