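import Pool.Agent.MP_39a890_nt.ms.Spec

/-! Project MS, module CORE: from the multiplicative kernel to Dirichlet polynomials. -/

set_option autoImplicit false

noncomputable section

namespace Pool.Agent.MP_39a890_nt.MS

open MeasureTheory Finset Filter
open Pool.Agent.MP_db1c88_nt.z94 (ei blk DP wide wt)
open Pool.Agent.MP_3d0d30_nt.Six (E ck)
open Pool.Agent.MP_678834_nt Pool.Agent.MP_678834_nt.HL9
open Pool.Agent.MP_db1c88_nt Pool.Agent.MP_3d0d30_nt

namespace CORE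

theorem norm_DP_sum (s : Finset ℕ) (a : ℕ → ℂ) (t : ℝ) : ‖DP s a t‖ ≤ ∑ n ∈ s, ‖a n‖ :=
  (norm_sum_le _ _).trans (le_of_eq (sum_congr rfl fun i _ => by simp))

/-- the integral representation -/
theorem rep {κ : ℝ → ℂ} {C : ℝ} (hκ : Continuous κ) (hC : ∀ u, ‖κ u‖ ≤ C * ck u)
    (hI : ∀ y : ℝ, (w1 y : ℂ) = ∫ u : ℝ, κ u * ei (u * y)) (S W : Finset ℕ) (β ψ : ℕ → ℂ)
    {U : ℝ} (hU : 0 < U) (v : ℝ) {a : ℕ} (ha : 1 ≤ a) (hS : ∀ n ∈ S, 1 ≤ n) :
    ∑ n ∈ S, β n * ∑ m ∈ W, ψ m * (w1 (U * (Real.log (a * n : ℕ) - Real.log m) - v) : ℝ) =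
      ∫ t : ℝ, ((1 / U : ℝ) * κ (t / -U) * ei (t * (v / U)) * DP S β (-t)) * DP W ψ t *
        ei (t * -Real.log a) := by
  have hκi : Integrable κ :=
    (Six.integrable_ck.const_mul C).mono' hκ.aestronglyMeasurable (Eventually.of_forall hC)
  have hκU : Integrable fun t : ℝ => κ (t / -U) := hκi.comp_div (neg_ne_zero.2 hU.ne')
  have h1 : ∀ y : ℝ, (w1 y : ℂ) = ∫ t : ℝ, (1 / U : ℝ) * (κ (t / -U) * ei (t / -U * y)) := by
    intro y
    rw [integral_const_mul, Measure.integral_comp_div (fun u => κ u * ei (u * y)) (-U), ← hI,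
      abs_neg, abs_of_pos hU, Complex.real_smul, ← mul_assoc, ← Complex.ofReal_mul,
      one_div_mul_cancel hU.ne']
    simp
  have hi : ∀ (c : ℂ) (y : ℝ), Integrable fun t : ℝ =>
      c * ((1 / U : ℝ) * (κ (t / -U) * ei (t / -U * y))) := fun c y =>
    ((hκU.mul_bdd (c := 1) (Continuous.aestronglyMeasurable (by fun_prop))
      (Eventually.of_forall fun t => by simp)).const_mul _).const_mul _
  have e1 : ∀ n ∈ S, β n * ∑ m ∈ W, ψ m *
      (w1 (U * (Real.log (a * n : ℕ) - Real.log m) - v) : ℝ) = ∫ t : ℝ, ∑ m ∈ W, (β n * ψ m) *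
        ((1 / U : ℝ) * (κ (t / -U) *
          ei (t / -U * (U * (Real.log (a * n : ℕ) - Real.log m) - v)))) := by
    intro n _
    rw [integral_finsetSum _ fun m _ => hi _ _, mul_sum]
    refine sum_congr rfl fun m _ => ?_
    rw [integral_const_mul, ← h1, mul_assoc]
  rw [sum_congr rfl e1, ← integral_finsetSum _ fun n _ => integrable_finsetSum _ fun m _ => hi _ _]
  refine integral_congr_ae (Eventually.of_forall fun t => ?_)
  simp only [DP, mul_sum, sum_mul]
  rw [sum_comm]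
  refine sum_congr rfl fun m _ => sum_congr rfl fun n hn => ?_
  have ha0 : (a : ℝ) ≠ 0 := by positivity
  have hn0 : (n : ℝ) ≠ 0 := by have := hS n hn; positivity
  have e : ei (t / -U * (U * (Real.log (a * n : ℕ) - Real.log m) - v)) =
      ei (t * (v / U)) * ei (-t * Real.log n) * ei (t * Real.log m) * ei (t * -Real.log a) := by
    rw [← z94.ei_add, ← z94.ei_add, ← z94.ei_add, Nat.cast_mul, Real.log_mul ha0 hn0]
    congr 1
    field_simp
    ring
  rw [e]
  ring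

theorem cs {x A B : ℝ} (h : ∀ l : ℝ, 2 * l * x ≤ l ^ 2 * A + B) : x ^ 2 ≤ A * B := by
  have h1 := discrim_le_zero (a := A) (b := -(2 * x)) (c := B) fun l => by nlinarith [h l]
  unfold discrim at h1
  nlinarith

/-- the tail of the integral -/
theorem tail {p g : ℝ → ℝ} {U N A B : ℝ} (hU : 0 < U) (hN : 0 < N)
    (ip : Integrable fun t => ck (t / N) * p t ^ 2)
    (ig : Integrable fun t => ck (t / U) * g t ^ 2) (ipg : Integrable fun t => ck (t / U) * (p t * g t))
    (hA : ∫ t, ck (t / N) * p t ^ 2 ≤ A) (hB : ∫ t, ck (t / U) * g t ^ 2 ≤ B) :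
    (∫ t in (Set.Icc (-N) N)ᶜ, ck (t / U) * (p t * g t)) ^ 2 ≤ 2 * (U / N) ^ 2 * A * B := by
  refine cs fun l => ?_
  have i2 : Integrable fun t => l ^ 2 * (2 * (U / N) ^ 2) * (ck (t / N) * p t ^ 2) +
      ck (t / U) * g t ^ 2 := (ip.const_mul _).add ig
  rw [← integral_const_mul]
  calc ∫ t in (Set.Icc (-N) N)ᶜ, 2 * l * (ck (t / U) * (p t * g t))
      ≤ ∫ t in (Set.Icc (-N) N)ᶜ, (l ^ 2 * (2 * (U / N) ^ 2) * (ck (t / N) * p t ^ 2) +
          ck (t / U) * g t ^ 2) := by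
        refine setIntegral_mono_on (ipg.const_mul _).integrableOn i2.integrableOn
          measurableSet_Icc.compl fun t ht => ?_
        have h1 : N ≤ |t| := by
          by_contra h
          exact ht (abs_le.1 (not_le.1 h).le)
        have h2 : N / U ≤ |t / U| := by
          rw [abs_div, abs_of_pos hU]; gcongr
        have h3 := Smear.ck_tail (div_pos hN hU) h2
        rw [show t / U / (N / U) = t / N by field_simp,
          show 2 / (N / U) ^ 2 = 2 * (U / N) ^ 2 by field_simp] at h3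
        have h4 := mul_nonneg (Six.ck_nonneg (t / U)) (sq_nonneg (l * p t - g t))
        have h5 := mul_le_mul_of_nonneg_left h3 (mul_nonneg (sq_nonneg l) (sq_nonneg (p t)))
        nlinarith
    _ ≤ ∫ t, (l ^ 2 * (2 * (U / N) ^ 2) * (ck (t / N) * p t ^ 2) + ck (t / U) * g t ^ 2) :=
        setIntegral_le_integral i2 (Eventually.of_forall fun t => by
          have := Six.ck_nonneg (t / N)
          have := Six.ck_nonneg (t / U)
          positivity)
    _ ≤ l ^ 2 * (2 * (U / N) ^ 2 * A) + B := by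
        rw [integral_add (ip.const_mul _) ig, integral_const_mul, mul_assoc]
        gcongr

end CORE

open CORE in
theorem core : WMVStmt → COREStmt := by
  rintro ⟨C1, hC1, hW⟩
  obtain ⟨κ, C, hκ, hC, hI⟩ := fi w1 bump_w1
  have hC0 : 0 ≤ C := by
    have := (norm_nonneg _).trans (hC 0)
    simpa using this
  refine ⟨156 * C ^ 2 * C1 ^ 2 + 1, by nlinarith [sq_nonneg (C * C1)],
    fun 𝒜 S W β ψ N X U v Δ h𝒜 hS hWm hU hUN hNX hΔ hLS => ?_⟩
  have hN : 0 < N := hU.trans_le hUN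
  have hX : 0 < X := hN.trans_le hNX
  set b2 := ∑ n ∈ S, ‖β n‖ ^ 2 with hb2
  set p2 := ∑ m ∈ W, ‖ψ m‖ ^ 2 with hp2
  have b0 : 0 ≤ b2 := by positivity
  have p0 : 0 ≤ p2 := by positivity
  obtain ⟨i1, m1⟩ := hW S β (2 * N) N hN hS
  obtain ⟨i2, m2⟩ := hW W ψ (12 * X) U hU hWm
  set p : ℝ → ℝ := fun t => ‖DP S β (-t)‖ with hp
  set g : ℝ → ℝ := fun t => ‖DP W ψ t‖ with hg
  have cp : Continuous p := by fun_prop
  have cg : Continuous g := by fun_prop
  have e0 : (fun t : ℝ => ck (t / N) * p t ^ 2) =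
      fun t => (fun s : ℝ => ck (s / N) * ‖DP S β s‖ ^ 2) (-t) := by
    funext t
    simp only [hp, neg_div, Six.ck_neg]
  have ip : Integrable fun t => ck (t / N) * p t ^ 2 := by rw [e0]; exact i1.comp_neg
  have mp : ∫ t, ck (t / N) * p t ^ 2 ≤ C1 * (3 * N) * b2 := by
    rw [e0, integral_neg_eq_self (fun s : ℝ => ck (s / N) * ‖DP S β s‖ ^ 2)]
    exact m1.trans (le_of_eq (by ring))
  have mg : ∫ t, ck (t / U) * g t ^ 2 ≤ C1 * (13 * X) * p2 :=
    m2.trans (by gcongr; linarith)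
  have ipg : Integrable fun t => ck (t / U) * (p t * g t) :=
    (Six.integrable_ck_div hU.ne').mul_bdd (c := (∑ n ∈ S, ‖β n‖) * ∑ m ∈ W, ‖ψ m‖)
      (cp.mul cg).aestronglyMeasurable (Eventually.of_forall fun t => by
        rw [Real.norm_of_nonneg (by positivity)]
        exact mul_le_mul (norm_DP_sum _ _ _) (norm_DP_sum _ _ _) (norm_nonneg _) (by positivity))
  have ht := tail hU hN ip i2 ipg mp mg
  set u : ℝ → ℂ := fun t => (1 / U : ℝ) * κ (t / -U) * ei (t * (v / U)) * DP S β (-t) with hu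
  have cu : Continuous u := by fun_prop
  have nu : ∀ t, ‖u t‖ ≤ C / U * (ck (t / U) * p t) := fun t => by
    have h1 := hC (t / -U)
    rw [div_neg, Six.ck_neg, ← div_neg] at h1
    simp only [hu, norm_mul, z94.norm_ei, mul_one, Complex.norm_real,
      Real.norm_of_nonneg (one_div_pos.2 hU).le]
    calc 1 / U * ‖κ (t / -U)‖ * ‖DP S β (-t)‖ ≤ 1 / U * (C * ck (t / U)) * ‖DP S β (-t)‖ := by gcongr
      _ = _ := by simp only [hp]; ring
  have nf : ∀ (a : ℕ) (t : ℝ), ‖u t * DP W ψ t * ei (t * -Real.log a)‖ ≤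
      C / U * (ck (t / U) * (p t * g t)) := fun a t => by
    rw [norm_mul, norm_mul, z94.norm_ei, mul_one]
    calc ‖u t‖ * ‖DP W ψ t‖ ≤ C / U * (ck (t / U) * p t) * ‖DP W ψ t‖ := by gcongr; exact nu t
      _ = _ := by simp only [hg]; ring
  have fi' : ∀ a : ℕ, Integrable fun t => u t * DP W ψ t * ei (t * -Real.log a) := fun a =>
    (ipg.const_mul (C / U)).mono' (Continuous.aestronglyMeasurable (by fun_prop))
      (Eventually.of_forall (nf a))
  set τ := ∫ t in (Set.Icc (-N) N)ᶜ, ck (t / U) * (p t * g t) with hτ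
  have key : ∀ a ∈ 𝒜, ‖∑ n ∈ S, β n * ∑ m ∈ W, ψ m *
      (w1 (U * (Real.log (a * n : ℕ) - Real.log m) - v) : ℝ)‖ ^ 2 ≤
      2 * ‖∫ t in Set.Icc (-N) N, u t * DP W ψ t * ei (t * -Real.log a)‖ ^ 2 +
        2 * ((C / U) ^ 2 * τ ^ 2) := by
    intro a ha
    rw [rep hκ hC hI S W β ψ hU v (h𝒜 a ha) fun n hn => (hS n hn).1,
      ← integral_add_compl (measurableSet_Icc (a := -N) (b := N)) (fi' a)]
    have h1 : ‖∫ t in (Set.Icc (-N) N)ᶜ, u t * DP W ψ t * ei (t * -Real.log a)‖ ≤ C / U * τ := by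
      rw [hτ, ← integral_const_mul]
      exact norm_integral_le_of_norm_le (ipg.const_mul _).integrableOn (Eventually.of_forall (nf a))
    have h2 := norm_add_le (∫ t in Set.Icc (-N) N, u t * DP W ψ t * ei (t * -Real.log a))
      (∫ t in (Set.Icc (-N) N)ᶜ, u t * DP W ψ t * ei (t * -Real.log a))
    have h3 := pow_le_pow_left₀ (norm_nonneg _) (h2.trans (add_le_add_right h1 _)) 2
    refine h3.trans ?_
    rw [← mul_pow]
    nlinarith [sq_nonneg (‖∫ t in Set.Icc (-N) N, u t * DP W ψ t * ei (t * -Real.log a)‖ - C / U * τ)]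
  have mu2 : ∫ t in Set.Icc (-N) N, ‖u t‖ ^ 2 ≤ (C / U) ^ 2 * 2 * (C1 * (3 * N) * b2) := by
    calc ∫ t in Set.Icc (-N) N, ‖u t‖ ^ 2
        ≤ ∫ t in Set.Icc (-N) N, (C / U) ^ 2 * 2 * (ck (t / N) * p t ^ 2) := by
          refine setIntegral_mono_on ((cu.norm.pow 2).integrableOn_Icc) (ip.const_mul _).integrableOn
            measurableSet_Icc fun t ht => ?_
          have h1 : 1 / 2 ≤ ck (t / N) := Six.half_le_ck (by
            rw [abs_div, abs_of_pos hN, div_le_one hN]; exact abs_le.2 ht)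
          have h2 : ‖u t‖ ≤ C / U * p t := (nu t).trans (by
            gcongr
            exact mul_le_of_le_one_left (norm_nonneg _) (Six.ck_le_one _))
          have h3 := pow_le_pow_left₀ (norm_nonneg _) h2 2
          rw [mul_pow] at h3
          have h4 := mul_le_mul_of_nonneg_left h1
            (mul_nonneg (sq_nonneg (C / U)) (sq_nonneg (p t)))
          nlinarith
      _ ≤ ∫ t, (C / U) ^ 2 * 2 * (ck (t / N) * p t ^ 2) :=
          setIntegral_le_integral (ip.const_mul _) (Eventually.of_forall fun t => by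
            have := Six.ck_nonneg (t / N)
            positivity)
      _ ≤ _ := by rw [integral_const_mul]; gcongr
  have h1 := (hLS u cu).trans (mul_le_mul_of_nonneg_left mu2 hΔ)
  refine (sum_le_sum key).trans ?_
  rw [sum_add_distrib, ← mul_sum, sum_const, nsmul_eq_mul]
  have h2 : (C / U) ^ 2 * τ ^ 2 ≤ 78 * C ^ 2 * C1 ^ 2 * (X * p2 / N) * b2 := by
    refine (mul_le_mul_of_nonneg_left ht (sq_nonneg _)).trans (le_of_eq ?_)
    field_simp
    ring
  have h3 : Δ * ((C / U) ^ 2 * 2 * (C1 * (3 * N) * b2)) ≤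
      78 * C ^ 2 * C1 ^ 2 * (Δ * N / U ^ 2) * b2 := by
    calc Δ * ((C / U) ^ 2 * 2 * (C1 * (3 * N) * b2)) = 6 * C ^ 2 * C1 * (Δ * N / U ^ 2) * b2 := by
          field_simp; ring
      _ ≤ _ := by
          gcongr ?_ * _ * _
          have : C1 ≤ C1 ^ 2 := by nlinarith
          nlinarith [sq_nonneg C, mul_le_mul_of_nonneg_left this (sq_nonneg C)]
  have h4 : (𝒜.card : ℝ) * (2 * ((C / U) ^ 2 * τ ^ 2)) ≤
      𝒜.card * (2 * (78 * C ^ 2 * C1 ^ 2 * (X * p2 / N) * b2)) := by gcongr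
  have h5 : 0 ≤ (Δ * N / U ^ 2 + 𝒜.card * X * p2 / N) * b2 := by positivity
  have e : (156 * C ^ 2 * C1 ^ 2 + 1) * (Δ * N / U ^ 2 + 𝒜.card * X * p2 / N) * b2 =
      2 * (78 * C ^ 2 * C1 ^ 2 * (Δ * N / U ^ 2) * b2) +
        𝒜.card * (2 * (78 * C ^ 2 * C1 ^ 2 * (X * p2 / N) * b2)) +
        (Δ * N / U ^ 2 + 𝒜.card * X * p2 / N) * b2 := by ring
  rw [e]
  linarith

end Pool.Agent.MP_39a890_nt.MS
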