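import Pool.Agent.MP_39a890_nt.ms.Spec

set_option autoImplicit false

noncomputable section

namespace Pool.Agent.MP_39a890_nt.MS

open MeasureTheory Finset
open scoped ArithmeticFunction.vonMangoldt
open Pool.Agent.MP_db1c88_nt.z94 (ei blk DP wide wt)
open Pool.Agent.MP_3d0d30_nt.Six (E ck)
open Pool.Agent.MP_678834_nt Pool.Agent.MP_678834_nt.HL9

namespace DC

theorem sum_kn {L : ℕ} (h : 0 < zz L) : ∑ j ∈ range (4 * L), (kn L j : ℂ) = 1 := by
  have : ∑ j ∈ range (4 * L), kn L j = 1 := by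
    unfold kn
    rw [← sum_div]
    exact div_self h.ne'
  exact_mod_cast this

theorem sum_err {q L y : ℕ} (hy : 4 * L ≤ y) :
    ∑ j ∈ range (4 * L), (if (y - j).Coprime q then 0 else Λ (y - j)) ≤
      ∑ n ∈ (Icc 1 y).filter (fun n => ¬ n.Coprime q), Λ n := by
  rw [sum_filter]
  have hinj : Set.InjOn (fun j => y - j) (range (4 * L) : Set ℕ) := by
    intro a ha b hb hab
    simp only [coe_range, Set.mem_Iio] at ha hb hab
    omega
  rw [← sum_image (f := fun n => if n.Coprime q then 0 else Λ n) hinj]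
  simp only [ite_not]
  refine sum_le_sum_of_subset_of_nonneg (fun n hn => ?_) fun n _ _ => ?_
  · obtain ⟨j, hj, rfl⟩ := mem_image.1 hn
    rw [mem_range] at hj
    rw [mem_Icc]
    omega
  · split_ifs
    · exact le_rfl
    · exact ArithmeticFunction.vonMangoldt_nonneg

end DC

theorem dc : KERStmt → DCStmt := by
  rintro ⟨C, -, -, hk⟩ q c hq hc
  obtain ⟨-, hsum, γ, hγ, hid⟩ := chr q (-(c : ℤ)) hq (by simpa using hc)
  refine ⟨γ, hγ, fun L y hL hy => ?_⟩
  have hL0 : (0 : ℝ) < L := by exact_mod_cast hL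
  have hz : (L : ℝ) ≤ zz L := (hk L hL).1
  have hz0 : 0 < zz L := hL0.trans_le hz
  set e : ℕ → ℂ := fun n => if n.Coprime q then 0 else (Λ n : ℂ) * E ((-(c : ℤ) : ℤ) * n / q)
    with he
  have h1 : ∀ j ∈ range (4 * L), (kn L j : ℂ) * (Λ (y - j) : ℝ) * E (c * j / q) =
      E (c * y / q) * ((rho q : ℂ) * kn L j +
        ∑ χ : DirichletCharacter ℂ q, γ χ * ((kn L j : ℂ) * lc χ (y - j)) +
          kn L j * e (y - j)) := by
    intro j hj
    have hj' : j ≤ y := by rw [mem_range] at hj; omega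
    have a1 : E (c * j / q) = E (c * y / q) * E ((-(c : ℤ) : ℤ) * ((y - j : ℕ) : ℝ) / q) := by
      rw [← Pool.Agent.MP_3d0d30_nt.Six.E_add]
      congr 1
      rw [Nat.cast_sub hj']
      push_cast
      ring
    have a2 := hid (y - j)
    have a3 : ∑ χ : DirichletCharacter ℂ q, γ χ * ((kn L j : ℂ) * lc χ (y - j)) =
        kn L j * ∑ χ : DirichletCharacter ℂ q, γ χ * lc χ (y - j) := by
      rw [mul_sum]
      exact sum_congr rfl fun χ _ => by ring
    rw [a1, a3]
    simp only [he]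
    linear_combination (E (c * y / q) * kn L j) * a2
  have h2 : ∑ j ∈ range (4 * L), (kn L j : ℂ) * (Λ (y - j) : ℝ) * E (c * j / q) -
        (rho q : ℂ) * E (c * y / q) -
        E (c * y / q) * ∑ χ : DirichletCharacter ℂ q, γ χ *
          ∑ j ∈ range (4 * L), (kn L j : ℂ) * lc χ (y - j) =
      E (c * y / q) * ∑ j ∈ range (4 * L), (kn L j : ℂ) * e (y - j) := by
    rw [sum_congr rfl h1, ← mul_sum, sum_add_distrib, sum_add_distrib, ← mul_sum, DC.sum_kn hz0,
      sum_comm]
    simp only [← mul_sum]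
    ring
  rw [h2, norm_mul, Pool.Agent.MP_3d0d30_nt.Six.norm_E, one_mul]
  have h3 : ∀ j ∈ range (4 * L), ‖(kn L j : ℂ) * e (y - j)‖ ≤
      (if (y - j).Coprime q then 0 else Λ (y - j)) / L := by
    intro j _
    have b0 : 0 ≤ kn L j := div_nonneg (w1_nonneg _) hz0.le
    have b1 : kn L j ≤ 1 / L := div_le_div₀ zero_le_one (w1_le_one _) hL0 hz
    simp only [he]
    split_ifs
    · simp
    · rw [norm_mul, norm_mul, Pool.Agent.MP_3d0d30_nt.Six.norm_E, mul_one, Complex.norm_real,
        Complex.norm_real, Real.norm_of_nonneg b0,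
        Real.norm_of_nonneg ArithmeticFunction.vonMangoldt_nonneg]
      calc kn L j * Λ (y - j) ≤ 1 / L * Λ (y - j) :=
            mul_le_mul_of_nonneg_right b1 ArithmeticFunction.vonMangoldt_nonneg
        _ = _ := by ring
  refine (norm_sum_le _ _).trans ((sum_le_sum h3).trans ?_)
  rw [← sum_div]
  exact div_le_div_of_nonneg_right ((DC.sum_err hy).trans (hsum y)) hL0.le

end Pool.Agent.MP_39a890_nt.MS

end
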