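import Pool.Agent.MP_39a890_nt.ms.Spec

/-! The duality inequality of Halasz and Montgomery in integral form. -/

set_option autoImplicit false

noncomputable section

namespace Pool.Agent.MP_39a890_nt.MS

open MeasureTheory Finset
open Pool.Agent.MP_db1c88_nt.z94 (ei)
open Pool.Agent.MP_db1c88_nt

namespace HM0

theorem sq_int {μ : Measure ℝ} [SFinite μ] (f : ℝ → ℂ) :
    ((‖∫ t, f t ∂μ‖ ^ 2 : ℝ) : ℂ) = ∫ p : ℝ × ℝ, (starRingEnd ℂ) (f p.1) * f p.2 ∂(μ.prod μ) := by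
  rw [integral_prod_mul (fun s => (starRingEnd ℂ) (f s)) f, integral_conj, Complex.ofReal_pow,
    Complex.conj_mul']

theorem norm_K {ι : Type} (S : Finset ι) (ν : ι → ℝ) (s t : ℝ) :
    ‖∑ i ∈ S, ei ((s - t) * ν i)‖ = ‖∑ i ∈ S, ei ((t - s) * ν i)‖ := by
  rw [← Complex.norm_conj, map_sum]
  congr 1
  refine sum_congr rfl fun i _ => ?_
  rw [z94.conj_ei]
  congr 1
  ring

theorem main {μ : Measure ℝ} [IsFiniteMeasure μ] {ι : Type} (S : Finset ι) (ν : ι → ℝ)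
    {u v : ℝ → ℂ} {D M : ℝ} (hu : Measurable u) (hv : Measurable v)
    (hM : ∀ᵐ t ∂μ, ‖u t‖ ≤ M ∧ ‖v t‖ ≤ M)
    (hD : ∀ᵐ s ∂μ, ∫ t, ‖v t‖ ^ 2 * ‖∑ i ∈ S, ei ((t - s) * ν i)‖ ∂μ ≤ D) :
    ∑ i ∈ S, ‖∫ t, u t * v t * ei (t * ν i) ∂μ‖ ^ 2 ≤ D * ∫ t, ‖u t‖ ^ 2 ∂μ := by
  have ia : Integrable (fun t => ‖u t‖ ^ 2) μ :=
    .of_bound (by fun_prop) (M ^ 2) (hM.mono fun t h => by
      rw [norm_pow, norm_norm]; exact pow_le_pow_left₀ (norm_nonneg _) h.1 2)
  have ib : Integrable (fun t => ‖v t‖ ^ 2) μ :=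
    .of_bound (by fun_prop) (M ^ 2) (hM.mono fun t h => by
      rw [norm_pow, norm_norm]; exact pow_le_pow_left₀ (norm_nonneg _) h.2 2)
  have iF : ∀ i, Integrable (fun t => u t * v t * ei (t * ν i)) μ := fun i =>
    .of_bound (by fun_prop) (M * M) (hM.mono fun t h => by
      rw [norm_mul, norm_mul, z94.norm_ei, mul_one]
      exact mul_le_mul h.1 h.2 (norm_nonneg _) ((norm_nonneg _).trans h.1))
  have iG : Integrable (fun p : ℝ × ℝ =>
      ‖u p.1‖ ^ 2 * ‖v p.2‖ ^ 2 * ‖∑ i ∈ S, ei ((p.2 - p.1) * ν i)‖) (μ.prod μ) :=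
    (ia.mul_prod ib).mul_bdd (c := S.card) (Continuous.aestronglyMeasurable (by fun_prop))
      (.of_forall fun p => by
        rw [norm_norm]
        exact (norm_sum_le _ _).trans (by simp))
  have h1 : ((∑ i ∈ S, ‖∫ t, u t * v t * ei (t * ν i) ∂μ‖ ^ 2 : ℝ) : ℂ) =
      ∫ p : ℝ × ℝ, (starRingEnd ℂ) (u p.1 * v p.1) * (u p.2 * v p.2) *
        ∑ i ∈ S, ei ((p.2 - p.1) * ν i) ∂(μ.prod μ) := by
    rw [Complex.ofReal_sum]
    simp only [sq_int]
    have iC : ∀ i, Integrable (fun t => (starRingEnd ℂ) (u t * v t * ei (t * ν i))) μ := fun i =>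
      (Complex.conjCLE : ℂ →L[ℝ] ℂ).integrable_comp (iF i)
    rw [← integral_finsetSum _ fun i _ => (iC i).mul_prod (iF i)]
    refine integral_congr_ae (.of_forall fun p => ?_)
    simp only [mul_sum]
    refine sum_congr rfl fun i _ => ?_
    rw [map_mul _ _ (ei _), z94.conj_ei, sub_mul, sub_eq_add_neg, z94.ei_add]
    ring
  have h2 := norm_integral_le_of_norm_le ((iG.add iG.swap).div_const 2)
    (f := fun p : ℝ × ℝ => (starRingEnd ℂ) (u p.1 * v p.1) * (u p.2 * v p.2) *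
        ∑ i ∈ S, ei ((p.2 - p.1) * ν i)) (.of_forall fun p => by
      simp only [norm_mul, Complex.norm_conj, Pi.add_apply, Function.comp_apply, Prod.fst_swap,
        Prod.snd_swap, norm_K S ν p.1 p.2]
      nlinarith [mul_nonneg (norm_nonneg (∑ i ∈ S, ei ((p.2 - p.1) * ν i)))
        (sq_nonneg (‖u p.1‖ * ‖v p.2‖ - ‖u p.2‖ * ‖v p.1‖))])
  rw [← h1, Complex.norm_real, integral_div, integral_add' iG iG.swap] at h2
  have h3 := integral_prod_swap (μ := μ) (ν := μ) fun p : ℝ × ℝ =>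
    ‖u p.1‖ ^ 2 * ‖v p.2‖ ^ 2 * ‖∑ i ∈ S, ei ((p.2 - p.1) * ν i)‖
  have h4 := integral_mono_ae iG.integral_prod_left (ia.const_mul D) (hD.mono fun s h => by
    simp only [mul_assoc]
    rw [integral_const_mul, mul_comm D]
    exact mul_le_mul_of_nonneg_left h (sq_nonneg _))
  rw [← integral_prod _ iG, integral_const_mul] at h4
  simp only [Function.comp_def] at h2
  rw [h3, add_self_div_two] at h2
  exact (le_abs_self _).trans (h2.trans h4)

end HM0

theorem hm0 : HM0Stmt := fun _ S ν _ _ _ _ _ hu hv hM hD =>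
  HM0.main S ν hu hv (ae_restrict_of_forall_mem measurableSet_Icc hM)
    (ae_restrict_of_forall_mem measurableSet_Icc hD)

end Pool.Agent.MP_39a890_nt.MS
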