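import Pool.Agent.MP_39a890_nt.ms.Spec

/-! Project MS: the weighted large values bound for one block. -/

set_option autoImplicit false

noncomputable section

namespace Pool.Agent.MP_39a890_nt.MS

open MeasureTheory Finset
open Pool.Agent.MP_db1c88_nt Pool.Agent.MP_db1c88_nt.z94
open Pool.Agent.MP_678834_nt Pool.Agent.MP_678834_nt.HL9

namespace HMW

theorem cont (s : ℝ) : Continuous fun t : ℝ => 1 / (1 + |t - s|) :=
  continuous_const.div (by fun_prop) fun t => by positivity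

theorem int_inv {X s : ℝ} (hs : s ∈ Set.Icc (-X) X) :
    ∫ t in Set.Icc (-X) X, 1 / (1 + |t - s|) ≤ 2 * Real.log (1 + 2 * X) := by
  have h1 : ∫ t in (-X)..s, 1 / (1 + |t - s|) = Real.log (1 + s + X) := by
    rw [intervalIntegral.integral_congr (g := fun t => 1 / (1 + s - t)) fun t ht => by
      rw [Set.uIcc_of_le hs.1] at ht
      simp only [abs_of_nonpos (sub_nonpos.2 ht.2)]
      ring_nf]
    rw [intervalIntegral.integral_comp_sub_left (fun x => 1 / x), integral_one_div_of_pos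
      (by linarith) (by linarith [hs.1])]
    congr 1
    ring
  have h2 : ∫ t in s..X, 1 / (1 + |t - s|) = Real.log (1 + X - s) := by
    rw [intervalIntegral.integral_congr (g := fun t => 1 / (t + (1 - s))) fun t ht => by
      rw [Set.uIcc_of_le hs.2] at ht
      simp only [abs_of_nonneg (sub_nonneg.2 ht.1)]
      ring_nf]
    rw [intervalIntegral.integral_comp_add_right (fun x => 1 / x), integral_one_div_of_pos
      (by linarith) (by linarith [hs.2])]
    congr 1
    ring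
  rw [integral_Icc_eq_integral_Ioc, ← intervalIntegral.integral_of_le (hs.1.trans hs.2),
    ← intervalIntegral.integral_add_adjacent_intervals (b := s) ((cont s).intervalIntegrable _ _)
      ((cont s).intervalIntegrable _ _), h1, h2]
  have h3 := Real.log_le_log (x := 1 + s + X) (y := 1 + 2 * X) (by linarith [hs.1])
    (by linarith [hs.2])
  have h4 := Real.log_le_log (x := 1 + X - s) (y := 1 + 2 * X) (by linarith [hs.2])
    (by linarith [hs.1])
  linarith

theorem norm_blk {N : ℝ} (hN : 1 ≤ N) {b : ℕ → ℂ} (hb : ∀ m, ‖b m‖ ≤ 1) (t : ℝ) :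
    ‖DP (blk N 2) b t‖ ≤ 2 * N :=
  (norm_DP_le _ hb t).trans (by rw [mul_one]; exact card_blk_le hN zero_le_two)

theorem dual (h0 : HM0Stmt) {X N D m : ℝ} {ω : ℝ → ℝ} {b : ℕ → ℂ} (hN : 1 ≤ N) (hD0 : 0 ≤ D)
    (hω : Wt ω 4 m) (hb : ∀ n, ‖b n‖ ≤ 1)
    (hD : ∀ s ∈ Set.Icc (-X) X,
      ∫ t in Set.Icc (-X) X, ω t * ‖DP (blk N 2) (fun _ => 1) (t - s)‖ ≤ D) :
    ∫ t in Set.Icc (-X) X, ω t * ‖DP (blk N 2) b t‖ ^ 2 ≤ 2 * N * D := by
  have hs : ∀ t, ‖((√(ω t) : ℝ) : ℂ)‖ ^ 2 = ω t := fun t => by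
    rw [Complex.norm_real, Real.norm_eq_abs, sq_abs, Real.sq_sqrt (hω.nn t)]
  have hs2 : ∀ t, ‖((√(ω t) : ℝ) : ℂ)‖ ≤ 2 := fun t =>
    le_of_sq_le_sq (by rw [hs]; linarith [hω.le t]) zero_le_two
  have hm : Measurable fun t => ((√(ω t) : ℝ) : ℂ) :=
    Complex.measurable_ofReal.comp hω.meas.sqrt
  have hP : Continuous fun t => (starRingEnd ℂ) (DP (blk N 2) b t) :=
    Complex.continuous_conj.comp (continuous_DP _ _)
  have key := h0 ℕ (blk N 2) (fun n => Real.log n)
    (fun t => ((√(ω t) : ℝ) : ℂ) * (starRingEnd ℂ) (DP (blk N 2) b t))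
    (fun t => ((√(ω t) : ℝ) : ℂ)) X D (4 * N) (hm.mul hP.measurable) hm
    (fun t _ => ⟨by
      rw [norm_mul, Complex.norm_conj]
      nlinarith [mul_le_mul (hs2 t) (norm_blk hN hb t) (norm_nonneg _)
        zero_le_two], by linarith [hs2 t]⟩)
    (fun s h => by simpa only [hs, DP, one_mul] using hD s h)
  have e1 : ∀ (t : ℝ) (w : ℂ), ((√(ω t) : ℝ) : ℂ) * (starRingEnd ℂ) (DP (blk N 2) b t) *
      ((√(ω t) : ℝ) : ℂ) * w = (ω t : ℂ) * ((starRingEnd ℂ) (DP (blk N 2) b t) * w) := by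
    intro t w
    have : ((√(ω t) : ℝ) : ℂ) * ((√(ω t) : ℝ) : ℂ) = ω t := by
      rw [← Complex.ofReal_mul, Real.mul_self_sqrt (hω.nn t)]
    rw [← this]
    ring
  simp only [e1, norm_mul, mul_pow, hs, Complex.norm_conj] at key
  have hi : ∀ n : ℕ, IntegrableOn (fun t => (ω t : ℂ) *
      ((starRingEnd ℂ) (DP (blk N 2) b t) * ei (t * Real.log n))) (Set.Icc (-X) X) := fun n =>
    IntegrableOn.mul_continuousOn hω.int.ofReal.integrableOn
      (hP.mul (by fun_prop)).continuousOn isCompact_Icc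
  have e2 : ((∫ t in Set.Icc (-X) X, ω t * ‖DP (blk N 2) b t‖ ^ 2 : ℝ) : ℂ) =
      ∑ n ∈ blk N 2, b n * ∫ t in Set.Icc (-X) X, (ω t : ℂ) *
        ((starRingEnd ℂ) (DP (blk N 2) b t) * ei (t * Real.log n)) := by
    simp only [← integral_const_mul]
    rw [← integral_finsetSum _ fun n _ => (hi n).const_mul _, ← integral_complex_ofReal]
    refine integral_congr_ae (Filter.Eventually.of_forall fun t => ?_)
    have : ∀ n : ℕ, b n * ((ω t : ℂ) * ((starRingEnd ℂ) (DP (blk N 2) b t) * ei (t * Real.log n))) =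
        (ω t : ℂ) * (starRingEnd ℂ) (DP (blk N 2) b t) * (b n * ei (t * Real.log n)) :=
      fun n => by ring
    simp only [this, ← mul_sum]
    rw [mul_assoc, ← DP, Complex.conj_mul']
    push_cast
    ring
  have I0 : 0 ≤ ∫ t in Set.Icc (-X) X, ω t * ‖DP (blk N 2) b t‖ ^ 2 :=
    integral_nonneg fun t => mul_nonneg (hω.nn t) (sq_nonneg _)
  generalize (∫ t in Set.Icc (-X) X, ω t * ‖DP (blk N 2) b t‖ ^ 2) = I at key e2 I0 ⊢
  obtain ⟨z, hz⟩ : ∃ z : ℕ → ℂ, ∀ n : ℕ, (∫ t in Set.Icc (-X) X, (ω t : ℂ) *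
    ((starRingEnd ℂ) (DP (blk N 2) b t) * ei (t * Real.log n))) = z n := ⟨_, fun _ => rfl⟩
  simp only [hz] at key e2
  have h1 : I ≤ ∑ n ∈ blk N 2, ‖z n‖ := by
    rw [← abs_of_nonneg I0, ← Real.norm_eq_abs, ← Complex.norm_real, e2]
    refine (norm_sum_le _ _).trans (sum_le_sum fun n _ => ?_)
    rw [norm_mul]
    exact mul_le_of_le_one_left (norm_nonneg _) (hb n)
  have h2 := (pow_le_pow_left₀ I0 h1 2).trans sq_sum_le_card_mul_sum_sq
  have h3 := mul_le_mul (card_blk_le hN zero_le_two) key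
    (sum_nonneg fun n _ => sq_nonneg _) (by linarith)
  rcases I0.lt_or_eq with h | h
  · exact le_of_mul_le_mul_right (by nlinarith) h
  · rw [← h]; positivity

theorem kern {X N C E m : ℝ} {ω : ℝ → ℝ} (hN : 1 ≤ N) (hC : 0 ≤ C) (hE : 0 ≤ E) (hω : Wt ω 4 m)
    (hK : ∀ x, 1 ≤ |x| → |x| ≤ 2 * X → ‖DP (blk N 2) (fun _ => 1) x‖ ≤ C * (N / |x| + E))
    {s : ℝ} (hs : s ∈ Set.Icc (-X) X) :
    ∫ t in Set.Icc (-X) X, ω t * ‖DP (blk N 2) (fun _ => 1) (t - s)‖ ≤
      4 * ((4 + 2 * C) * N) * (2 * Real.log (1 + 2 * X)) + C * E * m := by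
  have h1 : ∀ t ∈ Set.Icc (-X) X, ω t * ‖DP (blk N 2) (fun _ => 1) (t - s)‖ ≤
      4 * ((4 + 2 * C) * N) * (1 / (1 + |t - s|)) + C * E * ω t := by
    intro t ht
    have hx : |t - s| ≤ 2 * X := abs_le.2 ⟨by linarith [ht.1, hs.2], by linarith [ht.2, hs.1]⟩
    have a0 := abs_nonneg (t - s)
    have p0 : 0 ≤ N * (1 / (1 + |t - s|)) := by positivity
    have h2 : ‖DP (blk N 2) (fun _ => 1) (t - s)‖ ≤
        (4 + 2 * C) * N * (1 / (1 + |t - s|)) + C * E := by
      rcases le_total |t - s| 1 with h | h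
      · have h3 := norm_blk hN (b := fun _ => 1) (fun _ => by simp) (t - s)
        have h4 : 1 / 2 ≤ 1 / (1 + |t - s|) :=
          one_div_le_one_div_of_le (by positivity) (by linarith)
        nlinarith [mul_le_mul_of_nonneg_left h4 (by linarith : 0 ≤ N), mul_nonneg hC p0,
          mul_nonneg hC hE]
      · have h3 := hK _ h hx
        have h4 : N / |t - s| ≤ 2 * (N * (1 / (1 + |t - s|))) := by
          rw [mul_one_div, ← mul_div_assoc, div_le_div_iff₀ (by linarith) (by linarith)]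
          nlinarith
        nlinarith [mul_le_mul_of_nonneg_left h4 hC]
    have h5 := mul_le_mul_of_nonneg_left h2 (hω.nn t)
    have h6 : 0 ≤ (4 + 2 * C) * N * (1 / (1 + |t - s|)) := by positivity
    nlinarith [mul_le_mul_of_nonneg_right (hω.le t) h6]
  have i1 : IntegrableOn (fun t => 4 * ((4 + 2 * C) * N) * (1 / (1 + |t - s|))) (Set.Icc (-X) X) :=
    (continuous_const.mul (cont s)).integrableOn_Icc
  have i2 : IntegrableOn (fun t => C * E * ω t) (Set.Icc (-X) X) :=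
    (hω.int.const_mul _).integrableOn
  refine (integral_mono_of_nonneg
    (Filter.Eventually.of_forall fun t => mul_nonneg (hω.nn t) (norm_nonneg _)) (i1.add i2)
    ((ae_restrict_iff' measurableSet_Icc).2 (Filter.Eventually.of_forall h1))).trans ?_
  rw [integral_add' i1 i2, integral_const_mul, integral_const_mul]
  exact add_le_add (mul_le_mul_of_nonneg_left (int_inv hs) (by positivity))
    (mul_le_mul_of_nonneg_left ((setIntegral_le_integral hω.int
      (Filter.Eventually.of_forall hω.nn)).trans hω.mass) (mul_nonneg hC hE))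

end HMW

open HMW

theorem hmw : HM0Stmt → PEStmt → HMWStmt := by
  rintro h0 ⟨C, c, hc, hP⟩
  refine ⟨c / 11 ^ 6 / 10, by positivity, 2 * (16 * (4 + 2 * |C|) + 4 * |C|), ?_⟩
  obtain ⟨X₀, hX₀⟩ := Filter.eventually_atTop.1 ((ev_log 1).and
    ((ev_rpow (δ := 1 / 10) (by norm_num) 4096).and (Filter.eventually_ge_atTop (3 : ℝ))))
  refine ⟨X₀, fun X N ω b hX hN hω hb => ?_⟩
  obtain ⟨l1, y1, x3⟩ := hX₀ X hX
  have X0 : 0 < X := by linarith
  have N1 : 1 ≤ N := by linarith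
  have C0 := abs_nonneg C
  have hy : (X ^ (1 / 10 : ℝ)) ^ 10 = X := by
    rw [← Real.rpow_natCast, ← Real.rpow_mul X0.le]; norm_num
  have h11 : 2 * X ≤ (N / 2) ^ 11 := by
    have h1 := pow_le_pow_left₀ (by positivity) hN 10
    rw [hy] at h1
    have h2 : (N / 2) ^ 11 = N ^ 10 * (N / 2048) := by ring
    rw [h2]
    nlinarith
  have E0 : 0 ≤ N ^ (1 - c / 11 ^ 6) := by positivity
  have hE : N ^ (1 - c / 11 ^ 6) * X ^ (c / 11 ^ 6 / 10) ≤ N := by
    have h1 : X ^ (c / 11 ^ 6 / 10) ≤ N ^ (c / 11 ^ 6) := by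
      rw [show c / 11 ^ 6 / 10 = 1 / 10 * (c / 11 ^ 6) by ring, Real.rpow_mul X0.le]
      exact Real.rpow_le_rpow (by positivity) hN (by positivity)
    refine (mul_le_mul_of_nonneg_left h1 E0).trans (le_of_eq ?_)
    rw [← Real.rpow_add (by linarith), sub_add_cancel, Real.rpow_one]
  have hl : Real.log (1 + 2 * X) ≤ 2 * Real.log X := by
    rw [show 2 * Real.log X = Real.log (X ^ 2) by simp]
    exact Real.log_le_log (by linarith) (by nlinarith)
  have key := dual h0 (X := X) (D := (16 * (4 + 2 * |C|) + 4 * |C|) * (N * Real.log X)) N1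
    (by positivity) hω hb fun s hs => (kern N1 C0 E0 hω (fun x h1 h2 => ?_) hs).trans ?_
  · linarith
  · have := hP 11 1 N x (fun _ => 1) (by norm_num) le_rfl (by push_cast; linarith)
      (fun _ => rfl) (fun _ => by simp) h1 (h2.trans h11)
    exact this.trans (by
      push_cast
      exact mul_le_mul_of_nonneg_right (le_abs_self C) (by positivity))
  · have h1 := mul_le_mul_of_nonneg_left hl (show 0 ≤ (4 + 2 * |C|) * N by positivity)
    have h2 := mul_le_mul_of_nonneg_left (hE.trans (le_mul_of_one_le_right (by linarith) l1)) C0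
    linarith

end Pool.Agent.MP_39a890_nt.MS
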