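import Pool.Agent.MP_39a890_nt.ms.Spec

/-! Project MS, rows KER and WMV: the smoothing kernel and the weighted mean value bound. -/

set_option autoImplicit false

noncomputable section

namespace Pool.Agent.MP_39a890_nt.MS

open MeasureTheory Finset
open scoped ArithmeticFunction.vonMangoldt
open Pool.Agent.MP_db1c88_nt.z94 (ei blk DP wide wt)
open Pool.Agent.MP_3d0d30_nt.Six (E ck)
open Pool.Agent.MP_678834_nt Pool.Agent.MP_678834_nt.HL9
open Pool.Agent.MP_db1c88_nt Pool.Agent.MP_3d0d30_nt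

namespace KER

theorem lip : ∃ A : ℝ, 1 ≤ A ∧ ∀ x y : ℝ, |w1 x - w1 y| ≤ A * |x - y| := by
  obtain ⟨V1, V2, A, hA, -, -, hd⟩ := bump_w1.derivs
  exact ⟨A, hA, fun x y => convex_univ.norm_image_sub_le_of_norm_hasDerivWithin_le (f := w1)
    (f' := V1) (fun z _ => (hd z).1.hasDerivWithinAt) (fun z _ => (hd z).2.2.2.1)
    (Set.mem_univ y) (Set.mem_univ x)⟩

theorem le_zz {L : ℕ} (hL : 1 ≤ L) : (L : ℝ) ≤ zz L := by
  have hL0 : (0 : ℝ) < L := by exact_mod_cast hL
  have h4 : 1 ≤ Real.log 4 := by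
    rw [Real.le_log_iff_exp_le (by norm_num)]; linarith [Real.exp_one_lt_d9]
  calc (L : ℝ) = ∑ j ∈ Ico L (2 * L), w1 ((j : ℝ) / L - 1) := by
        rw [sum_congr rfl (g := fun _ => (1 : ℝ)) fun j hj => ?_, sum_const, Nat.card_Ico,
          show 2 * L - L = L by omega, nsmul_one]
        obtain ⟨h1, h2⟩ := mem_Ico.1 hj
        have a1 : (L : ℝ) ≤ j := by exact_mod_cast h1
        have a2 : (j : ℝ) ≤ 2 * L := by exact_mod_cast h2.le
        refine z94.bmp_eq_one ?_ ?_
        · rw [sub_nonneg, le_div_iff₀ hL0]; linarith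
        · have : (j : ℝ) / L ≤ 2 := by rw [div_le_iff₀ hL0]; linarith
          linarith
    _ ≤ _ := sum_le_sum_of_subset_of_nonneg
        (fun j hj => mem_range.2 (by have := mem_Ico.1 hj; omega)) fun j _ _ => w1_nonneg _

theorem kn_nonneg (L j : ℕ) : 0 ≤ kn L j :=
  div_nonneg (w1_nonneg _) (sum_nonneg fun _ _ => w1_nonneg _)

theorem sum_kn {L : ℕ} (hL : 1 ≤ L) : ∑ j ∈ range (4 * L), kn L j = 1 := by
  have hL0 : (0 : ℝ) < L := by exact_mod_cast hL
  unfold kn
  rw [← sum_div]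
  exact div_self (hL0.trans_le (le_zz hL)).ne'

theorem norm_E_sub_one (x : ℝ) : ‖E x - 1‖ ≤ 2 * Real.pi * |x| := by
  have h2 : E x = Complex.exp (Complex.I * ((2 * Real.pi * x : ℝ) : ℂ)) := by
    rw [E]; congr 1; push_cast; ring
  rw [h2]
  refine Real.norm_exp_I_mul_ofReal_sub_one_le.trans (le_of_eq ?_)
  rw [Real.norm_eq_abs, abs_mul, abs_of_pos (by positivity : 0 < 2 * Real.pi)]

end KER

open KER

theorem ker : KERStmt := by
  obtain ⟨A, hA, hl⟩ := lip
  refine ⟨A + 30, by linarith, fun x y => (hl x y).trans (by gcongr; linarith),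
    fun L hL => ⟨le_zz hL, fun θ => ?_, fun θ => ?_, fun θ δ hδ hθ => ?_⟩⟩
  · refine (norm_sum_le _ _).trans (le_of_eq_of_le (sum_congr rfl fun j _ => ?_) (sum_kn hL).le)
    rw [norm_mul, Six.norm_E, mul_one, Complex.norm_real, Real.norm_of_nonneg (kn_nonneg _ _)]
  · have e : kh L θ - 1 = ∑ j ∈ range (4 * L), (kn L j : ℂ) * (E (j * θ) - 1) := by
      have : ∑ j ∈ range (4 * L), (kn L j : ℂ) = 1 := by exact_mod_cast sum_kn hL
      simp only [mul_sub, mul_one, sum_sub_distrib, this, kh]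
    rw [e]
    refine (norm_sum_le _ _).trans ((sum_le_sum (g := fun j => kn L j * ((A + 30) * L * |θ|))
      fun j hj => ?_).trans ?_)
    · rw [norm_mul, Complex.norm_real, Real.norm_of_nonneg (kn_nonneg _ _)]
      refine mul_le_mul_of_nonneg_left ((norm_E_sub_one _).trans ?_) (kn_nonneg _ _)
      have a1 : (j : ℝ) ≤ 4 * L := by exact_mod_cast (mem_range.1 hj).le
      have a2 := Real.pi_lt_d2
      have a3 : (0 : ℝ) ≤ L := Nat.cast_nonneg _
      have a4 : (0 : ℝ) ≤ j := Nat.cast_nonneg _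
      rw [abs_mul, abs_of_nonneg a4, ← mul_assoc]
      refine mul_le_mul_of_nonneg_right ?_ (abs_nonneg _)
      nlinarith [Real.pi_pos]
    · rw [← sum_mul, sum_kn hL, one_mul]
  · have hL0 : (0 : ℝ) < L := by exact_mod_cast hL
    have hz := le_zz hL
    have e : kh L θ = (∑ n ∈ range (4 * L), (w1 ((n : ℝ) / L - 1) : ℂ) * E θ ^ n) / (zz L : ℂ) := by
      rw [sum_div]
      refine sum_congr rfl fun j _ => ?_
      rw [Tools1.E_nat_mul, kn]
      push_cast
      ring
    have a1 := Tools1.abel (fun x => w1 (x / L - 1)) (E θ) (4 * L)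
    have h3 := congrArg norm a1
    have b : ∀ x : ℝ, ‖((w1 x : ℝ) : ℂ)‖ ≤ 1 := fun x => by
      rw [Complex.norm_real, Real.norm_of_nonneg (w1_nonneg _)]; exact w1_le_one _
    have h4 : ‖∑ n ∈ range (4 * L), ((w1 (((n : ℝ) - 1) / L - 1) - w1 ((n : ℝ) / L - 1) : ℝ) : ℂ) *
        E θ ^ n‖ ≤ 4 * A := by
      refine (norm_sum_le _ _).trans ((sum_le_card_nsmul _ _ (A / L) fun n _ => ?_).trans ?_)
      · rw [norm_mul, norm_pow, Six.norm_E, one_pow, mul_one, Complex.norm_real]
        refine (hl _ _).trans (le_of_eq ?_)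
        rw [show ((n : ℝ) - 1) / L - 1 - ((n : ℝ) / L - 1) = -(1 / L) by ring, abs_neg,
          abs_of_pos (by positivity)]
        ring
      · rw [card_range, nsmul_eq_mul]
        push_cast
        exact le_of_eq (by field_simp)
    have h5 := Tools1.le_norm_E_sub_one hθ
    set X := ‖∑ n ∈ range (4 * L), (w1 ((n : ℝ) / L - 1) : ℂ) * E θ ^ n‖ with hX
    have hX0 : 0 ≤ X := norm_nonneg _
    have h6 : 4 * δ * X ≤ 4 * A + 1 + 1 := by
      rw [norm_mul] at h3
      refine (mul_le_mul_of_nonneg_right h5 hX0).trans (h3.le.trans ((norm_sub_le _ _).trans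
        (add_le_add ((norm_add_le _ _).trans (add_le_add h4 ?_)) (b _))))
      rw [norm_mul, norm_pow, Six.norm_E, one_pow, mul_one]
      exact b _
    rw [e, norm_div, Complex.norm_real, Real.norm_of_nonneg (hL0.le.trans hz), ← hX,
      div_le_div_iff₀ (hL0.trans_le hz) (by positivity)]
    calc X * (L * δ) = δ * X * L := by ring
      _ ≤ (A + 30) * zz L := mul_le_mul (by linarith) hz hL0.le (by linarith)

theorem wmv : WMVStmt := by
  refine ⟨200, by norm_num, fun s a K T hT hs => ?_⟩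
  have hp := Real.pi_gt_three
  have hp' := Real.pi_lt_d2
  rcases s.eq_empty_or_nonempty with rfl | ⟨n0, hn0⟩
  · simp [DP]
  have hK : 1 ≤ K := le_trans (by exact_mod_cast (hs n0 hn0).1) (hs n0 hn0).2
  set θ : ℕ → ℝ := fun n => Real.log n / (2 * Real.pi) with hθ
  have hD : ∀ t, DP s a t = ∑ n ∈ s, a n * E (t * θ n) := fun t =>
    sum_congr rfl fun n _ => by rw [ei_eq_E, hθ, mul_div_assoc]
  have i1 := Six.Kn.intms (Six.integrable_ck_div hT.ne') s a θ
  have h1 := Six.Kn.msC s a θ hT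
  simp only [← hD] at i1 h1
  set Λ₁ := 1 + 2 * Real.pi * K / T with hΛ
  have hq : 0 < 2 * Real.pi * K / T := by positivity
  have hΛ1 : 1 ≤ Λ₁ := by linarith
  have h2 := Tools1.schur s a (fun i j => Real.exp (-(2 * Real.pi * T * |θ i - θ j|)))
    (B := 10 * Λ₁) (fun _ _ => (Real.exp_pos _).le) (fun i j => by rw [abs_sub_comm]) fun i hi => by
      refine le_trans (sum_le_sum fun j hj => ?_) (Tools1.rowsum s i hΛ1)
      refine le_trans ?_ (Six.exp_le_ck _)
      have h3 := z94.abs_sub_le_log (x := i) (y := j) (by exact_mod_cast (hs i hi).1)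
        (by exact_mod_cast (hs j hj).1) (hs i hi).2 (hs j hj).2
      rw [Real.exp_le_exp, neg_le_neg_iff, mul_assoc (2 * Real.pi)]
      gcongr
      rw [hθ, ← sub_div, abs_div, abs_div, abs_of_pos (by linarith : 0 < Λ₁),
        abs_of_pos (by positivity : 0 < 2 * Real.pi), div_le_iff₀ (by linarith)]
      refine h3.trans ?_
      calc K * |Real.log i - Real.log j|
          = T * (|Real.log i - Real.log j| / (2 * Real.pi)) * (2 * Real.pi * K / T) := by
            field_simp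
        _ ≤ _ := by gcongr; linarith
  have hS : 0 ≤ ∑ n ∈ s, ‖a n‖ ^ 2 := by positivity
  have h4 : ∫ t : ℝ, ck (t / T) * ‖DP s a t‖ ^ 2 ≤
      Real.pi * T * (10 * Λ₁ * ∑ n ∈ s, ‖a n‖ ^ 2) := by
    have h3 := congrArg norm h1
    rw [Complex.norm_real, norm_mul, ← Complex.ofReal_mul, Complex.norm_real,
      Real.norm_of_nonneg (by positivity : 0 ≤ Real.pi * T)] at h3
    refine (le_abs_self _).trans (le_of_eq_of_le h3 ?_)
    gcongr
  refine ⟨i1, h4.trans ?_⟩
  calc _ = 10 * Real.pi * (T + 2 * Real.pi * K) * ∑ n ∈ s, ‖a n‖ ^ 2 := by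
        rw [hΛ]; field_simp
    _ ≤ _ := by
        gcongr ?_ * _
        have : Real.pi * Real.pi ≤ 10 := by nlinarith
        nlinarith

end Pool.Agent.MP_39a890_nt.MS
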