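import Pool.Agent.MP_39a890_nt.ms.Spec

/-! The large sieve property of the multipliers with a large prime factor. -/

set_option autoImplicit false

noncomputable section

namespace Pool.Agent.MP_39a890_nt.MS

open MeasureTheory Finset
open scoped ArithmeticFunction.vonMangoldt
open Pool.Agent.MP_db1c88_nt.z94 (ei blk DP wide wt)
open Pool.Agent.MP_3d0d30_nt.Six (E ck)
open Pool.Agent.MP_678834_nt Pool.Agent.MP_678834_nt.HL9

namespace LSL

theorem cover (g : ℕ → ℝ) (hg : ∀ a, 0 ≤ g a) (Y : ℝ) (A : ℕ) :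
    ∑ a ∈ good Y A, g a ≤
      ∑ i ∈ (range (Nat.log 2 (2 * A) + 1)).filter (fun i => Y ≤ 2 * ((2 ^ i : ℕ) : ℝ)),
        ∑ m ∈ Icc 1 (2 * A / 2 ^ i), ∑ p ∈ pr (2 ^ i), g (m * p) := by
  classical
  have h : good Y A ⊆ (((range (Nat.log 2 (2 * A) + 1)).filter
      (fun i => Y ≤ 2 * ((2 ^ i : ℕ) : ℝ))).sigma
        fun i => Icc 1 (2 * A / 2 ^ i) ×ˢ pr (2 ^ i)).image fun x => x.2.1 * x.2.2 := by
    intro a ha
    obtain ⟨h1, p, h2, h3⟩ := mem_filter.1 ha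
    obtain ⟨h4, h5⟩ := mem_Ioc.1 h1
    have hp := Nat.prime_of_mem_primeFactors h2
    obtain ⟨m, rfl⟩ := Nat.dvd_of_mem_primeFactors h2
    have p2 := hp.two_le
    have l1 : 2 ^ Nat.log 2 (p - 1) ≤ p - 1 := Nat.pow_log_le_self 2 (by omega)
    have l2 : p - 1 < 2 ^ (Nat.log 2 (p - 1) + 1) := Nat.lt_pow_succ_log_self one_lt_two _
    generalize Nat.log 2 (p - 1) = i at l1 l2
    rw [pow_succ] at l2
    have m1 : 1 ≤ m := Nat.pos_of_ne_zero fun e => by rw [e] at h4; omega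
    have l3 : m * 2 ^ i ≤ 2 * A := by
      refine le_trans ?_ h5
      rw [mul_comm p]
      exact Nat.mul_le_mul_left _ (by omega)
    refine mem_image.2 ⟨⟨i, m, p⟩, mem_sigma.2 ⟨mem_filter.2 ⟨mem_range.2 (Nat.lt_succ_of_le ?_), ?_⟩,
      mem_product.2 ⟨mem_Icc.2 ⟨m1, (Nat.le_div_iff_mul_le (by positivity)).2 l3⟩,
        mem_filter.2 ⟨mem_Ioc.2 ⟨by dsimp only; omega, by dsimp only; omega⟩, hp⟩⟩⟩, mul_comm _ _⟩
    · exact Nat.le_log_of_pow_le one_lt_two ((Nat.le_mul_of_pos_left _ m1).trans l3)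
    · have : p ≤ 2 * 2 ^ i := by omega
      exact h3.le.trans (by exact_mod_cast this)
  refine (sum_le_sum_of_subset_of_nonneg h fun a _ _ => hg a).trans
    ((sum_image_le_of_nonneg fun a _ => hg a).trans ?_)
  rw [sum_sigma]
  exact sum_le_sum fun i _ => (sum_product _ _ _).le

theorem shift (h0 : HM0Stmt) {u G : ℝ → ℂ} (hu : Continuous u) (hG : Continuous G) {T D : ℝ}
    {P m : ℕ} (hm : 1 ≤ m) (hD : ∀ s ∈ Set.Icc (-T) T,
      ∫ t in Set.Icc (-T) T, ‖G t‖ ^ 2 * ‖∑ p ∈ pr P, ei ((t - s) * -Real.log p)‖ ≤ D) :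
    ∑ p ∈ pr P, ‖∫ t in Set.Icc (-T) T, u t * G t * ei (t * -Real.log (m * p : ℕ))‖ ^ 2 ≤
      D * ∫ t in Set.Icc (-T) T, ‖u t‖ ^ 2 := by
  obtain ⟨M₁, h1⟩ := (isCompact_Icc (a := -T) (b := T)).exists_bound_of_continuousOn hu.continuousOn
  obtain ⟨M₂, h2⟩ := (isCompact_Icc (a := -T) (b := T)).exists_bound_of_continuousOn hG.continuousOn
  have e : ∀ t, ‖u t * ei (t * -Real.log m)‖ = ‖u t‖ := fun t => by
    rw [norm_mul, Pool.Agent.MP_db1c88_nt.z94.norm_ei, mul_one]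
  have := h0 ℕ (pr P) (fun p => -Real.log p) (fun t => u t * ei (t * -Real.log m)) G T D
    (max M₁ M₂) (by fun_prop) hG.measurable
    (fun t ht => ⟨by rw [e]; exact (h1 t ht).trans (le_max_left _ _),
      (h2 t ht).trans (le_max_right _ _)⟩) hD
  simp only [e] at this
  refine le_trans (le_of_eq (sum_congr rfl fun p hp => ?_)) this
  have p0 : (p : ℝ) ≠ 0 := by exact_mod_cast (mem_filter.1 hp).2.ne_zero
  have m0 : (m : ℝ) ≠ 0 := by exact_mod_cast (by omega : m ≠ 0)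
  congr 3
  ext t
  rw [Nat.cast_mul, Real.log_mul m0 p0, neg_add, mul_add, Pool.Agent.MP_db1c88_nt.z94.ei_add]
  ring

end LSL

theorem ls : HM0Stmt → LS1Stmt → LSFor gd := by
  intro h0 h1 K B
  obtain ⟨C₀, C, N₁, h⟩ := h1 (K + 1) B
  have hC : 0 ≤ max C 0 := le_max_right _ _
  refine ⟨C₀, 8 * max C 0, max N₁ 3, by positivity, ?_⟩
  intro N A q χ hN hA hAN hq hqB u hu
  have N3 : (3 : ℝ) ≤ N := (le_max_right _ _).trans hN
  have A8 : (8 : ℝ) ≤ A := by exact_mod_cast hA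
  have AN : (A : ℝ) ≤ N := by exact_mod_cast hAN
  have L1 : 1 ≤ Real.log N := by
    rw [Real.le_log_iff_exp_le (by linarith)]
    linarith [Real.exp_one_lt_d9]
  have hI : 0 ≤ ∫ t in Set.Icc (-(N : ℝ)) N, ‖u t‖ ^ 2 := integral_nonneg fun t => by positivity
  obtain ⟨Z, hZ⟩ : ∃ Z, Z = max C 0 * ((A : ℝ) * N) ^ 2 / Real.log N ^ (K + 1) := ⟨_, rfl⟩
  have Z0 : 0 ≤ Z := by rw [hZ]; positivity
  refine (LSL.cover (fun a => ‖∫ t in Set.Icc (-(N : ℝ)) N,
    u t * GG (A * N) χ t * ei (t * -Real.log a)‖ ^ 2) (fun a => by positivity) _ A).trans ?_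
  generalize hJ : ∫ t in Set.Icc (-(N : ℝ)) N, ‖u t‖ ^ 2 = J at hI ⊢
  have lg : ((Nat.log 2 (2 * A) + 1 : ℕ) : ℝ) ≤ 4 * Real.log N := by
    have c1 : (2 : ℝ) ^ Nat.log 2 (2 * A) ≤ 2 * N := by
      have : 2 ^ Nat.log 2 (2 * A) ≤ 2 * N :=
        (Nat.pow_log_le_self 2 (by omega)).trans (by omega)
      exact_mod_cast this
    have c2 := Real.log_le_log (by positivity) c1
    rw [Real.log_pow, Real.log_mul (by norm_num) (by linarith)] at c2
    have c3 : (0 : ℝ) ≤ Nat.log 2 (2 * A) := Nat.cast_nonneg _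
    push_cast
    nlinarith [Real.log_two_gt_d9, Real.log_two_lt_d9]
  refine (sum_le_card_nsmul _ _ (2 * A * Z * J) fun i hi => ?_).trans ?_
  · refine (sum_le_card_nsmul _ _ ((2 ^ i : ℕ) * Z * J) fun m hm => ?_).trans ?_
    · rw [← hJ]
      refine LSL.shift h0 hu (Pool.Agent.MP_db1c88_nt.z94.continuous_DP _ _) (mem_Icc.1 hm).1
        fun s hs => (h N (A * N) s (2 ^ i) q χ ((le_max_left _ _).trans hN) (by nlinarith)
          (by nlinarith) (mem_filter.1 hi).2 hq hqB hs).trans ?_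
      rw [hZ, ← mul_div_assoc, ← mul_assoc, mul_comm ((2 ^ i : ℕ) : ℝ)]
      gcongr
      exact le_max_left _ _
    · rw [nsmul_eq_mul, Nat.card_Icc, Nat.add_sub_cancel, ← mul_assoc, ← mul_assoc]
      have : ((2 * A / 2 ^ i : ℕ) : ℝ) * (2 ^ i : ℕ) ≤ 2 * A := by
        exact_mod_cast Nat.div_mul_le_self (2 * A) (2 ^ i)
      gcongr
  · have c : (((range (Nat.log 2 (2 * A) + 1)).filter fun i =>
        Real.log N ^ C₀ ≤ 2 * ((2 ^ i : ℕ) : ℝ)).card : ℝ) ≤ 4 * Real.log N :=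
      le_trans (by exact_mod_cast (card_filter_le _ _).trans (card_range _).le) lg
    rw [nsmul_eq_mul]
    calc _ ≤ 4 * Real.log N * (2 * A * Z * J) := by gcongr
      _ = _ := by
        rw [hZ, pow_succ (Real.log N)]
        field_simp
        ring

end Pool.Agent.MP_39a890_nt.MS
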