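import Pool.Agent.MP_39a890_nt.ms.Spec

/-! Project MS, row LS1: the mean square of the prime polynomial against a prime kernel. -/

set_option autoImplicit false

noncomputable section

namespace Pool.Agent.MP_39a890_nt.MS

open MeasureTheory Finset Filter
open scoped ArithmeticFunction.vonMangoldt
open Pool.Agent.MP_db1c88_nt.z94 (ei blk DP wide wt)
open Pool.Agent.MP_3d0d30_nt.Six (E ck)
open Pool.Agent.MP_678834_nt Pool.Agent.MP_678834_nt.HL9
open Pool.Agent.MP_db1c88_nt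

namespace LS1

theorem cont_DP (s : Finset ℕ) (c : ℕ → ℂ) : Continuous (DP s c) := continuous_GP s c _

theorem ker_eq (P : ℕ) (s t : ℝ) :
    ∑ p ∈ pr P, ei ((t - s) * -Real.log p) = DP (pr P) (fun _ => 1) (s - t) := by
  unfold DP
  refine sum_congr rfl fun p _ => ?_
  rw [one_mul]
  congr 1
  ring

theorem ker_le (P : ℕ) (x : ℝ) : ‖DP (pr P) (fun _ => 1) x‖ ≤ P := by
  unfold DP
  refine (norm_sum_le _ _).trans ?_
  simp only [one_mul, z94.norm_ei, sum_const, nsmul_eq_mul, mul_one, Nat.cast_le]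
  refine (card_filter_le _ _).trans ?_
  rw [Nat.card_Ioc]
  omega

/-- the plain mean square -/
theorem mean : ∃ C : ℝ, 0 ≤ C ∧ ∀ (N X : ℝ) (q : ℕ) (χ : DirichletCharacter ℂ q), 0 < N →
    4 ≤ Real.log N → N ≤ X → X ≤ N ^ 2 →
    ∫ t in Set.Icc (-N) N, ‖GG X χ t‖ ^ 2 ≤ C * X ^ 2 * Real.log N ^ 2 := by
  obtain ⟨C, hC⟩ := mv
  refine ⟨|C| * 1404, by positivity, fun N X q χ hN hL hNX hX => ?_⟩
  have hX0 : 0 < X := hN.trans_le hNX
  have h1 := hC (wide X 4) (fun n => lc χ n * (wt X 4 n : ℝ)) (12 * X) N hN fun n hn => by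
    have := (z94.mem_wide hX0.le (by norm_num)).1 hn
    exact ⟨this.1, by linarith [this.2]⟩
  rw [intervalIntegral.integral_of_le (by linarith), ← integral_Icc_eq_integral_Ioc] at h1
  have hlog : Real.log (12 * X) + 1 ≤ 3 * Real.log N := by
    have e1 : Real.log X ≤ 2 * Real.log N := by
      have := Real.log_le_log hX0 hX
      rw [Real.log_pow] at this
      exact_mod_cast this
    have e2 : Real.log 12 ≤ 3 := by
      have e3 : Real.log 12 ≤ Real.log (4 * 4) := Real.log_le_log (by norm_num) (by norm_num)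
      rw [Real.log_mul (by norm_num) (by norm_num)] at e3
      linarith [log_four_lt]
    rw [Real.log_mul (by norm_num) hX0.ne']
    linarith
  have h2 : ∑ n ∈ wide X 4, ‖lc χ n * ((wt X 4 n : ℝ) : ℂ)‖ ^ 2 ≤
      12 * X * (3 * Real.log N) ^ 2 := by
    have h3 : ∀ n ∈ wide X 4, ‖lc χ n * ((wt X 4 n : ℝ) : ℂ)‖ ^ 2 ≤ (3 * Real.log N) ^ 2 := by
      intro n hn
      have hm := (z94.mem_wide hX0.le (by norm_num)).1 hn
      refine pow_le_pow_left₀ (norm_nonneg _) ?_ 2
      rw [norm_mul, Complex.norm_real, wt_eq, Real.norm_of_nonneg (w1_nonneg _)]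
      refine (mul_le_of_le_one_right (norm_nonneg _) (w1_le_one _)).trans ?_
      refine (norm_lc_le χ n).trans (le_trans ?_ hlog)
      have hn1 : (0 : ℝ) < n := by exact_mod_cast hm.1
      have := Real.log_le_log hn1 (show (n : ℝ) ≤ 12 * X by linarith [hm.2])
      linarith
    refine (sum_le_card_nsmul _ _ _ h3).trans ?_
    rw [nsmul_eq_mul]
    have h4 := z94.card_wide_le (c := 4) hX0.le (by norm_num)
    exact mul_le_mul_of_nonneg_right (by linarith) (sq_nonneg _)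
  refine h1.trans ?_
  have h5 : 0 ≤ ∑ n ∈ wide X 4, ‖lc χ n * ((wt X 4 n : ℝ) : ℂ)‖ ^ 2 :=
    sum_nonneg fun _ _ => sq_nonneg _
  calc C * (N + 12 * X) * ∑ n ∈ wide X 4, ‖lc χ n * ((wt X 4 n : ℝ) : ℂ)‖ ^ 2
      ≤ |C| * (13 * X) * (12 * X * (3 * Real.log N) ^ 2) := by
        refine mul_le_mul ?_ h2 h5 (by positivity)
        exact mul_le_mul (le_abs_self C) (by linarith) (by positivity) (abs_nonneg C)
    _ = |C| * 1404 * X ^ 2 * Real.log N ^ 2 := by ring

/-- the numerical bound for the mass -/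
theorem num (K C₀ P j : ℕ) (L X Cp δ : ℝ) (hCp : 0 ≤ Cp) (hP : 1 ≤ P) (hL : 8 ≤ L)
    (hj : (j : ℝ) + 1 ≤ L) (hX : 1 ≤ X) (hC₀ : 1 ≤ C₀) (hδ : (2 * K + 6 : ℝ) / C₀ ≤ δ / 2)
    (h1 : (L ^ j) ^ C₀ ≤ X) (h2 : Cp * L ^ (2 * K + 6) ≤ X ^ (δ / 2)) :
    Cp * (2 * P : ℝ) ^ (j + 1) * (j + 1).factorial * (P : ℝ) ^ (j + 1) /
      (P / L ^ (K + 2)) ^ (2 * (j + 1)) ≤ X ^ δ := by
  have hP0 : (0 : ℝ) < P := by exact_mod_cast hP
  have hL0 : 0 < L := by linarith
  have e1 : Cp * (2 * P : ℝ) ^ (j + 1) * (j + 1).factorial * (P : ℝ) ^ (j + 1) /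
      (P / L ^ (K + 2)) ^ (2 * (j + 1)) =
      Cp * ((j + 1).factorial * (2 * L ^ (2 * K + 4)) ^ (j + 1)) := by
    rw [pow_mul, div_pow, div_pow, mul_pow, mul_pow, ← pow_mul L (K + 2) 2,
      show (K + 2) * 2 = 2 * K + 4 by ring, ← pow_mul (P : ℝ) 2, mul_comm 2 (j + 1), pow_mul]
    field_simp
  have e2 : ((j + 1).factorial : ℝ) ≤ L ^ (j + 1) := by
    have : ((j + 1).factorial : ℝ) ≤ ((j + 1 : ℕ) : ℝ) ^ (j + 1) := by
      exact_mod_cast Nat.factorial_le_pow (j + 1)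
    refine this.trans (pow_le_pow_left₀ (by positivity) ?_ _)
    push_cast
    exact hj
  have e3 : ((j + 1).factorial : ℝ) * (2 * L ^ (2 * K + 4)) ^ (j + 1) ≤
      L ^ (2 * K + 6) * (L ^ j) ^ (2 * K + 6) := by
    calc ((j + 1).factorial : ℝ) * (2 * L ^ (2 * K + 4)) ^ (j + 1)
        ≤ L ^ (j + 1) * (L * L ^ (2 * K + 4)) ^ (j + 1) := by
          gcongr
          linarith
      _ = L ^ (2 * K + 6) * (L ^ j) ^ (2 * K + 6) := by ring
  have e4 : (L ^ j) ^ (2 * K + 6) ≤ X ^ (δ / 2) := by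
    have hC : (0 : ℝ) < C₀ := by exact_mod_cast hC₀
    have a1 : L ^ j ≤ X ^ (1 / C₀ : ℝ) := by
      have a2 := Real.rpow_le_rpow (by positivity) h1 (show (0 : ℝ) ≤ 1 / C₀ by positivity)
      rwa [← Real.rpow_natCast (L ^ j) C₀, ← Real.rpow_mul (by positivity),
        mul_one_div_cancel hC.ne', Real.rpow_one] at a2
    refine (pow_le_pow_left₀ (by positivity) a1 _).trans ?_
    rw [← Real.rpow_natCast, ← Real.rpow_mul (by linarith)]
    refine Real.rpow_le_rpow_of_exponent_le hX (le_trans (le_of_eq ?_) hδ)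
    push_cast
    ring
  rw [e1]
  calc Cp * ((j + 1).factorial * (2 * L ^ (2 * K + 4)) ^ (j + 1))
      ≤ Cp * (L ^ (2 * K + 6) * (L ^ j) ^ (2 * K + 6)) := mul_le_mul_of_nonneg_left e3 hCp
    _ = Cp * L ^ (2 * K + 6) * (L ^ j) ^ (2 * K + 6) := by ring
    _ ≤ X ^ (δ / 2) * X ^ (δ / 2) := mul_le_mul h2 e4 (by positivity) (by positivity)
    _ = X ^ δ := by rw [← Real.rpow_add (by linarith), add_halves]

/-- the choice of the exponent -/
theorem expo (C₀ P : ℕ) (N : ℝ) (hN : 1 ≤ N) (hL : 8 ≤ Real.log N) (hC₀ : 1 ≤ C₀)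
    (hP : Real.log N ^ C₀ ≤ 2 * P) : ∃ j : ℕ, 2 * N ≤ (2 * P : ℝ) ^ (j + 1) ∧
      (j : ℝ) + 1 ≤ Real.log N ∧ (Real.log N ^ j) ^ C₀ ≤ 2 * N := by
  have h8 : Real.log N ≤ 2 * P :=
    le_trans (le_self_pow₀ (by linarith) (by omega)) hP
  obtain ⟨j, hj1, hj2⟩ := exists_nat_pow_near (x := 2 * N) (y := (2 * P : ℝ)) (by linarith)
    (by linarith)
  refine ⟨j, hj2.le, ?_, ?_⟩
  · have a1 : (8 : ℝ) ^ j ≤ 2 * N := (pow_le_pow_left₀ (by norm_num) (by linarith) j).trans hj1
    have a2 := Real.log_le_log (by positivity) a1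
    rw [Real.log_pow, Real.log_mul (by norm_num) (by linarith),
      show (8 : ℝ) = 2 ^ 3 by norm_num, Real.log_pow] at a2
    have a3 := Real.log_two_gt_d9
    have a4 := Real.log_two_lt_d9
    have a5 : (0 : ℝ) ≤ j := Nat.cast_nonneg j
    push_cast at a2
    nlinarith
  · rw [← pow_mul, mul_comm j C₀, pow_mul]
    exact (pow_le_pow_left₀ (by positivity) hP j).trans hj1

/-- splitting by the size of the kernel -/
theorem split (G k : ℝ → ℝ) (hG : Continuous G) (hk : Continuous k) (hG0 : ∀ t, 0 ≤ G t)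
    (N V P : ℝ) (hV : 0 ≤ V) (hP : ∀ t, k t ≤ P) :
    ∫ t in Set.Icc (-N) N, G t * k t ≤ V * (∫ t in Set.Icc (-N) N, G t) +
      P * ∫ t, Set.indicator {t | t ∈ Set.Icc (-N) N ∧ V ≤ k t} (fun _ => (1 : ℝ)) t * G t := by
  set S : Set ℝ := {t | t ∈ Set.Icc (-N) N ∧ V ≤ k t} with hS
  have hSm : MeasurableSet S := measurableSet_Icc.inter (isClosed_le continuous_const hk).measurableSet
  have hsub : S ⊆ Set.Icc (-N) N := fun t ht => ht.1
  have iG : IntegrableOn G (Set.Icc (-N) N) := hG.integrableOn_Icc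
  have e1 : ∫ t, Set.indicator S (fun _ => (1 : ℝ)) t * G t =
      ∫ t in Set.Icc (-N) N, Set.indicator S G t := by
    rw [setIntegral_indicator hSm, Set.inter_eq_self_of_subset_right hsub,
      ← integral_indicator hSm]
    congr 1
    funext t
    by_cases h : t ∈ S <;> simp [h]
  have iS : IntegrableOn (Set.indicator S G) (Set.Icc (-N) N) := iG.indicator hSm
  rw [e1, ← integral_const_mul, ← integral_const_mul,
    ← integral_add (iG.const_mul V) (iS.const_mul P)]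
  refine setIntegral_mono_on (hG.mul hk).integrableOn_Icc
    ((iG.const_mul V).add (iS.const_mul P)) measurableSet_Icc fun t ht => ?_
  by_cases h : t ∈ S
  · rw [Set.indicator_of_mem h]
    have := hG0 t
    have := hP t
    nlinarith
  · rw [Set.indicator_of_notMem h]
    have h1 : k t ≤ V := by
      by_contra h2
      exact h ⟨ht, (not_le.1 h2).le⟩
    have := hG0 t
    nlinarith

end LS1

theorem ls1 : SPStmt → PMStmt → LS1Stmt := by
  rintro ⟨δ, hδ, sp⟩ ⟨Cp, hCp, pm⟩ K B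
  obtain ⟨C1, X₀, sp⟩ := sp K B
  obtain ⟨Cm, hCm, mean⟩ := LS1.mean
  obtain ⟨C₀, hC₀⟩ := exists_nat_ge ((4 * K + 12 : ℝ) / δ + 1)
  have hq0 : 0 ≤ (4 * K + 12 : ℝ) / δ := by positivity
  have hC1 : 1 ≤ C₀ := by
    have : (1 : ℝ) ≤ C₀ := by linarith
    exact_mod_cast this
  have hC2 : (2 * K + 6 : ℝ) / C₀ ≤ δ / 2 := by
    have h0 : (0 : ℝ) < C₀ := by linarith
    have h1 : (4 * K + 12 : ℝ) / δ ≤ C₀ := by linarith
    rw [div_le_iff₀ hδ] at h1
    rw [div_le_iff₀ h0]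
    linarith
  obtain ⟨N₀, hN₀⟩ := eventually_atTop.1 ((ev_log 8).and
    ((ev_log_pow (half_pos hδ) (2 * K + 6) Cp).and
      ((eventually_ge_atTop 1).and (eventually_ge_atTop X₀))))
  refine ⟨C₀, Cm + |C1|, N₀, fun N X s P q χ hN h8 hX hP hq hqB hs => ?_⟩
  obtain ⟨hL, hpow, hN1, hX₀⟩ := hN₀ N hN
  have hNX : N ≤ X := by linarith
  have hL0 : 0 < Real.log N := by linarith
  have hP1 : 1 ≤ P := by
    have h1 : Real.log N ≤ 2 * P := le_trans (le_self_pow₀ (by linarith) (by omega)) hP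
    have : (1 : ℝ) ≤ P := by linarith
    exact_mod_cast this
  have hP0 : (0 : ℝ) < P := by exact_mod_cast hP1
  obtain ⟨j, hj1, hj2, hj3⟩ := LS1.expo C₀ P N hN1 hL hC1 hP
  set V : ℝ := P / Real.log N ^ (K + 2) with hV
  have hV0 : 0 < V := by positivity
  have hlog : Real.log N ≤ Real.log X := Real.log_le_log (by linarith) hNX
  have ck : Continuous fun t : ℝ => ‖DP (pr P) (fun _ => 1) (s - t)‖ :=
    ((LS1.cont_DP _ _).comp (continuous_const.sub continuous_id)).norm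
  have cG : Continuous fun t : ℝ => ‖GG X χ t‖ ^ 2 := (LS1.cont_DP _ _).norm.pow 2
  have h1 := LS1.split _ _ cG ck (fun t => sq_nonneg _) N V P hV0.le fun t => LS1.ker_le P _
  set S : Set ℝ := {t | t ∈ Set.Icc (-N) N ∧ V ≤ ‖DP (pr P) (fun _ => 1) (s - t)‖} with hS
  have hSm : MeasurableSet S :=
    measurableSet_Icc.inter (isClosed_le continuous_const ck).measurableSet
  have hsub : S ⊆ Set.Icc (-N) N := fun t ht => ht.1
  have hfin : volume S ≠ ⊤ := ((measure_mono hsub).trans_lt measure_Icc_lt_top).ne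
  have hmass : volume.real S ≤ X ^ δ := by
    have a1 := pm P (j + 1) (2 * N) V hP1 (by omega) (by linarith) hj1 hV0
    have a2 := LS1.num K C₀ P j (Real.log N) X Cp δ (by linarith) hP1 hL hj2 (by linarith) hC1 hC2
      (by linarith) (hpow.trans (Real.rpow_le_rpow (by linarith) hNX (by linarith)))
    refine le_trans ?_ (a1.trans a2)
    set R : Set ℝ := {τ : ℝ | τ ∈ Set.Icc (-(2 * N)) (2 * N) ∧ V ≤ ‖DP (pr P) (fun _ => 1) τ‖}
      with hR
    have a3 : S ⊆ (fun t => s - t) ⁻¹' R := fun t ht =>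
      ⟨⟨by linarith [ht.1.2, hs.1], by linarith [ht.1.1, hs.2]⟩, ht.2⟩
    have hRm : MeasurableSet R := measurableSet_Icc.inter
      (isClosed_le continuous_const (LS1.cont_DP _ _).norm).measurableSet
    have a4 : volume ((fun t => s - t) ⁻¹' R) = volume R :=
      (volume.measurePreserving_sub_left s).measure_preimage hRm.nullMeasurableSet
    have a5 : volume R ≠ ⊤ :=
      ((measure_mono (fun t ht => ht.1 : R ⊆ Set.Icc _ _)).trans_lt measure_Icc_lt_top).ne
    exact ENNReal.toReal_mono a5 ((measure_mono a3).trans a4.le)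
  have hW : Wt (Set.indicator S fun _ => (1 : ℝ)) 1 (X ^ δ) :=
    { meas := measurable_const.indicator hSm
      nn := fun t => Set.indicator_nonneg (fun _ _ => zero_le_one) t
      le := fun t => Set.indicator_le_self' (fun _ _ => zero_le_one) t
      int := (integrable_indicator_iff hSm).2 (integrableOn_const hfin)
      mass := by
        rw [integral_indicator hSm]
        simpa using hmass }
  have h2 := sp X q χ _ (by linarith) hq (hqB.trans (pow_le_pow_left₀ hL0.le hlog B)) hW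
    fun t ht => Set.indicator_of_notMem (fun h => by
      have := abs_le.2 (hsub h)
      linarith) _
  have h3 := mean N X q χ (by linarith) (by linarith) hNX hX
  simp only [LS1.ker_eq]
  refine h1.trans ?_
  have h4 : C1 * X ^ 2 / Real.log X ^ K ≤ |C1| * X ^ 2 / Real.log N ^ K :=
    div_le_div₀ (by positivity) (mul_le_mul_of_nonneg_right (le_abs_self C1) (sq_nonneg _))
      (by positivity) (pow_le_pow_left₀ hL0.le hlog K)
  refine (add_le_add (mul_le_mul_of_nonneg_left h3 hV0.le)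
    (mul_le_mul_of_nonneg_left (h2.trans h4) hP0.le)).trans (le_of_eq ?_)
  rw [hV]
  field_simp
  ring

end Pool.Agent.MP_39a890_nt.MS
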