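import Pool.Agent.MP_39a890_nt.ms.Spec

/-! Project MS, row LSF: the large sieve property of a full dyadic range of multipliers. -/

set_option autoImplicit false

noncomputable section

namespace Pool.Agent.MP_39a890_nt.MS

open MeasureTheory Finset Filter
open scoped ArithmeticFunction.vonMangoldt
open Pool.Agent.MP_db1c88_nt.z94 (ei blk DP wide wt)
open Pool.Agent.MP_3d0d30_nt.Six (E ck)
open Pool.Agent.MP_678834_nt Pool.Agent.MP_678834_nt.HL9

namespace LSF

/-- the kernel away from the origin -/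
theorem ker_far : ∃ C : ℝ, 0 ≤ C ∧ ∀ J : ℕ, ∀ᶠ L : ℝ in atTop, ∀ (A : ℕ) (x : ℝ),
    Real.exp (L ^ (9 / 10 : ℝ)) ≤ A → L ^ J ≤ |x| → |x| ≤ Real.exp (2 * L) →
    ‖∑ a ∈ Ioc A (2 * A), ei (x * -Real.log a)‖ ≤ C * A / L ^ J := by
  obtain ⟨C, c, hc, h⟩ := PW.charSum
  refine ⟨2 * |C|, by positivity, fun J => ?_⟩
  filter_upwards [ev_log_pow (δ := 3 / 10) (by norm_num) 1 (729 * J / c), eventually_ge_atTop 1]
    with L h1 hL A x hA hx1 hx2
  have hL0 : 0 < L := by linarith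
  obtain ⟨y, hy1, hy3, hy9, hy10⟩ : ∃ y : ℝ, 1 ≤ y ∧ L ^ (3 / 10 : ℝ) = y ^ 3 ∧
      L ^ (9 / 10 : ℝ) = y ^ 9 ∧ L = y ^ 10 := by
    refine ⟨L ^ (1 / 10 : ℝ), Real.one_le_rpow hL (by norm_num), ?_, ?_, ?_⟩
    · rw [← Real.rpow_natCast, ← Real.rpow_mul hL0.le]; norm_num
    · rw [← Real.rpow_natCast, ← Real.rpow_mul hL0.le]; norm_num
    · rw [← Real.rpow_natCast, ← Real.rpow_mul hL0.le]; norm_num
  rw [hy3, pow_one] at h1
  rw [hy9] at hA
  have hA0 : (0 : ℝ) < A := (Real.exp_pos _).trans_le hA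
  have hA1 : 1 ≤ A := by exact_mod_cast hA0
  have hlA : y ^ 9 ≤ Real.log A := (Real.le_log_iff_exp_le hA0).2 hA
  have hy0 : 0 < y := by linarith
  set k := ⌈2 * y⌉₊ with hk
  have hk1 : 2 * y ≤ k := Nat.le_ceil _
  have hk2 : (k : ℝ) ≤ 3 * y := by
    have := Nat.ceil_lt_add_one (a := 2 * y) (by positivity)
    linarith
  have hk0 : (0 : ℝ) < k := by linarith
  have hk3 : 1 ≤ k := by exact_mod_cast hk0
  have hJ : (1 : ℝ) ≤ L ^ J := one_le_pow₀ hL
  have hxk : |(-x)| ≤ (A : ℝ) ^ k := by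
    rw [abs_neg]
    refine hx2.trans ?_
    rw [← Real.exp_log hA0, ← Real.exp_nat_mul]
    refine Real.exp_le_exp.2 ?_
    calc 2 * L = 2 * y * y ^ 9 := by rw [hy10]; ring
      _ ≤ k * Real.log A := by gcongr
  have h2 := h k 1 A (2 * A) 1 (-x) hk3 le_rfl (by simpa using hA1) (by omega) le_rfl
    (by rw [abs_neg]; linarith) hxk
  have h3 : DP (Ioc A (2 * A)) (fun n => (1 : DirichletCharacter ℂ 1) n) (-x) =
      ∑ a ∈ Ioc A (2 * A), ei (x * -Real.log a) := by
    unfold DP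
    refine sum_congr rfl fun a _ => ?_
    have : ((a : ℕ) : ZMod 1) = 1 := Subsingleton.elim _ _
    simp only [this, map_one, one_mul, neg_mul, mul_neg]
  rw [h3, abs_neg] at h2
  have h4 : (A : ℝ) / |x| ≤ A / L ^ J := by gcongr
  have h5 : (A : ℝ) ^ (1 - c / (k : ℝ) ^ 6) ≤ A / L ^ J := by
    rw [Real.rpow_sub hA0, Real.rpow_one]
    refine div_le_div_of_nonneg_left hA0.le (by positivity) ?_
    rw [Real.rpow_def_of_pos hA0, ← Real.exp_log (show 0 < L ^ J by positivity), Real.log_pow]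
    refine Real.exp_le_exp.2 ?_
    have h6 : (k : ℝ) ^ 6 ≤ (3 * y) ^ 6 := by gcongr
    have h7 : J * Real.log L ≤ c * y ^ 3 / 729 := by
      rw [div_mul_eq_mul_div, div_le_iff₀ hc] at h1
      linarith
    calc J * Real.log L ≤ c * y ^ 3 / 729 := h7
      _ = y ^ 9 * (c / (3 * y) ^ 6) := by field_simp; norm_num
      _ ≤ Real.log A * (c / (k : ℝ) ^ 6) := by gcongr
  have h8 : 0 ≤ (A : ℝ) / |x| + (A : ℝ) ^ (1 - c / (k : ℝ) ^ 6) := by positivity
  calc _ ≤ _ := h2
    _ ≤ |C| * (A / L ^ J + A / L ^ J) :=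
      mul_le_mul (le_abs_self C) (add_le_add h4 h5) h8 (abs_nonneg C)
    _ = _ := by ring

theorem cont_GG (X : ℝ) {q : ℕ} (χ : DirichletCharacter ℂ q) : Continuous (GG X χ) :=
  Pool.Agent.MP_db1c88_nt.z94.continuous_DP _ _

/-- the mean square of the polynomial of the primes -/
theorem mean : ∃ C : ℝ, 0 ≤ C ∧ ∀ (X T L : ℝ) (q : ℕ) (χ : DirichletCharacter ℂ q), 0 < T →
    T ≤ X → Real.log (12 * X) + 1 ≤ L →
    ∫ t in Set.Icc (-T) T, ‖GG X χ t‖ ^ 2 ≤ C * X ^ 2 * L ^ 2 := by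
  obtain ⟨C, h⟩ := mv
  refine ⟨156 * |C|, by positivity, fun X T L q χ hT hX hL => ?_⟩
  have hX0 : 0 < X := hT.trans_le hX
  have hm : ∀ n ∈ wide X 4, 1 ≤ n ∧ (n : ℝ) ≤ 12 * X := fun n hn => by
    have := (Pool.Agent.MP_db1c88_nt.z94.mem_wide hX0.le (by norm_num)).1 hn
    exact ⟨this.1, by linarith [this.2]⟩
  have h1 := h (wide X 4) (fun n => lc χ n * (wt X 4 n : ℝ)) (12 * X) T hT hm
  rw [intervalIntegral.integral_of_le (by linarith), ← integral_Icc_eq_integral_Ioc] at h1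
  have h2 : ∑ n ∈ wide X 4, ‖lc χ n * (wt X 4 n : ℝ)‖ ^ 2 ≤ 12 * X * L ^ 2 := by
    have h3 : ∀ n ∈ wide X 4, ‖lc χ n * (wt X 4 n : ℝ)‖ ^ 2 ≤ L ^ 2 := fun n hn => by
      have h4 := norm_lc_le χ n
      have h5 : Real.log n ≤ Real.log (12 * X) :=
        Real.log_le_log (by exact_mod_cast (hm n hn).1) (hm n hn).2
      have h6 := Pool.Agent.MP_db1c88_nt.z94.wt_nonneg X 4 n
      have h7 := Pool.Agent.MP_db1c88_nt.z94.wt_le_one X 4 n
      refine pow_le_pow_left₀ (norm_nonneg _) ?_ 2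
      rw [norm_mul, Complex.norm_real, Real.norm_of_nonneg h6]
      exact (mul_le_of_le_one_right (norm_nonneg _) h7).trans (by linarith)
    refine (sum_le_card_nsmul _ _ _ h3).trans ?_
    rw [nsmul_eq_mul]
    have := Pool.Agent.MP_db1c88_nt.z94.card_wide_le (N := X) (c := 4) hX0.le (by norm_num)
    gcongr
    linarith
  have h9 : 0 ≤ ∑ n ∈ wide X 4, ‖lc χ n * (wt X 4 n : ℝ)‖ ^ 2 := by positivity
  calc _ ≤ _ := h1
    _ ≤ |C| * (X + 12 * X) * (12 * X * L ^ 2) := by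
      gcongr
      exact le_abs_self C
    _ = _ := by ring

/-- splitting the integral near and far from a point -/
theorem split (g k : ℝ → ℝ) (T s R W a b : ℝ) (hg : Continuous g) (hk : Continuous k)
    (hR : 0 ≤ R) (hW : 0 ≤ W) (ha : 0 ≤ a) (hb : 0 ≤ b) (hg0 : ∀ t, 0 ≤ g t)
    (h1 : ∀ t ∈ Set.Icc (-T) T, g t ≤ W) (h2 : ∀ t, k t ≤ a)
    (h3 : ∀ t ∈ Set.Icc (-T) T, R ≤ |t - s| → k t ≤ b) :
    ∫ t in Set.Icc (-T) T, g t * k t ≤ W * a * (2 * R) + b * ∫ t in Set.Icc (-T) T, g t := by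
  have i1 : Integrable ((Set.Icc (s - R) (s + R)).indicator fun _ : ℝ => W * a) :=
    (integrable_indicator_iff measurableSet_Icc).2 continuous_const.integrableOn_Icc
  have i2 : IntegrableOn (fun t => b * g t) (Set.Icc (-T) T) :=
    (continuous_const.mul hg).integrableOn_Icc
  calc _ ≤ ∫ t in Set.Icc (-T) T,
        ((Set.Icc (s - R) (s + R)).indicator (fun _ : ℝ => W * a) t + b * g t) := by
        refine setIntegral_mono_on (hg.mul hk).integrableOn_Icc (i1.integrableOn.add i2)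
          measurableSet_Icc fun t ht => ?_
        by_cases hm : t ∈ Set.Icc (s - R) (s + R)
        · rw [Set.indicator_of_mem hm]
          have := mul_nonneg hb (hg0 t)
          have h4 : g t * k t ≤ W * a :=
            (mul_le_mul_of_nonneg_left (h2 t) (hg0 t)).trans
              (mul_le_mul_of_nonneg_right (h1 t ht) ha)
          linarith
        · rw [Set.indicator_of_notMem hm, zero_add, mul_comm b]
          refine mul_le_mul_of_nonneg_left (h3 t ht ?_) (hg0 t)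
          by_contra hc
          obtain ⟨h5, h6⟩ := abs_lt.1 (not_le.1 hc)
          exact hm ⟨by linarith, by linarith⟩
    _ = (∫ t in Set.Icc (-T) T, (Set.Icc (s - R) (s + R)).indicator (fun _ : ℝ => W * a) t) +
        b * ∫ t in Set.Icc (-T) T, g t := by
        rw [integral_add i1.integrableOn i2, integral_const_mul]
    _ ≤ _ := by
        refine add_le_add ?_ le_rfl
        refine (setIntegral_le_integral i1 (Eventually.of_forall fun t =>
          Set.indicator_nonneg (fun _ _ => mul_nonneg hW ha) t)).trans (le_of_eq ?_)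
        rw [integral_indicator_const _ measurableSet_Icc, Real.volume_real_Icc_of_le (by linarith),
          smul_eq_mul]
        ring

end LSF

theorem lsf : HM0Stmt → LSFor fb := by
  intro hm K B
  obtain ⟨C1, hC1, h1⟩ := LSF.ker_far
  obtain ⟨C2, hC2, h2⟩ := LSF.mean
  obtain ⟨C3, X₀, h3⟩ := pws_of PW.pw (K + 1) B
  obtain ⟨N₀, hN₀⟩ := eventually_atTop.1
    ((Real.tendsto_log_atTop.eventually (h1 (K + 2))).and ((ev_log 6).and
      ((eventually_ge_atTop X₀).and (eventually_ge_atTop (2 : ℝ)))))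
  refine ⟨0, 2 * C3 ^ 2 + 16 * C1 * C2, N₀, by positivity, fun N A q χ hN hA hAN hq hqB => ?_⟩
  obtain ⟨k1, hL, hX₀, hN2⟩ := hN₀ N hN
  intro u hu
  have hN0 : (0 : ℝ) < N := by linarith
  have hA8 : (8 : ℝ) ≤ A := by exact_mod_cast hA
  have hAN' : (A : ℝ) ≤ N := by exact_mod_cast hAN
  set L := Real.log N with hLd
  have hL0 : 0 < L := by linarith
  unfold fb
  split_ifs with hf
  swap
  · rw [sum_empty]
    exact mul_nonneg (by positivity) (integral_nonneg fun _ => by positivity)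
  set X : ℝ := A * N with hXd
  have hX8 : 8 * N ≤ X := by rw [hXd]; gcongr
  have hNX : (N : ℝ) ≤ X := by linarith
  have hXN : X ≤ (N : ℝ) ^ 2 := by rw [hXd, sq]; gcongr
  have hLX : L ≤ Real.log X := Real.log_le_log hN0 hNX
  have hG := LSF.cont_GG X χ
  obtain ⟨M1, hM1⟩ := (isCompact_Icc (a := -(N : ℝ)) (b := N)).exists_bound_of_continuousOn
    hu.continuousOn
  obtain ⟨M2, hM2⟩ := (isCompact_Icc (a := -(N : ℝ)) (b := N)).exists_bound_of_continuousOn
    hG.continuousOn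
  refine hm ℕ (Ioc A (2 * A)) (fun a => -Real.log a) u (GG X χ) N _ (max M1 M2) hu.measurable
    hG.measurable (fun t ht => ⟨(hM1 t ht).trans (le_max_left _ _),
      (hM2 t ht).trans (le_max_right _ _)⟩) fun s hs => ?_
  have e1 : ∀ t ∈ Set.Icc (-(N : ℝ)) N, ‖GG X χ t‖ ^ 2 ≤ (|C3| * X / L ^ (K + 1)) ^ 2 := by
    intro t ht
    have := h3 X t q χ (by linarith) hq (hqB.trans (by gcongr))
      (by rw [abs_le]; constructor <;> linarith [ht.1, ht.2])
    refine pow_le_pow_left₀ (norm_nonneg _) (this.trans ?_) 2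
    have hX0 : 0 ≤ X := by linarith
    calc C3 * X / Real.log X ^ (K + 1) ≤ |C3| * X / Real.log X ^ (K + 1) := by
          have : 0 < Real.log X := by linarith
          gcongr
          exact le_abs_self _
      _ ≤ _ := by gcongr
  have e2 : ∀ t : ℝ, ‖∑ a ∈ Ioc A (2 * A), ei ((t - s) * -Real.log a)‖ ≤ A := by
    intro t
    refine (norm_sum_le _ _).trans (le_of_eq ?_)
    simp [two_mul]
  have e3 : ∀ t ∈ Set.Icc (-(N : ℝ)) N, L ^ (K + 2) ≤ |t - s| →
      ‖∑ a ∈ Ioc A (2 * A), ei ((t - s) * -Real.log a)‖ ≤ C1 * A / L ^ (K + 2) := by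
    intro t ht hR
    refine k1 A (t - s) hf hR ?_
    have : Real.exp (2 * L) = (N : ℝ) ^ 2 := by
      rw [two_mul, Real.exp_add, hLd, Real.exp_log hN0, sq]
    rw [this, abs_le]
    constructor <;> nlinarith [ht.1, ht.2, hs.1, hs.2]
  have e4 : Real.log (12 * X) + 1 ≤ 4 * L := by
    have a1 : Real.log (12 * X) ≤ Real.log (12 * (N : ℝ) ^ 2) :=
      Real.log_le_log (by linarith) (by gcongr)
    rw [Real.log_mul (x := 12) (y := (N : ℝ) ^ 2) (by norm_num) (by positivity),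
      Real.log_pow] at a1
    have a2 := Real.log_le_sub_one_of_pos (show (0 : ℝ) < 12 by norm_num)
    push_cast at a1
    linarith
  have e5 := h2 X N (4 * L) q χ hN0 hNX e4
  have e6 := LSF.split (fun t => ‖GG X χ t‖ ^ 2)
    (fun t => ‖∑ a ∈ Ioc A (2 * A), ei ((t - s) * -Real.log a)‖) N s (L ^ (K + 2)) _ A
    (C1 * A / L ^ (K + 2)) (by fun_prop) (by fun_prop) (by positivity) (sq_nonneg _)
    (by positivity) (by positivity) (fun _ => sq_nonneg _) e1 e2 e3
  calc _ ≤ _ := e6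
    _ ≤ (|C3| * X / L ^ (K + 1)) ^ 2 * A * (2 * L ^ (K + 2)) +
        C1 * A / L ^ (K + 2) * (C2 * X ^ 2 * (4 * L) ^ 2) := by gcongr
    _ = _ := by
      rw [div_pow, mul_pow, sq_abs]
      field_simp
      ring

end Pool.Agent.MP_39a890_nt.MS
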