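import Pool.Agent.MP_39a890_nt.ms.Spec

/-! Project MS: the minor arcs. -/

set_option autoImplicit false

noncomputable section

namespace Pool.Agent.MP_39a890_nt.MS

open MeasureTheory Finset
open scoped ArithmeticFunction.vonMangoldt
open Pool.Agent.MP_db1c88_nt.z94 (ei blk DP wide wt)
open Pool.Agent.MP_3d0d30_nt.Six (E ck)
open Pool.Agent.MP_678834_nt Pool.Agent.MP_678834_nt.HL9

namespace MIN

theorem pull {f : ℝ → ℂ} {g : ℝ → ℝ} {x y K : ℝ} (hf : Continuous f) (hg : Continuous g)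
    (h0 : ∀ t, 0 ≤ g t) (hxy : x ≤ y) (hK : ∀ t ∈ Set.Icc x y, ‖f t‖ ^ 2 ≤ K) :
    ∫ t in x..y, ‖f t‖ ^ 2 * g t ≤ K * ∫ t in x..y, g t := by
  rw [← intervalIntegral.integral_const_mul]
  exact intervalIntegral.integral_mono_on hxy (Continuous.intervalIntegrable (by fun_prop) _ _)
    (Continuous.intervalIntegrable (by fun_prop) _ _)
    fun t ht => mul_le_mul_of_nonneg_right (hK t ht) (h0 t)

theorem dir (α Y H : ℝ) (hY : 0 < Y) (h : Y ≤ H) : ∃ (q : ℕ) (r : ℤ), 1 ≤ q ∧ r.natAbs.Coprime q ∧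
    q * Y ≤ H ∧ |α - r / q| ≤ Y / (q * H) := by
  have h1 : 1 ≤ H / Y := (one_le_div hY).2 h
  obtain ⟨ρ, h2, h3⟩ := Real.exists_rat_abs_sub_le_and_den_le α (n := ⌊H / Y⌋₊) (Nat.floor_pos.2 h1)
  have hq : (0 : ℝ) < ρ.den := by exact_mod_cast ρ.den_pos
  refine ⟨ρ.den, ρ.num, ρ.den_pos, ρ.reduced, ?_, ?_⟩
  · exact (le_div_iff₀ hY).1 (le_trans (by exact_mod_cast h3) (Nat.floor_le (by linarith)))
  · rw [← Rat.cast_def]
    refine h2.trans ?_
    have h4 := (div_lt_iff₀ hY).1 (Nat.lt_floor_add_one (H / Y))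
    rw [div_le_div_iff₀ (by positivity) (mul_pos hq (by linarith))]
    nlinarith

theorem lam_sq (M : ℕ) : ∑ m ∈ Icc 1 M, ‖((Λ m : ℝ) : ℂ)‖ ^ 2 ≤ M * Real.log M ^ 2 := by
  have h := Finset.sum_le_card_nsmul (Icc 1 M) (fun m => ‖((Λ m : ℝ) : ℂ)‖ ^ 2) (Real.log M ^ 2)
    fun m hm => by
      obtain ⟨h1, h2⟩ := mem_Icc.1 hm
      rw [Complex.norm_real, Real.norm_of_nonneg ArithmeticFunction.vonMangoldt_nonneg]
      exact pow_le_pow_left₀ ArithmeticFunction.vonMangoldt_nonneg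
        (ArithmeticFunction.vonMangoldt_le_log.trans
          (Real.log_le_log (by exact_mod_cast h1) (by exact_mod_cast h2))) 2
  simpa using h

theorem big {A H Q q Y : ℝ} (hA : 1 ≤ A) (hQ : 1 ≤ Q) (hY : 1 ≤ Y) (h1 : A * Y ≤ H) (h2 : Q ≤ q)
    (h3 : q * Y ≤ H) :
    (1 / q + 1 / A) * (A * (Y / (q * H) + 1 / H) * q + 1) ≤ 2 * (1 / Q + 1 / A + 1 / Y + A / H) := by
  have hH : 0 < H := by nlinarith
  have hq : 0 < q := by linarith
  have e : (1 / q + 1 / A) * (A * (Y / (q * H) + 1 / H) * q + 1) =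
      (1 / q + 1 / A) * (A * Y / H + 1) + A / H + q / H := by
    field_simp
    ring
  have a1 : A * Y / H ≤ 1 := (div_le_one hH).2 h1
  have a2 : 1 / q ≤ 1 / Q := one_div_le_one_div_of_le (by linarith) h2
  have a3 : q / H ≤ 1 / Y := by
    rw [div_le_div_iff₀ hH (by linarith)]
    linarith
  have a4 : (1 / q + 1 / A) * (A * Y / H + 1) ≤ (1 / Q + 1 / A) * 2 :=
    mul_le_mul (by linarith) (by linarith) (by positivity) (by positivity)
  have a5 : 0 ≤ 1 / Y := by positivity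
  have a6 : 0 ≤ A / H := by positivity
  rw [e]
  linarith

theorem small {A H Q q Y : ℝ} (hA : 1 ≤ A) (hq : 1 ≤ q) (hY : 1 ≤ Y) (h1 : A * Y ≤ H) (h2 : q ≤ Q)
    (h3 : A * Q ≤ H) (h4 : 4 * Q * (Y + Q) ≤ H) :
    (1 / q + 1 / A) * (A * (Y / (q * H) + 1 / H) * q + 1) ≤ 6 ∧
      Y / (q * H) + 1 / H ≤ 1 / (2 * q * Q) ∧ Y / (q * H) + 1 / H ≤ 2 * (Y / H) := by
  have hH : 0 < H := by nlinarith
  have hq0 : 0 < q := by linarith
  have hQ : 0 < Q := by linarith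
  refine ⟨?_, ?_, ?_⟩
  · have e : A * (Y / (q * H) + 1 / H) * q + 1 = A * Y / H + A * q / H + 1 := by
      field_simp
    have a1 : A * Y / H ≤ 1 := (div_le_one hH).2 h1
    have a2 : A * q / H ≤ 1 := (div_le_one hH).2 (by nlinarith)
    have a3 : 1 / q ≤ 1 := (div_le_one hq0).2 hq
    have a4 : 1 / A ≤ 1 := (div_le_one (by linarith)).2 hA
    rw [e]
    calc _ ≤ (2 : ℝ) * 3 := mul_le_mul (by linarith) (by linarith) (by positivity) (by positivity)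
      _ = 6 := by norm_num
  · have e : Y / (q * H) + 1 / H = (Y + q) / (q * H) := by
      field_simp
    rw [e, div_le_div_iff₀ (by positivity) (by positivity)]
    have a1 : 2 * Q * (Y + q) ≤ H := by nlinarith
    nlinarith
  · have a1 : Y / (q * H) ≤ Y / H :=
      div_le_div_of_nonneg_left (by linarith) hH (by nlinarith)
    have a2 : 1 / H ≤ Y / H := div_le_div_of_nonneg_right hY hH.le
    linarith

theorem sq_le {x C u v W : ℝ} (hx : 0 ≤ x) (h : x ≤ C * (2 * u + v)) (hW : u ^ 2 + v ^ 2 ≤ W) :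
    x ^ 2 ≤ 8 * C ^ 2 * W := by
  have b4 : (2 * u + v) ^ 2 ≤ 8 * W := by nlinarith [sq_nonneg (2 * u - v), sq_nonneg v]
  calc _ ≤ (C * (2 * u + v)) ^ 2 := pow_le_pow_left₀ hx h 2
    _ = C ^ 2 * (2 * u + v) ^ 2 := mul_pow _ _ _
    _ ≤ C ^ 2 * (8 * W) := mul_le_mul_of_nonneg_left b4 (by positivity)
    _ = _ := by ring

theorem six {C W : ℝ} (hC : 1 ≤ C) (hW : 0 ≤ W) : 8 * C ^ 2 * W * 6 ≤ 48 * (2 + C) ^ 2 * W := by
  have : C ^ 2 * W ≤ (2 + C) ^ 2 * W := mul_le_mul_of_nonneg_right (by nlinarith) hW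
  linarith

end MIN

theorem mn : MULStmt → ARCStmt → WINStmt → MINStmt := by
  rintro ⟨C₁, hC₁, hmul⟩ ⟨C₂, hC₂, harc⟩ hwin
  have hc : (1 : ℝ) ≤ (2 + C₁) ^ 2 := by nlinarith
  refine ⟨168 * (48 * (2 + C₁) ^ 2 * C₂), by nlinarith, ?_⟩
  intro N A H L Q Y β hA hQ hY hN hL hAY hAQ h4
  have hL1 : 1 ≤ L := (Nat.one_le_pow _ _ hQ).trans hL
  have hH1 : 1 ≤ H := (Nat.mul_pos hA hQ).trans_le hAQ
  have rA : (1 : ℝ) ≤ A := by exact_mod_cast hA
  have rQ : (1 : ℝ) ≤ Q := by exact_mod_cast hQ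
  have rL : (0 : ℝ) < L := by exact_mod_cast hL1
  have rH : (0 : ℝ) < H := by exact_mod_cast hH1
  have rAQ : (A : ℝ) * Q ≤ H := by exact_mod_cast hAQ
  have rQL : (Q : ℝ) ^ 4 / L ≤ 1 := (div_le_one rL).2 (by exact_mod_cast hL)
  obtain ⟨hm1, hm2⟩ := hmul L Q hL1 hQ
  set W : ℝ := 1 / Q + 1 / A + 1 / Y + A / H + (L * Y / H) ^ 2 + ((Q : ℝ) ^ 4 / L) ^ 2 with hW
  set B : ℝ := ∑ n ∈ Ioc N (2 * N), ‖β n‖ ^ 2 with hB
  have hB0 : 0 ≤ B := by positivity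
  have hW0 : 0 ≤ W := by positivity
  have key := hwin (Ioc A (2 * A)) (Ioc N (2 * N)) (range (4 * L)) (Icc 1 (4 * A * N)) β
    (fun m => ((Λ m : ℝ) : ℂ)) (mu L Q) H (48 * (2 + C₁) ^ 2 * C₂ * W * B) hH1 ?_ ?_
  · refine key.trans ?_
    have h := MIN.lam_sq (4 * A * N)
    push_cast at h
    refine (mul_le_mul_of_nonneg_left h (by positivity)).trans (le_of_eq ?_)
    ring
  · intro α
    obtain ⟨q, r, hq, hr, hqY, hα⟩ := MIN.dir α Y H (by linarith)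
      ((le_mul_of_one_le_left (by linarith) rA).trans hAY)
    have rq : (1 : ℝ) ≤ q := by exact_mod_cast hq
    have h1H : (0 : ℝ) < 1 / H := by positivity
    obtain ⟨hα1, hα2⟩ := abs_le.1 hα
    have ha := harc (Ioc N (2 * N)) β A q r (α - 1 / H) (α + 1 / H) (Y / (q * H) + 1 / H) hA hq hr
      (by linarith) (by linarith) (by linarith)
    have pull : ∀ K : ℝ, 0 ≤ K → (∀ t ∈ Set.Icc (α - 1 / H) (α + 1 / H), ‖MM L Q t‖ ^ 2 ≤ K) →
        ∀ Z : ℝ, (1 / q + 1 / A) * (A * (Y / (q * H) + 1 / H) * q + 1) ≤ Z →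
        K * Z ≤ 48 * (2 + C₁) ^ 2 * W →
        ∫ θ in (α - 1 / H)..(α + 1 / H), ‖MM L Q θ‖ ^ 2 *
          ∑ a ∈ Ioc A (2 * A), ‖SA (Ioc N (2 * N)) β a θ‖ ^ 2 ≤ 48 * (2 + C₁) ^ 2 * C₂ * W * B := by
      intro K hK h Z hZ hKZ
      refine (MIN.pull (by unfold MM; fun_prop) (by unfold SA; fun_prop) (fun _ => by positivity)
        (by linarith) h).trans ((mul_le_mul_of_nonneg_left ha hK).trans ?_)
      calc _ = K * ((1 / q + 1 / A) * (A * (Y / (q * H) + 1 / H) * q + 1)) * (C₂ * B) := by ring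
        _ ≤ 48 * (2 + C₁) ^ 2 * W * (C₂ * B) := mul_le_mul_of_nonneg_right
          ((mul_le_mul_of_nonneg_left hZ hK).trans hKZ) (by positivity)
        _ = _ := by ring
    rcases le_total q Q with hqQ | hqQ
    · obtain ⟨s1, s2, s3⟩ := MIN.small rA rq hY hAY (by exact_mod_cast hqQ) rAQ h4
      refine pull (8 * C₁ ^ 2 * W) (by positivity) (fun t ht => ?_) 6 s1 ?_
      · have h := hm2 t (Y / (q * H) + 1 / H) q r hq hqQ hr
          (abs_le.2 ⟨by linarith [ht.1], by linarith [ht.2]⟩) s2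
        have b1 : (L : ℝ) * (Y / (q * H) + 1 / H) ≤ 2 * (L * Y / H) :=
          (mul_le_mul_of_nonneg_left s3 rL.le).trans (le_of_eq (by ring))
        have b2 : ‖MM L Q t‖ ≤ C₁ * (2 * (L * Y / H) + (Q : ℝ) ^ 4 / L) :=
          h.trans (mul_le_mul_of_nonneg_left (by linarith) (by linarith))
        have b3 : (L * Y / H) ^ 2 + ((Q : ℝ) ^ 4 / L) ^ 2 ≤ W := by
          have : (0 : ℝ) ≤ 1 / Q + 1 / A + 1 / Y + A / H := by positivity
          linarith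
        exact MIN.sq_le (norm_nonneg _) b2 b3
      · exact MIN.six hC₁ hW0
    · refine pull ((2 + C₁) ^ 2) (by positivity) (fun t _ => ?_) _
        (MIN.big rA rQ hY hAY (by exact_mod_cast hqQ) hqY) ?_
      · refine pow_le_pow_left₀ (norm_nonneg _) ((hm1 t).trans ?_) 2
        rw [mul_div_assoc]
        exact add_le_add_right (mul_le_of_le_one_right (zero_le_one.trans hC₁) rQL) 2
      · have b : 2 * (1 / Q + 1 / A + 1 / Y + A / H) ≤ 48 * W := by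
          have : (0 : ℝ) ≤ (L * Y / H) ^ 2 + ((Q : ℝ) ^ 4 / L) ^ 2 := by positivity
          linarith
        exact (mul_le_mul_of_nonneg_left b (by positivity)).trans (le_of_eq (by ring))
  · intro a ha n hn b hb j hj
    obtain ⟨a1, a2⟩ := mem_Ioc.1 ha
    obtain ⟨n1, n2⟩ := mem_Ioc.1 hn
    obtain ⟨b1, b2⟩ := mem_Icc.1 hb
    have j1 := mem_range.1 hj
    have c1 : n ≤ a * n := Nat.le_mul_of_pos_left n (by omega)
    have c2 : a * n ≤ 4 * A * N := (Nat.mul_le_mul a2 n2).trans (le_of_eq (by ring))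
    rw [mem_Icc]
    omega

end Pool.Agent.MP_39a890_nt.MS
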