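import Pool.Agent.MP_39a890_nt.ms.Spec

/-! Project MS, row MJ1: the bilinear form of one character. -/

set_option autoImplicit false

noncomputable section

namespace Pool.Agent.MP_39a890_nt.MS

open MeasureTheory Finset
open Pool.Agent.MP_db1c88_nt.z94 (ei blk DP wide wt)
open Pool.Agent.MP_3d0d30_nt.Six (E ck)
open Pool.Agent.MP_678834_nt Pool.Agent.MP_678834_nt.HL9
open Pool.Agent.MP_db1c88_nt Pool.Agent.MP_3d0d30_nt

namespace MJ1

/-- the index of the piece -/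
def ix (A D a : ℕ) : ℕ := (a - A) * D / A

/-- the left end of the piece -/
def st (A D i : ℕ) : ℝ := A * (1 + i / D)

lemma st_bd (A : ℕ) {D i : ℕ} (hD : 1 ≤ D) (hi : i ≤ D) :
    (A : ℝ) ≤ st A D i ∧ st A D i ≤ 2 * A := by
  have h1 : (i : ℝ) / D ≤ 1 := div_le_one_of_le₀ (by exact_mod_cast hi) (by positivity)
  have h2 : (0 : ℝ) ≤ i / D := by positivity
  have h3 : (0 : ℝ) ≤ A := by positivity
  unfold st
  constructor <;> nlinarith

lemma piece {A D a : ℕ} (hD : 1 ≤ D) (h : a ∈ Ioc A (2 * A)) : ix A D a ≤ D ∧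
    st A D (ix A D a) ≤ a ∧ (a : ℝ) ≤ st A D (ix A D a) * (1 + 1 / D) := by
  obtain ⟨h1, h2⟩ := mem_Ioc.1 h
  have hA : 0 < A := by omega
  have e0 : ix A D a ≤ D := Nat.div_le_of_le_mul (Nat.mul_le_mul_right _ (by omega))
  have e1 : (ix A D a : ℝ) * A ≤ (a - A) * D := by
    have := Nat.div_mul_le_self ((a - A) * D) A
    rw [← Nat.cast_sub h1.le]
    exact_mod_cast this
  have e2 : ((a : ℝ) - A) * D ≤ A * (ix A D a + 1) := by
    have := (Nat.lt_mul_div_succ ((a - A) * D) hA).le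
    rw [← Nat.cast_sub h1.le]
    exact_mod_cast this
  have D0 : (0 : ℝ) < D := by positivity
  have e3 : st A D (ix A D a) * D = A * (D + ix A D a) := by
    unfold st
    field_simp
  refine ⟨e0, le_of_mul_le_mul_right (by linarith) D0, le_of_mul_le_mul_right ?_ D0⟩
  have e4 : st A D (ix A D a) * (1 + 1 / D) * D = st A D (ix A D a) * D + st A D (ix A D a) := by
    field_simp
  linarith [(st_bd A hD e0).1]

lemma E_mod (c a n : ℕ) {q : ℕ} (hq : 1 ≤ q) :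
    E (c * (a * n : ℕ) / q) = E (c * (a % q * n : ℕ) / q) := by
  have : (c * (a * n : ℕ) / q : ℝ) = c * (a % q * n : ℕ) / q + ((c * (a / q) * n : ℕ) : ℤ) := by
    have e : (a : ℝ) = (a % q : ℕ) + q * (a / q : ℕ) := by exact_mod_cast (Nat.mod_add_div a q).symm
    rw [Int.cast_natCast, Nat.cast_mul a, e, Nat.cast_mul, Nat.cast_mul, Nat.cast_mul]
    field_simp
  rw [this, Six.E_add, E_int, mul_one]

lemma norm_sum_sq {ι : Type} (s : Finset ι) (x : ι → ℂ) :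
    ‖∑ i ∈ s, x i‖ ^ 2 ≤ s.card * ∑ i ∈ s, ‖x i‖ ^ 2 :=
  (pow_le_pow_left₀ (norm_nonneg _) (norm_sum_le _ _) 2).trans sq_sum_le_card_mul_sum_sq

lemma comb {κ : Type} (𝒜 S I : Finset ℕ) (K : Finset κ) (k : ℕ → κ) (p : ℕ → ℕ) (β : ℕ → ℂ)
    (f : ℕ → ℕ → ℂ) (g : κ → ℕ → ℕ → ℕ → ℂ) (ε B : ℝ) (hk : ∀ a ∈ 𝒜, k a ∈ K)
    (hp : ∀ n ∈ S, p n ∈ I) (h1 : ∀ a ∈ 𝒜, ∀ n ∈ S, ‖f a n - g (k a) (p n) a n‖ ≤ ε)
    (h2 : ∀ x ∈ K, ∀ i ∈ I, ∑ a ∈ 𝒜, ‖∑ n ∈ S with p n = i, β n * g x i a n‖ ^ 2 ≤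
      B * ∑ n ∈ S with p n = i, ‖β n‖ ^ 2) :
    ∑ a ∈ 𝒜, ‖∑ n ∈ S, β n * f a n‖ ^ 2 ≤
      2 * (K.card * I.card * B + 𝒜.card * S.card * ε ^ 2) * ∑ n ∈ S, ‖β n‖ ^ 2 := by
  have key : ∀ a ∈ 𝒜, ‖∑ n ∈ S, β n * f a n‖ ^ 2 ≤
      2 * (I.card * ∑ x ∈ K, ∑ i ∈ I, ‖∑ n ∈ S with p n = i, β n * g x i a n‖ ^ 2) +
        2 * (S.card * (ε ^ 2 * ∑ n ∈ S, ‖β n‖ ^ 2)) := by
    intro a ha
    have e1 : ∑ n ∈ S, β n * f a n = ∑ i ∈ I, ∑ n ∈ S with p n = i, β n * g (k a) i a n +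
        ∑ n ∈ S, β n * (f a n - g (k a) (p n) a n) := by
      have e0 : ∑ i ∈ I, ∑ n ∈ S with p n = i, β n * g (k a) i a n =
          ∑ i ∈ I, ∑ n ∈ S with p n = i, β n * g (k a) (p n) a n :=
        sum_congr rfl fun i _ => sum_congr rfl fun n hn => by rw [(mem_filter.1 hn).2]
      rw [e0, sum_fiberwise_of_maps_to hp fun n => β n * g (k a) (p n) a n, ← sum_add_distrib]
      exact sum_congr rfl fun n _ => by ring
    have e2 := (norm_sum_sq I fun i => ∑ n ∈ S with p n = i, β n * g (k a) i a n).trans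
      (mul_le_mul_of_nonneg_left (single_le_sum (f := fun x =>
        ∑ i ∈ I, ‖∑ n ∈ S with p n = i, β n * g x i a n‖ ^ 2)
        (fun _ _ => sum_nonneg fun _ _ => sq_nonneg _) (hk a ha)) (Nat.cast_nonneg _))
    have e3 : ‖∑ n ∈ S, β n * (f a n - g (k a) (p n) a n)‖ ^ 2 ≤
        S.card * (ε ^ 2 * ∑ n ∈ S, ‖β n‖ ^ 2) := by
      refine (norm_sum_sq S _).trans (mul_le_mul_of_nonneg_left ?_ (Nat.cast_nonneg _))
      rw [mul_sum]
      refine sum_le_sum fun n hn => ?_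
      rw [norm_mul, mul_pow, mul_comm]
      exact mul_le_mul_of_nonneg_right (pow_le_pow_left₀ (norm_nonneg _) (h1 a ha n hn) 2)
        (sq_nonneg _)
    rw [e1]
    refine (pow_le_pow_left₀ (norm_nonneg _) (norm_add_le _ _) 2).trans (add_sq_le.trans ?_)
    linarith
  refine (sum_le_sum key).trans ?_
  rw [sum_add_distrib, sum_const, nsmul_eq_mul, ← mul_sum, ← mul_sum, sum_comm]
  have e4 : ∑ x ∈ K, ∑ a ∈ 𝒜, ∑ i ∈ I, ‖∑ n ∈ S with p n = i, β n * g x i a n‖ ^ 2 ≤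
      K.card * (B * ∑ n ∈ S, ‖β n‖ ^ 2) := by
    rw [← nsmul_eq_mul]
    refine sum_le_card_nsmul _ _ _ fun x hx => ?_
    rw [sum_comm, ← sum_fiberwise_of_maps_to hp fun n => ‖β n‖ ^ 2, mul_sum]
    exact sum_le_sum (h2 x hx)
  have e5 := mul_le_mul_of_nonneg_left e4 (Nat.cast_nonneg I.card)
  linarith

end MJ1

open MJ1 in
theorem mj1 : KERStmt → AMStmt → COREStmt → MJ1Stmt := by
  rintro ⟨_, -, -, hK⟩ ⟨C₁, c1, hA⟩ ⟨C₂, c2, hC⟩
  refine ⟨24 * C₂ + 18 * C₁ ^ 2, by nlinarith, ?_⟩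
  intro 𝒜 β ψ N A H L D q c b Δ Λ₀ h𝒜 hD hq a20 aL LH bH HN hΔ hψ hLS
  have D1 : 1 ≤ D := by omega
  have L1 : 1 ≤ L := by omega
  have r1 : (20 : ℝ) ≤ A := by exact_mod_cast a20
  have r2 : 4 * (A : ℝ) ≤ L := by exact_mod_cast aL
  have r3 : (H : ℝ) + 4 * L ≤ N := by exact_mod_cast HN
  have r4 : (3 : ℝ) ≤ D := by exact_mod_cast hD
  have r5 : (b : ℝ) ≤ H := by exact_mod_cast bH
  have r6 : (0 : ℝ) ≤ H := Nat.cast_nonneg H
  have L0 : (0 : ℝ) < L := by linarith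
  have N0 : (0 : ℝ) < N := by linarith
  have A0 : (0 : ℝ) < A := by linarith
  have NX : 20 * (N : ℝ) ≤ A * N := mul_le_mul_of_nonneg_right r1 N0.le
  have hz := (hK L L1).1
  have hw : ∀ m, m ∈ wide (A * N) 4 ↔ 1 ≤ m ∧ (m : ℝ) ≤ 12 * (A * N) := fun m => by
    rw [z94.mem_wide (by positivity) (by norm_num), show (3 * 4 : ℝ) = 12 by norm_num]
  have hΛ : 0 ≤ Λ₀ := (norm_nonneg _).trans (hψ 1 ((hw 1).2 ⟨le_rfl, by push_cast; linarith⟩))
  have cA : (𝒜.card : ℝ) ≤ A := by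
    have := card_le_card h𝒜
    rw [Nat.card_Ioc] at this
    exact_mod_cast (by omega : 𝒜.card ≤ A)
  have hψ2 : ∑ m ∈ wide (A * N) 4, ‖ψ m * (wt (A * N) 4 m : ℝ)‖ ^ 2 ≤ 12 * (A * N) * Λ₀ ^ 2 := by
    refine (sum_le_card_nsmul _ _ (Λ₀ ^ 2) fun m hm => pow_le_pow_left₀ (norm_nonneg _) ?_ 2).trans
      ?_
    · rw [norm_mul, Complex.norm_real, Real.norm_of_nonneg (z94.wt_nonneg _ _ _)]
      exact (mul_le_of_le_one_right (norm_nonneg _) (z94.wt_le_one _ _ _)).trans (hψ m hm)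
    · rw [nsmul_eq_mul]
      refine mul_le_mul_of_nonneg_right ?_ (sq_nonneg _)
      have := z94.card_wide_le (N := A * N) (c := 4) (by positivity) (by norm_num)
      linarith
  have key := comb 𝒜 (Ioc N (2 * N)) (range (D + 1)) (range q ×ˢ range (D + 1))
    (fun a => (a % q, ix A D a)) (ix N D) β
    (fun a n => E (c * (a * n : ℕ) / q) * ∑ j ∈ range (4 * L), (kn L j : ℂ) * ψ (a * n - b - j))
    (fun x i a n => E (c * (x.1 * n : ℕ) / q) * ((1 / zz L : ℝ) * ∑ m ∈ wide (A * N) 4,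
      ψ m * (wt (A * N) 4 m : ℝ) * (w1 (st A D x.2 * st N D i / L *
        (Real.log (a * n : ℕ) - Real.log m) - ((b : ℝ) / L + 1)) : ℝ)))
    (C₁ * Λ₀ * ((H : ℝ) / L) ^ 2 * (3 * (1 / D + 1 / A)))
    (C₂ * (Δ * N / ((A : ℝ) * N) ^ 2 + 12 * (A * N * Λ₀ ^ 2 * ((A : ℝ) / L) ^ 2)))
    (fun a ha => mem_product.2 ⟨mem_range.2 (Nat.mod_lt _ hq),
      mem_range.2 (Nat.lt_succ_of_le (piece D1 (h𝒜 ha)).1)⟩)
    (fun n hn => mem_range.2 (Nat.lt_succ_of_le (piece D1 hn).1)) ?_ ?_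
  · simp only [← mul_assoc] at key ⊢
    refine key.trans (mul_le_mul_of_nonneg_right ?_ (sum_nonneg fun _ _ => sq_nonneg _))
    rw [card_product, card_range, card_range, Nat.card_Ioc, show 2 * N - N = N by omega]
    push_cast
    obtain ⟨u, hu⟩ : ∃ u, u = Δ * N / ((A : ℝ) * N) ^ 2 := ⟨_, rfl⟩
    obtain ⟨v, hv⟩ : ∃ v, v = A * N * Λ₀ ^ 2 * ((A : ℝ) / L) ^ 2 := ⟨_, rfl⟩
    obtain ⟨w, hw⟩ : ∃ w, w = A * N * Λ₀ ^ 2 * ((H : ℝ) / L) ^ 4 * (1 / D + 1 / A) ^ 2 := ⟨_, rfl⟩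
    have u0 : 0 ≤ u := by rw [hu]; positivity
    have v0 : 0 ≤ v := by rw [hv]; positivity
    have w0 : 0 ≤ w := by rw [hw]; positivity
    have e1 : (q : ℝ) * (D + 1) * (D + 1) * (C₂ * (u + 12 * v)) ≤
        12 * C₂ * (q * D ^ 3 * (u + v)) := by
      calc _ = C₂ * q * ((D + 1) ^ 2 * (u + 12 * v)) := by ring
        _ ≤ C₂ * q * (D ^ 3 * (12 * (u + v))) := by
          gcongr
          · nlinarith
          · linarith
        _ = _ := by ring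
    have e2 : (𝒜.card : ℝ) * N * (C₁ * Λ₀ * ((H : ℝ) / L) ^ 2 * (3 * (1 / D + 1 / A))) ^ 2 ≤
        9 * C₁ ^ 2 * w := by
      calc _ ≤ (A : ℝ) * N * (C₁ * Λ₀ * ((H : ℝ) / L) ^ 2 * (3 * (1 / D + 1 / A))) ^ 2 := by gcongr
        _ = _ := by rw [hw]; ring
    have e3 : 0 ≤ C₁ ^ 2 * (q * D ^ 3 * (u + v)) := by positivity
    have e4 : 0 ≤ C₂ * w := by positivity
    rw [hu, hv, hw] at *
    linarith
  · intro a ha n hn
    obtain ⟨p1, p2, p3⟩ := piece D1 (h𝒜 ha)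
    obtain ⟨q1, q2, q3⟩ := piece D1 hn
    have s1 := (st_bd A D1 p1).1
    have s2 := (st_bd N D1 q1).1
    have a1 : (A : ℝ) + 1 ≤ a := by exact_mod_cast (mem_Ioc.1 (h𝒜 ha)).1
    have a2 : (a : ℝ) ≤ 2 * A := by exact_mod_cast (mem_Ioc.1 (h𝒜 ha)).2
    have n1 : (N : ℝ) ≤ n := by exact_mod_cast (mem_Ioc.1 hn).1.le
    have n2 : (n : ℝ) ≤ 2 * N := by exact_mod_cast (mem_Ioc.1 hn).2
    have d1 : (1 : ℝ) / D ≤ 1 / 3 := one_div_le_one_div_of_le (by norm_num) r4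
    have d0 : (0 : ℝ) ≤ 1 / D := by positivity
    simp only
    rw [E_mod c a n hq, ← mul_sub, norm_mul, Six.norm_E, one_mul]
    refine (hA ψ (A * N) _ Λ₀ (3 * (1 / D)) L H (a * n) b L1 LH bH (by linarith) hψ ?_ ?_ ?_ ?_
      (by linarith) (by linarith)).trans ?_
    · have := mul_le_mul a1 n1 N0.le (by linarith)
      push_cast
      linarith
    · have := mul_le_mul a2 n2 (by linarith) (by linarith)
      push_cast
      linarith
    · push_cast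
      exact mul_le_mul p2 q2 (by linarith) (by linarith)
    · push_cast
      refine (mul_le_mul p3 q3 (by linarith) (by linarith)).trans ?_
      rw [mul_mul_mul_comm]
      exact mul_le_mul_of_nonneg_left (by nlinarith) (mul_nonneg (by linarith) (by linarith))
    · have : (H : ℝ) / (A * N) ≤ 1 / A := by
        rw [div_le_div_iff₀ (by positivity) A0]
        nlinarith
      have a0 : (0 : ℝ) ≤ 1 / A := by positivity
      gcongr
      linarith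
  · intro x hx i hi
    obtain ⟨s1, s2⟩ := st_bd A D1 (Nat.le_of_lt_succ (mem_range.1 (mem_product.1 hx).2))
    obtain ⟨s3, s4⟩ := st_bd N D1 (Nat.le_of_lt_succ (mem_range.1 hi))
    obtain ⟨Y, hY⟩ : ∃ Y, Y = st A D x.2 * st N D i := ⟨_, rfl⟩
    have y1 : (A : ℝ) * N ≤ Y := hY ▸ mul_le_mul s1 s3 N0.le (by linarith)
    have y2 : Y ≤ 2 * A * (2 * N) := hY ▸ mul_le_mul s2 s4 (by linarith) (by linarith)
    have y0 : 0 < Y := by linarith
    have h := hC 𝒜 {n ∈ Ioc N (2 * N) | ix N D n = i} (wide (A * N) 4)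
      (fun n => β n * E (c * (x.1 * n : ℕ) / q)) (fun m => ψ m * (wt (A * N) 4 m : ℝ)) N (A * N)
      (Y / L) ((b : ℝ) / L + 1) Δ (fun a ha => by have := mem_Ioc.1 (h𝒜 ha); omega)
      (fun n hn => by
        have := mem_Ioc.1 (mem_filter.1 hn).1
        exact ⟨by omega, by exact_mod_cast this.2⟩)
      (fun m hm => (hw m).1 hm) (by positivity) (by rw [div_le_iff₀ L0]; nlinarith) (by linarith)
      hΔ hLS
    simp only [norm_mul, Six.norm_E, mul_one] at h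
    have z1 : (1 / zz L) ^ 2 ≤ (1 / L : ℝ) ^ 2 :=
      pow_le_pow_left₀ (one_div_nonneg.2 (L0.le.trans hz)) (one_div_le_one_div_of_le L0 hz) 2
    rw [← hY]
    simp only [mul_left_comm _ (((1 / zz L : ℝ) : ℂ)), ← mul_sum, norm_mul, mul_pow,
      Complex.norm_real, Real.norm_eq_abs, sq_abs, ← mul_assoc (β _)]
    refine (mul_le_mul z1 h (sum_nonneg fun _ _ => sq_nonneg _) (sq_nonneg _)).trans ?_
    rw [← mul_assoc]
    refine mul_le_mul_of_nonneg_right ?_ (sum_nonneg fun _ _ => sq_nonneg _)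
    rw [mul_left_comm, mul_add]
    refine mul_le_mul_of_nonneg_left (add_le_add ?_ ?_) (by linarith)
    · calc _ = Δ * N / Y ^ 2 := by field_simp
        _ ≤ _ := by
          rw [← mul_pow]
          gcongr
    · simp only [norm_mul] at hψ2
      calc _ ≤ (1 / L : ℝ) ^ 2 * (A * (A * N) * (12 * (A * N) * Λ₀ ^ 2) / N) := by gcongr
        _ = _ := by field_simp

end Pool.Agent.MP_39a890_nt.MS

end
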