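import Pool.Agent.MP_39a890_nt.ms.Spec

/-! Project MS, row MJ2: the major arcs, from one character to the kernel. -/

set_option autoImplicit false

noncomputable section

namespace Pool.Agent.MP_39a890_nt.MS

open MeasureTheory Finset
open scoped ArithmeticFunction.vonMangoldt
open Pool.Agent.MP_db1c88_nt.z94 (ei blk DP wide wt)
open Pool.Agent.MP_3d0d30_nt.Six (E ck)
open Pool.Agent.MP_678834_nt Pool.Agent.MP_678834_nt.HL9

namespace MJ2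

theorem core {ι : Type} (T : Finset ι) (𝒜 : Finset ℕ) (w : ι → ℂ) (Z : ι → ℕ → ℂ) (e : ℕ → ℂ)
    {M ε : ℝ} (hw : ∀ i ∈ T, ‖w i‖ ≤ 1) (hZ : ∀ i ∈ T, ∑ a ∈ 𝒜, ‖Z i a‖ ^ 2 ≤ M)
    (he : ∀ a ∈ 𝒜, ‖e a‖ ^ 2 ≤ ε) :
    ∑ a ∈ 𝒜, ‖e a + ∑ i ∈ T, w i * Z i a‖ ^ 2 ≤
      2 * (𝒜.card * ε) + 2 * ((T.card : ℝ) * (T.card * M)) := by
  have h1 : ∀ a ∈ 𝒜, ‖e a + ∑ i ∈ T, w i * Z i a‖ ^ 2 ≤
      2 * ε + 2 * ((T.card : ℝ) * ∑ i ∈ T, ‖Z i a‖ ^ 2) := by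
    intro a ha
    have h2 : ‖∑ i ∈ T, w i * Z i a‖ ≤ ∑ i ∈ T, ‖Z i a‖ :=
      (norm_sum_le _ _).trans (sum_le_sum fun i hi => by
        rw [norm_mul]
        exact mul_le_of_le_one_left (norm_nonneg _) (hw i hi))
    have h3 := (pow_le_pow_left₀ (norm_nonneg _) h2 2).trans sq_sum_le_card_mul_sum_sq
    have h4 := pow_le_pow_left₀ (norm_nonneg _) (norm_add_le (e a) (∑ i ∈ T, w i * Z i a)) 2
    nlinarith [he a ha, sq_nonneg (‖e a‖ - ‖∑ i ∈ T, w i * Z i a‖)]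
  refine (sum_le_sum h1).trans ?_
  rw [sum_add_distrib, ← mul_sum, ← mul_sum, ← mul_sum, sum_const, nsmul_eq_mul, sum_comm]
  have h5 : ∑ i ∈ T, ∑ a ∈ 𝒜, ‖Z i a‖ ^ 2 ≤ T.card * M := by
    simpa using sum_le_card_nsmul T _ M hZ
  gcongr

/-- the reduced fractions of denominator at most `Q` -/
def Frac (Q : ℕ) : Finset (Σ _ : ℕ, ℕ) :=
  (Icc 1 Q).sigma fun r => (range r).filter fun c => c.Coprime r

theorem card_Frac (Q : ℕ) : (Frac Q).card ≤ Q ^ 2 := by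
  rw [Frac, card_sigma]
  refine (sum_le_card_nsmul _ _ Q fun r hr => (card_filter_le _ _).trans ?_).trans ?_
  · rw [card_range]; exact (mem_Icc.1 hr).2
  · simp [sq]

theorem mem_Frac {Q : ℕ} {p : Σ _ : ℕ, ℕ} (hp : p ∈ Frac Q) :
    1 ≤ p.1 ∧ p.1 ≤ Q ∧ p.2.Coprime p.1 := by
  obtain ⟨h1, h2⟩ := mem_sigma.1 hp
  exact ⟨(mem_Icc.1 h1).1, (mem_Icc.1 h1).2, (mem_filter.1 h2).2⟩

/-- fractions with characters -/
def Trip (Q : ℕ) : Finset (Σ p : (Σ _ : ℕ, ℕ), DirichletCharacter ℂ p.1) :=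
  (Frac Q).sigma fun _ => univ

theorem card_Trip (Q : ℕ) : (Trip Q).card ≤ Q ^ 3 := by
  rw [Trip, card_sigma]
  refine (sum_le_card_nsmul _ _ Q fun p hp => ?_).trans ?_
  · exact (chr p.1 1 (mem_Frac hp).1 (by simp)).1.trans (mem_Frac hp).2.1
  · rw [smul_eq_mul, pow_succ]
    exact Nat.mul_le_mul_right _ (card_Frac Q)

theorem bracket (L Q y : ℕ) :
    (∑ j ∈ range (4 * L), (kn L j : ℂ) * (∑ r ∈ Icc 1 Q, ram r j) * (Λ (y - j) : ℝ)) - lamS Q y =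
      ∑ p ∈ Frac Q, (∑ j ∈ range (4 * L), (kn L j : ℂ) * (Λ (y - j) : ℝ) * E (p.2 * j / p.1) -
        (rho p.1 : ℂ) * E (p.2 * y / p.1)) := by
  rw [sum_sub_distrib, sum_comm, Frac]
  congr 1
  · refine sum_congr rfl fun j _ => ?_
    rw [← mul_sum, sum_sigma, mul_right_comm]
    rfl
  · rw [sum_sigma, lamS]
    refine sum_congr rfl fun r _ => ?_
    rw [ram, mul_sum]

theorem fin_ineq {C A N H L D Q Δ l B : ℝ} (hC : 1 ≤ C) (hA : 1 ≤ A) (hN : 0 ≤ N) (hL : 0 < L)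
    (hD : 1 ≤ D) (hQ : 1 ≤ Q) (hΔ : 0 ≤ Δ) (hB : 0 ≤ B) :
    2 * (A * (N * B * (Q ^ 2 * (Q * (2 * l) / L)) ^ 2)) + 2 * (Q ^ 3 * (Q ^ 3 *
      (C * (Q * D ^ 3 * (Δ * N / (A * N) ^ 2 + A * N * (3 * l) ^ 2 * (A / L) ^ 2) +
        A * N * (3 * l) ^ 2 * (H / L) ^ 4 * (1 / D + 1 / A) ^ 2) * B))) ≤
    26 * C * Q ^ 7 * (D ^ 3 * (Δ * N / (A * N) ^ 2) + A * N * l ^ 2 * (D ^ 3 * (A / L) ^ 2 +
      (H / L) ^ 4 * (1 / D + 1 / A) ^ 2)) * B := by
  set u := Δ * N / (A * N) ^ 2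
  set v := A * N * l ^ 2
  set s := (H / L) ^ 4 * (1 / D + 1 / A) ^ 2
  set t := D ^ 3 * (A / L) ^ 2
  have hu : 0 ≤ D ^ 3 * u := by positivity
  have hv : 0 ≤ v := by positivity
  have hs : 0 ≤ s := by positivity
  have ht : (1 / L) ^ 2 ≤ t := by
    calc (1 / L) ^ 2 = 1 * (1 / L) ^ 2 := (one_mul _).symm
      _ ≤ D ^ 3 * (A / L) ^ 2 := by gcongr; exact one_le_pow₀ hD
  have ht0 : 0 ≤ t := by positivity
  have hq : Q ^ 6 ≤ Q ^ 7 := pow_le_pow_right₀ hQ (by norm_num)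
  have hq0 : 0 ≤ Q ^ 6 := by positivity
  have e1 : 2 * (A * (N * B * (Q ^ 2 * (Q * (2 * l) / L)) ^ 2)) =
      8 * (1 * Q ^ 6 * (v * (1 / L) ^ 2) * B) := by simp only [v]; ring
  have e2 : 2 * (Q ^ 3 * (Q ^ 3 * (C * (Q * D ^ 3 * (u + A * N * (3 * l) ^ 2 * (A / L) ^ 2) +
      A * N * (3 * l) ^ 2 * (H / L) ^ 4 * (1 / D + 1 / A) ^ 2) * B))) =
      2 * (C * Q ^ 7 * (D ^ 3 * u) * B) + 18 * (C * Q ^ 7 * (v * t) * B) +
        18 * (C * Q ^ 6 * (v * s) * B) := by simp only [v, s, t]; ring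
  have e3 : 26 * C * Q ^ 7 * (D ^ 3 * u + v * (t + s)) * B = 26 * (C * Q ^ 7 * (D ^ 3 * u) * B) +
      26 * (C * Q ^ 7 * (v * t) * B) + 26 * (C * Q ^ 7 * (v * s) * B) := by ring
  have b1 : 1 * Q ^ 6 * (v * (1 / L) ^ 2) * B ≤ C * Q ^ 7 * (v * t) * B := by gcongr
  have b2 : C * Q ^ 6 * (v * s) * B ≤ C * Q ^ 7 * (v * s) * B := by gcongr
  have b3 : 0 ≤ C * Q ^ 7 * (D ^ 3 * u) * B := by positivity
  have b4 : 0 ≤ C * Q ^ 7 * (v * s) * B := by positivity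
  rw [e1, e2, e3]
  linarith

end MJ2

open MJ2 in
theorem mj2 : DCStmt → MJ1Stmt → MJ2Stmt := by
  intro dc ⟨C, hC, mj1⟩
  choose! γ hγ hdc using dc
  refine ⟨26 * C, by linarith, fun 𝒜 β N A H L D Q Δ h𝒜 hD hQ hA hAL hLH hHN hΔ hLS => ?_⟩
  set l := Real.log ((A : ℝ) * N) with hl
  set B := ∑ n ∈ Ioc N (2 * N), ‖β n‖ ^ 2 with hBdef
  have hB : 0 ≤ B := sum_nonneg fun _ _ => sq_nonneg _
  have hA' : (20 : ℝ) ≤ A := by exact_mod_cast hA
  have hN' : (20 : ℝ) ≤ N := by exact_mod_cast (by omega : 20 ≤ N)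
  have hL' : (0 : ℝ) < L := by exact_mod_cast (by omega : 0 < L)
  have hX : (20 : ℝ) ≤ (A : ℝ) * N := by nlinarith
  have hX0 : (0 : ℝ) < (A : ℝ) * N := by linarith
  have hl1 : 1 ≤ l := by
    rw [hl, Real.le_log_iff_exp_le hX0]
    linarith [Real.exp_one_lt_d9]
  have hlog : ∀ y : ℝ, 0 < y → y ≤ 12 * ((A : ℝ) * N) → Real.log y ≤ 2 * l := fun y hy h => by
    have : Real.log y ≤ Real.log (((A : ℝ) * N) ^ 2) := Real.log_le_log hy (by nlinarith)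
    rwa [Real.log_pow, Nat.cast_ofNat] at this
  have key : ∀ b ∈ Icc 1 H, ∑ a ∈ 𝒜, ‖∑ n ∈ Ioc N (2 * N), β n *
      ((∑ j ∈ range (4 * L), (kn L j : ℂ) * (∑ r ∈ Icc 1 Q, ram r j) *
        (Λ (a * n - b - j) : ℝ)) - lamS Q (a * n - b))‖ ^ 2 ≤
      26 * C * (Q : ℝ) ^ 7 * ((D : ℝ) ^ 3 * (Δ * N / ((A : ℝ) * N) ^ 2) +
        A * N * l ^ 2 * ((D : ℝ) ^ 3 * ((A : ℝ) / L) ^ 2 +
          ((H : ℝ) / L) ^ 4 * (1 / D + 1 / A) ^ 2)) * B := by
    intro b hb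
    have hbH := (mem_Icc.1 hb).2
    have hy : ∀ a ∈ 𝒜, ∀ n ∈ Ioc N (2 * N), b + 4 * L ≤ a * n ∧ a * n ≤ 4 * (A * N) := by
      intro a ha n hn
      obtain ⟨h1, h2⟩ := mem_Ioc.1 (h𝒜 ha)
      obtain ⟨h3, h4⟩ := mem_Ioc.1 hn
      refine ⟨?_, (Nat.mul_le_mul h2 h4).trans (by nlinarith)⟩
      calc b + 4 * L ≤ 1 * n := by omega
        _ ≤ a * n := Nat.mul_le_mul_right _ (by omega)
    let err : (Σ _ : ℕ, ℕ) → ℕ → ℂ := fun p y =>
      ∑ j ∈ range (4 * L), (kn L j : ℂ) * (Λ (y - j) : ℝ) * E (p.2 * j / p.1) -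
        (rho p.1 : ℂ) * E (p.2 * y / p.1) -
        E (p.2 * y / p.1) * ∑ χ : DirichletCharacter ℂ p.1, γ p.1 p.2 χ *
          ∑ j ∈ range (4 * L), (kn L j : ℂ) * lc χ (y - j)
    have hc := core (Trip Q) 𝒜 (fun i => γ i.1.1 i.1.2 i.2 * E (-(i.1.2 * b / i.1.1)))
      (fun i a => ∑ n ∈ Ioc N (2 * N), β n * E (i.1.2 * (a * n : ℕ) / i.1.1) *
        ∑ j ∈ range (4 * L), (kn L j : ℂ) * lc i.2 (a * n - b - j))
      (fun a => ∑ n ∈ Ioc N (2 * N), β n * ∑ p ∈ Frac Q, err p (a * n - b))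
      (M := C * (Q * (D : ℝ) ^ 3 * (Δ * N / ((A : ℝ) * N) ^ 2 +
        A * N * (3 * l) ^ 2 * ((A : ℝ) / L) ^ 2) +
        A * N * (3 * l) ^ 2 * ((H : ℝ) / L) ^ 4 * (1 / D + 1 / A) ^ 2) * B)
      (ε := N * B * ((Q : ℝ) ^ 2 * (Q * (2 * l) / L)) ^ 2) (fun i hi => ?_) (fun i hi => ?_)
      (fun a ha => ?_)
    · refine le_trans (le_of_eq (sum_congr rfl fun a ha => ?_)) (hc.trans (le_trans ?_
        (fin_ineq hC (by linarith) (by linarith) hL' (by exact_mod_cast (by omega : 1 ≤ D))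
          (by exact_mod_cast hQ) hΔ hB)))
      · congr 2
        simp only [mul_sum (s := Ioc N (2 * N))]
        rw [sum_comm, ← sum_add_distrib]
        refine sum_congr rfl fun n hn => ?_
        rw [bracket, Trip, sum_sigma, mul_sum, mul_sum, ← sum_add_distrib]
        refine sum_congr rfl fun p _ => ?_
        have hE : E (p.2 * (a * n - b : ℕ) / p.1) =
            E (-(p.2 * b / p.1)) * E (p.2 * (a * n : ℕ) / p.1) := by
          rw [← Pool.Agent.MP_3d0d30_nt.Six.E_add, Nat.cast_sub (by have := (hy a ha n hn).1; omega)]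
          congr 1; ring
        have hs : ∑ χ : DirichletCharacter ℂ p.1, γ p.1 p.2 χ * E (-(p.2 * b / p.1)) *
            (β n * E (p.2 * (a * n : ℕ) / p.1) *
              ∑ j ∈ range (4 * L), (kn L j : ℂ) * lc χ (a * n - b - j)) =
            β n * (E (p.2 * (a * n - b : ℕ) / p.1) * ∑ χ : DirichletCharacter ℂ p.1,
              γ p.1 p.2 χ * ∑ j ∈ range (4 * L), (kn L j : ℂ) * lc χ (a * n - b - j)) := by
          rw [hE, mul_sum, mul_sum]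
          exact sum_congr rfl fun χ _ => by ring
        rw [hs]
        simp only [err]
        ring
      · have h1 : (𝒜.card : ℝ) ≤ A := by
          have := card_le_card h𝒜
          rw [Nat.card_Ioc] at this
          exact_mod_cast (by omega : 𝒜.card ≤ A)
        have h2 : ((Trip Q).card : ℝ) ≤ (Q : ℝ) ^ 3 := by exact_mod_cast card_Trip Q
        gcongr
    · have hp := mem_Frac (mem_sigma.1 hi).1
      rw [norm_mul, Pool.Agent.MP_3d0d30_nt.Six.norm_E, mul_one]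
      exact hγ _ _ hp.1 hp.2.2 _
    · have hp := mem_Frac (mem_sigma.1 hi).1
      refine (mj1 𝒜 β (lc i.2) N A H L D i.1.1 i.1.2 b Δ (3 * l) h𝒜 hD hp.1 hA hAL hLH hbH hHN hΔ
        (fun m hm => ?_) (hLS _ hp.1 hp.2.1 i.2)).trans ?_
      · obtain ⟨h1, h2⟩ := (Pool.Agent.MP_db1c88_nt.z94.mem_wide hX0.le (by norm_num)).1 hm
        have := hlog m (by exact_mod_cast h1) (by linarith)
        linarith [norm_lc_le i.2 m]
      · have : (i.1.1 : ℝ) ≤ Q := by exact_mod_cast hp.2.1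
        gcongr
    · set η : ℝ := (Q : ℝ) ^ 2 * (Q * (2 * l) / L)
      have h1 : ‖∑ n ∈ Ioc N (2 * N), β n * ∑ p ∈ Frac Q, err p (a * n - b)‖ ≤
          (∑ n ∈ Ioc N (2 * N), ‖β n‖) * η := by
        rw [sum_mul]
        refine (norm_sum_le _ _).trans (sum_le_sum fun n hn => ?_)
        rw [norm_mul]
        refine mul_le_mul_of_nonneg_left ((norm_sum_le _ _).trans ?_) (norm_nonneg _)
        obtain ⟨h2, h3⟩ := hy a ha n hn
        have h4 : Real.log (a * n - b : ℕ) ≤ 2 * l := hlog _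
          (by exact_mod_cast (by omega : 0 < a * n - b))
          (by exact_mod_cast (by omega : a * n - b ≤ 12 * (A * N)))
        refine (sum_le_card_nsmul _ _ ((Q : ℝ) * (2 * l) / L) fun p hp => ?_).trans ?_
        · have hp := mem_Frac hp
          refine (hdc _ _ hp.1 hp.2.2 L _ (by omega) (by omega)).trans ?_
          have : (p.1 : ℝ) ≤ Q := by exact_mod_cast hp.2.1
          have := Real.log_natCast_nonneg (a * n - b)
          gcongr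
        · have : ((Frac Q).card : ℝ) ≤ (Q : ℝ) ^ 2 := by exact_mod_cast card_Frac Q
          rw [nsmul_eq_mul]
          exact mul_le_mul_of_nonneg_right this (by positivity)
      refine (pow_le_pow_left₀ (norm_nonneg _) h1 2).trans ?_
      have h2 : (∑ n ∈ Ioc N (2 * N), ‖β n‖) ^ 2 ≤ N * B := by
        have := sq_sum_le_card_mul_sum_sq (s := Ioc N (2 * N)) (f := fun n => ‖β n‖)
        rwa [Nat.card_Ioc, show 2 * N - N = N by omega] at this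
      rw [mul_pow]
      gcongr
  rw [sum_comm]
  refine (sum_le_card_nsmul _ _ _ key).trans (le_of_eq ?_)
  rw [Nat.card_Icc, nsmul_eq_mul, Nat.add_sub_cancel]
  ring

end Pool.Agent.MP_39a890_nt.MS
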