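import Pool.Agent.MP_39a890_nt.ms.Spec2
import Pool.Agent.MP_39a890_nt.ms.MT

/-! Project MS, row MT2: the major arc model against the von Mangoldt function, both signs. -/

set_option autoImplicit false

noncomputable section

namespace Pool.Agent.MP_39a890_nt.MS

open MeasureTheory Finset
open scoped ArithmeticFunction.vonMangoldt
open Pool.Agent.MP_db1c88_nt.z94 (ei blk DP wide wt)
open Pool.Agent.MP_3d0d30_nt.Six (E ck)
open Pool.Agent.MP_678834_nt Pool.Agent.MP_678834_nt.HL9
open Pool.Agent.MP_3d0d30_nt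

namespace MT2

open MT (dd gg gd_mul gg_dvd dd_cop rho_zero loc)

theorem model (S : Finset ℕ) (Q a h : ℕ) (hh : a.Coprime h) (z : ℤ) (f : ℕ → ℕ)
    (hS : ∀ n ∈ S, (f n : ℝ) = z + a * n) (hz : ∀ r : ℕ, 1 ≤ r →
      ∑ b ∈ (range r).filter (fun b => Nat.Coprime b r), E ((z : ℝ) * b / r) = ram r h) (Y : ℂ)
    {W : ℝ} (hW : 0 ≤ W) (hb : ∀ r ∈ Icc 1 Q, ∀ b : ℕ, b.Coprime r →
      ‖∑ n ∈ S, (Λ n : ℂ) * E (b * n / r) - rho r * Y‖ ≤ W) :
    ‖∑ n ∈ S, (Λ n : ℂ) * lamS Q (f n) - sgm Q (a * h) * Y‖ ≤ Q * W := by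
  have key : ∑ n ∈ S, (Λ n : ℂ) * lamS Q (f n) - sgm Q (a * h) * Y =
      ∑ r ∈ Icc 1 Q, (rho r : ℂ) * ∑ b ∈ (range r).filter (fun b => Nat.Coprime b r),
        E ((z : ℝ) * b / r) *
          (∑ n ∈ S, (Λ n : ℂ) * E (a * b * n / r) - rho (dd a r) * Y) := by
    have k2 : sgm Q (a * h) * Y = ∑ r ∈ Icc 1 Q, (rho r : ℂ) *
        ∑ b ∈ (range r).filter (fun b => Nat.Coprime b r),
          E ((z : ℝ) * b / r) * (rho (dd a r) * Y) := by
      rw [sgm, sum_mul]
      refine sum_congr rfl fun r hr => ?_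
      rw [← sum_mul, hz r (mem_Icc.1 hr).1, ← loc hh]
      ring
    rw [k2]
    simp only [lamS, ram, mul_sum, mul_sub, sum_sub_distrib]
    congr 1
    rw [sum_comm]
    refine sum_congr rfl fun r _ => ?_
    rw [sum_comm]
    refine sum_congr rfl fun b _ => sum_congr rfl fun n hn => ?_
    rw [show ((b : ℝ) * (f n : ℝ) / r) = (z : ℝ) * b / r + a * b * n / r by
      rw [hS n hn]; ring, Six.E_add]
    ring
  rw [key]
  refine (norm_sum_le _ _).trans ?_
  have : ∀ r ∈ Icc 1 Q, ‖(rho r : ℂ) * ∑ b ∈ (range r).filter (fun b => Nat.Coprime b r),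
      E ((z : ℝ) * b / r) *
        (∑ n ∈ S, (Λ n : ℂ) * E (a * b * n / r) - rho (dd a r) * Y)‖ ≤ W := by
    intro r hr
    by_cases hs : Squarefree r
    swap
    · rw [rho_zero hs]
      simpa using hW
    have hr1 : 1 ≤ r := (mem_Icc.1 hr).1
    have hφ : (0 : ℝ) < Nat.totient r := by exact_mod_cast Nat.totient_pos.2 hr1
    have h1 : ‖∑ b ∈ (range r).filter (fun b => Nat.Coprime b r), E ((z : ℝ) * b / r) *
        (∑ n ∈ S, (Λ n : ℂ) * E (a * b * n / r) - rho (dd a r) * Y)‖ ≤ Nat.totient r * W := by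
      refine (norm_sum_le _ _).trans ?_
      rw [← MainOf.card_cop, ← nsmul_eq_mul]
      refine sum_le_card_nsmul _ _ _ fun b hb' => ?_
      rw [norm_mul, Six.norm_E, one_mul]
      have hc := (mem_filter.1 hb').2
      have hm := gd_mul hs a
      obtain ⟨c, hc'⟩ := gg_dvd a r
      have hd : dd a r ∣ r := Dvd.intro_left _ hm
      have hd0 : 0 < dd a r := Nat.pos_of_dvd_of_pos hd hr1
      have hg0 : 0 < gg a r := Nat.pos_of_dvd_of_pos (Dvd.intro _ hm) hr1
      have := hb (dd a r) (mem_Icc.2 ⟨hd0, (Nat.le_of_dvd hr1 hd).trans (mem_Icc.1 hr).2⟩) (c * b)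
        (Nat.Coprime.mul_left ((dd_cop a r).coprime_dvd_left (Dvd.intro_left _ hc'.symm))
          (hc.coprime_dvd_right hd))
      refine le_trans (le_of_eq ?_) this
      congr 2
      refine sum_congr rfl fun n _ => ?_
      congr 2
      have e1 : (a : ℝ) = gg a r * c := by exact_mod_cast hc'
      have e2 : (r : ℝ) = gg a r * dd a r := by exact_mod_cast hm.symm
      have hd1 : (dd a r : ℝ) ≠ 0 := by positivity
      have hg1 : (gg a r : ℝ) ≠ 0 := by positivity
      rw [e1, e2]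
      push_cast
      field_simp
    have h2 : ‖(rho r : ℂ)‖ ≤ 1 / Nat.totient r := by
      rw [Complex.norm_real, rho, norm_div, Real.norm_natCast]
      gcongr
      rw [Real.norm_eq_abs, ← Int.cast_abs]
      exact_mod_cast ArithmeticFunction.abs_moebius_le_one
    rw [norm_mul]
    refine (mul_le_mul h2 h1 (norm_nonneg _) (by positivity)).trans (le_of_eq ?_)
    field_simp
  refine (sum_le_card_nsmul _ _ _ this).trans (le_of_eq ?_)
  simp

end MT2

theorem mt2 : MT2Stmt := fun K B => by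
  obtain ⟨C, X₀, hC⟩ := swa_of PW.pw chr (K + B) B
  refine ⟨|C|, max X₀ 3, fun s N M Q a b hN hM hM2 hQ hab hb => ?_⟩
  have hN0 : X₀ ≤ N := (le_max_left _ _).trans hN
  have hN3 : (3 : ℝ) ≤ N := (le_max_right _ _).trans hN
  have hL : 0 < Real.log N := Real.log_pos (by linarith)
  have h := MT2.model (Ioc N M) Q a b hab (bif s then (b : ℤ) else -b) (fun n => sh s (a * n) b)
    (fun n hn => by
      have h1 := hb.trans (Nat.mul_le_mul_left a (mem_Ioc.1 hn).1.le)
      cases s
      · simp only [sh_false, cond_false, Nat.cast_sub h1]; push_cast; ring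
      · simp only [sh_true, cond_true]; push_cast; ring)
    (fun r hr => by
      cases s
      · exact MT.ram_neg hr b
      · exact sum_congr rfl fun c _ => by simp only [cond_true]; congr 1; push_cast; ring)
    ((M : ℂ) - N) (W := |C| * N / Real.log N ^ (K + B)) (by positivity) fun r hr c hc => by
      have h1 := hC N M r c hN0 hM hM2 (mem_Icc.1 hr).1
        (le_trans (by exact_mod_cast (mem_Icc.1 hr).2) hQ) (by simpa using hc)
      refine le_trans (le_of_eq ?_) (h1.trans ?_)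
      · simp only [Int.cast_natCast]
      · gcongr
        exact le_abs_self C
  refine h.trans ?_
  calc (Q : ℝ) * (|C| * N / Real.log N ^ (K + B))
      ≤ Real.log N ^ B * (|C| * N / Real.log N ^ (K + B)) := by gcongr
    _ = _ := by rw [pow_add]; field_simp

end Pool.Agent.MP_39a890_nt.MS
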