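import Pool.Agent.MP_39a890_nt.ms.Spec

/-! The multiplier of the kernel that removes the major arcs. -/

set_option autoImplicit false

noncomputable section

namespace Pool.Agent.MP_39a890_nt.MS

open MeasureTheory Finset
open scoped ArithmeticFunction.vonMangoldt
open Pool.Agent.MP_db1c88_nt.z94 (ei blk DP wide wt)
open Pool.Agent.MP_3d0d30_nt.Six (E ck)
open Pool.Agent.MP_678834_nt Pool.Agent.MP_678834_nt.HL9

namespace MUL

theorem kh_int (L : ℕ) (θ : ℝ) (k : ℤ) : kh L (θ + k) = kh L θ := sum_congr rfl fun j _ => by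
  rw [mul_add, MP_3d0d30_nt.Six.E_add, show (j : ℝ) * k = ((j * k : ℤ) : ℝ) by push_cast; rfl,
    E_int, mul_one]

theorem MM_eq {L : ℕ} (hL : 1 ≤ L) (Q : ℕ) (θ : ℝ) : MM L Q θ = 1 - ∑ r ∈ Icc 1 Q,
    ∑ b ∈ (range r).filter (fun b => Nat.Coprime b r), kh L (θ + b / r) := by
  simp only [MM, mu, sub_mul, sum_sub_distrib, kh, ram, mul_sum, sum_mul]
  congr 1
  · simp only [ite_mul, one_mul, zero_mul, sum_ite_eq', mem_range]
    rw [if_pos (by omega)]
    simp [E]
  · rw [sum_comm]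
    refine sum_congr rfl fun r _ => ?_
    rw [sum_comm]
    refine sum_congr rfl fun b _ => sum_congr rfl fun j _ => ?_
    rw [mul_add, MP_3d0d30_nt.Six.E_add, mul_assoc, mul_comm (E _)]
    congr 3
    push_cast
    ring

theorem model {G : ℝ → ℂ} (hp : ∀ (θ : ℝ) (k : ℤ), G (θ + k) = G θ) {θ M : ℝ} {q Q : ℕ} {a : ℤ}
    (hq : 1 ≤ q) (ha : a.natAbs.Coprime q) (hM : 0 ≤ M) (hθ : |θ - a / q| ≤ 1 / (2 * q * Q))
    (hG : ∀ x : ℝ, (∀ k : ℤ, 1 / (2 * q * Q) ≤ |x - k|) → ‖G x‖ ≤ M) :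
    ‖(∑ r ∈ Icc 1 Q, ∑ b ∈ (range r).filter (fun b => Nat.Coprime b r), G (θ + b / r)) -
      if q ≤ Q then G (θ + -a / q) else 0‖ ≤ Q * (Q * M) := by
  classical
  have e : (if q ≤ Q then G (θ + -a / q) else 0) =
      ∑ r ∈ Icc 1 Q, if r = q then G (θ + -a / q) else 0 := by
    simp [hq]
  rw [e, ← sum_sub_distrib]
  refine (norm_sum_le_of_le _ (n := fun _ => Q * M) fun r hr => ?_).trans (by simp)
  obtain ⟨hr1, hr2⟩ := mem_Icc.1 hr
  have hq0 : (0 : ℤ) < q := by exact_mod_cast hq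
  have h1 : ∑ b ∈ ((range r).filter fun b => Nat.Coprime b r).filter
      (fun b : ℕ => ∃ k : ℤ, a * r + b * q = k * q * r), G (θ + b / r) =
      if r = q then G (θ + -a / q) else 0 := by
    rw [filter_filter, filter_congr fun b hb => Arc.res_iff hq ha (mem_range.1 hb)]
    split_ifs with h
    · subst h
      have h1 := Int.toNat_of_nonneg (Int.emod_nonneg (-a) hq0.ne')
      have h2 : (-a % r).toNat < r := by
        have := Int.emod_lt_of_pos (-a) hq0
        omega
      simp only [true_and, filter_eq', mem_range, h2, if_true, sum_singleton]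
      rw [← hp (θ + -a / r) (-(-a / r))]
      congr 1
      have h3 : (((-a % r).toNat : ℕ) : ℝ) = ((-a - r * (-a / r) : ℤ) : ℝ) := by
        rw [← Int.emod_def]; exact_mod_cast h1
      have h4 : (r : ℝ) ≠ 0 := by positivity
      rw [h3]
      generalize -a / (r : ℤ) = k
      push_cast
      field_simp
      ring
    · simp [h]
  rw [← sum_filter_add_sum_filter_not _
    (fun b : ℕ => ∃ k : ℤ, a * r + b * q = k * q * r), h1, add_sub_cancel_left]
  refine le_trans (norm_sum_le_of_le _ (n := fun _ => M) fun b hb =>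
    hG _ fun k => Arc.far (b := b) hq hr1 hr2 hθ fun h => ?_) ?_
  · exact (mem_filter.1 hb).2 ⟨k, h⟩
  rw [sum_const, nsmul_eq_mul]
  gcongr
  exact (card_filter_le _ _).trans ((card_filter_le _ _).trans (by simpa using hr2))

end MUL

open MUL in
theorem mul : KERStmt → MULStmt := by
  rintro ⟨C, hC, -, h⟩
  refine ⟨4 * C, by linarith, fun L Q hL hQ => ?_⟩
  obtain ⟨-, k1, k2, k3⟩ := h L hL
  have L0 : (0 : ℝ) < L := by exact_mod_cast hL
  have Q0 : (0 : ℝ) < Q := by exact_mod_cast hQ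
  have key : ∀ (θ : ℝ) (q : ℕ) (a : ℤ), 1 ≤ q → q ≤ 2 * Q → a.natAbs.Coprime q →
      |θ - a / q| ≤ 1 / (2 * q * Q) →
      ‖MM L Q θ - (1 - if q ≤ Q then kh L (θ + -a / q) else 0)‖ ≤ 4 * C * Q ^ 4 / L := by
    intro θ q a hq hq2 ha hθ
    have q0 : (0 : ℝ) < q := by exact_mod_cast hq
    have q2 : (q : ℝ) ≤ 2 * Q := by exact_mod_cast hq2
    rw [MM_eq hL, sub_sub_sub_cancel_left, norm_sub_rev]
    refine (model (kh_int L) hq ha (M := C / (L * (1 / (2 * q * Q)))) (by positivity) hθ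
      fun x hx => k3 x _ (by positivity) hx).trans ?_
    calc (Q : ℝ) * (Q * (C / (L * (1 / (2 * q * Q))))) = 2 * C * Q ^ 3 * q / L := by field_simp
      _ ≤ 2 * C * Q ^ 3 * (2 * Q) / L := by gcongr
      _ = _ := by ring
  refine ⟨fun θ => ?_, fun θ γ q a hq hq2 ha h1 h2 => ?_⟩
  · obtain ⟨c, hc1, hc2⟩ := Real.exists_rat_abs_sub_le_and_den_le θ (n := 2 * Q) (by omega)
    have q0 : (0 : ℝ) < c.den := by exact_mod_cast c.pos
    have h1 := key θ c.den c.num c.pos hc2 c.reduced (by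
      rw [← Rat.cast_def]
      refine hc1.trans (one_div_le_one_div_of_le (by positivity) ?_)
      push_cast
      nlinarith)
    refine (norm_le_insert' _ _).trans (add_le_add ((norm_sub_le _ _).trans ?_) h1)
    split_ifs
    · linarith [k1 (θ + -c.num / c.den), norm_one (α := ℂ)]
    · simp
  · have h3 := key θ q a hq (by omega) ha (h1.trans h2)
    rw [if_pos hq2] at h3
    have h4 := k2 (θ + -a / q)
    rw [norm_sub_rev, neg_div, ← sub_eq_add_neg] at h4
    rw [neg_div, ← sub_eq_add_neg] at h3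
    have h5 : C * L * |θ - a / q| ≤ 4 * C * L * γ := by
      have := (abs_nonneg _).trans h1
      gcongr
      linarith
    refine (norm_le_insert' _ _).trans ((add_le_add (h4.trans h5) h3).trans (le_of_eq ?_))
    ring

end Pool.Agent.MP_39a890_nt.MS

end
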