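import Pool.Agent.MP_39a890_nt.ms.Spec

/-! Project MS, row PE: Dirichlet polynomials with periodic coefficients. -/

set_option autoImplicit false

noncomputable section

namespace Pool.Agent.MP_39a890_nt.MS

open Finset
open Pool.Agent.MP_db1c88_nt.z94 (ei blk DP norm_ei ei_add)
open Pool.Agent.MP_678834_nt

namespace PE

theorem per {q : ℕ} {f : ℕ → ℂ} (hp : ∀ n, f (n + q) = f n) (a m : ℕ) : f (q * m + a) = f a := by
  induction m with
  | zero => simp
  | succ m ih => rw [show q * (m + 1) + a = q * m + a + q by ring, hp, ih]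

theorem cls (q N M a : ℕ) (hq : 1 ≤ q) (ha : a < q) (haN : a ≤ N) (hNM : N ≤ M)
    (f : ℕ → ℂ) (hp : ∀ n, f (n + q) = f n) (hf : ∀ n, ‖f n‖ ≤ 1) (t : ℝ) :
    ‖∑ n ∈ (Ioc N M).filter (fun n => n % q = a), f n * ei (t * Real.log n)‖ ≤
      ‖∑ m ∈ Ioc ((N - a) / q) ((M - a) / q), ei (t * Real.log (m + (a : ℝ) / q))‖ := by
  rw [PW.CHAR.class_eq q N M a hq ha haN hNM (fun n => f n * ei (t * Real.log n))]
  have hq0 : (0 : ℝ) < q := by exact_mod_cast hq
  have e : ∑ m ∈ Ioc ((N - a) / q) ((M - a) / q),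
      f (q * m + a) * ei (t * Real.log ((q * m + a : ℕ) : ℝ)) =
      (f a * ei (t * Real.log q)) *
        ∑ m ∈ Ioc ((N - a) / q) ((M - a) / q), ei (t * Real.log (m + (a : ℝ) / q)) := by
    rw [Finset.mul_sum]
    refine Finset.sum_congr rfl fun m hm => ?_
    have hm1 : 1 ≤ m := Nat.one_le_iff_ne_zero.2 (Nat.ne_zero_of_lt (Finset.mem_Ioc.1 hm).1)
    have hm0 : (0 : ℝ) < m := by exact_mod_cast hm1
    have h1 : f (q * m + a) = f a := per hp a m
    have h2 : ((q * m + a : ℕ) : ℝ) = q * (m + (a : ℝ) / q) := by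
      push_cast; field_simp
    have h3 : (0 : ℝ) < m + (a : ℝ) / q := by positivity
    rw [h1, h2, Real.log_mul hq0.ne' h3.ne', mul_add, ei_add, mul_assoc]
  rw [e, norm_mul, norm_mul, norm_ei, mul_one]
  exact mul_le_of_le_one_left (norm_nonneg _) (hf a)

theorem nat_main : ∃ C c : ℝ, 0 ≤ C ∧ 0 < c ∧ c ≤ 1 ∧ ∀ (k q N M : ℕ) (f : ℕ → ℂ) (t : ℝ),
    1 ≤ k → 1 ≤ q → q ^ 2 ≤ N → N ≤ M → M ≤ 2 * N → (∀ n, f (n + q) = f n) → (∀ n, ‖f n‖ ≤ 1) →
    1 ≤ |t| → |t| ≤ (N : ℝ) ^ k →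
    ‖DP (Ioc N M) f t‖ ≤ C * (N / |t| + (N : ℝ) ^ (1 - c / (k : ℝ) ^ 6)) := by
  obtain ⟨CA, hA⟩ := PW.expa_main
  obtain ⟨CB, cB, hcB, hB⟩ := PW.expb_main (PW.kor_main PW.vmvt (PW.dh_main PW.en_main))
  refine ⟨|CA| + |CB| + 100, min cB 1 / 2187, by positivity, by positivity,
    by linarith [min_le_right cB 1], ?_⟩
  intro k q N M f t hk hq hqN hNM hM hp hf ht htN
  set c : ℝ := min cB 1 / 2187 with hc
  have hk1 : (1 : ℝ) ≤ (k : ℝ) ^ 6 := one_le_pow₀ (by exact_mod_cast hk)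
  have hk0 : (0 : ℝ) < (k : ℝ) ^ 6 := by linarith
  have hc0 : 0 < c := by positivity
  have hc1 : c ≤ 1 := by
    have := min_le_right cB 1
    rw [hc]; linarith
  have hcc : c ≤ cB / 2187 := by
    have := min_le_left cB 1
    rw [hc]; linarith
  have hN1 : 1 ≤ N := le_trans (Nat.one_le_pow _ _ hq) hqN
  have hN1' : (1 : ℝ) ≤ N := by exact_mod_cast hN1
  have hN0 : (0 : ℝ) < N := by linarith
  have ht0 : 0 < |t| := by linarith
  have hX : 0 ≤ (N : ℝ) / |t| := by positivity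
  have hY : (1 : ℝ) ≤ (N : ℝ) ^ (1 - c / (k : ℝ) ^ 6) := by
    apply Real.one_le_rpow hN1'
    have : c / (k : ℝ) ^ 6 ≤ 1 := by rw [div_le_one hk0]; linarith
    linarith
  have hAa := abs_nonneg CA
  have hBa := abs_nonneg CB
  by_cases hN : N < 100
  · have h1 : ‖DP (Ioc N M) f t‖ ≤ 100 := by
      unfold DP
      refine (norm_sum_le _ _).trans ?_
      have h2 : ∑ m ∈ Ioc N M, ‖f m * ei (t * Real.log m)‖ ≤ ∑ _m ∈ Ioc N M, (1 : ℝ) := by
        refine Finset.sum_le_sum fun m _ => ?_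
        rw [norm_mul, norm_ei, mul_one]; exact hf _
      refine h2.trans ?_
      rw [Finset.sum_const, Nat.card_Ioc, nsmul_eq_mul, mul_one]
      have : M - N ≤ 100 := by omega
      exact_mod_cast this
    nlinarith
  push Not at hN
  have hq0 : (0 : ℝ) < q := by exact_mod_cast hq
  have key : ∀ a ∈ range q,
      ‖∑ n ∈ (Ioc N M).filter (fun n => n % q = a), f n * ei (t * Real.log n)‖ ≤
        (|CA| + |CB|) * (N / |t| + (N : ℝ) ^ (1 - c / (k : ℝ) ^ 6)) / q := by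
    intro a ha
    have ha := Finset.mem_range.1 ha
    have haN : a ≤ N := le_trans ha.le (le_trans (by nlinarith) hqN)
    refine (cls q N M a hq ha haN hNM f hp hf t).trans ?_
    obtain ⟨s1, s2, s3, s4, s5⟩ := PW.CHAR.sizes q N M a hq ha hqN hN hNM hM
    set n := (N - a) / q with hn
    set m := (M - a) / q with hm
    have hu0 : (0 : ℝ) ≤ (a : ℝ) / q := by positivity
    have hu1 : (a : ℝ) / q ≤ 1 := by
      rw [div_le_one hq0]; exact_mod_cast ha.le
    have hn1 : (1 : ℝ) ≤ n := by exact_mod_cast (by omega : 1 ≤ n)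
    have hn0 : (0 : ℝ) < n := by linarith
    have hnq : (n : ℝ) ≤ N / q := by
      rw [le_div_iff₀ hq0, mul_comm]; exact_mod_cast s5
    rw [le_div_iff₀ hq0]
    by_cases htn : |t| ≤ n
    · have h1 := hA n m _ t s3 s4 hu0 hu1 ht htn
      have h2 : CA * (n / |t|) ≤ |CA| * (n / |t|) :=
        mul_le_mul_of_nonneg_right (le_abs_self _) (by positivity)
      have h3 : (n : ℝ) / |t| * q ≤ N / |t| := by
        rw [div_mul_eq_mul_div]
        refine div_le_div_of_nonneg_right ?_ ht0.le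
        rwa [← le_div_iff₀ hq0]
      have h4 := mul_le_mul_of_nonneg_right (h1.trans h2) hq0.le
      have h5 : |CA| * (n / |t|) * q ≤ |CA| * (N / |t|) := by
        rw [mul_assoc]; exact mul_le_mul_of_nonneg_left h3 hAa
      nlinarith
    · push Not at htn
      have hN3 : (N : ℝ) ≤ (n : ℝ) ^ 3 := by exact_mod_cast s2
      have ht3 : |t| ≤ (n : ℝ) ^ (3 * k) := by
        rw [pow_mul]; exact htN.trans (pow_le_pow_left₀ hN0.le hN3 k)
      have h1 := hB (3 * k) n m _ t (by omega) (by omega) s3 s4 hu0 hu1 htn.le ht3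
      have h2 : (n : ℝ) ^ (1 - cB / ((3 * k : ℕ) : ℝ) ^ 6) * q ≤ (N : ℝ) ^ (1 - c / (k : ℝ) ^ 6) := by
        rw [Real.rpow_sub hn0, Real.rpow_sub hN0, Real.rpow_one, Real.rpow_one,
          div_mul_eq_mul_div]
        have h3 : (N : ℝ) ^ (c / (k : ℝ) ^ 6) ≤ (n : ℝ) ^ (cB / ((3 * k : ℕ) : ℝ) ^ 6) := by
          refine (Real.rpow_le_rpow hN0.le hN3 (by positivity)).trans ?_
          rw [← Real.rpow_natCast, ← Real.rpow_mul hn0.le]
          refine Real.rpow_le_rpow_of_exponent_le hn1 ?_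
          push_cast
          rw [mul_pow, ← mul_div_assoc, div_le_div_iff₀ hk0 (by positivity)]
          nlinarith
        refine div_le_div₀ hN0.le ?_ (by positivity) h3
        rwa [← le_div_iff₀ hq0]
      have h3 : CB * (n : ℝ) ^ (1 - cB / ((3 * k : ℕ) : ℝ) ^ 6) ≤
          |CB| * (n : ℝ) ^ (1 - cB / ((3 * k : ℕ) : ℝ) ^ 6) :=
        mul_le_mul_of_nonneg_right (le_abs_self _) (by positivity)
      have h4 := mul_le_mul_of_nonneg_right (h1.trans h3) hq0.le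
      have h5 : |CB| * (n : ℝ) ^ (1 - cB / ((3 * k : ℕ) : ℝ) ^ 6) * q ≤
          |CB| * (N : ℝ) ^ (1 - c / (k : ℝ) ^ 6) := by
        rw [mul_assoc]; exact mul_le_mul_of_nonneg_left h2 hBa
      nlinarith
  unfold DP
  rw [← Finset.sum_fiberwise_of_maps_to (s := Ioc N M) (t := range q) (g := fun n => n % q)
    (fun n _ => Finset.mem_range.2 (Nat.mod_lt _ hq))]
  refine (norm_sum_le _ _).trans ((Finset.sum_le_sum key).trans ?_)
  rw [Finset.sum_const, Finset.card_range, nsmul_eq_mul, mul_div_cancel₀ _ hq0.ne']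
  nlinarith

end PE

theorem pe : PEStmt := by
  obtain ⟨C, c, hC, hc, hc1, h⟩ := PE.nat_main
  refine ⟨C + 2, c, hc, fun k q N t f hk hq hqN hp hf ht htN => ?_⟩
  have hq1 : (1 : ℝ) ≤ (q : ℝ) ^ 2 := one_le_pow₀ (by exact_mod_cast hq)
  have hN : 2 ≤ N := by linarith
  obtain ⟨n, hn⟩ : ∃ n : ℕ, ⌈N⌉₊ = n + 1 :=
    Nat.exists_eq_succ_of_ne_zero (Nat.ceil_pos.2 (by linarith)).ne'
  have h1 : N ≤ n + 1 := by
    have := Nat.le_ceil N
    rw [hn] at this
    exact_mod_cast this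
  have h2 : (n : ℝ) < N := Nat.lt_ceil.1 (by omega)
  have h3 : N / 2 ≤ n := by linarith
  set M := ⌊2 * N⌋₊ with hM
  have h4 : n ≤ M := Nat.le_floor (by linarith)
  have h5 : M ≤ 2 * n + 2 := Nat.floor_le_of_le (by push_cast; linarith)
  have hk1 : (1 : ℝ) ≤ (k : ℝ) ^ 6 := one_le_pow₀ (by exact_mod_cast hk)
  have he : 0 ≤ 1 - c / (k : ℝ) ^ 6 := by
    have : c / (k : ℝ) ^ 6 ≤ 1 := by rw [div_le_one (by linarith)]; linarith
    linarith
  have hY : (1 : ℝ) ≤ N ^ (1 - c / (k : ℝ) ^ 6) := Real.one_le_rpow (by linarith) he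
  have hX : 0 ≤ N / |t| := by positivity
  have e : DP (blk N 2) f t = DP (Ioc n (min M (2 * n))) f t + DP (Ioc (min M (2 * n)) M) f t := by
    unfold DP blk
    rw [sum_Ioc_consecutive _ (by omega) (by omega), hn, Icc_add_one_left_eq_Ioc]
  have b1 := h k q n (min M (2 * n)) f t hk hq (by exact_mod_cast hqN.trans h3) (by omega)
    (by omega) hp hf ht (htN.trans (pow_le_pow_left₀ (by linarith) h3 k))
  have b2 : ‖DP (Ioc (min M (2 * n)) M) f t‖ ≤ 2 := by
    unfold DP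
    refine (norm_sum_le_of_le _ (n := fun _ => (1 : ℝ)) fun m _ => ?_).trans ?_
    · rw [norm_mul, norm_ei, mul_one]
      exact hf m
    · rw [sum_const, Nat.card_Ioc, nsmul_eq_mul, mul_one]
      exact_mod_cast (by omega : M - min M (2 * n) ≤ 2)
  have b3 : (n : ℝ) / |t| ≤ N / |t| := div_le_div_of_nonneg_right h2.le (abs_nonneg t)
  have b4 : (n : ℝ) ^ (1 - c / (k : ℝ) ^ 6) ≤ N ^ (1 - c / (k : ℝ) ^ 6) :=
    Real.rpow_le_rpow (Nat.cast_nonneg n) h2.le he
  have b5 := mul_le_mul_of_nonneg_left (add_le_add b3 b4) hC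
  rw [e]
  refine (norm_add_le _ _).trans ?_
  nlinarith

end Pool.Agent.MP_39a890_nt.MS
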