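import Pool.Agent.MP_39a890_nt.ms.Spec

/-! Project MS, row PM: large values of the Dirichlet polynomial over primes. -/

set_option autoImplicit false

noncomputable section

namespace Pool.Agent.MP_39a890_nt.MS

open MeasureTheory Finset
open Pool.Agent.MP_db1c88_nt.z94 (ei blk DP wide wt continuous_DP)
open Pool.Agent.MP_678834_nt Pool.Agent.MP_678834_nt.HL9
open HL9.Prod (pc DP_prod)

namespace PM

theorem cnt (k m : ℕ) {S : Finset ℕ} (hS : ∀ p ∈ S, p.Prime) :
    #{f ∈ Fintype.piFinset fun _ : Fin k => S | ∏ i, f i = m} ≤ k.factorial := by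
  have h : ∀ f ∈ {f ∈ Fintype.piFinset fun _ : Fin k => S | ∏ i, f i = m},
      (List.ofFn f).Perm m.primeFactorsList := fun f hf =>
    Nat.primeFactorsList_unique (List.prod_ofFn.trans (mem_filter.1 hf).2)
      (List.forall_mem_ofFn_iff.2 fun i => hS _ (Fintype.mem_piFinset.1 (mem_filter.1 hf).1 i))
  rcases Finset.eq_empty_or_nonempty
    {f ∈ Fintype.piFinset fun _ : Fin k => S | ∏ i, f i = m} with e | ⟨g, hg⟩
  · simp [e]
  refine (card_le_card_of_injOn (t := (List.ofFn g).permutations.toFinset) List.ofFn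
    (fun f hf => ?_) List.ofFn_injective.injOn).trans ((List.toFinset_card_le _).trans ?_)
  · exact List.mem_toFinset.2 (List.mem_permutations.2 ((h f hf).trans (h g hg).symm))
  · rw [List.length_permutations, List.length_ofFn]

end PM

theorem pm : PMStmt := by
  obtain ⟨C, hC⟩ := mv
  refine ⟨2 * max C 1, by linarith [le_max_right C 1], fun P k T V hP hk hT hT' hV => ?_⟩
  have hS : ∀ p ∈ pr P, p.Prime ∧ p ≤ 2 * P := fun p hp =>
    ⟨(mem_filter.1 hp).2, (mem_Ioc.1 (mem_filter.1 hp).1).2⟩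
  have hu : ∀ f ∈ Fintype.piFinset fun _ : Fin k => pr P, ∏ i, f i ∈ Icc 1 ((2 * P) ^ k) :=
    fun f hf => mem_Icc.2 ⟨prod_pos fun i _ => (hS _ (Fintype.mem_piFinset.1 hf i)).1.pos,
      (prod_le_pow_card _ _ _ fun i _ => (hS _ (Fintype.mem_piFinset.1 hf i)).2).trans (by simp)⟩
  have h1 := hC (Icc 1 ((2 * P) ^ k)) (pc (fun _ : Fin k => pr P) fun _ _ => 1) ((2 * P : ℝ) ^ k) T
    hT fun n hn => ⟨(mem_Icc.1 hn).1, by exact_mod_cast (mem_Icc.1 hn).2⟩
  simp only [DP_prod (fun _ m hm => (hS m hm).1.pos) _ hu, prod_const, card_univ, Fintype.card_fin,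
    norm_pow, ← pow_mul, mul_comm k 2] at h1
  have h2 : ∑ n ∈ Icc 1 ((2 * P) ^ k), ‖pc (fun _ : Fin k => pr P) (fun _ _ => 1) n‖ ^ 2 ≤
      k.factorial * (P : ℝ) ^ k := by
    have h3 := card_eq_sum_card_fiberwise hu
    have h4 : #(pr P) ≤ P := (card_filter_le _ _).trans (by rw [Nat.card_Ioc]; omega)
    have h5 := sum_le_sum fun n (_ : n ∈ Icc 1 ((2 * P) ^ k)) => Nat.mul_le_mul_right
      #{f ∈ Fintype.piFinset fun _ : Fin k => pr P | ∏ i, f i = n}
      (PM.cnt k n fun p hp => (hS p hp).1)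
    rw [← mul_sum, ← h3, Fintype.card_piFinset_const] at h5
    have h6 := h5.trans (Nat.mul_le_mul_left _ (Nat.pow_le_pow_left h4 k))
    simp only [pc, prod_const_one, sum_const, nsmul_one, Complex.norm_natCast, sq]
    exact_mod_cast h6
  have hc : Continuous fun t => ‖DP (pr P) (fun _ => 1) t‖ ^ (2 * k) := by fun_prop
  have h3 := mul_meas_ge_le_integral_of_nonneg (μ := volume.restrict (Set.Icc (-T) T))
    (.of_forall fun t => by positivity) hc.integrableOn_Icc (V ^ (2 * k))
  rw [measureReal_restrict_apply' measurableSet_Icc, integral_Icc_eq_integral_Ioc,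
    ← intervalIntegral.integral_of_le (by linarith)] at h3
  rw [le_div_iff₀' (by positivity)]
  refine le_trans (mul_le_mul_of_nonneg_left (measureReal_mono
    ?_ (measure_ne_top_of_subset Set.inter_subset_right measure_Icc_lt_top.ne)) (by positivity))
    (h3.trans (h1.trans ?_))
  · exact fun t ht => ⟨pow_le_pow_left₀ hV.le ht.2 _, ht.1⟩
  calc _ ≤ max C 1 * (2 * (2 * P : ℝ) ^ k) * (k.factorial * (P : ℝ) ^ k) := by
        gcongr
        · exact le_max_left _ _
        · linarith
    _ = _ := by ring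

end Pool.Agent.MP_39a890_nt.MS
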