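import Pool.Agent.MP_39a890_nt.ms.Spec

/-! Row PR2: products of six Dirichlet polynomials against a weight of small mass. -/

set_option autoImplicit false

noncomputable section

namespace Pool.Agent.MP_39a890_nt.MS

open MeasureTheory Finset Filter
open Pool.Agent.MP_db1c88_nt.z94 (ei blk DP wide wt continuous_DP)
open Pool.Agent.MP_3d0d30_nt.Six (E ck)
open Pool.Agent.MP_678834_nt Pool.Agent.MP_678834_nt.HL9

namespace PR2

theorem intg {ω : ℝ → ℝ} (h : Integrable ω) {F : ℝ → ℂ} (hF : Continuous F) {M : ℝ}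
    (hM : ∀ t, ‖F t‖ ≤ M) : Integrable fun t => ω t * ‖F t‖ ^ 2 :=
  h.mul_bdd (c := M ^ 2) (hF.norm.pow 2).aestronglyMeasurable
    (Eventually.of_forall fun t => by
      rw [Real.norm_of_nonneg (by positivity)]
      exact pow_le_pow_left₀ (norm_nonneg _) (hM t) 2)

theorem int_le {f g : ℝ → ℝ} {s u : Set ℝ} (hs : MeasurableSet s) (su : s ⊆ u)
    (hf : Integrable f) (hg : Integrable g) (g0 : ∀ t, 0 ≤ g t) (fg : ∀ t ∈ s, f t ≤ g t) :
    ∫ t in s, f t ≤ ∫ t in u, g t :=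
  (setIntegral_mono_on hf.integrableOn hg.integrableOn hs fg).trans
    (setIntegral_mono_set hg.integrableOn (Eventually.of_forall g0) su.eventuallyLE)

theorem prod_le {N : Fin 6 → ℝ} {b : Fin 6 → ℕ → ℂ} (hN : ∀ l, 0 < N l)
    (hb : ∀ l n, ‖b l n‖ ≤ 1) (s : Finset (Fin 6)) (t : ℝ) :
    ‖∏ l ∈ s, DP (blk (N l) 2) (b l) t‖ ≤ 2 ^ s.card * ∏ l ∈ s, N l := by
  rw [norm_prod, ← prod_const, ← prod_mul_distrib]
  exact Finset.prod_le_prod (fun _ _ => norm_nonneg _) fun l _ =>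
    HL9.Prod.norm_DP_blk (hN l) (hb l) t

theorem cont (N : Fin 6 → ℝ) (b : Fin 6 → ℕ → ℂ) :
    Continuous fun t => ∏ l, DP (blk (N l) 2) (b l) t :=
  continuous_finsetProd _ fun _ _ => continuous_DP _ _

theorem two {X C L V : ℝ} {N : Fin 6 → ℝ} {b : Fin 6 → ℕ → ℂ} {ω : ℝ → ℝ} (hX : 0 < X)
    (hC : 0 ≤ C) (hL : 0 ≤ L) (hV : 0 < V) (hN : ∀ l, 0 < N l) (hb : ∀ l n, ‖b l n‖ ≤ 1)
    (hi : ∏ l, N l ≤ 11 * X) (w0 : ∀ t, 0 ≤ ω t) (wi : Integrable ω) {i j : Fin 6} (ij : i ≠ j)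
    (h1 : ∫ t in Set.Icc (-X) X, ω t * ‖DP (blk (N i) 2) (b i) t‖ ^ 2 ≤ C * N i ^ 2 * L)
    (h2 : ∫ t in Set.Icc (-X) X, ω t * ‖DP (blk (N j) 2) (b j) t‖ ^ 2 ≤ C * N j ^ 2 * L) :
    ∃ Bad : Set ℝ, MeasurableSet Bad ∧ ∫ t in Bad, ω t ≤ C * V ^ 2 * L ∧
      ∫ t in Set.Icc (-(X / 4)) (X / 4) \ Bad, ω t * ‖∏ l, DP (blk (N l) 2) (b l) t‖ ^ 2 ≤
        176 ^ 2 * C * X ^ 2 * L / V ^ 2 := by
  have ni := hN i
  have nj := hN j
  have i1 := intg wi (continuous_DP _ (b i)) (HL9.Prod.norm_DP_blk ni (hb i))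
  have i2 := intg wi (continuous_DP _ (b j)) (HL9.Prod.norm_DP_blk nj (hb j))
  have mB : MeasurableSet
      (Set.Icc (-X) X ∩ {t | N i / V ≤ ‖DP (blk (N i) 2) (b i) t‖}) :=
    measurableSet_Icc.inter
      (isClosed_le continuous_const (continuous_DP _ _).norm).measurableSet
  refine ⟨_, mB, ?_, ?_⟩
  · refine (int_le mB Set.inter_subset_left wi (i1.const_mul ((V / N i) ^ 2))
      (fun t => by have := w0 t; positivity) fun t ht => ?_).trans ?_
    · have a : 1 ≤ V / N i * ‖DP (blk (N i) 2) (b i) t‖ := by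
        have := ht.2
        rw [Set.mem_ofPred_eq, div_le_iff₀ hV] at this
        rw [div_mul_eq_mul_div, le_div_iff₀ ni]
        linarith
      have a2 := one_le_pow₀ (n := 2) a
      rw [mul_pow] at a2
      nlinarith [mul_le_mul_of_nonneg_left a2 (w0 t)]
    · rw [integral_const_mul]
      refine (mul_le_mul_of_nonneg_left h1 (by positivity)).trans (le_of_eq ?_)
      field_simp
  · have mj : j ∈ (univ : Finset (Fin 6)).erase i := mem_erase.2 ⟨ij.symm, mem_univ _⟩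
    have cd : (((univ : Finset (Fin 6)).erase i).erase j).card = 4 := by
      rw [card_erase_of_mem mj, card_erase_of_mem (mem_univ _)]; simp
    set R := ∏ l ∈ ((univ : Finset (Fin 6)).erase i).erase j, N l with hR
    have R0 : 0 < R := prod_pos fun l _ => hN l
    have eN : N i * (N j * R) ≤ 11 * X := by
      rwa [hR, mul_prod_erase _ N mj, mul_prod_erase _ N (mem_univ i)]
    refine (int_le (u := Set.Icc (-X) X) (measurableSet_Icc.diff mB)
      (Set.sdiff_subset.trans (Set.Icc_subset_Icc (by linarith) (by linarith)))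
      (intg wi (cont N b) (prod_le hN hb univ)) (i2.const_mul ((N i / V * (16 * R)) ^ 2))
      (fun t => by have := w0 t; positivity) fun t ht => ?_).trans ?_
    · have a : ‖DP (blk (N i) 2) (b i) t‖ ≤ N i / V := by
        by_contra hc
        exact ht.2 ⟨⟨by linarith [ht.1.1], by linarith [ht.1.2]⟩, (not_le.1 hc).le⟩
      have c := prod_le hN hb ((univ.erase i).erase j) t
      rw [cd, ← hR] at c
      have d : ‖∏ l, DP (blk (N l) 2) (b l) t‖ ≤
          N i / V * (16 * R) * ‖DP (blk (N j) 2) (b j) t‖ := by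
        rw [← mul_prod_erase _ _ (mem_univ i), ← mul_prod_erase _ _ mj, norm_mul, norm_mul]
        calc _ ≤ N i / V * (‖DP (blk (N j) 2) (b j) t‖ * (2 ^ 4 * R)) := by gcongr
          _ = _ := by ring
      have d2 := pow_le_pow_left₀ (norm_nonneg _) d 2
      rw [mul_pow] at d2
      nlinarith [mul_le_mul_of_nonneg_left d2 (w0 t)]
    · rw [integral_const_mul]
      refine (mul_le_mul_of_nonneg_left h2 (by positivity)).trans ?_
      calc _ = 16 ^ 2 * C * (N i * (N j * R)) ^ 2 * L / V ^ 2 := by field_simp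
        _ ≤ 16 ^ 2 * C * (11 * X) ^ 2 * L / V ^ 2 := by gcongr
        _ = _ := by ring

theorem inv_sq {Y t : ℝ} (hY : 0 < Y) (h : Y ≤ |t|) :
    (1 / |t|) ^ 2 ≤ 2 / Y ^ 2 * ck (t / Y) := by
  have t0 : 0 < |t| := hY.trans_le h
  have a : Y ^ 2 ≤ t ^ 2 := by rw [← sq_abs t]; gcongr
  have t2 : 0 < t ^ 2 := by rw [← sq_abs t]; positivity
  rw [ck, div_pow, sq_abs, one_pow, div_pow, div_mul_div_comm, mul_one,
    div_le_div_iff₀ t2 (by positivity)]
  have : Y ^ 2 * (1 + t ^ 2 / Y ^ 2) = Y ^ 2 + t ^ 2 := by field_simp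
  rw [this]
  linarith

theorem one {X C Y e m : ℝ} {N : Fin 6 → ℝ} {b : Fin 6 → ℕ → ℂ} {ω : ℝ → ℝ} (hX : 0 < X)
    (hC : 0 ≤ C) (hY : 0 < Y) (he : 0 ≤ e) (hN : ∀ l, 0 < N l) (hb : ∀ l n, ‖b l n‖ ≤ 1)
    (hi : ∏ l, N l ≤ 11 * X) (w : Wt ω 4 m) (i : Fin 6)
    (h : ∀ t, Y ≤ |t| → |t| ≤ X → ‖DP (blk (N i) 2) (b i) t‖ ≤ C * N i * (1 / |t| + e)) :
    ∃ Bad : Set ℝ, MeasurableSet Bad ∧ ∫ t in Bad, ω t ≤ 8 * Y ∧
      ∫ t in Set.Icc (-(X / 4)) (X / 4) \ Bad, ω t * ‖∏ l, DP (blk (N l) 2) (b l) t‖ ^ 2 ≤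
        (352 * C * X) ^ 2 * (64 / Y + 2 * e ^ 2 * m) := by
  have ni := hN i
  refine ⟨Set.Icc (-Y) Y, measurableSet_Icc, ?_, ?_⟩
  · calc _ ≤ ∫ _ in Set.Icc (-Y) Y, (4 : ℝ) :=
          setIntegral_mono_on w.int.integrableOn
            (continuous_const.continuousOn.integrableOn_compact isCompact_Icc)
            measurableSet_Icc fun t _ => w.le t
      _ = 8 * Y := by
          rw [setIntegral_const, Real.volume_real_Icc_of_le (by linarith), smul_eq_mul]
          ring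
  · have cd : ((univ : Finset (Fin 6)).erase i).card = 5 := by
      rw [card_erase_of_mem (mem_univ _)]; simp
    set R := ∏ l ∈ (univ : Finset (Fin 6)).erase i, N l with hR
    have R0 : 0 < R := prod_pos fun l _ => hN l
    have eN : N i * R ≤ 11 * X := by rwa [hR, mul_prod_erase _ N (mem_univ i)]
    have k1 : Integrable fun t => ck (t / Y) :=
      Pool.Agent.MP_3d0d30_nt.Six.integrable_ck.comp_div hY.ne'
    have k2 : ∫ t, ck (t / Y) = Y * Real.pi := by
      rw [Measure.integral_comp_div ck Y, abs_of_pos hY, smul_eq_mul]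
      congr 1
      simp only [ck, one_div]
      exact integral_univ_inv_one_add_sq
    have k3 := (k1.const_mul (16 / Y ^ 2)).add (w.int.const_mul (2 * e ^ 2))
    refine (int_le (u := Set.univ) (measurableSet_Icc.diff measurableSet_Icc) (Set.subset_univ _)
      (intg w.int (cont N b) (prod_le hN hb univ)) (k3.const_mul ((352 * C * X) ^ 2))
      (fun t => ?_) fun t ht => ?_).trans ?_
    · have := w.nn t
      have := Pool.Agent.MP_3d0d30_nt.Six.ck_nonneg (t / Y)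
      simp only [Pi.add_apply]
      positivity
    · have t1 : Y ≤ |t| := by
        by_contra hc
        exact ht.2 (abs_le.1 (not_le.1 hc).le)
      have t2 : |t| ≤ X := abs_le.2 ⟨by linarith [ht.1.1], by linarith [ht.1.2]⟩
      have t0 : 0 < |t| := hY.trans_le t1
      have c := prod_le hN hb (univ.erase i) t
      rw [cd, ← hR] at c
      have d : ‖∏ l, DP (blk (N l) 2) (b l) t‖ ≤ 352 * C * X * (1 / |t| + e) := by
        rw [← mul_prod_erase _ _ (mem_univ i), norm_mul]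
        calc _ ≤ C * N i * (1 / |t| + e) * (2 ^ 5 * R) := by
              gcongr
              exact h t t1 t2
          _ = 32 * C * (N i * R) * (1 / |t| + e) := by ring
          _ ≤ 32 * C * (11 * X) * (1 / |t| + e) := by gcongr
          _ = _ := by ring
      have d2 := pow_le_pow_left₀ (norm_nonneg _) d 2
      rw [mul_pow] at d2
      have a := inv_sq hY t1
      have a2 : (1 / |t| + e) ^ 2 ≤ 2 * (1 / |t|) ^ 2 + 2 * e ^ 2 := by
        nlinarith [sq_nonneg (1 / |t| - e)]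
      have a3 : ω t * (1 / |t|) ^ 2 ≤ 4 * (2 / Y ^ 2 * ck (t / Y)) :=
        mul_le_mul (w.le t) a (by positivity) (by norm_num)
      have a4 : ω t * (1 / |t| + e) ^ 2 ≤ 16 / Y ^ 2 * ck (t / Y) + 2 * e ^ 2 * ω t := by
        have := mul_le_mul_of_nonneg_left a2 (w.nn t)
        have e1 : 16 / Y ^ 2 * ck (t / Y) = 2 * (4 * (2 / Y ^ 2 * ck (t / Y))) := by ring
        rw [e1]
        nlinarith
      simp only [Pi.add_apply]
      calc _ ≤ ω t * ((352 * C * X) ^ 2 * (1 / |t| + e) ^ 2) :=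
            mul_le_mul_of_nonneg_left d2 (w.nn t)
        _ = (352 * C * X) ^ 2 * (ω t * (1 / |t| + e) ^ 2) := by ring
        _ ≤ _ := by gcongr
    · rw [Measure.restrict_univ, integral_const_mul]
      simp only [Pi.add_apply]
      rw [integral_add (k1.const_mul _) (w.int.const_mul _), integral_const_mul,
        integral_const_mul, k2]
      have := w.mass
      have p4 := Real.pi_le_four
      gcongr
      calc _ ≤ 16 / Y ^ 2 * (Y * 4) := by gcongr
        _ = _ := by field_simp; norm_num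

theorem big {X : ℝ} (hX : 0 < X) {N : Fin 6 → ℝ} (hN : ∀ l, 0 < N l) (lo : X / 200 ≤ ∏ l, N l)
    (h : ¬ ∃ i j, i ≠ j ∧ X ^ (1 / 10 : ℝ) ≤ N i ∧ X ^ (1 / 10 : ℝ) ≤ N j) :
    ∃ i, X ^ (1 / 2 : ℝ) / 200 ≤ N i := by
  obtain ⟨i, hi⟩ : ∃ i, ∀ j, j ≠ i → N j ≤ X ^ (1 / 10 : ℝ) := by
    by_cases e : ∃ i, X ^ (1 / 10 : ℝ) ≤ N i
    · obtain ⟨i, hi⟩ := e
      exact ⟨i, fun j ji => le_of_not_ge fun hj => h ⟨j, i, ji, hj, hi⟩⟩
    · exact ⟨0, fun j _ => le_of_not_ge fun hj => e ⟨j, hj⟩⟩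
  refine ⟨i, ?_⟩
  have cd : ((univ : Finset (Fin 6)).erase i).card = 5 := by
    rw [card_erase_of_mem (mem_univ _)]; simp
  have a : ∏ l ∈ univ.erase i, N l ≤ X ^ (1 / 2 : ℝ) := by
    refine (Finset.prod_le_prod (g := fun _ => X ^ (1 / 10 : ℝ)) (fun l _ => (hN l).le)
      fun l hl => hi l (mem_erase.1 hl).1).trans (le_of_eq ?_)
    rw [prod_const, cd, ← Real.rpow_natCast, ← Real.rpow_mul hX.le]
    norm_num
  have s : X ^ (1 / 2 : ℝ) * X ^ (1 / 2 : ℝ) = X := by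
    rw [← Real.rpow_add hX]; norm_num
  have s0 : 0 < X ^ (1 / 2 : ℝ) := Real.rpow_pos_of_pos hX _
  rw [← mul_prod_erase _ N (mem_univ i)] at lo
  have := mul_le_mul_of_nonneg_left a (hN i).le
  refine le_of_mul_le_mul_right ?_ s0
  linarith

end PR2

open PR2 in
theorem pr2 : HMWStmt → SMStmt → PR2Stmt := by
  rintro ⟨δ, δ0, C₁, X₁, hH⟩ ⟨c, c0, hS⟩
  refine ⟨min δ c, lt_min δ0 c0, fun A B => ?_⟩
  obtain ⟨C₂, X₂, hS⟩ := hS B
  obtain ⟨X₀, h0⟩ := eventually_atTop.1 ((((((eventually_ge_atTop X₁).and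
    (eventually_ge_atTop X₂)).and (eventually_ge_atTop 1)).and (ev_log (max 8 |C₁|))).and
    (ev_log_pow c0 A 1)).and (ev_rpow (δ := 1 / 6) (by norm_num) 601))
  refine ⟨2 * A + 4, 176 ^ 2 * |C₁| + (352 * |C₂|) ^ 2 * 72, X₀,
    fun X q N b ω hX q1 qB ad w => ?_⟩
  obtain ⟨⟨⟨⟨⟨x1, x2⟩, x3⟩, x4⟩, x5⟩, x6⟩ := h0 X hX
  have X0 : 0 < X := by linarith
  have L8 : 8 ≤ Real.log X := (le_max_left _ _).trans x4
  have LC : |C₁| ≤ Real.log X := (le_max_right _ _).trans x4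
  set L := Real.log X with hL
  have L0 : 0 < L := by linarith
  have L1 : 1 ≤ L := by linarith
  have hN : ∀ l, 0 < N l := fun l => by linarith [ad.half l]
  have c1 := abs_nonneg C₁
  by_cases h : ∃ i j, i ≠ j ∧ X ^ (1 / 10 : ℝ) ≤ N i ∧ X ^ (1 / 10 : ℝ) ≤ N j
  · obtain ⟨i, j, ij, hi, hj⟩ := h
    have w' : Wt ω 4 (4 * X ^ δ) := ⟨w.meas, w.nn, w.le, w.int, w.mass.trans (by
      gcongr
      exact min_le_left _ _)⟩
    have k : ∀ l, X ^ (1 / 10 : ℝ) ≤ N l →
        ∫ t in Set.Icc (-X) X, ω t * ‖DP (blk (N l) 2) (b l) t‖ ^ 2 ≤ |C₁| * N l ^ 2 * L :=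
      fun l hl => (hH X (N l) ω (b l) x1 hl w' (ad.bd l)).trans (by
        gcongr
        exact le_abs_self _)
    obtain ⟨Bad, m, b1, b2⟩ := two (V := L ^ (A + 1)) X0 c1 L0.le (by positivity) hN ad.bd ad.hi
      w.nn w.int ij (k i hi) (k j hj)
    refine ⟨Bad, m, b1.trans ?_, b2.trans ?_⟩
    · calc _ ≤ L * (L ^ (A + 1)) ^ 2 * L := by gcongr
        _ = _ := by ring
    · have : L ^ A * L ≤ (L ^ (A + 1)) ^ 2 := by
        rw [← pow_succ, ← pow_mul]
        exact pow_le_pow_right₀ L1 (by omega)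
      calc _ ≤ 176 ^ 2 * |C₁| * X ^ 2 * L / (L ^ A * L) := by gcongr
        _ = 176 ^ 2 * |C₁| * X ^ 2 / L ^ A := by field_simp
        _ ≤ _ := by gcongr; exact le_add_of_nonneg_right (by positivity)
  · obtain ⟨i, hi⟩ := big X0 hN ad.lo h
    have sm : Sm q (N i) (b i) := (ad.alt i).resolve_left fun k => by
      have e : X ^ (1 / 2 : ℝ) = X ^ (1 / 6 : ℝ) * X ^ (1 / 3 : ℝ) := by
        rw [← Real.rpow_add X0]; norm_num
      have := Real.rpow_pos_of_pos X0 (1 / 3 : ℝ)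
      rw [e] at hi
      nlinarith
    have Y8 : L ≤ L ^ (A + 1) := le_self_pow₀ L1 (by omega)
    have e0 : 0 < X ^ (-c) := Real.rpow_pos_of_pos X0 _
    obtain ⟨Bad, m, b1, b2⟩ := one (C := |C₂|) (Y := L ^ (A + 1)) X0 (abs_nonneg _)
      (by positivity) e0.le hN ad.bd ad.hi w i fun t t1 t2 =>
        (hS X (N i) t q (b i) x2 hi q1 qB sm (by linarith) t2).trans (by
          have := hN i
          gcongr
          exact le_abs_self _)
    refine ⟨Bad, m, b1.trans ?_, b2.trans ?_⟩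
    · calc _ ≤ L * L ^ (A + 1) := by gcongr
        _ = L ^ (A + 2) := by ring
        _ ≤ _ := pow_le_pow_right₀ L1 (by omega)
    · have a1 : 64 / L ^ (A + 1) ≤ 64 / L ^ A := by
        gcongr
        omega
      have a2 : X ^ (-c) * X ^ min δ c ≤ 1 := by
        rw [← Real.rpow_add X0]
        exact Real.rpow_le_one_of_one_le_of_nonpos x3 (by linarith [min_le_right δ c])
      have a3 : X ^ (-c) ≤ 1 / L ^ A := by
        rw [Real.rpow_neg X0.le, one_div]
        exact inv_anti₀ (by positivity) (by linarith)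
      have a4 : 2 * (X ^ (-c)) ^ 2 * (4 * X ^ min δ c) ≤ 8 * (1 / L ^ A) := by
        calc _ = 8 * (X ^ (-c) * (X ^ (-c) * X ^ min δ c)) := by ring
          _ ≤ 8 * (1 / L ^ A * 1) := by gcongr
          _ = _ := by rw [mul_one]
      calc _ ≤ (352 * |C₂| * X) ^ 2 * (64 / L ^ A + 8 * (1 / L ^ A)) := by gcongr
        _ = (352 * |C₂|) ^ 2 * 72 * X ^ 2 / L ^ A := by field_simp; norm_num
        _ ≤ _ := by gcongr; exact le_add_of_nonneg_left (by positivity)

end Pool.Agent.MP_39a890_nt.MS
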