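import Pool.Agent.MP_39a890_nt.ms.Spec

/-! From the bilinear estimate to the asymptotic formula and to the count. -/

set_option autoImplicit false

noncomputable section

namespace Pool.Agent.MP_39a890_nt.MS

open MeasureTheory Finset Filter
open scoped ArithmeticFunction.vonMangoldt
open Pool.Agent.MP_678834_nt Pool.Agent.MP_678834_nt.HL9

namespace VM

lemma sum_sq (N : ℕ) (h : 2 ≤ N) :
    ∑ n ∈ Ioc N (2 * N), ‖((Λ n : ℝ) : ℂ)‖ ^ 2 ≤ 4 * N * Real.log N ^ 2 := by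
  have h2 : (2 : ℝ) ≤ N := by exact_mod_cast h
  have : ∀ n ∈ Ioc N (2 * N), ‖((Λ n : ℝ) : ℂ)‖ ^ 2 ≤ (2 * Real.log N) ^ 2 := by
    intro n hn
    obtain ⟨h3, h4⟩ := mem_Ioc.1 hn
    rw [Complex.norm_real, Real.norm_of_nonneg ArithmeticFunction.vonMangoldt_nonneg]
    refine pow_le_pow_left₀ ArithmeticFunction.vonMangoldt_nonneg
      (ArithmeticFunction.vonMangoldt_le_log.trans ?_) 2
    rw [show 2 * Real.log N = Real.log ((N : ℝ) ^ 2) by rw [Real.log_pow]; norm_num]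
    refine Real.log_le_log (by exact_mod_cast (by omega : 0 < n)) ?_
    have : (n : ℝ) ≤ 2 * N := by exact_mod_cast h4
    nlinarith
  refine (sum_le_card_nsmul _ _ _ this).trans (le_of_eq ?_)
  rw [Nat.card_Ioc, show 2 * N - N = N by omega, nsmul_eq_mul]
  ring

end VM

theorem vm : MTStmt → SGStmt → ∀ F, Fam F → TIIFor F → VMFor F := by
  classical
  rintro mt ⟨K₀, C₁, sg⟩ F hF tii K
  obtain ⟨C₀, C₂, N₂, h2⟩ := tii (K + 6) (2 * (K₀ + K + 4)) (by omega)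
  obtain ⟨C₃, N₃, h3⟩ := mt 3 (2 * (K₀ + K + 4) + 1)
  obtain ⟨N₀, hN₀⟩ := eventually_atTop.1 ((ev_log 2).and ((ev_log C₃).and
    ((eventually_ge_atTop N₂).and ((eventually_ge_atTop N₃).and (eventually_ge_atTop (2 : ℝ))))))
  refine ⟨C₀, 4 * max C₂ 0 + max C₁ 0 * 3 ^ K₀, N₀, fun N A H hN hA hH hHN => ?_⟩
  obtain ⟨l2, l3, n2, n3, n4⟩ := hN₀ N hN
  set L := Real.log N with hL
  have L0 : 0 < L := by linarith
  have p1 : ∀ k : ℕ, 1 ≤ L ^ k := fun k => one_le_pow₀ (by linarith)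
  have A1 : (1 : ℝ) ≤ A := (p1 _).trans hA
  have AH : (A : ℝ) ≤ H := le_trans (le_mul_of_one_le_right (by linarith) (p1 _)) hH
  have HN : 2 * (H : ℝ) ≤ N := by exact_mod_cast hHN
  obtain ⟨Q, q1, q2⟩ : ∃ Q : ℕ, L ^ (2 * (K₀ + K + 4)) ≤ Q ∧
      (Q : ℝ) ≤ L ^ (2 * (K₀ + K + 4) + 1) := by
    refine ⟨⌈L ^ (2 * (K₀ + K + 4))⌉₊, Nat.le_ceil _, (Nat.ceil_lt_add_one (by positivity)).le.trans ?_⟩
    rw [pow_succ]
    nlinarith [p1 (2 * (K₀ + K + 4))]
  have Q1 : 1 ≤ Q := by exact_mod_cast (p1 _).trans q1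
  let T : ℕ × ℕ → ℂ := fun x => ∑ n ∈ Ioc N (2 * N), ((Λ n : ℝ) : ℂ) *
    (((Λ (x.1 * n - x.2) : ℝ) : ℂ) - lamS Q (x.1 * n - x.2))
  refine ⟨(F C₀ N A ×ˢ Icc 1 H).filter (fun x => N / L ^ 2 < ‖T x‖) ∪
    (Ioc A (2 * A) ×ˢ Icc 1 H).filter (fun x : ℕ × ℕ =>
      1 / L ^ 2 < ‖(sing (x.1 * x.2) : ℂ) - sgm Q (x.1 * x.2)‖), ?_, fun a ha b hb hab hx => ?_⟩
  · have e1 : (((F C₀ N A ×ˢ Icc 1 H).filter fun x => N / L ^ 2 < ‖T x‖).card : ℝ) ≤
        4 * max C₂ 0 * A * H / L ^ K := by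
      have k1 := h2 N A H Q (fun n => ((Λ n : ℝ) : ℂ)) n2 q1 q2 hA hH hHN
      rw [← sum_product'] at k1
      have k2 : (((F C₀ N A ×ˢ Icc 1 H).filter fun x => N / L ^ 2 < ‖T x‖).card : ℝ) *
          (N / L ^ 2) ^ 2 ≤ ∑ x ∈ F C₀ N A ×ˢ Icc 1 H, ‖T x‖ ^ 2 := by
        rw [← nsmul_eq_mul]
        refine (card_nsmul_le_sum _ (fun x => ‖T x‖ ^ 2) _ fun x hx => ?_).trans
          (sum_le_sum_of_subset_of_nonneg (filter_subset _ _) fun _ _ _ => by positivity)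
        exact pow_le_pow_left₀ (by positivity) (mem_filter.1 hx).2.le 2
      refine le_of_mul_le_mul_right (k2.trans (k1.trans ?_)) (by positivity : 0 < (N / L ^ 2) ^ 2)
      calc _ ≤ max C₂ 0 * A * H * N / L ^ (K + 6) * (4 * N * L ^ 2) := by
            gcongr
            · exact le_max_left _ _
            · exact VM.sum_sq N (by exact_mod_cast n4)
        _ = _ := by field_simp; ring
    have e2 := sg Q A H (1 / L ^ 2) Q1 (by exact_mod_cast A1) (by exact_mod_cast A1.trans AH)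
      (by positivity)
    have e3 : 1 + Real.log (2 * A * H) ≤ 3 * L := by
      have : Real.log (2 * A * H) ≤ Real.log ((N : ℝ) ^ 2) :=
        Real.log_le_log (by nlinarith) (by nlinarith)
      rw [Real.log_pow] at this
      push_cast at this
      linarith
    have e4 : 0 ≤ 1 + Real.log (2 * A * H) := by
      have : 0 ≤ Real.log (2 * A * H) := Real.log_nonneg (by nlinarith)
      linarith
    have e5 : L ^ (K₀ + K + 2) ≤ √Q := by
      refine Real.le_sqrt_of_sq_le (le_trans ?_ q1)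
      rw [← pow_mul]
      exact pow_le_pow_right₀ (by linarith) (by omega)
    have e6 : C₁ * A * H * (1 + Real.log (2 * A * H)) ^ K₀ / (1 / L ^ 2 * √Q) ≤
        max C₁ 0 * 3 ^ K₀ * A * H / L ^ K :=
      calc _ ≤ max C₁ 0 * A * H * (3 * L) ^ K₀ / (1 / L ^ 2 * L ^ (K₀ + K + 2)) := by
            gcongr
            exact le_max_left _ _
        _ = _ := by rw [mul_pow]; field_simp; ring
    refine le_trans (by exact_mod_cast card_union_le _ _) ((add_le_add e1 (e2.trans e6)).trans ?_)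
    exact le_of_eq (by ring)
  · have ha' := hF.sub _ _ _ ha
    rw [mem_union, not_or, mem_filter, mem_filter, mem_product, mem_product] at hx
    have k1 : ‖T (a, b)‖ ≤ N / L ^ 2 := not_lt.1 fun h => hx.1 ⟨⟨ha, hb⟩, h⟩
    have k2 : ‖(sing (a * b) : ℂ) - sgm Q (a * b)‖ ≤ 1 / L ^ 2 :=
      not_lt.1 fun h => hx.2 ⟨⟨ha', hb⟩, h⟩
    have k3 := h3 N Q a b n3 q2 hab (by
      have := (mem_Ioc.1 ha').1
      have := (mem_Icc.1 hb).2
      have : N ≤ a * N := Nat.le_mul_of_pos_left _ (by omega)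
      omega)
    have k4 : C₃ * N / L ^ 3 ≤ N / L ^ 2 :=
      calc _ ≤ L * N / L ^ 3 := by gcongr
        _ = _ := by field_simp
    have k5 : ((∑ n ∈ Ioc N (2 * N), Λ n * Λ (a * n - b) - sing (a * b) * N : ℝ) : ℂ) =
        T (a, b) + (∑ n ∈ Ioc N (2 * N), ((Λ n : ℝ) : ℂ) * lamS Q (a * n - b) - sgm Q (a * b) * N) -
          ((sing (a * b) : ℂ) - sgm Q (a * b)) * N := by
      simp only [T, mul_sub, sum_sub_distrib]
      push_cast
      ring
    have k6 : ‖((sing (a * b) : ℂ) - sgm Q (a * b)) * N‖ ≤ N / L ^ 2 := by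
      rw [norm_mul, Complex.norm_natCast]
      exact (mul_le_mul_of_nonneg_right k2 (by positivity)).trans (le_of_eq (by ring))
    rw [← Real.norm_eq_abs, ← Complex.norm_real, k5]
    refine (norm_sub_le _ _).trans ((add_le_add ((norm_add_le _ _).trans
      (add_le_add k1 (k3.trans k4))) k6).trans (le_of_eq (by ring)))

theorem fin : CNTStmt → ∀ F, Fam F → VMFor F → FINFor F := by
  rintro ⟨C₁, N₁, cnt⟩ F hF hv K
  obtain ⟨C₀, C₂, N₂, h2⟩ := hv K
  obtain ⟨N₀, hN₀⟩ := eventually_atTop.1 ((ev_log 1).and ((eventually_ge_atTop N₁).and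
    ((eventually_ge_atTop N₂).and (eventually_ge_atTop (3 : ℝ)))))
  refine ⟨max C₀ 10, max C₁ C₂, N₀, fun N A H hN hA hH hHN => ?_⟩
  obtain ⟨l1, n1, n2, n3⟩ := hN₀ N hN
  have m : ∀ k ≤ max C₀ 10, Real.log N ^ k ≤ Real.log N ^ max C₀ 10 :=
    fun k hk => pow_le_pow_right₀ l1 hk
  have m' : ∀ k ≤ max C₀ 10, A * Real.log N ^ k ≤ H := fun k hk =>
    (mul_le_mul_of_nonneg_left (m k hk) (Nat.cast_nonneg _)).trans hH
  obtain ⟨Ex, e1, e2⟩ := h2 N A H n2 ((m _ (le_max_left _ _)).trans hA) (m' _ (le_max_left _ _)) hHN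
  have L0 : 0 < Real.log N := by linarith
  refine ⟨Ex, e1.trans (by gcongr; exact le_max_right _ _), fun a ha b hb hab hev hx => ?_⟩
  obtain ⟨a1, a2⟩ := mem_Ioc.1 (hF.sub _ _ _ ha)
  obtain ⟨b1, b2⟩ := mem_Icc.1 hb
  refine (cnt N a b n1 (by omega) ?_ b1 (by omega) hev (e2 a (hF.anti _ _ N A (le_max_left _ _)
    (by exact_mod_cast n3) ha) b hb hab hx)).trans (by gcongr; exact le_max_left _ _)
  rw [le_div_iff₀ (by positivity)]
  have k1 := m' 10 (le_max_right _ _)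
  have k2 : (a : ℝ) ≤ 2 * A := by exact_mod_cast a2
  have k3 : 2 * (H : ℝ) ≤ N := by exact_mod_cast hHN
  have k4 := mul_le_mul_of_nonneg_right k2 (pow_pos L0 10).le
  linarith

end Pool.Agent.MP_39a890_nt.MS
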