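import Pool.Agent.MP_39a890_nt.ms.Refl
import Pool.Agent.MP_39a890_nt.ms.MT
import Pool.Agent.MP_39a890_nt.ms.VM
import Pool.Agent.MP_39a890_nt.ms.CNT

/-! Project MS: the forms `q`, `a q + d`. -/

set_option autoImplicit false

noncomputable section

namespace Pool.Agent.MP_39a890_nt.MS

open MeasureTheory Finset Filter
open scoped ArithmeticFunction.vonMangoldt
open Pool.Agent.MP_3d0d30_nt.Six (E)
open Pool.Agent.MP_678834_nt Pool.Agent.MP_678834_nt.HL9
open Pool.Agent.MP_3d0d30_nt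
open Pool.Agent.MP_678834_nt.HL9.Final (np np_nonneg)

namespace MT

theorem ram_pos (r h : ℕ) :
    ∑ b ∈ (range r).filter (fun b => Nat.Coprime b r), E ((h : ℝ) * b / r) = ram r h :=
  sum_congr rfl fun b _ => by congr 1; ring

theorem modelp (S : Finset ℕ) (Q a h : ℕ) (hh : a.Coprime h) (Y : ℂ)
    {W : ℝ} (hW : 0 ≤ W) (hb : ∀ r ∈ Icc 1 Q, ∀ b : ℕ, b.Coprime r →
      ‖∑ n ∈ S, (Λ n : ℂ) * E (b * n / r) - rho r * Y‖ ≤ W) :
    ‖∑ n ∈ S, (Λ n : ℂ) * lamS Q (a * n + h) - sgm Q (a * h) * Y‖ ≤ Q * W := by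
  have key : ∑ n ∈ S, (Λ n : ℂ) * lamS Q (a * n + h) - sgm Q (a * h) * Y =
      ∑ r ∈ Icc 1 Q, (rho r : ℂ) * ∑ b ∈ (range r).filter (fun b => Nat.Coprime b r),
        E ((h : ℝ) * b / r) *
          (∑ n ∈ S, (Λ n : ℂ) * E (a * b * n / r) - rho (dd a r) * Y) := by
    have k2 : sgm Q (a * h) * Y = ∑ r ∈ Icc 1 Q, (rho r : ℂ) *
        ∑ b ∈ (range r).filter (fun b => Nat.Coprime b r),
          E ((h : ℝ) * b / r) * (rho (dd a r) * Y) := by
      rw [sgm, sum_mul]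
      refine sum_congr rfl fun r _ => ?_
      rw [← sum_mul, ram_pos, ← loc hh]
      ring
    rw [k2]
    simp only [lamS, ram, mul_sum, mul_sub, sum_sub_distrib]
    congr 1
    rw [sum_comm]
    refine sum_congr rfl fun r _ => ?_
    rw [sum_comm]
    refine sum_congr rfl fun b _ => sum_congr rfl fun n _ => ?_
    rw [show ((b : ℝ) * ((a * n + h : ℕ) : ℝ) / r) = (h : ℝ) * b / r + a * b * n / r by
      push_cast; ring, Six.E_add]
    ring
  rw [key]
  refine (norm_sum_le _ _).trans ?_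
  have : ∀ r ∈ Icc 1 Q, ‖(rho r : ℂ) * ∑ b ∈ (range r).filter (fun b => Nat.Coprime b r),
      E ((h : ℝ) * b / r) *
        (∑ n ∈ S, (Λ n : ℂ) * E (a * b * n / r) - rho (dd a r) * Y)‖ ≤ W := by
    intro r hr
    by_cases hs : Squarefree r
    swap
    · rw [rho_zero hs]
      simpa using hW
    have hr1 : 1 ≤ r := (mem_Icc.1 hr).1
    have hφ : (0 : ℝ) < Nat.totient r := by exact_mod_cast Nat.totient_pos.2 hr1
    have h1 : ‖∑ b ∈ (range r).filter (fun b => Nat.Coprime b r), E ((h : ℝ) * b / r) *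
        (∑ n ∈ S, (Λ n : ℂ) * E (a * b * n / r) - rho (dd a r) * Y)‖ ≤ Nat.totient r * W := by
      refine (norm_sum_le _ _).trans ?_
      rw [← MainOf.card_cop, ← nsmul_eq_mul]
      refine sum_le_card_nsmul _ _ _ fun b hb' => ?_
      rw [norm_mul, Six.norm_E, one_mul]
      have hc := (mem_filter.1 hb').2
      have hm := gd_mul hs a
      obtain ⟨c, hc'⟩ := gg_dvd a r
      have hd : dd a r ∣ r := Dvd.intro_left _ hm
      have hd0 : 0 < dd a r := Nat.pos_of_dvd_of_pos hd hr1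
      have hg0 : 0 < gg a r := Nat.pos_of_dvd_of_pos (Dvd.intro _ hm) hr1
      have := hb (dd a r) (mem_Icc.2 ⟨hd0, (Nat.le_of_dvd hr1 hd).trans (mem_Icc.1 hr).2⟩) (c * b)
        (Nat.Coprime.mul_left ((dd_cop a r).coprime_dvd_left (Dvd.intro_left _ hc'.symm))
          (hc.coprime_dvd_right hd))
      refine le_trans (le_of_eq ?_) this
      congr 2
      refine sum_congr rfl fun n _ => ?_
      congr 2
      have e1 : (a : ℝ) = gg a r * c := by exact_mod_cast hc'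
      have e2 : (r : ℝ) = gg a r * dd a r := by exact_mod_cast hm.symm
      have hd1 : (dd a r : ℝ) ≠ 0 := by positivity
      have hg1 : (gg a r : ℝ) ≠ 0 := by positivity
      rw [e1, e2]
      push_cast
      field_simp
    have h2 : ‖(rho r : ℂ)‖ ≤ 1 / Nat.totient r := by
      rw [Complex.norm_real, rho, norm_div, Real.norm_natCast]
      gcongr
      rw [Real.norm_eq_abs, ← Int.cast_abs]
      exact_mod_cast ArithmeticFunction.abs_moebius_le_one
    rw [norm_mul]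
    refine (mul_le_mul h2 h1 (norm_nonneg _) (by positivity)).trans (le_of_eq ?_)
    field_simp
  refine (sum_le_card_nsmul _ _ _ this).trans (le_of_eq ?_)
  simp

end MT

theorem mtp : MTpStmt := fun K B => by
  obtain ⟨C, X₀, hC⟩ := swa_of PW.pw chr (K + B) B
  refine ⟨|C|, max X₀ 3, fun N Q a b hN hQ hab => ?_⟩
  have hN0 : X₀ ≤ N := (le_max_left _ _).trans hN
  have hN3 : (3 : ℝ) ≤ N := (le_max_right _ _).trans hN
  have hL : 0 < Real.log N := Real.log_pos (by linarith)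
  have h := MT.modelp (Ioc N (2 * N)) Q a b hab (N : ℂ)
    (W := |C| * N / Real.log N ^ (K + B)) (by positivity) fun r hr c hc => by
      have h1 := hC N (2 * N) r c hN0 (by omega) le_rfl (mem_Icc.1 hr).1
        (le_trans (by exact_mod_cast (mem_Icc.1 hr).2) hQ) (by simpa using hc)
      have e : ((2 * N : ℕ) : ℂ) - N = N := by push_cast; ring
      rw [e] at h1
      refine le_trans (le_of_eq ?_) (h1.trans ?_)
      · simp only [Int.cast_natCast]
      · gcongr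
        exact le_abs_self C
  refine h.trans ?_
  calc (Q : ℝ) * (|C| * N / Real.log N ^ (K + B))
      ≤ Real.log N ^ B * (|C| * N / Real.log N ^ (K + B)) := by gcongr
    _ = _ := by rw [pow_add]; field_simp

theorem log_near' {N y : ℝ} (hN : 0 < N) (h1 : N ≤ y) (h2 : 2 * y ≤ 5 * N) :
    |Real.log N - Real.log y| ≤ 1 := by
  have hy : 0 < y := hN.trans_le h1
  have h3 := Real.log_le_log hN h1
  have h4 : Real.log y ≤ Real.log (Real.exp 1 * N) :=
    Real.log_le_log hy (by nlinarith [Real.exp_one_gt_d9])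
  rw [Real.log_mul (Real.exp_pos 1).ne' hN.ne', Real.log_exp] at h4
  rw [abs_le]
  constructor <;> linarith

theorem cntp : CNTpStmt := by
  obtain ⟨c, hc, hs⟩ := Tp.sing_lower
  obtain ⟨N₀, hN₀⟩ := eventually_atTop.1 ((ev_log 8).and (eventually_ge_atTop (4 : ℝ)))
  refine ⟨(4 + 5 * (75 / c)) * 2, N₀, fun N a b hN ha haN hb hbN he h => ?_⟩
  obtain ⟨l1, l2⟩ := hN₀ N hN
  set L := Real.log N with hL
  set M := Real.log (a * N) with hM
  have N0 : (0 : ℝ) < N := by linarith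
  have N1 : 1 ≤ N := by exact_mod_cast (by linarith : (1 : ℝ) ≤ N)
  have L0 : 0 < L := by linarith
  have L1 : 1 ≤ L := by linarith
  have a2 : (2 : ℝ) ≤ a := by exact_mod_cast ha
  have aN : (a : ℝ) ≤ N := haN.trans (div_le_self N0.le (one_le_pow₀ L1))
  have M1 : L ≤ M := Real.log_le_log N0 (by nlinarith)
  have M2 : M ≤ 2 * L := by
    rw [hM, Real.log_mul (by linarith) N0.ne']
    linarith [Real.log_le_log (by linarith) aN]
  have s1 := hs (a * b) (by positivity) he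
  have s0 : 0 < sing (a * b) := hc.trans_le s1
  have k1 : ∀ n ∈ Ioc N (2 * N), a * N ≤ a * n + b ∧ 2 * (a * n + b) ≤ 5 * (a * N) :=
    fun n hn => by
      obtain ⟨n1, n2⟩ := mem_Ioc.1 hn
      have e1 := Nat.mul_le_mul_left a n1.le
      have e2 := Nat.mul_le_mul_left a n2
      have e3 := Nat.mul_le_mul_right N ha
      rw [mul_left_comm] at e2
      omega
  have k2 : N ≤ a * N := Nat.le_mul_of_pos_left N (by omega)
  have w := (abs_sum_le_sum_abs _ _).trans (sum_le_sum fun n (hn : n ∈ Ioc N (2 * N)) =>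
    CNT.point (n := n) (m := a * n + b) L1 M1 M2
      (SG.log_near N0 (by exact_mod_cast (by have := mem_Ioc.1 hn; omega))
        (by exact_mod_cast (mem_Ioc.1 hn).2))
      (log_near' (by positivity) (by exact_mod_cast (k1 n hn).1)
        (by exact_mod_cast (k1 n hn).2)))
  rw [sum_sub_distrib, sum_add_distrib, ← mul_sum, ← mul_sum, ← mul_sum, sum_add_distrib,
    sum_boole] at w
  have p1 := SG.sum_np_le (Ioc N (2 * N)) (fun n => n) (3 * (a * N)) (by omega) (fun _ _ _ _ e => e)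
    fun n hn => by have := mem_Ioc.1 hn; exact mem_Ioc.2 ⟨by omega, by omega⟩
  have p2 := SG.sum_np_le (Ioc N (2 * N)) (fun n => a * n + b) (3 * (a * N)) (by omega)
    (fun x _ y _ e => Nat.eq_of_mul_eq_mul_left (show 0 < a by omega) (by omega))
    fun n hn => by have := k1 n hn; exact mem_Ioc.2 ⟨by omega, by omega⟩
  have q1 : Real.sqrt (3 * (a * N) : ℕ) ≤ 2 * (N / L ^ 5) := by
    rw [Real.sqrt_le_iff]
    push_cast
    refine ⟨by positivity, ?_⟩
    calc _ ≤ 4 * (N / L ^ 10 * N) := by gcongr; norm_num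
      _ = _ := by field_simp; norm_num
  have q2 : Real.log (3 * (a * N) : ℕ) ≤ 3 * L := by
    push_cast
    rw [Real.log_mul three_ne_zero (by positivity)]
    linarith [Real.log_le_sub_one_of_pos (show (0 : ℝ) < 3 by norm_num)]
  have q3 : 2 * Real.sqrt (3 * (a * N) : ℕ) * Real.log (3 * (a * N) : ℕ) ≤
      2 * (2 * (N / L ^ 5)) * (3 * L) :=
    mul_le_mul (by linarith) q2 (Real.log_natCast_nonneg _) (by positivity)
  have q4 : 3 * L * (∑ n ∈ Ioc N (2 * N), np n + ∑ n ∈ Ioc N (2 * N), np (a * n + b)) ≤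
      72 * (N / L) :=
    calc _ ≤ 3 * L * (2 * (2 * (N / L ^ 5)) * (3 * L) + 2 * (2 * (N / L ^ 5)) * (3 * L)) :=
          mul_le_mul_of_nonneg_left (by linarith) (by linarith)
      _ = 72 * (N / L / L ^ 2) := by field_simp; norm_num
      _ ≤ _ := mul_le_mul_of_nonneg_left (div_le_self (by positivity) (one_le_pow₀ L1))
          (by norm_num)
  have q5 : 3 * (N : ℝ) / L ^ 2 ≤ 3 * (N / L) := by
    rw [mul_div_assoc, sq, ← div_div]
    gcongr
    exact div_le_self (by positivity) L1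
  set y : ℝ := (((Ioc N (2 * N)).filter fun q : ℕ => q.Prime ∧ (a * q + b).Prime).card : ℝ)
  have y0 : 0 ≤ y := Nat.cast_nonneg _
  have M0 : 0 < M := by linarith
  have q6 : 3 * M * y ≤ 2 / (L / 2) * (y * (L * M)) :=
    calc _ ≤ 4 * M * y := by gcongr; norm_num
      _ = _ := by field_simp; ring
  have q7 : 75 * (N / L) ≤ 75 / c * (sing (a * b) * N) / (L / 2) :=
    calc _ = 75 / c * (c * N) / L := by field_simp
      _ ≤ _ := by gcongr; linarith
  refine (SG.scal (K := 75 / c) (L := L / 2) (by positivity) (by positivity) (by linarith)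
    (by positivity) ?_).trans (le_of_eq (by field_simp))
  have a1 := abs_le.1 w
  have a3 := abs_le.1 h
  rw [abs_le]
  constructor <;> linarith [a1.1, a1.2, a3.1, a3.2]

theorem vmp : MTpStmt → SGStmt → ∀ F, Fam F → TIIpFor F → VMpFor F := by
  classical
  rintro mt ⟨K₀, C₁, sg⟩ F hF tii K
  obtain ⟨C₀, C₂, N₂, h2⟩ := tii (K + 6) (2 * (K₀ + K + 4)) (by omega)
  obtain ⟨C₃, N₃, h3⟩ := mt 3 (2 * (K₀ + K + 4) + 1)
  obtain ⟨N₀, hN₀⟩ := eventually_atTop.1 ((ev_log 2).and ((ev_log (max C₃ (2 * 2 ^ (2 * (K₀ + K + 4)) + 1))).and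
    ((eventually_ge_atTop N₂).and ((eventually_ge_atTop N₃).and (eventually_ge_atTop (2 : ℝ))))))
  refine ⟨C₀, 4 * max C₂ 0 + max C₁ 0 * 3 ^ K₀, N₀, fun N A H hN hA hH hHN => ?_⟩
  obtain ⟨l2, l4, n2, n3, n4⟩ := hN₀ N hN
  have l3 := (le_max_left _ _).trans l4
  have l5 := (le_max_right _ _).trans l4
  set L := Real.log N with hL
  have L0 : 0 < L := by linarith
  have p1 : ∀ k : ℕ, 1 ≤ L ^ k := fun k => one_le_pow₀ (by linarith)
  have A1 : (1 : ℝ) ≤ A := (p1 _).trans hA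
  have AH : (A : ℝ) ≤ H := le_trans (le_mul_of_one_le_right (by linarith) (p1 _)) hH
  have HN : 2 * (H : ℝ) ≤ N := by exact_mod_cast (by omega : 2 * H ≤ N)
  obtain ⟨Q, q0, q2⟩ : ∃ Q : ℕ, 2 * L ^ (2 * (K₀ + K + 4)) * 2 ^ (2 * (K₀ + K + 4)) ≤ Q ∧
      (Q : ℝ) ≤ L ^ (2 * (K₀ + K + 4) + 1) := by
    refine ⟨⌈2 * L ^ (2 * (K₀ + K + 4)) * 2 ^ (2 * (K₀ + K + 4))⌉₊, Nat.le_ceil _,
      (Nat.ceil_lt_add_one (by positivity)).le.trans ?_⟩
    rw [pow_succ]
    have := mul_le_mul_of_nonneg_left l5 (pow_pos L0 (2 * (K₀ + K + 4))).le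
    nlinarith [p1 (2 * (K₀ + K + 4))]
  have q1 : L ^ (2 * (K₀ + K + 4)) ≤ Q := by
    have h1 : (1 : ℝ) ≤ 2 ^ (2 * (K₀ + K + 4)) := one_le_pow₀ one_le_two
    nlinarith [p1 (2 * (K₀ + K + 4))]
  have Q1 : 1 ≤ Q := by exact_mod_cast (p1 _).trans q1
  let T : ℕ × ℕ → ℂ := fun x => ∑ n ∈ Ioc N (2 * N), ((Λ n : ℝ) : ℂ) *
    (((Λ (x.1 * n + x.2) : ℝ) : ℂ) - lamS Q (x.1 * n + x.2))
  refine ⟨(F C₀ N A ×ˢ Icc 1 H).filter (fun x => N / L ^ 2 < ‖T x‖) ∪
    (Ioc A (2 * A) ×ˢ Icc 1 H).filter (fun x : ℕ × ℕ =>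
      1 / L ^ 2 < ‖(sing (x.1 * x.2) : ℂ) - sgm Q (x.1 * x.2)‖), ?_, fun a ha b hb hab hx => ?_⟩
  · have e1 : (((F C₀ N A ×ˢ Icc 1 H).filter fun x => N / L ^ 2 < ‖T x‖).card : ℝ) ≤
        4 * max C₂ 0 * A * H / L ^ K := by
      have k1 := h2 N A H Q (fun n => ((Λ n : ℝ) : ℂ)) n2 q0 q2 hA hH hHN
      rw [← sum_product'] at k1
      have k2 : (((F C₀ N A ×ˢ Icc 1 H).filter fun x => N / L ^ 2 < ‖T x‖).card : ℝ) *
          (N / L ^ 2) ^ 2 ≤ ∑ x ∈ F C₀ N A ×ˢ Icc 1 H, ‖T x‖ ^ 2 := by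
        rw [← nsmul_eq_mul]
        refine (card_nsmul_le_sum _ (fun x => ‖T x‖ ^ 2) _ fun x hx => ?_).trans
          (sum_le_sum_of_subset_of_nonneg (filter_subset _ _) fun _ _ _ => by positivity)
        exact pow_le_pow_left₀ (by positivity) (mem_filter.1 hx).2.le 2
      refine le_of_mul_le_mul_right (k2.trans (k1.trans ?_)) (by positivity : 0 < (N / L ^ 2) ^ 2)
      calc _ ≤ max C₂ 0 * A * H * N / L ^ (K + 6) * (4 * N * L ^ 2) := by
            gcongr
            · exact le_max_left _ _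
            · exact VM.sum_sq N (by exact_mod_cast n4)
        _ = _ := by field_simp; ring
    have e2 := sg Q A H (1 / L ^ 2) Q1 (by exact_mod_cast A1) (by exact_mod_cast A1.trans AH)
      (by positivity)
    have e3 : 1 + Real.log (2 * A * H) ≤ 3 * L := by
      have : Real.log (2 * A * H) ≤ Real.log ((N : ℝ) ^ 2) :=
        Real.log_le_log (by nlinarith) (by nlinarith)
      rw [Real.log_pow] at this
      push_cast at this
      linarith
    have e4 : 0 ≤ 1 + Real.log (2 * A * H) := by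
      have : 0 ≤ Real.log (2 * A * H) := Real.log_nonneg (by nlinarith)
      linarith
    have e5 : L ^ (K₀ + K + 2) ≤ √Q := by
      refine Real.le_sqrt_of_sq_le (le_trans ?_ q1)
      rw [← pow_mul]
      exact pow_le_pow_right₀ (by linarith) (by omega)
    have e6 : C₁ * A * H * (1 + Real.log (2 * A * H)) ^ K₀ / (1 / L ^ 2 * √Q) ≤
        max C₁ 0 * 3 ^ K₀ * A * H / L ^ K :=
      calc _ ≤ max C₁ 0 * A * H * (3 * L) ^ K₀ / (1 / L ^ 2 * L ^ (K₀ + K + 2)) := by
            gcongr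
            exact le_max_left _ _
        _ = _ := by rw [mul_pow]; field_simp; ring
    refine le_trans (by exact_mod_cast card_union_le _ _) ((add_le_add e1 (e2.trans e6)).trans ?_)
    exact le_of_eq (by ring)
  · have ha' := hF.sub _ _ _ ha
    rw [mem_union, not_or, mem_filter, mem_filter, mem_product, mem_product] at hx
    have k1 : ‖T (a, b)‖ ≤ N / L ^ 2 := not_lt.1 fun h => hx.1 ⟨⟨ha, hb⟩, h⟩
    have k2 : ‖(sing (a * b) : ℂ) - sgm Q (a * b)‖ ≤ 1 / L ^ 2 :=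
      not_lt.1 fun h => hx.2 ⟨⟨ha', hb⟩, h⟩
    have k3 := h3 N Q a b n3 q2 hab
    have k4 : C₃ * N / L ^ 3 ≤ N / L ^ 2 :=
      calc _ ≤ L * N / L ^ 3 := by gcongr
        _ = _ := by field_simp
    have k5 : ((∑ n ∈ Ioc N (2 * N), Λ n * Λ (a * n + b) - sing (a * b) * N : ℝ) : ℂ) =
        T (a, b) + (∑ n ∈ Ioc N (2 * N), ((Λ n : ℝ) : ℂ) * lamS Q (a * n + b) - sgm Q (a * b) * N) -
          ((sing (a * b) : ℂ) - sgm Q (a * b)) * N := by
      simp only [T, mul_sub, sum_sub_distrib]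
      push_cast
      ring
    have k6 : ‖((sing (a * b) : ℂ) - sgm Q (a * b)) * N‖ ≤ N / L ^ 2 := by
      rw [norm_mul, Complex.norm_natCast]
      exact (mul_le_mul_of_nonneg_right k2 (by positivity)).trans (le_of_eq (by ring))
    rw [← Real.norm_eq_abs, ← Complex.norm_real, k5]
    refine (norm_sub_le _ _).trans ((add_le_add ((norm_add_le _ _).trans
      (add_le_add k1 (k3.trans k4))) k6).trans (le_of_eq (by ring)))

theorem finp : CNTpStmt → ∀ F, Fam F → VMpFor F → FINpFor F := by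
  rintro ⟨C₁, N₁, cnt⟩ F hF hv K
  obtain ⟨C₀, C₂, N₂, h2⟩ := hv K
  obtain ⟨N₀, hN₀⟩ := eventually_atTop.1 ((ev_log 1).and ((eventually_ge_atTop N₁).and
    ((eventually_ge_atTop N₂).and (eventually_ge_atTop (3 : ℝ)))))
  refine ⟨max C₀ 10, max C₁ C₂, N₀, fun N A H hN hA hH hHN => ?_⟩
  obtain ⟨l1, n1, n2, n3⟩ := hN₀ N hN
  have m : ∀ k ≤ max C₀ 10, Real.log N ^ k ≤ Real.log N ^ max C₀ 10 :=
    fun k hk => pow_le_pow_right₀ l1 hk
  have m' : ∀ k ≤ max C₀ 10, A * Real.log N ^ k ≤ H := fun k hk =>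
    (mul_le_mul_of_nonneg_left (m k hk) (Nat.cast_nonneg _)).trans hH
  obtain ⟨Ex, e1, e2⟩ := h2 N A H n2 ((m _ (le_max_left _ _)).trans hA) (m' _ (le_max_left _ _)) hHN
  have L0 : 0 < Real.log N := by linarith
  refine ⟨Ex, e1.trans (by gcongr; exact le_max_right _ _), fun a ha b hb hab hev hx => ?_⟩
  obtain ⟨a1, a2⟩ := mem_Ioc.1 (hF.sub _ _ _ ha)
  obtain ⟨b1, b2⟩ := mem_Icc.1 hb
  refine (cnt N a b n1 (by omega) ?_ b1 (by omega) hev (e2 a (hF.anti _ _ N A (le_max_left _ _)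
    (by exact_mod_cast n3) ha) b hb hab hx)).trans (by gcongr; exact le_max_left _ _)
  rw [le_div_iff₀ (by positivity)]
  have k1 := m' 10 (le_max_right _ _)
  have k2 : (a : ℝ) ≤ 2 * A := by exact_mod_cast a2
  have k3 : 2 * (H : ℝ) ≤ N := by exact_mod_cast (by omega : 2 * H ≤ N)
  have k4 := mul_le_mul_of_nonneg_right k2 (pow_pos L0 10).le
  linarith

end Pool.Agent.MP_39a890_nt.MS
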