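import Pool.Agent.MP_39a890_nt.ms.Spec

/-! Project MS, module SG: the truncated singular series for almost all pairs. -/

set_option autoImplicit false

noncomputable section

namespace Pool.Agent.MP_39a890_nt.MS

open MeasureTheory Finset
open scoped ArithmeticFunction.vonMangoldt
open Pool.Agent.MP_db1c88_nt.z94 (ei blk DP wide wt)
open Pool.Agent.MP_3d0d30_nt.Six (E ck)
open Pool.Agent.MP_678834_nt Pool.Agent.MP_678834_nt.HL9

namespace SG

theorem pairs_le (A H : ℕ) (g : ℕ → ℝ) (hg : ∀ h, 0 ≤ g h) :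
    ∑ x ∈ Ioc A (2 * A) ×ˢ Icc 1 H, g (x.1 * x.2) ≤
      ∑ h ∈ Icc 1 (2 * A * H), (h.divisors.card : ℝ) * g h := by
  have hmap : ∀ x ∈ Ioc A (2 * A) ×ˢ Icc 1 H, x.1 * x.2 ∈ Icc 1 (2 * A * H) := by
    intro x hx
    rw [mem_product, mem_Ioc, mem_Icc] at hx
    rw [mem_Icc]
    exact ⟨Nat.mul_pos (by omega) (by omega), Nat.mul_le_mul hx.1.2 hx.2.2⟩
  rw [← sum_fiberwise_of_maps_to hmap]
  refine sum_le_sum fun h hh => ?_
  have h1 : ∑ x ∈ (Ioc A (2 * A) ×ˢ Icc 1 H).filter (fun x : ℕ × ℕ => x.1 * x.2 = h),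
      g (x.1 * x.2) = (((Ioc A (2 * A) ×ˢ Icc 1 H).filter
        (fun x : ℕ × ℕ => x.1 * x.2 = h)).card : ℝ) * g h := by
    rw [← nsmul_eq_mul, ← sum_const]
    exact sum_congr rfl fun x hx => by rw [(mem_filter.1 hx).2]
  rw [h1]
  refine mul_le_mul_of_nonneg_right ?_ (hg h)
  have h0 : h ≠ 0 := by have := (mem_Icc.1 hh).1; omega
  have : ((Ioc A (2 * A) ×ˢ Icc 1 H).filter (fun x : ℕ × ℕ => x.1 * x.2 = h)).card ≤
      h.divisors.card := by
    refine card_le_card_of_injOn (fun x => x.1) ?_ ?_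
    · intro x hx
      have hx2 := (mem_filter.1 (mem_coe.1 hx)).2
      exact mem_coe.2 (Nat.mem_divisors.2 ⟨⟨x.2, hx2.symm⟩, h0⟩)
    · intro x hx y hy hxy
      have hx2 := (mem_filter.1 (mem_coe.1 hx)).2
      have hy2 := (mem_filter.1 (mem_coe.1 hy)).2
      have hxy' : x.1 = y.1 := hxy
      have hp : 0 < y.1 := Nat.pos_of_ne_zero fun e => h0 (by rw [← hy2, e, zero_mul])
      refine Prod.ext hxy' (Nat.eq_of_mul_eq_mul_left hp ?_)
      rw [hy2, ← hxy', hx2]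
  exact_mod_cast this

end SG

theorem sg : SGStmt := by
  obtain ⟨C, hC⟩ := sng
  obtain ⟨K, hK⟩ := dv 2
  refine ⟨K, 2 * (|C| + 1), fun Q A H η hQ hA hH hη => ?_⟩
  set g : ℕ → ℝ := fun h => ‖(sing h : ℂ) - sgm Q h‖ with hg
  set M : ℕ := 2 * A * H with hM
  have hM1 : 1 ≤ M := Nat.mul_pos (by omega) hH
  have hMR : (M : ℝ) = 2 * A * H := by rw [hM]; push_cast; ring
  have hM0 : (1 : ℝ) ≤ M := by exact_mod_cast hM1
  have hQ0 : (0 : ℝ) < Q := by exact_mod_cast hQ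
  have hs : 0 < Real.sqrt Q := Real.sqrt_pos.2 hQ0
  have h1 := hC Q M 0 hQ hM1 (by
    rw [zero_add]; exact Nat.le_self_pow (by norm_num) M)
  rw [zero_add, ← Icc_add_one_left_eq_Ioc, zero_add] at h1
  have h2 := hK M
  have hW : 1 ≤ (1 + Real.log M) ^ K := one_le_pow₀ (by linarith [Real.log_nonneg hM0])
  set W := (1 + Real.log M) ^ K with hWd
  have h3 : η * (((Ioc A (2 * A) ×ˢ Icc 1 H).filter fun x : ℕ × ℕ =>
      η < g (x.1 * x.2)).card : ℝ) ≤ ∑ x ∈ Ioc A (2 * A) ×ˢ Icc 1 H, g (x.1 * x.2) := by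
    rw [mul_comm, ← nsmul_eq_mul, ← sum_const]
    exact (sum_le_sum fun x hx => (mem_filter.1 hx).2.le).trans
      (sum_le_sum_of_subset_of_nonneg (filter_subset _ _) fun _ _ _ => norm_nonneg _)
  have h4 := SG.pairs_le A H g fun h => norm_nonneg _
  have h5 := sum_mul_sq_le_sq_mul_sq (Icc 1 M) (fun h : ℕ => (h.divisors.card : ℝ)) g
  have h6 : (∑ h ∈ Icc 1 M, (h.divisors.card : ℝ) * g h) ^ 2 ≤
      ((|C| + 1) * M * W / Real.sqrt Q) ^ 2 := by
    refine h5.trans ?_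
    have hb : ∑ h ∈ Icc 1 M, g h ^ 2 ≤ (|C| + 1) ^ 2 * M / Q := by
      refine h1.trans ?_
      gcongr
      nlinarith [le_abs_self C, abs_nonneg C]
    calc (∑ h ∈ Icc 1 M, (h.divisors.card : ℝ) ^ 2) * ∑ h ∈ Icc 1 M, g h ^ 2
        ≤ (M * W) * ((|C| + 1) ^ 2 * M / Q) := by
          gcongr
      _ ≤ (M * W ^ 2) * ((|C| + 1) ^ 2 * M / Q) := by
          gcongr
          nlinarith
      _ = _ := by rw [div_pow, Real.sq_sqrt hQ0.le]; ring
  have h7 := abs_le_of_sq_le_sq' h6 (by positivity) |>.2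
  rw [← hMR, le_div_iff₀ (mul_pos hη hs)]
  have h8 := (h3.trans h4).trans h7
  rw [le_div_iff₀ hs] at h8
  calc _ = η * (((Ioc A (2 * A) ×ˢ Icc 1 H).filter fun x : ℕ × ℕ =>
      η < g (x.1 * x.2)).card : ℝ) * Real.sqrt Q := by ring
    _ ≤ (|C| + 1) * M * W := h8
    _ = _ := by rw [← hWd, hMR]; ring

end Pool.Agent.MP_39a890_nt.MS
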