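import Pool.Agent.MP_39a890_nt.ms.Spec

/-! Pointwise bound for long smooth periodic Dirichlet polynomials. -/

set_option autoImplicit false

noncomputable section

namespace Pool.Agent.MP_39a890_nt.MS

open MeasureTheory Finset Filter
open Pool.Agent.MP_db1c88_nt.z94 (ei blk DP wide wt)
open Pool.Agent.MP_3d0d30_nt.Six (E ck)
open Pool.Agent.MP_678834_nt Pool.Agent.MP_678834_nt.HL9
open Pool.Agent.MP_3d0d30_nt

namespace SM

theorem core {V : ℝ → ℝ} (hV : Bump V) : ∃ C : ℝ, 0 ≤ C ∧ ∀ (f : ℕ → ℂ) (N t W : ℝ), 0 < N →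
    0 < |t| → 0 ≤ W → (∀ n, ‖f n‖ ≤ 1) →
    (∀ s, |t| / 2 ≤ |s| → |s| ≤ 3 * |t| / 2 → ‖DP (blk N 2) f s‖ ≤ W) →
    ‖DP (blk N 2) (fun n => f n * (V (Real.log n - Real.log N) : ℝ)) t‖ ≤ C * (W + N / |t|) := by
  obtain ⟨κ, C, hκ, hC, hI⟩ := fi V hV
  have C0 : 0 ≤ C := by simpa using (norm_nonneg _).trans (hC 0)
  refine ⟨C * 32, by positivity, fun f N t W hN ht hW hf h => ?_⟩
  have h1 := Smear.norm_weighted hκ hC hI (blk N 2) f (fun n => (n : ℝ)) N t
  simp only [GP_eq_DP] at h1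
  have hT : 0 < |t| / 2 := by positivity
  have h2 : Smear.cv (fun s => ‖DP (blk N 2) f s‖) t ≤
      ∫ u, (W * ck u + 2 * N * (2 / (|t| / 2) ^ 2) * ck (u / (|t| / 2))) := by
    refine integral_mono_of_nonneg
      (Eventually.of_forall fun u => mul_nonneg (Six.ck_nonneg u) (norm_nonneg _))
      ((Six.integrable_ck.const_mul W).add ((Six.integrable_ck_div hT.ne').const_mul _))
      (Eventually.of_forall fun u => ?_)
    have a1 := Six.ck_nonneg u
    have a2 := Six.ck_nonneg (u / (|t| / 2))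
    dsimp only
    rcases le_total |u| (|t| / 2) with c | c
    · have b1 := abs_add_le t u
      have b2 := abs_add_le (t + u) (-u)
      rw [add_neg_cancel_right, abs_neg] at b2
      have b3 := mul_le_mul_of_nonneg_left (h (t + u) (by linarith) (by linarith)) a1
      have b4 : 0 ≤ 2 * N * (2 / (|t| / 2) ^ 2) * ck (u / (|t| / 2)) := by positivity
      linarith
    · have b1 := mul_le_mul (Smear.ck_tail hT c) (Prod.norm_DP_blk hN hf (t + u)) (norm_nonneg _)
        (by positivity)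
      have b2 : 0 ≤ W * ck u := by positivity
      linarith
  rw [integral_add (Six.integrable_ck.const_mul W) ((Six.integrable_ck_div hT.ne').const_mul _),
    integral_const_mul, integral_const_mul, Six.integral_ck, Six.integral_ck_div hT,
    show 2 * N * (2 / (|t| / 2) ^ 2) * (Real.pi * (|t| / 2)) = 8 * Real.pi * (N / |t|) by
      field_simp; ring] at h2
  refine h1.trans ?_
  rw [mul_assoc]
  refine mul_le_mul_of_nonneg_left (h2.trans ?_) C0
  have : 0 ≤ N / |t| := by positivity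
  nlinarith [Real.pi_le_four, Real.pi_pos]

end SM

theorem sm : PEStmt → SMStmt := by
  rintro ⟨C, c, hc, h⟩
  obtain ⟨C0, a0, h0⟩ := SM.core bump_v0
  obtain ⟨C1, a1, h1⟩ := SM.core bump_v1
  refine ⟨2 / 5 * (c / 3 ^ 6), by positivity, fun B => ?_⟩
  obtain ⟨X₀, hX⟩ := eventually_atTop.1 ((eventually_ge_atTop (1 : ℝ)).and
    ((ev_rpow (δ := 1 / 10) (by norm_num) 400).and
      (ev_log_pow (δ := 2 / 5) (by norm_num) (B * 2) 1)))
  refine ⟨(C0 + C1) * (2 * |C| + 1), X₀, fun X N t q b hX0 hN hq hqB ⟨f, f1, f2, f3⟩ t2 tX => ?_⟩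
  obtain ⟨X1, e1, e2⟩ := hX X hX0
  have X0 : 0 < X := by linarith
  have p0 : 1 ≤ X ^ (2 / 5 : ℝ) := Real.one_le_rpow X1 (by norm_num)
  have e3 : X ^ (2 / 5 : ℝ) ≤ N / 2 := by
    rw [show (1 / 2 : ℝ) = 2 / 5 + 1 / 10 by norm_num, Real.rpow_add X0] at hN
    nlinarith
  have N0 : 0 < N := by linarith
  have e4 : 3 * X / 2 ≤ (N / 2) ^ 3 := by
    refine le_trans ?_ (pow_le_pow_left₀ (by positivity) e3 3)
    rw [← Real.rpow_natCast, ← Real.rpow_mul X0.le,
      show (2 / 5 : ℝ) * (3 : ℕ) = 1 + (1 / 10 + 1 / 10) by norm_num, Real.rpow_add X0,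
      Real.rpow_add X0, Real.rpow_one]
    have : 2 ≤ X ^ (1 / 10 : ℝ) * X ^ (1 / 10 : ℝ) := by nlinarith
    nlinarith
  have e5 : (q : ℝ) ^ 2 ≤ N / 2 := by
    refine (pow_le_pow_left₀ (by positivity) hqB 2).trans ?_
    rw [← pow_mul]
    linarith
  set Y := X ^ (-(2 / 5 * (c / 3 ^ 6))) with hY
  have Y0 : 0 < Y := by positivity
  have e6 : N ^ (1 - c / ((3 : ℕ) : ℝ) ^ 6) ≤ N * Y := by
    rw [sub_eq_add_neg, Real.rpow_add N0, Real.rpow_one, hY, ← mul_neg, Real.rpow_mul X0.le]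
    refine mul_le_mul_of_nonneg_left (Real.rpow_le_rpow_of_nonpos (by positivity) (by linarith)
      (neg_nonpos.2 (by positivity))) N0.le
  have t0 : 0 < |t| := by linarith
  have k : ∀ s, |t| / 2 ≤ |s| → |s| ≤ 3 * |t| / 2 →
      ‖DP (blk N 2) f s‖ ≤ |C| * (2 * (N / |t|) + N * Y) := fun s s1 s2 => by
    refine (h 3 q N s f (by norm_num) hq e5 f1 f2 (by linarith) (by linarith)).trans ?_
    have b1 : N / |s| ≤ 2 * (N / |t|) := by
      rw [← mul_div_assoc, div_le_div_iff₀ (by linarith) t0]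
      nlinarith
    refine mul_le_mul (le_abs_self C) (by linarith) ?_ (abs_nonneg C)
    have : 0 < |s| := by linarith
    positivity
  have u0 : 0 ≤ N / |t| := by positivity
  have w0 : 0 ≤ N * Y := by positivity
  have C2 := abs_nonneg C
  have fin : |C| * (2 * (N / |t|) + N * Y) + N / |t| ≤ (2 * |C| + 1) * (N / |t| + N * Y) := by
    nlinarith [mul_nonneg C2 w0]
  have z0 : 0 ≤ (2 * |C| + 1) * (N / |t| + N * Y) := by positivity
  rw [show (C0 + C1) * (2 * |C| + 1) * N * (1 / |t| + Y) =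
    (C0 + C1) * ((2 * |C| + 1) * (N / |t| + N * Y)) by ring]
  rcases f3 with f3 | f3
  · rw [funext f3]
    exact (h0 f N t _ N0 t0 (by positivity) f2 k).trans
      (mul_le_mul (by linarith) fin (by positivity) (by positivity))
  · rw [funext f3]
    exact (h1 f N t _ N0 t0 (by positivity) f2 k).trans
      (mul_le_mul (by linarith) fin (by positivity) (by positivity))

end Pool.Agent.MP_39a890_nt.MS
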