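import Pool.Agent.MP_39a890_nt.ms.Spec

/-! Project MS, module SM2: inserting a smooth weight, against a weight of small mass. -/

set_option autoImplicit false

noncomputable section

namespace Pool.Agent.MP_39a890_nt.MS

open MeasureTheory Finset Filter
open Pool.Agent.MP_db1c88_nt.z94 (ei)
open Pool.Agent.MP_3d0d30_nt.Six (E ck)
open Pool.Agent.MP_3d0d30_nt
open Pool.Agent.MP_678834_nt Pool.Agent.MP_678834_nt.HL9

namespace SM2

theorem cv_alt (g : ℝ → ℝ) (s : ℝ) : Smear.cv g s = ∫ t, g t * ck (s - t) := by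
  rw [← integral_add_left_eq_self (fun t => g t * ck (s - t)) s]
  refine integral_congr_ae (Eventually.of_forall fun u => ?_)
  dsimp only
  rw [show s - (s + u) = -u by ring, Six.ck_neg, mul_comm]

theorem meas_ck : Measurable ck := by unfold ck; fun_prop

theorem meas_cv {g : ℝ → ℝ} (hm : Measurable g) : Measurable (Smear.cv g) := by
  have h : Measurable (Function.uncurry fun t u : ℝ => ck u * g (t + u)) :=
    (meas_ck.comp measurable_snd).mul (hm.comp (measurable_fst.add measurable_snd))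
  exact h.stronglyMeasurable.integral_prod_right.measurable

theorem cv_le {g : ℝ → ℝ} (hm : Measurable g) {M : ℝ} (h0 : ∀ s, 0 ≤ g s) (hM : ∀ s, g s ≤ M)
    (t : ℝ) : Smear.cv g t ≤ 4 * M := by
  have h1 : Smear.cv g t ≤ ∫ u, ck u * M :=
    integral_mono (Smear.integrable_ker hm (M := M)
      (fun s => by rw [abs_of_nonneg (h0 s)]; exact hM s) t) (Six.integrable_ck.mul_const M)
      fun u => mul_le_mul_of_nonneg_left (hM _) (Six.ck_nonneg u)
  rw [integral_mul_const, Six.integral_ck] at h1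
  exact h1.trans (mul_le_mul_of_nonneg_right Real.pi_le_four ((h0 0).trans (hM 0)))

theorem int_mul {ω g : ℝ → ℝ} (hω : Integrable ω) (hm : Measurable g) {M : ℝ} (h0 : ∀ s, 0 ≤ g s)
    (hM : ∀ s, g s ≤ M) : Integrable fun t => ω t * Smear.cv g t :=
  hω.mul_bdd (c := 4 * M) (meas_cv hm).aestronglyMeasurable (Eventually.of_forall fun t => by
    rw [Real.norm_of_nonneg (Smear.cv_nonneg h0 t)]
    exact cv_le hm h0 hM t)

theorem swap {ω g : ℝ → ℝ} (hω : Integrable ω) (hm : Measurable g) {M : ℝ} (h0 : ∀ s, 0 ≤ g s)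
    (hM : ∀ s, g s ≤ M) : ∫ t, ω t * Smear.cv g t = ∫ s, Smear.cv ω s * g s := by
  have h1 : Integrable (fun p : ℝ × ℝ => ω p.2 * ck (p.1 - p.2)) (volume.prod volume) :=
    hω.convolution_integrand (ContinuousLinearMap.mul ℝ ℝ) Six.integrable_ck
  have h2 : Integrable (Function.uncurry fun s t : ℝ => ω t * ck (s - t) * g s)
      (volume.prod volume) :=
    h1.mul_bdd (c := M) (hm.comp measurable_fst).aestronglyMeasurable
      (Eventually.of_forall fun p => by rw [Real.norm_of_nonneg (h0 _)]; exact hM _)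
  have h3 := integral_integral_swap h2
  have e1 : ∀ s, ∫ t, ω t * ck (s - t) * g s = Smear.cv ω s * g s := fun s => by
    rw [integral_mul_const, cv_alt]
  have e2 : ∀ t, ∫ s, ω t * ck (s - t) * g s = ω t * Smear.cv g t := fun t => by
    rw [cv_alt, ← integral_const_mul]
    refine integral_congr_ae (Eventually.of_forall fun s => ?_)
    dsimp only
    rw [show t - s = -(s - t) by ring, Six.ck_neg]
    ring
  simp only [e1, e2] at h3
  exact h3.symm

theorem scal {C Z T W δ d a a2 m p : ℝ} (hC0 : 0 ≤ C) (hZ0 : 0 ≤ Z) (hT0 : 0 < T) (hδ : 0 < δ)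
    (hd : 0 ≤ d) (a0 : 0 ≤ a2) (m0 : 0 ≤ m) (h1 : d ≤ C * p)
    (h2 : p ≤ a + Z * m + 2 * Real.pi * Z / T) (h3 : a ^ 2 ≤ Real.pi * a2) (h4 : d ≤ W) :
    d ^ 2 ≤ (12 * C ^ 2 * a2 + (3 * C ^ 2 * Z ^ 2 * δ + W ^ 2 / δ) * m) +
      192 * C ^ 2 * Z ^ 2 / T ^ 2 := by
  have hp4 := Real.pi_le_four
  have q1 : 0 ≤ 12 * C ^ 2 * a2 := by positivity
  have q2 : 0 ≤ 3 * C ^ 2 * Z ^ 2 * δ * m := by positivity
  have q3 : 0 ≤ W ^ 2 / δ * m := by positivity
  have q4 : 0 ≤ 192 * C ^ 2 * Z ^ 2 / T ^ 2 := by positivity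
  rw [add_mul]
  rcases le_or_gt m δ with hm | hm
  · have h5 : 2 * Real.pi * Z / T ≤ 8 * Z / T := by gcongr; linarith
    have h6 : d ≤ C * (a + Z * m + 8 * Z / T) :=
      h1.trans (mul_le_mul_of_nonneg_left (by linarith) hC0)
    have h7 : d ^ 2 ≤ (C * (a + Z * m + 8 * Z / T)) ^ 2 := pow_le_pow_left₀ hd h6 2
    have h8 : (a + Z * m + 8 * Z / T) ^ 2 ≤ 3 * (a ^ 2 + (Z * m) ^ 2 + (8 * Z / T) ^ 2) := by
      nlinarith [sq_nonneg (a - Z * m), sq_nonneg (a - 8 * Z / T), sq_nonneg (Z * m - 8 * Z / T)]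
    have h9 : a ^ 2 ≤ 4 * a2 := h3.trans (mul_le_mul_of_nonneg_right hp4 a0)
    have h10 : (Z * m) ^ 2 ≤ Z ^ 2 * δ * m := by
      rw [mul_pow, mul_assoc, sq m]
      gcongr
    have h11 : (8 * Z / T) ^ 2 = 64 * (Z ^ 2 / T ^ 2) := by ring
    have h12 : (a + Z * m + 8 * Z / T) ^ 2 ≤
        12 * a2 + 3 * (Z ^ 2 * δ * m) + 192 * (Z ^ 2 / T ^ 2) := by linarith
    have h13 := mul_le_mul_of_nonneg_left h12 (sq_nonneg C)
    rw [mul_pow] at h7
    have e : C ^ 2 * (12 * a2 + 3 * (Z ^ 2 * δ * m) + 192 * (Z ^ 2 / T ^ 2)) =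
        12 * C ^ 2 * a2 + 3 * C ^ 2 * Z ^ 2 * δ * m + 192 * C ^ 2 * Z ^ 2 / T ^ 2 := by ring
    linarith
  · have h5 : d ^ 2 ≤ W ^ 2 := pow_le_pow_left₀ hd h4 2
    have h6 : W ^ 2 ≤ W ^ 2 / δ * m := by
      rw [div_mul_eq_mul_div, le_div_iff₀ hδ]
      exact mul_le_mul_of_nonneg_left hm.le (sq_nonneg W)
    linarith

end SM2

theorem cv : CVStmt := by
  intro ω m h
  refine ⟨SM2.meas_cv h.meas, Smear.cv_nonneg h.nn,
    fun t => (SM2.cv_le h.meas h.nn h.le t).trans (by norm_num), Smear.integrable_cv h.int, ?_⟩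
  rw [Smear.integral_cv h.int]
  exact mul_le_mul Real.pi_le_four h.mass (integral_nonneg h.nn) (by norm_num)

theorem sm2 : SM2Stmt := by
  intro V hV
  obtain ⟨κ, C, hκ, hC, hI⟩ := fi V hV
  refine ⟨192 * C ^ 2 + 1, by positivity,
    fun ι S c ν X T δ G Z W b m B ω hT hδ hB hω hω0 hZ hb hG hW => ?_⟩
  have hT0 : 0 < T := by linarith
  have hC0 : 0 ≤ C := by
    have := (norm_nonneg _).trans (hC 0)
    simpa using this
  have hA : MeasurableSet (Set.Icc (-(2 * T)) (2 * T) \ B) := measurableSet_Icc.diff hB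
  have hpc : Continuous fun s => ‖GP S c ν s‖ := (continuous_GP S c ν).norm
  have hpZ : ∀ s, ‖GP S c ν s‖ ≤ Z := fun s => (norm_GP_le S c ν s).trans hZ
  have hZ0 : 0 ≤ Z := (norm_nonneg _).trans (hpZ 0)
  set f : ℝ → ℝ := (Set.Icc (-(2 * T)) (2 * T) \ B).indicator fun s => ‖GP S c ν s‖ with hfdef
  set g : ℝ → ℝ := B.indicator fun _ => (1 : ℝ) with hgdef
  have hfm : Measurable f := hpc.measurable.indicator hA
  have hgm : Measurable g := measurable_const.indicator hB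
  have hf0 : ∀ s, 0 ≤ f s := fun s => Set.indicator_nonneg (fun s _ => norm_nonneg _) s
  have hfZ : ∀ s, |f s| ≤ Z := fun s => by
    rw [abs_of_nonneg (hf0 s)]
    exact (Set.indicator_le_self' (fun s _ => norm_nonneg _) s).trans (hpZ s)
  have hf2 : ∀ s, f s ^ 2 ≤ Z ^ 2 := fun s =>
    pow_le_pow_left₀ (hf0 s) ((le_abs_self _).trans (hfZ s)) 2
  have hg0 : ∀ s, 0 ≤ g s := fun s => Set.indicator_nonneg (fun _ _ => zero_le_one) s
  have hg1 : ∀ s, g s ≤ 1 := fun s => by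
    by_cases h : s ∈ B <;> simp [hgdef, h]
  have ha0 : ∀ t, 0 ≤ Smear.cv (fun s => f s ^ 2) t := Smear.cv_nonneg fun s => sq_nonneg _
  have hm0 : ∀ t, 0 ≤ Smear.cv g t := Smear.cv_nonneg hg0
  have i1 := SM2.int_mul hω.int (hfm.pow_const 2) (fun s => sq_nonneg _) hf2
  have i2 := SM2.int_mul hω.int hgm hg0 hg1
  have s1 : ∫ t, ω t * Smear.cv (fun s => f s ^ 2) t ≤ G := by
    rw [SM2.swap hω.int (hfm.pow_const 2) (fun s => sq_nonneg _) hf2]
    refine le_trans (le_of_eq ?_) hG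
    rw [← integral_indicator hA]
    refine integral_congr_ae (Eventually.of_forall fun s => ?_)
    dsimp only
    by_cases h : s ∈ Set.Icc (-(2 * T)) (2 * T) \ B
    · rw [hfdef, Set.indicator_of_mem h, Set.indicator_of_mem h]
    · rw [hfdef, Set.indicator_of_notMem h, Set.indicator_of_notMem h]
      norm_num
  have s2 : ∫ t, ω t * Smear.cv g t ≤ b := by
    rw [SM2.swap hω.int hgm hg0 hg1]
    refine le_trans (le_of_eq ?_) hb
    rw [← integral_indicator hB]
    refine integral_congr_ae (Eventually.of_forall fun s => ?_)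
    by_cases h : s ∈ B <;> simp [hgdef, h]
  have hG0 : 0 ≤ G := (integral_nonneg fun t => mul_nonneg (hω.nn t) (ha0 t)).trans s1
  have hb0 : 0 ≤ b := (integral_nonneg fun t => mul_nonneg (hω.nn t) (hm0 t)).trans s2
  have hm' : 0 ≤ m := (integral_nonneg hω.nn).trans hω.mass
  have i12 : Integrable fun t => 12 * C ^ 2 * (ω t * Smear.cv (fun s => f s ^ 2) t) +
      (3 * C ^ 2 * Z ^ 2 * δ + W ^ 2 / δ) * (ω t * Smear.cv g t) :=
    (i1.const_mul _).add (i2.const_mul _)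
  have i3 : Integrable fun t => 192 * C ^ 2 * Z ^ 2 / T ^ 2 * ω t := hω.int.const_mul _
  have key := integral_mono_of_nonneg (μ := volume)
    (f := fun t => ω t * ‖GP S (fun i => c i * (V (Real.log (ν i) - Real.log X) : ℝ)) ν t‖ ^ 2)
    (Eventually.of_forall fun t => mul_nonneg (hω.nn t) (sq_nonneg _)) (i12.add i3)
    (Eventually.of_forall fun t => by
      rcases le_or_gt |t| T with ht | ht
      · have := mul_le_mul_of_nonneg_left (SM2.scal hC0 hZ0 hT0 hδ (norm_nonneg _) (ha0 t) (hm0 t)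
          (Smear.norm_weighted hκ hC hI S c ν X t)
          (Smear.cv_split hpc.measurable (fun s => norm_nonneg _) hpZ hT0 hB ht)
          (Smear.cv_sq_le hfm hfZ t) (hW t ht)) (hω.nn t)
        refine this.trans (le_of_eq ?_)
        simp only [Pi.add_apply]
        ring
      · simp [hω0 t ht])
  refine key.trans ?_
  simp only [Pi.add_apply]
  rw [integral_add i12 i3, integral_add (i1.const_mul _) (i2.const_mul _), integral_const_mul,
    integral_const_mul, integral_const_mul]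
  have t1 := mul_le_mul_of_nonneg_left s1 (show 0 ≤ 12 * C ^ 2 by positivity)
  have t2 := mul_le_mul_of_nonneg_left s2
    (show 0 ≤ 3 * C ^ 2 * Z ^ 2 * δ + W ^ 2 / δ by positivity)
  have t3 := mul_le_mul_of_nonneg_left hω.mass
    (show 0 ≤ 192 * C ^ 2 * Z ^ 2 / T ^ 2 by positivity)
  refine (add_le_add (add_le_add t1 t2) t3).trans ?_
  have r1 : 0 ≤ Z ^ 2 * δ * b := by positivity
  have r2 : 0 ≤ W ^ 2 * b / δ := by positivity
  have r3 : 0 ≤ Z ^ 2 * m / T ^ 2 := by positivity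
  have e2 : (3 * C ^ 2 * Z ^ 2 * δ + W ^ 2 / δ) * b =
      3 * C ^ 2 * (Z ^ 2 * δ * b) + W ^ 2 * b / δ := by ring
  have e3 : 192 * C ^ 2 * Z ^ 2 / T ^ 2 * m = 192 * C ^ 2 * (Z ^ 2 * m / T ^ 2) := by ring
  rw [e2, e3]
  have c2 := sq_nonneg C
  generalize C ^ 2 = K at c2 ⊢
  generalize Z ^ 2 * δ * b = x1 at r1 ⊢
  generalize W ^ 2 * b / δ = x2 at r2 ⊢
  generalize Z ^ 2 * m / T ^ 2 = x3 at r3 ⊢
  nlinarith [mul_nonneg c2 hG0, mul_nonneg c2 r1, mul_nonneg c2 r2, mul_nonneg c2 r3]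

end Pool.Agent.MP_39a890_nt.MS

end
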