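import Pool.Agent.MP_39a890_nt.ms.Spec

/-! Project MS, row SP: the mean square of the prime polynomial against a sparse weight. -/

set_option autoImplicit false

noncomputable section

namespace Pool.Agent.MP_39a890_nt.MS

open MeasureTheory Finset Filter
open scoped ArithmeticFunction.vonMangoldt
open Pool.Agent.MP_db1c88_nt.z94 (ei blk DP wide wt)
open Pool.Agent.MP_3d0d30_nt.Six (E ck)
open Pool.Agent.MP_678834_nt Pool.Agent.MP_678834_nt.HL9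

namespace SP

theorem int_on {ω : ℝ → ℝ} {c m : ℝ} (hω : Wt ω c m) {F : ℝ → ℝ} (hF : Continuous F) (T : ℝ)
    (s : Set ℝ) : IntegrableOn (fun t => ω t * F t) (Set.Icc (-T) T \ s) :=
  (IntegrableOn.mul_continuousOn hω.int.integrableOn hF.continuousOn isCompact_Icc).mono_set
    Set.sdiff_subset

theorem int_sum_le {ι : Type} (I : Finset ι) (a : ι → ℂ) (P : ι → ℝ → ℂ) (Bad : ι → Set ℝ)
    {ω : ℝ → ℝ} {c m : ℝ} (hω : Wt ω c m)
    (T α g : ℝ) (hP : ∀ τ, Continuous (P τ)) (ha : ∀ τ ∈ I, ‖a τ‖ ≤ α)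
    (hB : ∀ τ ∈ I, MeasurableSet (Bad τ))
    (hg : ∀ τ ∈ I, ∫ t in Set.Icc (-T) T \ Bad τ, ω t * ‖P τ t‖ ^ 2 ≤ g) :
    ∫ t in Set.Icc (-T) T \ ⋃ τ ∈ I, Bad τ, ω t * ‖∑ τ ∈ I, a τ * P τ t‖ ^ 2 ≤
      (I.card : ℝ) ^ 2 * α ^ 2 * g := by
  have hi : ∀ τ (s : Set ℝ), IntegrableOn (fun t => ω t * ‖P τ t‖ ^ 2) (Set.Icc (-T) T \ s) :=
    fun τ s => int_on hω ((hP τ).norm.pow 2) T s
  have hc : Continuous fun t => ‖∑ τ ∈ I, a τ * P τ t‖ ^ 2 := by fun_prop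
  have hm : MeasurableSet (Set.Icc (-T) T \ ⋃ τ ∈ I, Bad τ) :=
    measurableSet_Icc.diff (Finset.measurableSet_biUnion I hB)
  calc ∫ t in Set.Icc (-T) T \ ⋃ τ ∈ I, Bad τ, ω t * ‖∑ τ ∈ I, a τ * P τ t‖ ^ 2
      ≤ ∫ t in Set.Icc (-T) T \ ⋃ τ ∈ I, Bad τ,
          ∑ τ ∈ I, (I.card * α ^ 2) * (ω t * ‖P τ t‖ ^ 2) := by
        refine setIntegral_mono_on (int_on hω hc T _)
          (integrable_finsetSum _ fun τ _ => (hi τ _).const_mul _) hm fun t _ => ?_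
        have h1 : ‖∑ τ ∈ I, a τ * P τ t‖ ^ 2 ≤ I.card * ∑ τ ∈ I, α ^ 2 * ‖P τ t‖ ^ 2 :=
          calc ‖∑ τ ∈ I, a τ * P τ t‖ ^ 2 ≤ (∑ τ ∈ I, ‖a τ * P τ t‖) ^ 2 :=
                pow_le_pow_left₀ (norm_nonneg _) (norm_sum_le _ _) 2
            _ ≤ I.card * ∑ τ ∈ I, ‖a τ * P τ t‖ ^ 2 := sq_sum_le_card_mul_sum_sq
            _ ≤ I.card * ∑ τ ∈ I, α ^ 2 * ‖P τ t‖ ^ 2 := by
                refine mul_le_mul_of_nonneg_left (sum_le_sum fun τ hτ => ?_) (Nat.cast_nonneg _)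
                rw [norm_mul, mul_pow]
                exact mul_le_mul_of_nonneg_right
                  (pow_le_pow_left₀ (norm_nonneg _) (ha τ hτ) 2) (sq_nonneg _)
        refine (mul_le_mul_of_nonneg_left h1 (hω.nn t)).trans (le_of_eq ?_)
        rw [mul_sum, mul_sum]
        exact sum_congr rfl fun τ _ => by ring
    _ = ∑ τ ∈ I, (I.card * α ^ 2) *
          ∫ t in Set.Icc (-T) T \ ⋃ τ ∈ I, Bad τ, ω t * ‖P τ t‖ ^ 2 := by
        rw [integral_finsetSum _ fun τ _ => (hi τ _).const_mul _]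
        exact sum_congr rfl fun τ _ => integral_const_mul _ _
    _ ≤ ∑ _τ ∈ I, (I.card * α ^ 2) * g := by
        refine sum_le_sum fun τ hτ => mul_le_mul_of_nonneg_left (le_trans ?_ (hg τ hτ))
          (by positivity)
        refine setIntegral_mono_set (hi τ _)
          (Eventually.of_forall fun t => mul_nonneg (hω.nn t) (sq_nonneg _))
          (LE.le.eventuallyLE (Set.sdiff_subset_sdiff_right ?_))
        exact Set.subset_biUnion_of_mem (u := Bad) (show τ ∈ (I : Set ι) from hτ)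
    _ = _ := by rw [sum_const, nsmul_eq_mul]; ring

theorem int_union_le {ι : Type} (I : Finset ι) (Bad : ι → Set ℝ) {ω : ℝ → ℝ} {c m : ℝ}
    (hω : Wt ω c m) (hB : ∀ τ ∈ I, MeasurableSet (Bad τ)) :
    ∫ t in ⋃ τ ∈ I, Bad τ, ω t ≤ ∑ τ ∈ I, ∫ t in Bad τ, ω t := by
  classical
  have hm : MeasurableSet (⋃ τ ∈ I, Bad τ) := Finset.measurableSet_biUnion I hB
  rw [← integral_indicator hm]
  have e : ∑ τ ∈ I, ∫ t in Bad τ, ω t = ∫ t, ∑ τ ∈ I, (Bad τ).indicator ω t := by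
    rw [integral_finsetSum _ fun τ hτ => hω.int.indicator (hB τ hτ)]
    exact sum_congr rfl fun τ hτ => (integral_indicator (hB τ hτ)).symm
  rw [e]
  refine integral_mono (hω.int.indicator hm)
    (integrable_finsetSum _ fun τ hτ => hω.int.indicator (hB τ hτ)) fun t => ?_
  have h0 : ∀ τ ∈ I, 0 ≤ (Bad τ).indicator ω t :=
    fun τ _ => Set.indicator_nonneg (fun x _ => hω.nn x) t
  by_cases ht : t ∈ ⋃ τ ∈ I, Bad τ
  · obtain ⟨τ, hτ, h⟩ := Set.mem_iUnion₂.1 ht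
    calc (⋃ τ ∈ I, Bad τ).indicator ω t = (Bad τ).indicator ω t := by
          rw [Set.indicator_of_mem ht, Set.indicator_of_mem h]
      _ ≤ _ := single_le_sum h0 hτ
  · rw [Set.indicator_of_notMem ht]
    exact sum_nonneg h0

end SP

theorem sp : CVStmt → SM2Stmt → PR2Stmt → SPStmt := by
  intro hcv hs hp
  obtain ⟨δ, hδ, hp⟩ := hp
  refine ⟨min δ 1, lt_min hδ one_pos, fun A B => ?_⟩
  obtain ⟨C1, X1, hd⟩ := dec
  obtain ⟨C2, hC2, hs⟩ := hs w1 bump_w1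
  obtain ⟨K, C3, X3, hp⟩ := hp (A + 14) B
  obtain ⟨C4, X4, hw⟩ := pws_of PW.pw (A + 13 + K) B
  obtain ⟨X0, hX0⟩ := eventually_atTop.1 ((eventually_ge_atTop X1).and
    ((eventually_ge_atTop X3).and ((eventually_ge_atTop X4).and ((eventually_ge_atTop 8).and
    ((ev_log 1).and (ev_log_pow (δ := 1) one_pos (A + 14) 1))))))
  refine ⟨C2 * (C1 ^ 4 * max C3 0 + 704 ^ 2 * C1 ^ 5 + C4 ^ 2 * C1 + 64 * 704 ^ 2 * C1 ^ 4), X0,
    fun X q χ ω hX hq hqB hω hsupp => ?_⟩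
  obtain ⟨h1, h3, h4, hX8, hL, hT⟩ := hX0 X hX
  have hX1 : (1 : ℝ) ≤ X := by linarith
  obtain ⟨ι, I, a, N, b, hI, hab, hdec⟩ := hd X q χ h1 hq
  have hc := hcv ω _ hω
  have hm1 : X ^ min δ 1 ≤ X ^ δ := Real.rpow_le_rpow_of_exponent_le hX1 (min_le_left _ _)
  have hm2 : X ^ min δ 1 ≤ X := by
    have := Real.rpow_le_rpow_of_exponent_le hX1 (min_le_right δ 1)
    rwa [Real.rpow_one] at this
  have hc' : Wt (Smear.cv ω) 4 (4 * X ^ δ) :=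
    ⟨hc.meas, hc.nn, hc.le, hc.int, hc.mass.trans (by linarith)⟩
  have hex : ∀ τ, ∃ Bad : Set ℝ, τ ∈ I → MeasurableSet Bad ∧
      ∫ t in Bad, Smear.cv ω t ≤ Real.log X ^ K ∧
      ∫ t in Set.Icc (-(X / 4)) (X / 4) \ Bad, Smear.cv ω t *
        ‖∏ l, DP (blk (N τ l) 2) (b τ l) t‖ ^ 2 ≤ C3 * X ^ 2 / Real.log X ^ (A + 14) := by
    intro τ
    by_cases hτ : τ ∈ I
    · obtain ⟨Bad, h⟩ := hp X q (N τ) (b τ) _ h3 hq hqB (hab τ hτ).2 hc'
      exact ⟨Bad, fun _ => h⟩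
    · exact ⟨∅, fun h => absurd h hτ⟩
  choose Bad hBad using hex
  set L := Real.log X with hLdef
  have hX0' : 0 < X := by linarith
  have hL0 : 0 < L := by linarith
  have hC1 : 0 ≤ C1 := by
    have h0 : (0 : ℝ) ≤ C1 * L ^ 6 := (Nat.cast_nonneg _).trans hI
    exact nonneg_of_mul_nonneg_left h0 (by positivity)
  rw [one_mul, Real.rpow_one] at hT
  have hT1 : 1 ≤ X / 8 := by linarith
  let S : Finset (Σ _ : ι, Fin 6 → ℕ) := I.sigma fun τ => Fintype.piFinset fun l => blk (N τ l) 2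
  let c : (Σ _ : ι, Fin 6 → ℕ) → ℂ := fun i => a i.1 * ∏ l, b i.1 l (i.2 l)
  let ν : (Σ _ : ι, Fin 6 → ℕ) → ℝ := fun i => (∏ l, i.2 l : ℕ)
  have e1 : ∀ t, GP S (fun i => c i * (w1 (Real.log (ν i) - L) : ℝ)) ν t = GG X χ t := fun t => by
    unfold GG
    rw [hdec t, GP, sum_sigma]
    refine sum_congr rfl fun τ _ => ?_
    rw [mul_sum]
    refine sum_congr rfl fun x _ => ?_
    rw [wt_eq]
    simp only [c, ν]
    ring
  have e2 : ∀ t, GP S c ν t = ∑ τ ∈ I, a τ * ∏ l, DP (blk (N τ l) 2) (b τ l) t := fun t => by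
    rw [GP, sum_sigma]
    refine sum_congr rfl fun τ hτ => ?_
    rw [← SI.prod_DP (fun l => lt_of_lt_of_le (by norm_num) ((hab τ hτ).2.half l)), mul_sum]
    refine sum_congr rfl fun x _ => ?_
    simp only [c, ν]
    ring
  have hZ : ∑ i ∈ S, ‖c i‖ ≤ 704 * C1 ^ 2 * L ^ 7 * X := by
    rw [sum_sigma]
    calc ∑ τ ∈ I, ∑ x ∈ Fintype.piFinset fun l => blk (N τ l) 2, ‖c ⟨τ, x⟩‖
        ≤ ∑ _τ ∈ I, C1 * L * (704 * X) := sum_le_sum fun τ hτ => by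
          simp only [c, norm_mul]
          rw [← mul_sum]
          exact mul_le_mul (hab τ hτ).1 (SI.sum_norm_le (hab τ hτ).2)
            (sum_nonneg fun _ _ => norm_nonneg _) (by positivity)
      _ = I.card * (C1 * L * (704 * X)) := by rw [sum_const, nsmul_eq_mul]
      _ ≤ C1 * L ^ 6 * (C1 * L * (704 * X)) := mul_le_mul_of_nonneg_right hI (by positivity)
      _ = _ := by ring
  have hvol : ∫ t in ⋃ τ ∈ I, Bad τ, Smear.cv ω t ≤ C1 * L ^ (6 + K) := by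
    calc ∫ t in ⋃ τ ∈ I, Bad τ, Smear.cv ω t ≤ ∑ τ ∈ I, ∫ t in Bad τ, Smear.cv ω t :=
          SP.int_union_le I Bad hc fun τ hτ => (hBad τ hτ).1
      _ ≤ ∑ _τ ∈ I, L ^ K := sum_le_sum fun τ hτ => (hBad τ hτ).2.1
      _ = I.card * L ^ K := by rw [sum_const, nsmul_eq_mul]
      _ ≤ _ := by
          rw [pow_add, ← mul_assoc]
          exact mul_le_mul_of_nonneg_right hI (by positivity)
  have hG : (∫ t in Set.Icc (-(2 * (X / 8))) (2 * (X / 8)) \ ⋃ τ ∈ I, Bad τ,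
      Smear.cv ω t * ‖GP S c ν t‖ ^ 2) ≤ C1 ^ 4 * max C3 0 * (X ^ 2 / L ^ A) := by
    simp only [e2]
    rw [show 2 * (X / 8) = X / 4 by ring]
    refine (SP.int_sum_le I a (fun τ t => ∏ l, DP (blk (N τ l) 2) (b τ l) t) Bad hc (X / 4) (C1 * L)
      (max C3 0 * X ^ 2 / L ^ (A + 14)) (fun τ => by fun_prop) (fun τ hτ => (hab τ hτ).1)
      (fun τ hτ => (hBad τ hτ).1) fun τ hτ => (hBad τ hτ).2.2.trans ?_).trans ?_
    · gcongr
      exact le_max_left _ _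
    · calc (I.card : ℝ) ^ 2 * (C1 * L) ^ 2 * (max C3 0 * X ^ 2 / L ^ (A + 14))
          ≤ (C1 * L ^ 6) ^ 2 * (C1 * L) ^ 2 * (max C3 0 * X ^ 2 / L ^ (A + 14)) := by gcongr
        _ = _ := by rw [pow_add]; field_simp
  have key := hs _ S c ν X (X / 8) (1 / L ^ (A + 20 + K)) _ _ (C4 * X / L ^ (A + 13 + K)) _ _ _ ω
    hT1 (by positivity) (Finset.measurableSet_biUnion I fun τ hτ => (hBad τ hτ).1) hω hsupp hZ
    hvol hG fun t ht => by
      rw [e1]; exact hw X t q χ h4 hq hqB (ht.trans (by linarith))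
  simp only [← hLdef, e1] at key
  refine key.trans ?_
  have t2 : (704 * C1 ^ 2 * L ^ 7 * X) ^ 2 * (1 / L ^ (A + 20 + K)) * (C1 * L ^ (6 + K)) =
      704 ^ 2 * C1 ^ 5 * (X ^ 2 / L ^ A) := by
    simp only [pow_add]; field_simp
  have t3 : (C4 * X / L ^ (A + 13 + K)) ^ 2 * (C1 * L ^ (6 + K)) / (1 / L ^ (A + 20 + K)) =
      C4 ^ 2 * C1 * (X ^ 2 / L ^ A) := by
    simp only [pow_add]; field_simp
  have t4 : (704 * C1 ^ 2 * L ^ 7 * X) ^ 2 * X ^ min δ 1 / (X / 8) ^ 2 ≤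
      64 * 704 ^ 2 * C1 ^ 4 * (X ^ 2 / L ^ A) := by
    have h5 : L ^ 14 * X ≤ X ^ 2 / L ^ A := by
      rw [le_div_iff₀ (by positivity)]
      calc L ^ 14 * X * L ^ A = L ^ (A + 14) * X := by ring
        _ ≤ X * X := mul_le_mul_of_nonneg_right hT hX0'.le
        _ = X ^ 2 := by ring
    calc (704 * C1 ^ 2 * L ^ 7 * X) ^ 2 * X ^ min δ 1 / (X / 8) ^ 2
        ≤ (704 * C1 ^ 2 * L ^ 7 * X) ^ 2 * X / (X / 8) ^ 2 := by gcongr
      _ = 64 * 704 ^ 2 * C1 ^ 4 * (L ^ 14 * X) := by field_simp; ring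
      _ ≤ _ := mul_le_mul_of_nonneg_left h5 (by positivity)
  rw [t2, t3]
  calc C2 * (C1 ^ 4 * max C3 0 * (X ^ 2 / L ^ A) + 704 ^ 2 * C1 ^ 5 * (X ^ 2 / L ^ A) +
        C4 ^ 2 * C1 * (X ^ 2 / L ^ A) +
        (704 * C1 ^ 2 * L ^ 7 * X) ^ 2 * X ^ min δ 1 / (X / 8) ^ 2)
      ≤ C2 * (C1 ^ 4 * max C3 0 * (X ^ 2 / L ^ A) + 704 ^ 2 * C1 ^ 5 * (X ^ 2 / L ^ A) +
        C4 ^ 2 * C1 * (X ^ 2 / L ^ A) + 64 * 704 ^ 2 * C1 ^ 4 * (X ^ 2 / L ^ A)) :=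
        mul_le_mul_of_nonneg_left (by linarith) hC2
    _ = _ := by ring

end Pool.Agent.MP_39a890_nt.MS
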