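import Pool.Agent.MP_678834_nt.HL9.All

/-! Project MS: prime pairs `q`, `a q - b` on average over multipliers and shifts of
polylogarithmic size. Definitions and the statements of the modules. -/

set_option autoImplicit false

noncomputable section

namespace Pool.Agent.MP_39a890_nt.MS

open MeasureTheory Finset
open scoped ArithmeticFunction.vonMangoldt
open Pool.Agent.MP_db1c88_nt.z94 (ei blk DP wide wt)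
open Pool.Agent.MP_3d0d30_nt.Six (E ck)
open Pool.Agent.MP_678834_nt Pool.Agent.MP_678834_nt.HL9

/-- the mass of the smoothing kernel -/
def zz (L : ℕ) : ℝ := ∑ j ∈ range (4 * L), w1 ((j : ℝ) / L - 1)

/-- the smoothing kernel -/
def kn (L j : ℕ) : ℝ := w1 ((j : ℝ) / L - 1) / zz L

def kh (L : ℕ) (θ : ℝ) : ℂ := ∑ j ∈ range (4 * L), (kn L j : ℂ) * E (j * θ)

/-- the kernel that removes the major arcs -/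
def mu (L Q j : ℕ) : ℂ := (if j = 0 then 1 else 0) - (kn L j : ℂ) * ∑ r ∈ Icc 1 Q, ram r j

def MM (L Q : ℕ) (θ : ℝ) : ℂ := ∑ j ∈ range (4 * L), mu L Q j * E (j * θ)

def SA (S : Finset ℕ) (β : ℕ → ℂ) (a : ℕ) (θ : ℝ) : ℂ := ∑ n ∈ S, β n * E (-(a * n * θ))

/-- multipliers with a large prime factor -/
def good (P : ℝ) (A : ℕ) : Finset ℕ :=
  (Ioc A (2 * A)).filter fun a => ∃ p ∈ a.primeFactors, P < (p : ℝ)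

/-- primes in a dyadic range -/
def pr (P : ℕ) : Finset ℕ := (Ioc P (2 * P)).filter Nat.Prime

/-- the Dirichlet polynomial of the primes at scale `X` -/
def GG (X : ℝ) {q : ℕ} (χ : DirichletCharacter ℂ q) (t : ℝ) : ℂ :=
  DP (wide X 4) (fun n => lc χ n * (wt X 4 n : ℝ)) t

/-- the large sieve property of a set of multipliers -/
def LS (𝒜 : Finset ℕ) (G : ℝ → ℂ) (T Δ : ℝ) : Prop := ∀ u : ℝ → ℂ, Continuous u →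
  ∑ a ∈ 𝒜, ‖∫ t in Set.Icc (-T) T, u t * G t * ei (t * -Real.log a)‖ ^ 2 ≤
    Δ * ∫ t in Set.Icc (-T) T, ‖u t‖ ^ 2

/-- families of sets of multipliers; the arguments are the exponent, `N` and `A` -/
structure Fam (F : ℕ → ℕ → ℕ → Finset ℕ) : Prop where
  sub : ∀ C N A, F C N A ⊆ Ioc A (2 * A)
  anti : ∀ C C' N A, C ≤ C' → 3 ≤ N → F C' N A ⊆ F C N A

/-- the main family -/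
def gd (C N A : ℕ) : Finset ℕ := good (Real.log N ^ C) A

open Classical in
/-- all multipliers, when they are not too small -/
def fb (_C N A : ℕ) : Finset ℕ :=
  if Real.exp (Real.log N ^ (9 / 10 : ℝ)) ≤ A then Ioc A (2 * A) else ∅

/-- weights with small mass -/
structure Wt (ω : ℝ → ℝ) (c m : ℝ) : Prop where
  meas : Measurable ω
  nn : ∀ t, 0 ≤ ω t
  le : ∀ t, ω t ≤ c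
  int : Integrable ω
  mass : ∫ t, ω t ≤ m

/-! ### the kernel and the minor arcs -/

def KERStmt : Prop := ∃ C : ℝ, 1 ≤ C ∧ (∀ x y : ℝ, |w1 x - w1 y| ≤ C * |x - y|) ∧
  ∀ L : ℕ, 1 ≤ L → (L : ℝ) ≤ zz L ∧ (∀ θ : ℝ, ‖kh L θ‖ ≤ 1) ∧
    (∀ θ : ℝ, ‖kh L θ - 1‖ ≤ C * L * |θ|) ∧
    ∀ θ δ : ℝ, 0 < δ → (∀ k : ℤ, δ ≤ |θ - k|) → ‖kh L θ‖ ≤ C / (L * δ)

def MULStmt : Prop := ∃ C : ℝ, 1 ≤ C ∧ ∀ L Q : ℕ, 1 ≤ L → 1 ≤ Q →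
  (∀ θ : ℝ, ‖MM L Q θ‖ ≤ 2 + C * Q ^ 4 / L) ∧
  ∀ (θ γ : ℝ) (q : ℕ) (a : ℤ), 1 ≤ q → q ≤ Q → a.natAbs.Coprime q → |θ - a / q| ≤ γ →
    γ ≤ 1 / (2 * q * Q) → ‖MM L Q θ‖ ≤ C * (L * γ + Q ^ 4 / L)

def ARCStmt : Prop := ∃ C : ℝ, 1 ≤ C ∧
  ∀ (S : Finset ℕ) (β : ℕ → ℂ) (A q : ℕ) (r : ℤ) (x y γ : ℝ), 1 ≤ A → 1 ≤ q →
    r.natAbs.Coprime q → x ≤ y → r / q - γ ≤ x → y ≤ r / q + γ →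
    ∫ θ in x..y, ∑ a ∈ Ioc A (2 * A), ‖SA S β a θ‖ ^ 2 ≤
      C * (1 / q + 1 / A) * (A * γ * q + 1) * ∑ n ∈ S, ‖β n‖ ^ 2

def WINStmt : Prop := ∀ (𝒜 S J R : Finset ℕ) (β F μ : ℕ → ℂ) (H : ℕ) (M : ℝ), 1 ≤ H →
  (∀ α : ℝ, ∫ θ in (α - 1 / H)..(α + 1 / H),
    ‖∑ j ∈ J, μ j * E (j * θ)‖ ^ 2 * ∑ a ∈ 𝒜, ‖SA S β a θ‖ ^ 2 ≤ M) →
  (∀ a ∈ 𝒜, ∀ n ∈ S, ∀ b ∈ Icc 1 H, ∀ j ∈ J, b + j ≤ a * n ∧ a * n - b - j ∈ R) →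
    ∑ a ∈ 𝒜, ∑ b ∈ Icc 1 H, ‖∑ n ∈ S, β n * ∑ j ∈ J, μ j * F (a * n - b - j)‖ ^ 2 ≤
      42 * H * M * ∑ m ∈ R, ‖F m‖ ^ 2

def MINStmt : Prop := ∃ C : ℝ, 1 ≤ C ∧ ∀ (N A H L Q : ℕ) (Y : ℝ) (β : ℕ → ℂ), 1 ≤ A → 1 ≤ Q →
  1 ≤ Y → H + 4 * L ≤ N → Q ^ 4 ≤ L → A * Y ≤ H → A * Q ≤ H → 4 * Q * (Y + Q) ≤ H →
    ∑ a ∈ Ioc A (2 * A), ∑ b ∈ Icc 1 H, ‖∑ n ∈ Ioc N (2 * N), β n *
        ∑ j ∈ range (4 * L), mu L Q j * (Λ (a * n - b - j) : ℝ)‖ ^ 2 ≤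
      C * H * A * N * Real.log (4 * A * N) ^ 2 *
        (1 / Q + 1 / A + 1 / Y + A / H + (L * Y / H) ^ 2 + ((Q : ℝ) ^ 4 / L) ^ 2) *
        ∑ n ∈ Ioc N (2 * N), ‖β n‖ ^ 2

/-! ### the major arcs -/

def DCStmt : Prop := ∀ q c : ℕ, 1 ≤ q → c.Coprime q →
  ∃ γ : DirichletCharacter ℂ q → ℂ, (∀ χ, ‖γ χ‖ ≤ 1) ∧ ∀ L y : ℕ, 1 ≤ L → 4 * L ≤ y →
    ‖∑ j ∈ range (4 * L), (kn L j : ℂ) * (Λ (y - j) : ℝ) * E (c * j / q) -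
        (rho q : ℂ) * E (c * y / q) -
        E (c * y / q) * ∑ χ : DirichletCharacter ℂ q, γ χ *
          ∑ j ∈ range (4 * L), (kn L j : ℂ) * lc χ (y - j)‖ ≤ q * Real.log y / L

def AMStmt : Prop := ∃ C : ℝ, 1 ≤ C ∧ ∀ (ψ : ℕ → ℂ) (X X' Λ₀ δ : ℝ) (L H y b : ℕ), 1 ≤ L →
  L ≤ H → b ≤ H → 20 * H ≤ X → (∀ m ∈ wide X 4, ‖ψ m‖ ≤ Λ₀) → X + b + 4 * L ≤ y →
  (y : ℝ) ≤ 4 * X → X' ≤ y → (y : ℝ) ≤ X' * (1 + δ) → 0 ≤ δ → δ ≤ 1 →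
    ‖∑ j ∈ range (4 * L), (kn L j : ℂ) * ψ (y - b - j) -
        (1 / zz L : ℝ) * ∑ m ∈ wide X 4, ψ m * (wt X 4 m : ℝ) *
          (w1 (X' / L * (Real.log y - Real.log m) - ((b : ℝ) / L + 1)) : ℝ)‖ ≤
      C * Λ₀ * ((H : ℝ) / L) ^ 2 * (δ + H / X)

def WMVStmt : Prop := ∃ C : ℝ, 1 ≤ C ∧ ∀ (s : Finset ℕ) (a : ℕ → ℂ) (K T : ℝ), 0 < T →
  (∀ n ∈ s, 1 ≤ n ∧ (n : ℝ) ≤ K) → (Integrable fun t : ℝ => ck (t / T) * ‖DP s a t‖ ^ 2) ∧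
    ∫ t : ℝ, ck (t / T) * ‖DP s a t‖ ^ 2 ≤ C * (T + K) * ∑ n ∈ s, ‖a n‖ ^ 2

def COREStmt : Prop := ∃ C : ℝ, 1 ≤ C ∧
  ∀ (𝒜 S W : Finset ℕ) (β ψ : ℕ → ℂ) (N X U v Δ : ℝ), (∀ a ∈ 𝒜, 1 ≤ a) →
    (∀ n ∈ S, 1 ≤ n ∧ (n : ℝ) ≤ 2 * N) → (∀ m ∈ W, 1 ≤ m ∧ (m : ℝ) ≤ 12 * X) → 0 < U → U ≤ N →
    N ≤ X → 0 ≤ Δ → LS 𝒜 (DP W ψ) N Δ →
    ∑ a ∈ 𝒜, ‖∑ n ∈ S, β n * ∑ m ∈ W, ψ m *
        (w1 (U * (Real.log (a * n : ℕ) - Real.log m) - v) : ℝ)‖ ^ 2 ≤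
      C * (Δ * N / U ^ 2 + 𝒜.card * X * (∑ m ∈ W, ‖ψ m‖ ^ 2) / N) * ∑ n ∈ S, ‖β n‖ ^ 2

def MJ1Stmt : Prop := ∃ C : ℝ, 1 ≤ C ∧
  ∀ (𝒜 : Finset ℕ) (β ψ : ℕ → ℂ) (N A H L D q c b : ℕ) (Δ Λ₀ : ℝ), 𝒜 ⊆ Ioc A (2 * A) →
    3 ≤ D → 1 ≤ q → 20 ≤ A → 4 * A ≤ L → L ≤ H → b ≤ H → H + 4 * L ≤ N → 0 ≤ Δ →
    (∀ m ∈ wide (A * N) 4, ‖ψ m‖ ≤ Λ₀) →
    LS 𝒜 (DP (wide (A * N) 4) fun m => ψ m * (wt (A * N) 4 m : ℝ)) N Δ →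
    ∑ a ∈ 𝒜, ‖∑ n ∈ Ioc N (2 * N), β n * E (c * (a * n : ℕ) / q) *
        ∑ j ∈ range (4 * L), (kn L j : ℂ) * ψ (a * n - b - j)‖ ^ 2 ≤
      C * (q * (D : ℝ) ^ 3 * (Δ * N / ((A : ℝ) * N) ^ 2 + A * N * Λ₀ ^ 2 * ((A : ℝ) / L) ^ 2) +
        A * N * Λ₀ ^ 2 * ((H : ℝ) / L) ^ 4 * (1 / D + 1 / A) ^ 2) *
        ∑ n ∈ Ioc N (2 * N), ‖β n‖ ^ 2

def MJ2Stmt : Prop := ∃ C : ℝ, 1 ≤ C ∧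
  ∀ (𝒜 : Finset ℕ) (β : ℕ → ℂ) (N A H L D Q : ℕ) (Δ : ℝ), 𝒜 ⊆ Ioc A (2 * A) →
    3 ≤ D → 1 ≤ Q → 20 ≤ A → 4 * A ≤ L → L ≤ H → H + 4 * L ≤ N → 0 ≤ Δ →
    (∀ q : ℕ, 1 ≤ q → q ≤ Q → ∀ χ : DirichletCharacter ℂ q, LS 𝒜 (GG (A * N) χ) N Δ) →
    ∑ a ∈ 𝒜, ∑ b ∈ Icc 1 H, ‖∑ n ∈ Ioc N (2 * N), β n *
        ((∑ j ∈ range (4 * L), (kn L j : ℂ) * (∑ r ∈ Icc 1 Q, ram r j) *
          (Λ (a * n - b - j) : ℝ)) - lamS Q (a * n - b))‖ ^ 2 ≤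
      C * H * (Q : ℝ) ^ 7 * ((D : ℝ) ^ 3 * (Δ * N / ((A : ℝ) * N) ^ 2) +
        A * N * Real.log (A * N) ^ 2 * ((D : ℝ) ^ 3 * ((A : ℝ) / L) ^ 2 +
          ((H : ℝ) / L) ^ 4 * (1 / D + 1 / A) ^ 2)) *
        ∑ n ∈ Ioc N (2 * N), ‖β n‖ ^ 2

/-! ### the large sieve property -/

def HM0Stmt : Prop := ∀ (ι : Type) (S : Finset ι) (ν : ι → ℝ) (u v : ℝ → ℂ) (T D M : ℝ),
  Measurable u → Measurable v → (∀ t ∈ Set.Icc (-T) T, ‖u t‖ ≤ M ∧ ‖v t‖ ≤ M) →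
  (∀ s ∈ Set.Icc (-T) T,
    ∫ t in Set.Icc (-T) T, ‖v t‖ ^ 2 * ‖∑ i ∈ S, ei ((t - s) * ν i)‖ ≤ D) →
    ∑ i ∈ S, ‖∫ t in Set.Icc (-T) T, u t * v t * ei (t * ν i)‖ ^ 2 ≤
      D * ∫ t in Set.Icc (-T) T, ‖u t‖ ^ 2

def PEStmt : Prop := ∃ C c : ℝ, 0 < c ∧ ∀ (k q : ℕ) (N t : ℝ) (f : ℕ → ℂ), 1 ≤ k → 1 ≤ q →
  (q : ℝ) ^ 2 ≤ N / 2 → (∀ n, f (n + q) = f n) → (∀ n, ‖f n‖ ≤ 1) → 1 ≤ |t| →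
  |t| ≤ (N / 2) ^ k → ‖DP (blk N 2) f t‖ ≤ C * (N / |t| + N ^ (1 - c / (k : ℝ) ^ 6))

def HMWStmt : Prop := ∃ δ : ℝ, 0 < δ ∧ ∃ C X₀ : ℝ, ∀ (X N : ℝ) (ω : ℝ → ℝ) (b : ℕ → ℂ),
  X₀ ≤ X → X ^ (1 / 10 : ℝ) ≤ N → Wt ω 4 (4 * X ^ δ) → (∀ n, ‖b n‖ ≤ 1) →
    ∫ t in Set.Icc (-X) X, ω t * ‖DP (blk N 2) b t‖ ^ 2 ≤ C * N ^ 2 * Real.log X

def SMStmt : Prop := ∃ c : ℝ, 0 < c ∧ ∀ B : ℕ, ∃ C X₀ : ℝ, ∀ (X N t : ℝ) (q : ℕ) (b : ℕ → ℂ),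
  X₀ ≤ X → X ^ (1 / 2 : ℝ) / 200 ≤ N → 1 ≤ q → (q : ℝ) ≤ Real.log X ^ B → Sm q N b → 2 ≤ |t| →
  |t| ≤ X → ‖DP (blk N 2) b t‖ ≤ C * N * (1 / |t| + X ^ (-c))

def PR2Stmt : Prop := ∃ δ : ℝ, 0 < δ ∧ ∀ A B : ℕ, ∃ (K : ℕ) (C X₀ : ℝ),
  ∀ (X : ℝ) (q : ℕ) (N : Fin 6 → ℝ) (b : Fin 6 → ℕ → ℂ) (ω : ℝ → ℝ), X₀ ≤ X → 1 ≤ q →
    (q : ℝ) ≤ Real.log X ^ B → Adm X q N b → Wt ω 4 (4 * X ^ δ) →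
    ∃ Bad : Set ℝ, MeasurableSet Bad ∧ ∫ t in Bad, ω t ≤ Real.log X ^ K ∧
      ∫ t in Set.Icc (-(X / 4)) (X / 4) \ Bad, ω t * ‖∏ l, DP (blk (N l) 2) (b l) t‖ ^ 2 ≤
        C * X ^ 2 / Real.log X ^ A

def CVStmt : Prop := ∀ (ω : ℝ → ℝ) (m : ℝ), Wt ω 1 m → Wt (Smear.cv ω) 4 (4 * m)

def SM2Stmt : Prop := ∀ V : ℝ → ℝ, Bump V → ∃ C : ℝ, 0 ≤ C ∧
  ∀ (ι : Type) (S : Finset ι) (c : ι → ℂ) (ν : ι → ℝ) (X T δ G Z W b m : ℝ) (B : Set ℝ)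
    (ω : ℝ → ℝ), 1 ≤ T → 0 < δ → MeasurableSet B → Wt ω 1 m → (∀ t, T < |t| → ω t = 0) →
    ∑ i ∈ S, ‖c i‖ ≤ Z → ∫ s in B, Smear.cv ω s ≤ b →
    (∫ s in Set.Icc (-(2 * T)) (2 * T) \ B, Smear.cv ω s * ‖GP S c ν s‖ ^ 2) ≤ G →
    (∀ t : ℝ, |t| ≤ T →
      ‖GP S (fun i => c i * (V (Real.log (ν i) - Real.log X) : ℝ)) ν t‖ ≤ W) →
    ∫ t, ω t * ‖GP S (fun i => c i * (V (Real.log (ν i) - Real.log X) : ℝ)) ν t‖ ^ 2 ≤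
      C * (G + Z ^ 2 * δ * b + W ^ 2 * b / δ + Z ^ 2 * m / T ^ 2)

def SPStmt : Prop := ∃ δ : ℝ, 0 < δ ∧ ∀ A B : ℕ, ∃ C X₀ : ℝ,
  ∀ (X : ℝ) (q : ℕ) (χ : DirichletCharacter ℂ q) (ω : ℝ → ℝ), X₀ ≤ X → 1 ≤ q →
    (q : ℝ) ≤ Real.log X ^ B → Wt ω 1 (X ^ δ) → (∀ t, X / 8 < |t| → ω t = 0) →
    ∫ t, ω t * ‖GG X χ t‖ ^ 2 ≤ C * X ^ 2 / Real.log X ^ A

def PMStmt : Prop := ∃ C : ℝ, 1 ≤ C ∧ ∀ (P k : ℕ) (T V : ℝ), 1 ≤ P → 1 ≤ k → 0 < T →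
  T ≤ (2 * P : ℝ) ^ k → 0 < V →
    volume.real {τ : ℝ | τ ∈ Set.Icc (-T) T ∧ V ≤ ‖DP (pr P) (fun _ => 1) τ‖} ≤
      C * (2 * P : ℝ) ^ k * k.factorial * (P : ℝ) ^ k / V ^ (2 * k)

def LS1Stmt : Prop := ∀ K B : ℕ, ∃ (C₀ : ℕ) (C N₀ : ℝ),
  ∀ (N X s : ℝ) (P q : ℕ) (χ : DirichletCharacter ℂ q), N₀ ≤ N → 8 * N ≤ X → X ≤ N ^ 2 →
    Real.log N ^ C₀ ≤ 2 * P → 1 ≤ q → (q : ℝ) ≤ Real.log N ^ B → s ∈ Set.Icc (-N) N →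
    ∫ t in Set.Icc (-N) N, ‖GG X χ t‖ ^ 2 * ‖∑ p ∈ pr P, ei ((t - s) * -Real.log p)‖ ≤
      C * P * X ^ 2 / Real.log N ^ K

def LSFor (F : ℕ → ℕ → ℕ → Finset ℕ) : Prop := ∀ K B : ℕ, ∃ (C₀ : ℕ) (C N₀ : ℝ), 0 ≤ C ∧
  ∀ (N A q : ℕ) (χ : DirichletCharacter ℂ q), N₀ ≤ N → 8 ≤ A → A ≤ N → 1 ≤ q →
    (q : ℝ) ≤ Real.log N ^ B →
    LS (F C₀ N A) (GG (A * N) χ) N (C * A * ((A : ℝ) * N) ^ 2 / Real.log N ^ K)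

/-! ### the bilinear estimate and the count -/

def TIIFor (F : ℕ → ℕ → ℕ → Finset ℕ) : Prop := ∀ K B : ℕ, K + 2 ≤ B → ∃ (C₀ : ℕ) (C N₀ : ℝ),
  ∀ (N A H Q : ℕ) (β : ℕ → ℂ), N₀ ≤ N → Real.log N ^ B ≤ Q → (Q : ℝ) ≤ Real.log N ^ (B + 1) →
    Real.log N ^ C₀ ≤ A → A * Real.log N ^ C₀ ≤ H → 2 * H ≤ N →
    ∑ a ∈ F C₀ N A, ∑ b ∈ Icc 1 H, ‖∑ n ∈ Ioc N (2 * N), β n *
        (((Λ (a * n - b) : ℝ) : ℂ) - lamS Q (a * n - b))‖ ^ 2 ≤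
      C * A * H * N / Real.log N ^ K * ∑ n ∈ Ioc N (2 * N), ‖β n‖ ^ 2

def MTStmt : Prop := ∀ K B : ℕ, ∃ C N₀ : ℝ, ∀ N Q a b : ℕ, N₀ ≤ N →
  (Q : ℝ) ≤ Real.log N ^ B → a.Coprime b → b ≤ a * N →
    ‖∑ n ∈ Ioc N (2 * N), ((Λ n : ℝ) : ℂ) * lamS Q (a * n - b) - sgm Q (a * b) * N‖ ≤
      C * N / Real.log N ^ K

def SGStmt : Prop := ∃ (K : ℕ) (C : ℝ), ∀ (Q A H : ℕ) (η : ℝ), 1 ≤ Q → 1 ≤ A → 1 ≤ H → 0 < η →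
  (((Ioc A (2 * A) ×ˢ Icc 1 H).filter fun x : ℕ × ℕ =>
      η < ‖(sing (x.1 * x.2) : ℂ) - sgm Q (x.1 * x.2)‖).card : ℝ) ≤
    C * A * H * (1 + Real.log (2 * A * H)) ^ K / (η * Real.sqrt Q)

def VMFor (F : ℕ → ℕ → ℕ → Finset ℕ) : Prop := ∀ K : ℕ, ∃ (C₀ : ℕ) (C N₀ : ℝ), ∀ N A H : ℕ, N₀ ≤ N →
  Real.log N ^ C₀ ≤ A → A * Real.log N ^ C₀ ≤ H → 2 * H ≤ N →
    ∃ Ex : Finset (ℕ × ℕ), (Ex.card : ℝ) ≤ C * A * H / Real.log N ^ K ∧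
      ∀ a ∈ F C₀ N A, ∀ b ∈ Icc 1 H, a.Coprime b → (a, b) ∉ Ex →
        |∑ n ∈ Ioc N (2 * N), Λ n * Λ (a * n - b) - sing (a * b) * N| ≤ 3 * N / Real.log N ^ 2

def CNTStmt : Prop := ∃ C N₀ : ℝ, ∀ N a b : ℕ, N₀ ≤ N → 2 ≤ a → (a : ℝ) ≤ N / Real.log N ^ 10 →
  1 ≤ b → b ≤ N → Even (a * b) →
  |∑ n ∈ Ioc N (2 * N), Λ n * Λ (a * n - b) - sing (a * b) * N| ≤ 3 * N / Real.log N ^ 2 →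
    |(((Ioc N (2 * N)).filter fun q : ℕ => q.Prime ∧ (a * q - b).Prime).card : ℝ) *
      (Real.log N * Real.log (a * N)) / (sing (a * b) * N) - 1| ≤ C / Real.log N

def FINFor (F : ℕ → ℕ → ℕ → Finset ℕ) : Prop := ∀ K : ℕ, ∃ (C₀ : ℕ) (C N₀ : ℝ), ∀ N A H : ℕ,
  N₀ ≤ (N : ℝ) →
  Real.log N ^ C₀ ≤ (A : ℝ) → (A : ℝ) * Real.log N ^ C₀ ≤ H → 2 * H ≤ N →
    ∃ Ex : Finset (ℕ × ℕ), (Ex.card : ℝ) ≤ C * A * H / Real.log N ^ K ∧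
      ∀ a ∈ F C₀ N A, ∀ b ∈ Icc 1 H, a.Coprime b → Even (a * b) → (a, b) ∉ Ex →
        |(((Ioc N (2 * N)).filter fun q : ℕ => q.Prime ∧ (a * q - b).Prime).card : ℝ) *
          (Real.log N * Real.log (a * N)) / (sing (a * b) * N) - 1| ≤ C / Real.log N

/-- the chain from the large sieve property to the count -/
theorem chain_of (ker : KERStmt) (mul : KERStmt → MULStmt) (arc : ARCStmt) (win : WINStmt)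
    (mn : MULStmt → ARCStmt → WINStmt → MINStmt) (dc : KERStmt → DCStmt) (am : KERStmt → AMStmt)
    (wmv : WMVStmt) (core : WMVStmt → COREStmt) (mj1 : KERStmt → AMStmt → COREStmt → MJ1Stmt)
    (mj2 : DCStmt → MJ1Stmt → MJ2Stmt)
    (tii : MINStmt → MJ2Stmt → ∀ F, Fam F → LSFor F → TIIFor F) (mt : MTStmt) (sg : SGStmt)
    (vm : MTStmt → SGStmt → ∀ F, Fam F → TIIFor F → VMFor F) (cnt : CNTStmt)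
    (fin : CNTStmt → ∀ F, Fam F → VMFor F → FINFor F) (F : ℕ → ℕ → ℕ → Finset ℕ) (hF : Fam F)
    (h : LSFor F) : FINFor F :=
  fin cnt F hF (vm mt sg F hF (tii (mn (mul ker) arc win)
    (mj2 (dc ker) (mj1 ker (am ker) (core wmv))) F hF h))

/-- the large sieve property of the main family -/
theorem ls_chain (hm0 : HM0Stmt) (pe : PEStmt)
    (hmw : HM0Stmt → PEStmt → HMWStmt) (sm : PEStmt → SMStmt) (pr2 : HMWStmt → SMStmt → PR2Stmt)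
    (cv : CVStmt) (sm2 : SM2Stmt) (sp : CVStmt → SM2Stmt → PR2Stmt → SPStmt) (pm : PMStmt)
    (ls1 : SPStmt → PMStmt → LS1Stmt) (ls : HM0Stmt → LS1Stmt → LSFor gd) : LSFor gd :=
  ls hm0 (ls1 (sp cv sm2 (pr2 (hmw hm0 pe) (sm pe))) pm)

end Pool.Agent.MP_39a890_nt.MS
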