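import Pool.Agent.MP_39a890_nt.ms.Spec

/-! Project MS: the bilinear estimate. -/

set_option autoImplicit false

noncomputable section

namespace Pool.Agent.MP_39a890_nt.MS

open MeasureTheory Finset
open scoped ArithmeticFunction.vonMangoldt
open Pool.Agent.MP_db1c88_nt.z94 (ei blk DP wide wt)
open Pool.Agent.MP_3d0d30_nt.Six (E ck)
open Pool.Agent.MP_678834_nt Pool.Agent.MP_678834_nt.HL9

namespace TII

theorem split {L : ℕ} (hL : 1 ≤ L) (Q y : ℕ) (z : ℂ) : ((Λ y : ℝ) : ℂ) - z =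
    ∑ j ∈ range (4 * L), mu L Q j * (Λ (y - j) : ℝ) +
      ((∑ j ∈ range (4 * L), (kn L j : ℂ) * (∑ r ∈ Icc 1 Q, ram r j) * (Λ (y - j) : ℝ)) - z) := by
  simp only [mu, sub_mul, sum_sub_distrib, ite_mul, one_mul, zero_mul]
  rw [sum_ite_eq', if_pos (mem_range.2 (by omega)), Nat.sub_zero]
  ring

theorem sq_add (u v : ℂ) : ‖u + v‖ ^ 2 ≤ 2 * ‖u‖ ^ 2 + 2 * ‖v‖ ^ 2 := by
  have h := pow_le_pow_left₀ (norm_nonneg _) (norm_add_le u v) 2
  nlinarith [sq_nonneg (‖u‖ - ‖v‖)]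

theorem pw {t : ℝ} (ht : 4 ≤ t) {m n : ℕ} (h : m ≤ n) : t ^ m ≤ t ^ n :=
  pow_le_pow_right₀ (by linarith) h

theorem num1 {t η A H L Q : ℝ} (ht : 4 ≤ t) (hA : t ^ 22 ≤ A) (hH : A * t ^ 22 ≤ H)
    (h1 : L * t ^ 2 ≤ H) (h2 : A * t ^ 19 ≤ L) (hQ : Q ≤ t) (hQ0 : 0 ≤ Q) (h3 : 1 / Q ≤ η)
    (h4 : 1 / t ≤ η) :
    1 / Q + 1 / A + 1 / t + A / H + (L * t / H) ^ 2 + (Q ^ 4 / L) ^ 2 ≤ 6 * η := by
  have t0 : 0 < t := by linarith
  have a0 : t ≤ t ^ 22 := by simpa using pw ht (show 1 ≤ 22 by norm_num)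
  have a1 : t ≤ A := a0.trans hA
  have A0 : 0 < A := t0.trans_le a1
  have H0 : 0 < H := lt_of_lt_of_le (by positivity) hH
  have L0 : 0 < L := lt_of_lt_of_le (by positivity) h2
  have sq : ∀ x : ℝ, 0 ≤ x → x ≤ 1 / t → x ^ 2 ≤ 1 / t := fun x h0 hx => by
    have : 1 / t ≤ 1 := by rw [div_le_one t0]; linarith
    nlinarith
  have b1 : 1 / A ≤ 1 / t := one_div_le_one_div_of_le t0 a1
  have b2 : A / H ≤ 1 / t := by
    rw [div_le_div_iff₀ H0 t0]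
    nlinarith
  have b3 := sq (L * t / H) (by positivity) (by rw [div_le_div_iff₀ H0 t0]; nlinarith)
  have b4 := sq (Q ^ 4 / L) (by positivity) (by
    rw [div_le_div_iff₀ L0 t0, one_mul]
    calc Q ^ 4 * t ≤ t ^ 4 * t := by gcongr
      _ = 1 * t ^ 5 := by ring
      _ ≤ A * t ^ 19 := mul_le_mul (by linarith) (pw ht (by norm_num)) (by positivity) A0.le
      _ ≤ L := h2)
  linarith

theorem num2 {t A H L Q D N G C : ℝ} (ht : 4 ≤ t) (hA : t ^ 22 ≤ A) (hN : 0 < N) (hH : 0 ≤ H)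
    (h1 : H ≤ 2 * t ^ 2 * L) (h2 : A * t ^ 19 ≤ L) (hQ : Q ≤ t) (hQ0 : 0 ≤ Q) (hD : t ^ 9 ≤ D)
    (hD' : D ≤ 2 * t ^ 9) (hG0 : 0 ≤ G) (hG : G ≤ 2 * t) (hC : 0 ≤ C) :
    Q ^ 7 * (D ^ 3 * (C * A * (A * N) ^ 2 / t ^ 35 * N / (A * N) ^ 2) +
      A * N * G ^ 2 * (D ^ 3 * (A / L) ^ 2 + (H / L) ^ 4 * (1 / D + 1 / A) ^ 2)) ≤
      (8 * C + 300) * (A * N / t) := by
  have t0 : 0 < t := by linarith
  have A0 : 0 < A := lt_of_lt_of_le (by positivity) hA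
  have L0 : 0 < L := lt_of_lt_of_le (by positivity) h2
  have D0 : 0 < D := lt_of_lt_of_le (by positivity) hD
  have b1 : A / L ≤ 1 / t ^ 19 := by rw [div_le_div_iff₀ L0 (by positivity)]; linarith
  have b2 : H / L ≤ 2 * t ^ 2 := by rwa [div_le_iff₀ L0]
  have b3 : 1 / D ≤ 1 / t ^ 9 := one_div_le_one_div_of_le (by positivity) hD
  have b4 : 1 / A ≤ 1 / t ^ 9 :=
    one_div_le_one_div_of_le (by positivity) ((pw ht (by norm_num)).trans hA)
  have e : C * A * (A * N) ^ 2 / t ^ 35 * N / (A * N) ^ 2 = C * (A * N) / t ^ 35 := by field_simp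
  rw [e]
  calc _ ≤ t ^ 7 * ((2 * t ^ 9) ^ 3 * (C * (A * N) / t ^ 35) + A * N * (2 * t) ^ 2 *
        ((2 * t ^ 9) ^ 3 * (1 / t ^ 19) ^ 2 + (2 * t ^ 2) ^ 4 * (1 / t ^ 9 + 1 / t ^ 9) ^ 2)) := by
        gcongr
    _ = (8 * C + (32 / t + 256)) * (A * N / t) := by field_simp; ring
    _ ≤ _ := by
        have : 32 / t ≤ 44 := by rw [div_le_iff₀ t0]; linarith
        gcongr
        linarith

end TII

open TII in
theorem tii : MINStmt → MJ2Stmt → ∀ F, Fam F → LSFor F → TIIFor F := by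
  rintro ⟨C₁, hC₁, h₁⟩ ⟨C₂, hC₂, h₂⟩ F hF hLS K B hKB
  obtain ⟨C₀, C₃, N₀, hC₃, h₃⟩ := hLS ((B + 1) * 35) (B + 1)
  refine ⟨C₀ + (B + 1) * 22, 108 * C₁ + 2 * C₂ * (8 * C₃ + 300), max N₀ (Real.exp 4),
    fun N A H Q β hN hQ1 hQ2 hA hH hHN => ?_⟩
  have hN4 : Real.exp 4 ≤ N := (le_max_right _ _).trans hN
  have hN5 : (5 : ℝ) ≤ N := by linarith [Real.add_one_le_exp 4]
  have N0 : (0 : ℝ) < N := by linarith
  obtain ⟨l, hl⟩ : ∃ l, l = Real.log N := ⟨_, rfl⟩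
  have l4 : 4 ≤ l := by rw [hl]; exact (Real.le_log_iff_exp_le N0).2 hN4
  have l0 : 0 < l := by linarith
  simp only [← hl] at hQ1 hQ2 hA hH ⊢
  obtain ⟨t, ht⟩ : ∃ t, t = l ^ (B + 1) := ⟨_, rfl⟩
  have lt : l ≤ t := by simpa [ht] using pw l4 (show 1 ≤ B + 1 by omega)
  have t4 : 4 ≤ t := l4.trans lt
  have t0 : 0 < t := by linarith
  have tK : l ^ (K + 2) ≤ t := ht ▸ pw l4 (by omega)
  have t22 : t ^ 22 ≤ l ^ (C₀ + (B + 1) * 22) := by
    rw [ht, ← pow_mul]; exact pw l4 (by omega)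
  rw [← ht] at hQ2
  replace hA : t ^ 22 ≤ A := t22.trans hA
  have t1 : t ≤ t ^ 22 := by simpa using pw t4 (show 1 ≤ 22 by norm_num)
  have t2 : 16 ≤ t ^ 2 := by nlinarith only [t4]
  have t3 : 64 ≤ t ^ 3 := by nlinarith only [t4, t2]
  have A1 : (64 : ℝ) ≤ A := t3.trans ((pw t4 (by norm_num)).trans hA)
  replace hH : A * t ^ 22 ≤ H := (mul_le_mul_of_nonneg_left t22 (by linarith)).trans hH
  have H0 : (0 : ℝ) ≤ H := Nat.cast_nonneg _
  have AH : (A : ℝ) * t ≤ H := (mul_le_mul_of_nonneg_left t1 (by linarith)).trans hH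
  have HN : (2 : ℝ) * H ≤ N := by exact_mod_cast hHN
  have AN : (A : ℝ) ≤ N := by nlinarith only [AH, HN, t4, A1]
  have Q1 : (1 : ℝ) ≤ Q := (one_le_pow₀ (by linarith)).trans hQ1
  have H2 : 64 * t ^ 2 ≤ H :=
    (mul_le_mul A1 (pw t4 (by norm_num)) (by positivity) (by linarith)).trans hH
  obtain ⟨L, hL⟩ : ∃ L : ℕ, L = ⌊(H : ℝ) / t ^ 2⌋₊ := ⟨_, rfl⟩
  have L1 : L * t ^ 2 ≤ H := by
    rw [← le_div_iff₀ (by positivity), hL]; exact Nat.floor_le (by positivity)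
  have L2 : (H : ℝ) ≤ 2 * t ^ 2 * L := by
    have h := Nat.lt_floor_add_one ((H : ℝ) / t ^ 2)
    rw [← hL, div_lt_iff₀ (by positivity)] at h
    have : (1 : ℝ) ≤ L := by nlinarith only [h, H2, t2]
    nlinarith only [h, this, t2]
  have L0 : (0 : ℝ) ≤ L := Nat.cast_nonneg _
  have L3 : A * t ^ 19 ≤ L := by
    refine le_of_mul_le_mul_left ?_ (show 0 < 2 * t ^ 2 by positivity)
    calc 2 * t ^ 2 * (A * t ^ 19) = A * t ^ 21 * 2 := by ring
      _ ≤ A * t ^ 21 * t := by gcongr; linarith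
      _ = A * t ^ 22 := by ring
      _ ≤ _ := hH.trans L2
  have L4 : 4 * (L : ℝ) ≤ H := by nlinarith only [L1, t2, L0]
  have L5 : 4 * (A : ℝ) ≤ L := by
    have : 4 ≤ t ^ 19 := t4.trans (by simpa using pw t4 (show 1 ≤ 19 by norm_num))
    nlinarith only [this, L3, A1]
  have L6 : (Q : ℝ) ^ 4 ≤ L :=
    calc (Q : ℝ) ^ 4 ≤ t ^ 4 := by gcongr
      _ = 1 * t ^ 4 := (one_mul _).symm
      _ ≤ A * t ^ 19 := mul_le_mul (by linarith) (pw t4 (by norm_num)) (by positivity) (by linarith)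
      _ ≤ L := L3
  obtain ⟨D, hD⟩ : ∃ D : ℕ, D = ⌈t ^ 9⌉₊ := ⟨_, rfl⟩
  have t9 : 64 ≤ t ^ 9 := t3.trans (pw t4 (by norm_num))
  have D1 : t ^ 9 ≤ D := hD ▸ Nat.le_ceil _
  have D2 : (D : ℝ) ≤ 2 * t ^ 9 := by
    have h := Nat.ceil_lt_add_one (show 0 ≤ t ^ 9 by positivity)
    rw [← hD] at h
    linarith
  have nHL : H + 4 * L ≤ N := by
    have : (H : ℝ) + 4 * L ≤ N := by linarith
    exact_mod_cast this
  have nQ : 1 ≤ Q := by exact_mod_cast Q1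
  have nA : 20 ≤ A := by
    have : (20 : ℝ) ≤ A := by linarith
    exact_mod_cast this
  have nL : 4 * A ≤ L := by exact_mod_cast L5
  have m₁ := h₁ N A H L Q t β (by omega) nQ (by linarith) nHL (by exact_mod_cast L6) AH
    (by
      have : (A : ℝ) * Q ≤ H := (mul_le_mul_of_nonneg_left hQ2 (by linarith)).trans AH
      exact_mod_cast this) (by nlinarith only [hQ2, Q1, H2, t4])
  have m₂ := h₂ (F (C₀ + (B + 1) * 22) N A) β N A H L D Q
    (C₃ * A * ((A : ℝ) * N) ^ 2 / t ^ 35) (hF.sub _ _ _)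
    (by
      have : (3 : ℝ) ≤ D := by linarith
      exact_mod_cast this) nQ nA nL
    (by
      have : (L : ℝ) ≤ H := by linarith
      exact_mod_cast this) nHL (by positivity) fun q q1 q2 χ u hu => by
      have h := h₃ N A q χ ((le_max_left _ _).trans hN) (by omega) (by exact_mod_cast AN) q1
        (by rw [← hl, ← ht]; exact le_trans (by exact_mod_cast q2) hQ2) u hu
      rw [← hl, pow_mul, ← ht] at h
      exact (sum_le_sum_of_subset_of_nonneg (hF.anti _ _ N A (Nat.le_add_right _ _)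
        (by
          have : (3 : ℝ) ≤ N := by linarith
          exact_mod_cast this)) fun _ _ _ => by positivity).trans h
  obtain ⟨S, hS⟩ : ∃ S, S = ∑ n ∈ Ioc N (2 * N), ‖β n‖ ^ 2 := ⟨_, rfl⟩
  have S0 : 0 ≤ S := hS ▸ sum_nonneg fun _ _ => by positivity
  rw [← hS] at m₁ m₂ ⊢
  have A0 : (0 : ℝ) < A := by linarith
  have lg : ∀ x : ℝ, 0 < x → x ≤ N → Real.log x ≤ l := fun x h0 h => hl ▸ Real.log_le_log h0 h
  have g1 : Real.log (4 * A * N) ≤ 3 * l := by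
    rw [Real.log_mul (by positivity) N0.ne', Real.log_mul (by norm_num) A0.ne']
    linarith [lg 4 (by norm_num) (by linarith), lg A A0 AN, lg N N0 le_rfl]
  have g2 : Real.log (A * N) ≤ 2 * t := by
    rw [Real.log_mul A0.ne' N0.ne']
    linarith [lg A A0 AN, lg N N0 le_rfl]
  have g3 : 0 ≤ Real.log (4 * A * N) := Real.log_nonneg (by nlinarith only [A1, hN5])
  have n₁ := num1 (η := 1 / l ^ (K + 2)) t4 hA hH L1 L3 hQ2 (by linarith)
    (one_div_le_one_div_of_le (by positivity) ((pw l4 hKB).trans hQ1))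
    (one_div_le_one_div_of_le (by positivity) tK)
  have n₂ := num2 t4 hA N0 H0 L2 L3 hQ2 (by linarith) D1 D2
    (Real.log_nonneg (show (1 : ℝ) ≤ A * N by nlinarith only [A1, hN5])) g2 hC₃
  have tK' : l ^ K ≤ t := (pw l4 (by omega)).trans tK
  have C0 : 0 ≤ C₁ := by linarith
  have C0' : 0 ≤ C₂ := by linarith
  replace m₁ := (sum_le_sum_of_subset_of_nonneg (hF.sub (C₀ + (B + 1) * 22) N A)
    fun _ _ _ => sum_nonneg fun _ _ => by positivity).trans (m₁.trans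
      (show _ ≤ C₁ * H * A * N * (3 * l) ^ 2 * (6 * (1 / l ^ (K + 2))) * S by gcongr))
  replace m₂ := m₂.trans (show _ ≤ C₂ * H * ((8 * C₃ + 300) * (A * N / l ^ K)) * S by
    rw [mul_assoc (C₂ * H)]
    refine mul_le_mul_of_nonneg_right (mul_le_mul_of_nonneg_left (n₂.trans ?_) (by positivity)) S0
    gcongr)
  refine le_trans ?_ ((add_le_add (mul_le_mul_of_nonneg_left m₁ zero_le_two)
    (mul_le_mul_of_nonneg_left m₂ zero_le_two)).trans (le_of_eq (by field_simp; ring)))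
  rw [mul_sum, mul_sum, ← sum_add_distrib]
  refine sum_le_sum fun a _ => ?_
  rw [mul_sum, mul_sum, ← sum_add_distrib]
  refine sum_le_sum fun b _ => le_trans (le_of_eq ?_) (sq_add _ _)
  rw [← sum_add_distrib]
  congr 2
  exact sum_congr rfl fun n _ => by rw [split (L := L) (by omega) Q, mul_add]

end Pool.Agent.MP_39a890_nt.MS

end
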