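import Pool.Agent.MP_39a890_nt.ms.Spec

/-! Project MS: correlations on average over multipliers and a window of shifts. -/

set_option autoImplicit false

noncomputable section

namespace Pool.Agent.MP_39a890_nt.MS

open MeasureTheory Finset
open scoped ArithmeticFunction.vonMangoldt ComplexConjugate
open Pool.Agent.MP_db1c88_nt.z94 (ei blk DP wide wt)
open Pool.Agent.MP_3d0d30_nt.Six (E ck)
open Pool.Agent.MP_678834_nt Pool.Agent.MP_678834_nt.HL9

namespace WIN

theorem fin {G F : ℝ → ℂ} (cG : Continuous G) (cF : Continuous F) {T A K : ℝ} (T0 : 0 ≤ T)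
    (A0 : 0 ≤ A) (K0 : 0 ≤ K) (e1 : ∫ θ in (0 : ℝ)..1, G θ * F θ = (T : ℂ))
    (e2 : ∫ θ in (0 : ℝ)..1, ‖F θ‖ ^ 2 = A) (e3 : ∫ θ in (0 : ℝ)..1, ‖G θ‖ ^ 2 ≤ K * T) :
    T ≤ K * A := by
  have key : ∀ l : ℝ, K < l → T ≤ l * A := by
    intro l hl
    have l0 : 0 < l := lt_of_le_of_lt K0 hl
    have c1 : Continuous fun θ => l / 2 * ‖F θ‖ ^ 2 := by fun_prop
    have c2 : Continuous fun θ => 1 / (2 * l) * ‖G θ‖ ^ 2 := by fun_prop
    have h1 : T ≤ ∫ θ in (0 : ℝ)..1, (l / 2 * ‖F θ‖ ^ 2 + 1 / (2 * l) * ‖G θ‖ ^ 2) := by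
      calc T = ‖(T : ℂ)‖ := by rw [Complex.norm_real, Real.norm_of_nonneg T0]
        _ ≤ ∫ θ in (0 : ℝ)..1, ‖G θ * F θ‖ := by
          rw [← e1]; exact intervalIntegral.norm_integral_le_integral_norm zero_le_one
        _ ≤ _ := by
          refine intervalIntegral.integral_mono_on zero_le_one
            (Continuous.intervalIntegrable (by fun_prop) _ _)
            ((c1.fun_add c2).intervalIntegrable _ _) fun θ _ => ?_
          rw [norm_mul, ← sub_nonneg]
          have : l / 2 * ‖F θ‖ ^ 2 + 1 / (2 * l) * ‖G θ‖ ^ 2 - ‖G θ‖ * ‖F θ‖ =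
              (l * ‖F θ‖ - ‖G θ‖) ^ 2 / (2 * l) := by
            field_simp; ring
          rw [this]; positivity
    rw [intervalIntegral.integral_add (c1.intervalIntegrable _ _) (c2.intervalIntegrable _ _),
      intervalIntegral.integral_const_mul, intervalIntegral.integral_const_mul, e2] at h1
    have h2 : 1 / (2 * l) * ∫ θ in (0 : ℝ)..1, ‖G θ‖ ^ 2 ≤ T / 2 := by
      calc _ ≤ 1 / (2 * l) * (l * T) := by gcongr; exact e3.trans (by gcongr)
        _ = _ := by field_simp
    linarith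
  refine le_of_forall_pos_le_add fun ε hε => ?_
  have h1 := key (K + ε / (A + 1)) (by linarith [show 0 < ε / (A + 1) by positivity])
  have h2 : ε / (A + 1) * A ≤ ε := by
    rw [div_mul_eq_mul_div, div_le_iff₀ (by positivity)]; nlinarith
  linarith

end WIN

open Win in
theorem win2 : WINStmt := by
  classical
  intro 𝒜 S J R β F μ H M hH hM hR
  have hH0 : (0 : ℝ) < H := by exact_mod_cast hH
  set c : ℕ → ℕ → ℂ := fun a b => ∑ n ∈ S, β n * ∑ j ∈ J, μ j * F (a * n - b - j) with hc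
  set Q : ℕ → ℝ → ℂ := fun a => TP (Icc 1 H) (fun b => conj (c a b)) fun b => (b : ℤ) with hQ
  set P : ℕ → ℝ → ℂ := fun a => TP S β fun n => -((a : ℤ) * n) with hP
  set Mh := TP J μ fun j => (j : ℤ) with hMh
  set Fh := TP R F fun m => (m : ℤ) with hFh
  have cQ : ∀ a, Continuous (Q a) := fun a => continuous_TP _ _ _
  have cP : ∀ a, Continuous (P a) := fun a => continuous_TP _ _ _
  have cM : Continuous Mh := continuous_TP _ _ _
  have cF : Continuous Fh := continuous_TP _ _ _
  have M0 : 0 ≤ M := le_trans (intervalIntegral.integral_nonneg (by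
    have : 0 < 1 / (H : ℝ) := by positivity
    linarith) fun x _ => by positivity) (hM 0)
  have cw : Continuous fun θ => ‖Mh θ‖ ^ 2 * ∑ a ∈ 𝒜, ‖P a θ‖ ^ 2 := by fun_prop
  refine WIN.fin (G := fun θ => Mh θ * ∑ a ∈ 𝒜, Q a θ * P a θ) (by fun_prop) cF
    (sum_nonneg fun _ _ => sum_nonneg fun _ _ => by positivity)
    (sum_nonneg fun _ _ => by positivity) (by positivity) ?_
    (parseval R F _ fun i _ j _ h => by omega) ?_
  · have e : ∀ θ, (Mh θ * ∑ a ∈ 𝒜, Q a θ * P a θ) * Fh θ =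
        ∑ a ∈ 𝒜, Q a θ * (P a θ * (Mh θ * Fh θ)) := fun θ => by
      rw [mul_sum, sum_mul]
      exact sum_congr rfl fun a _ => by ring
    simp_rw [e]
    rw [intervalIntegral.integral_finsetSum fun a _ =>
      Continuous.intervalIntegrable (by fun_prop) _ _, Complex.ofReal_sum]
    refine sum_congr rfl fun a ha => ?_
    simp_rw [hQ, hP, hMh, hFh, TP_mul]
    rw [int_TP, sum_product, Complex.ofReal_sum]
    refine sum_congr rfl fun b hb => ?_
    rw [← Complex.normSq_eq_norm_sq, ← Complex.mul_conj, mul_comm, sum_product, mul_sum]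
    refine sum_congr rfl fun n hn => ?_
    rw [sum_product, mul_sum, mul_sum]
    refine sum_congr rfl fun j hj => ?_
    obtain ⟨h1, h2⟩ := hR a ha n hn b hb j hj
    have h3 : ((a * n : ℕ) : ℤ) = (a : ℤ) * n := Nat.cast_mul _ _
    rw [sum_eq_single_of_mem _ h2]
    · rw [if_pos (by simp only; omega)]
    · intro m _ hm
      rw [if_neg]
      intro h4
      exact hm (by simp only at h4; omega)
  · have e : ∀ a ∈ 𝒜, ∫ θ in (0 : ℝ)..1, (‖Mh θ‖ ^ 2 * ∑ a ∈ 𝒜, ‖P a θ‖ ^ 2) * ‖Q a θ‖ ^ 2 ≤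
        42 * H * M * ∑ b ∈ Icc 1 H, ‖c a b‖ ^ 2 := fun a _ => by
      have := sieve (Icc 1 H) (fun b => conj (c a b)) (fun b => (b : ℤ)) (M := M) hH cw
        (fun _ => by positivity) (by simpa [hMh, hP, TP, SA] using hM)
        (fun i _ j _ h => by omega) (fun i hi => by
          have h3 : (i : ℝ) ≤ H := by exact_mod_cast (mem_Icc.1 hi).2
          simpa using h3)
      simpa using this
    rw [mul_sum]
    refine le_trans ?_ (sum_le_sum e)
    rw [← intervalIntegral.integral_finsetSum fun a _ =>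
      Continuous.intervalIntegrable (by fun_prop) _ _]
    refine intervalIntegral.integral_mono_on zero_le_one
      (Continuous.intervalIntegrable (by fun_prop) _ _)
      (Continuous.intervalIntegrable (by fun_prop) _ _) fun θ _ => ?_
    rw [← mul_sum, norm_mul, mul_pow, mul_assoc, mul_comm (∑ a ∈ 𝒜, ‖P a θ‖ ^ 2)]
    refine mul_le_mul_of_nonneg_left (le_trans ?_ (sum_mul_sq_le_sq_mul_sq _ _ _)) (by positivity)
    gcongr
    exact (norm_sum_le _ _).trans_eq (sum_congr rfl fun a _ => norm_mul _ _)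

end Pool.Agent.MP_39a890_nt.MS

end
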