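import Pool.Agent.MP_39a890_nt.ms.Refl
import Pool.Agent.MP_39a890_nt.ms.KER
import Pool.Agent.MP_39a890_nt.ms.MUL
import Pool.Agent.MP_39a890_nt.ms.ARC
import Pool.Agent.MP_39a890_nt.ms.WIN
import Pool.Agent.MP_39a890_nt.ms.MIN
import Pool.Agent.MP_39a890_nt.ms.DC
import Pool.Agent.MP_39a890_nt.ms.AM
import Pool.Agent.MP_39a890_nt.ms.CORE
import Pool.Agent.MP_39a890_nt.ms.MJ1
import Pool.Agent.MP_39a890_nt.ms.MJ2
import Pool.Agent.MP_39a890_nt.ms.TII
import Pool.Agent.MP_39a890_nt.ms.HM0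
import Pool.Agent.MP_39a890_nt.ms.PE
import Pool.Agent.MP_39a890_nt.ms.HMW
import Pool.Agent.MP_39a890_nt.ms.SM
import Pool.Agent.MP_39a890_nt.ms.PR2
import Pool.Agent.MP_39a890_nt.ms.SM2
import Pool.Agent.MP_39a890_nt.ms.SP
import Pool.Agent.MP_39a890_nt.ms.PM
import Pool.Agent.MP_39a890_nt.ms.LS1
import Pool.Agent.MP_39a890_nt.ms.LS

/-! Project MS: the bilinear estimate for multipliers with a large prime factor. -/

set_option autoImplicit false

namespace Pool.Agent.MP_39a890_nt.MS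

theorem ls_gd : LSFor gd := ls_chain hm0 pe hmw sm pr2 cv sm2 sp pm ls1 ls

theorem tii_gd : TIIFor gd :=
  tii (mn (mul ker) arc win2) (mj2 (dc ker) (mj1 ker (am ker) (core wmv))) gd fam_gd ls_gd

theorem tiip_gd : TIIpFor gd := tiip gd fam_gd stab_gd tii_gd

end Pool.Agent.MP_39a890_nt.MS
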