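import Pool.Agent.MP_39a890_nt.ms.Spec2

/-! Project MS: from dyadic multipliers and one sign to the final form. -/

set_option autoImplicit false

noncomputable section

namespace Pool.Agent.MP_39a890_nt.MS

open Finset
open scoped ArithmeticFunction.vonMangoldt
open Pool.Agent.MP_678834_nt Pool.Agent.MP_678834_nt.HL9

def TopStmt : Prop := ∀ K : ℕ, ∃ (B : ℕ) (C x₀ : ℝ), ∀ (x : ℝ) (A H : ℕ), x₀ ≤ x →
  A * Real.log x ^ B ≤ H → A * H * Real.log x ^ B ≤ x →
  ∃ Ex : Finset (ℕ × ℤ), (Ex.card : ℝ) ≤ C * A * H / Real.log x ^ K ∧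
    ∀ (a : ℕ) (d : ℤ), 1 ≤ a → a ≤ A → |d| ≤ H →
      (∃ l : ℕ, l.Prime ∧ l ∣ a ∧ Real.log x ^ B < l) → a.Coprime d.natAbs →
      Even (a * d.natAbs) → (a, d) ∉ Ex →
      |(({p : ℕ | (p : ℝ) ≤ x ∧ p.Prime ∧ ∃ q : ℕ, q.Prime ∧ (p : ℤ) - d = a * q}.ncard : ℕ) : ℝ) *
          (a * Real.log (x / a) * Real.log x) / (sing (a * d.natAbs) * x) - 1| ≤
        C * Real.log (Real.log x) / Real.log x

namespace Top2

/-- the signed shift -/
def sg (s : Bool) (b : ℕ) : ℤ := bif s then b else -b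

theorem ex_sg (d : ℤ) : ∃ s, d = sg s d.natAbs := by
  rcases Int.natAbs_eq d with h | h
  · exact ⟨true, h⟩
  · exact ⟨false, h⟩

theorem count (s : Bool) {x : ℝ} {a b : ℕ} (ha : 1 ≤ a) (hb : (b : ℝ) ≤ x) :
    {p : ℕ | (p : ℝ) ≤ x ∧ p.Prime ∧ ∃ q : ℕ, q.Prime ∧ (p : ℤ) - sg s b = a * q}.ncard =
      ((Icc 1 ⌊2 * x⌋₊).filter fun q : ℕ => q.Prime ∧ (sh s (a * q) b).Prime ∧
        ((sh s (a * q) b : ℕ) : ℝ) ≤ x).card := by
  rw [← card_image_of_injOn (f := fun q => sh s (a * q) b), ← Set.ncard_coe_finset]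
  · congr 1
    ext p
    simp only [Set.mem_ofPred_eq, coe_image, coe_filter, Set.mem_image, mem_Icc]
    constructor
    · rintro ⟨h1, h2, q, h3, h4⟩
      have e : sh s (a * q) b = p := by
        cases s
        · simp only [sg, cond_false, sh_false] at h4 ⊢
          have : p + b = a * q := by exact_mod_cast (by linarith : (p : ℤ) + b = a * q)
          omega
        · simp only [sg, cond_true, sh_true] at h4 ⊢
          have : p = a * q + b := by exact_mod_cast (by linarith : (p : ℤ) = a * q + b)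
          omega
      refine ⟨q, ⟨⟨h3.one_le, Nat.le_floor ?_⟩, h3, e ▸ h2, e ▸ h1⟩, e⟩
      have h5 : q ≤ p + b := by
        have : q ≤ a * q := Nat.le_mul_of_pos_left _ ha
        cases s
        · simp only [sh_false] at e
          omega
        · simp only [sh_true] at e
          omega
      have : (q : ℝ) ≤ p + b := by exact_mod_cast h5
      linarith
    · rintro ⟨q, ⟨_, h3, h2, h1⟩, rfl⟩
      refine ⟨h1, h2, q, h3, ?_⟩
      have := h2.two_le
      cases s
      · simp only [sg, cond_false, sh_false] at this ⊢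
        rw [Nat.cast_sub (by omega)]
        push_cast
        ring
      · simp only [sg, cond_true, sh_true]
        push_cast
        ring
  · intro q hq q' hq' h
    have h1 := (mem_filter.1 (mem_coe.1 hq)).2.2.1.two_le
    have h2 := (mem_filter.1 (mem_coe.1 hq')).2.2.1.two_le
    refine Nat.eq_of_mul_eq_mul_left ha ?_
    cases s
    · simp only [sh_false] at h h1 h2
      omega
    · simp only [sh_true] at h
      omega

theorem geo {A : ℕ} (hA : A ≠ 0) : ∑ i ∈ range (Nat.log 2 A + 1), ((2 ^ i : ℕ) : ℝ) ≤ 2 * A := by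
  have h1 := Nat.pow_log_le_self 2 hA
  have h2 : ∑ i ∈ range (Nat.log 2 A + 1), 2 ^ i ≤ 2 * A := by
    have := Nat.geomSum_eq (le_refl 2) (Nat.log 2 A + 1)
    rw [this, pow_succ]
    omega
  exact_mod_cast h2

end Top2

open Top2 in
theorem top2 (hU : UNIFor gd) (hC : CNT2Stmt) : TopStmt := by
  intro K
  obtain ⟨C₀, C, x₀, C0, hU⟩ := hU K
  obtain ⟨C₂, x₂, hC⟩ := hC (2 * C)
  obtain ⟨c, c0, hc⟩ := Tp.sing_lower
  refine ⟨C₀ + 5, max (4 * C) C₂, max (max x₀ x₂) (Real.exp 2), fun x A H hx h1 h2 => ?_⟩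
  have x0 : 0 < x := (Real.exp_pos 2).trans_le ((le_max_right _ _).trans hx)
  have l2 : 2 ≤ Real.log x := (Real.le_log_iff_exp_le x0).2 ((le_max_right _ _).trans hx)
  have l0 : 0 < Real.log x := by linarith
  have pw : ∀ {m n : ℕ}, m ≤ n → Real.log x ^ m ≤ Real.log x ^ n := fun h =>
    pow_le_pow_right₀ (by linarith) h
  rcases eq_or_ne A 0 with rfl | hA
  · exact ⟨∅, by simp, fun a d h3 h4 => by omega⟩
  have A1 : (1 : ℝ) ≤ A := by exact_mod_cast Nat.one_le_iff_ne_zero.2 hA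
  have H0 : (0 : ℝ) ≤ H := Nat.cast_nonneg _
  have key : ∀ (s : Bool) (i : ℕ), ∃ Ex : Finset (ℕ × ℕ),
      (Ex.card : ℝ) ≤ C * (2 ^ i : ℕ) * H / Real.log x ^ K ∧
      (Real.log x ^ C₀ ≤ (2 ^ i : ℕ) → 2 ^ i ≤ A →
        ∀ a ∈ gd C₀ ⌊x⌋₊ (2 ^ i), ∀ b ∈ Icc 1 H, a.Coprime b → (a, b) ∉ Ex → ∀ y : ℕ,
          (y : ℝ) ≤ 2 * x / (2 ^ i : ℕ) →
          |∑ n ∈ Icc 1 y, Λ n * Λ (sh s (a * n) b) - sing (a * b) * y| ≤
            C * (1 + sing (a * b)) * (x / (2 ^ i : ℕ)) / Real.log x ^ 2) := by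
    intro s i
    by_cases h : Real.log x ^ C₀ ≤ (2 ^ i : ℕ) ∧ 2 ^ i ≤ A
    · have iA : ((2 ^ i : ℕ) : ℝ) ≤ A := by exact_mod_cast h.2
      obtain ⟨Ex, e1, e2⟩ := hU s x (2 ^ i) H
        (((le_max_left _ _).trans (le_max_left _ _)).trans hx) h.1
        (le_trans (mul_le_mul iA (pw (Nat.le_add_right _ _)) (by positivity) (by linarith)) h1)
        (le_trans (mul_le_mul (mul_le_mul_of_nonneg_right iA H0) (pw (Nat.le_add_right _ _))
          (by positivity) (by positivity)) h2)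
      exact ⟨Ex, e1, fun _ _ => e2⟩
    · exact ⟨∅, by simp only [card_empty, Nat.cast_zero]; positivity,
        fun h3 h4 => absurd ⟨h3, h4⟩ h⟩
  choose Ex e1 e2 using key
  refine ⟨(univ : Finset Bool).biUnion fun s => (range (Nat.log 2 A + 1)).biUnion fun i =>
    (Ex s i).image fun z => (z.1, sg s z.2), ?_, ?_⟩
  · have t : ∀ s : Bool, (((range (Nat.log 2 A + 1)).biUnion fun i =>
        (Ex s i).image fun z => (z.1, sg s z.2)).card : ℝ) ≤
        C * (2 * A) * H / Real.log x ^ K := fun s => by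
      refine (Nat.cast_le.2 card_biUnion_le).trans ?_
      rw [Nat.cast_sum]
      refine (sum_le_sum fun i _ => (Nat.cast_le.2 card_image_le).trans (e1 s i)).trans ?_
      rw [← sum_div, ← sum_mul, ← mul_sum]
      gcongr
      exact geo hA
    refine (Nat.cast_le.2 card_biUnion_le).trans ?_
    rw [Nat.cast_sum]
    refine (sum_le_sum fun s _ => t s).trans ?_
    rw [sum_const, card_univ, Fintype.card_bool, nsmul_eq_mul]
    calc _ = 4 * C * A * H / Real.log x ^ K := by push_cast; ring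
      _ ≤ _ := by gcongr; exact le_max_left _ _
  · rintro a d a1 aA dH ⟨l, lp, la, ll⟩ cop ev hEx
    obtain ⟨s, hs⟩ := ex_sg d
    obtain ⟨b, hb⟩ : ∃ b, b = d.natAbs := ⟨_, rfl⟩
    rw [← hb] at hs cop ev ⊢
    have bH : b ≤ H := by
      rw [← Int.natCast_natAbs, ← hb] at dH
      exact_mod_cast dH
    have lea : l ≤ a := Nat.le_of_dvd a1 la
    have a2 : 2 ≤ a := lp.two_le.trans lea
    have b1 : 1 ≤ b := by
      rcases Nat.eq_zero_or_pos b with rfl | h
      · rw [Nat.coprime_zero_right] at cop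
        omega
      · exact h
    obtain ⟨i, hi⟩ : ∃ i, i = Nat.log 2 (a - 1) := ⟨_, rfl⟩
    have i1 : 2 ^ i ≤ a - 1 := hi ▸ Nat.pow_log_le_self 2 (by omega)
    have i2 : a - 1 < 2 ^ (i + 1) := hi ▸ Nat.lt_pow_succ_log_self one_lt_two _
    rw [pow_succ] at i2
    have i3 : i < Nat.log 2 A + 1 :=
      Nat.lt_succ_of_le (hi ▸ Nat.log_mono_right (by omega))
    have r1 : ((2 ^ i : ℕ) : ℝ) ≤ a := by exact_mod_cast (by omega : 2 ^ i ≤ a)
    have r2 : (a : ℝ) ≤ 2 * (2 ^ i : ℕ) := by exact_mod_cast (by omega : a ≤ 2 * 2 ^ i)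
    have r3 : (l : ℝ) ≤ a := by exact_mod_cast lea
    have r4 : (0 : ℝ) < (2 ^ i : ℕ) := by positivity
    have r5 : (a : ℝ) ≤ A := by exact_mod_cast aA
    have r6 : (b : ℝ) ≤ H := by exact_mod_cast bH
    have a0 : (0 : ℝ) < a := by exact_mod_cast a1
    have p1 : Real.log x ^ C₀ * 2 ≤ Real.log x ^ (C₀ + 5) :=
      le_trans (by rw [pow_succ]; gcongr) (pw (show C₀ + 1 ≤ C₀ + 5 by omega))
    have p0 : 0 < Real.log x ^ C₀ := by positivity
    have mem : a ∈ gd C₀ ⌊x⌋₊ (2 ^ i) := by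
      refine mem_filter.2 ⟨mem_Ioc.2 ⟨by omega, by omega⟩, l,
        Nat.mem_primeFactors.2 ⟨lp, la, by omega⟩, lt_of_le_of_lt ?_ ll⟩
      have x1 : (1 : ℝ) ≤ x := by linarith [Real.log_le_sub_one_of_pos x0]
      refine le_trans (pow_le_pow_left₀ (Real.log_natCast_nonneg _) ?_ _) (by linarith)
      exact Real.log_le_log (by exact_mod_cast Nat.floor_pos.2 x1) (Nat.floor_le x0.le)
    have nm : (a, b) ∉ Ex s i := fun h => hEx (mem_biUnion.2 ⟨s, mem_univ _,
      mem_biUnion.2 ⟨i, mem_range.2 i3, mem_image.2 ⟨(a, b), h, by rw [hs]⟩⟩⟩)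
    have sp : 0 < sing (a * b) := c0.trans_le (hc _ (Nat.mul_pos a1 b1) ev)
    have bx : (b : ℝ) * Real.log x ^ 4 ≤ x := by
      refine le_trans ?_ h2
      calc (b : ℝ) * Real.log x ^ 4 ≤ (1 * H) * Real.log x ^ (C₀ + 5) :=
            mul_le_mul (by linarith) (pw (by omega)) (by positivity) (by positivity)
        _ ≤ _ := by gcongr
    have ax : (a : ℝ) ^ 2 * Real.log x ^ 10 ≤ x := by
      refine le_trans ?_ h2
      calc (a : ℝ) ^ 2 * Real.log x ^ 10 ≤ (A : ℝ) ^ 2 * Real.log x ^ ((C₀ + 5) + (C₀ + 5)) :=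
            mul_le_mul (by gcongr) (pw (by omega)) (by positivity) (by positivity)
        _ = A * (A * Real.log x ^ (C₀ + 5)) * Real.log x ^ (C₀ + 5) := by ring
        _ ≤ _ := by gcongr
    have fin := hC s x a b (((le_max_right _ _).trans (le_max_left _ _)).trans hx) a1 b1 ax bx ev
      fun y hy => (e2 s i (by linarith) (by omega) a mem b (mem_Icc.2 ⟨b1, bH⟩) cop nm y
        (hy.trans (by gcongr))).trans (by
          have : x / ((2 ^ i : ℕ) : ℝ) ≤ 2 * (x / a) := by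
            rw [← mul_div_assoc, div_le_div_iff₀ r4 a0]
            nlinarith
          calc _ ≤ C * (1 + sing (a * b)) * (2 * (x / a)) / Real.log x ^ 2 := by gcongr
            _ = _ := by ring)
    rw [hs, count s a1 (le_trans (le_mul_of_one_le_right (Nat.cast_nonneg _)
      (one_le_pow₀ (by linarith))) bx)]
    refine fin.trans ?_
    have : 0 ≤ Real.log (Real.log x) := Real.log_nonneg (by linarith)
    gcongr
    exact le_max_right _ _

end Pool.Agent.MP_39a890_nt.MS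

end
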