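import Pool.Agent.MP_39a890_nt.ms.Spec2

/-! Uniformity in the end point. -/

set_option autoImplicit false

noncomputable section

namespace Pool.Agent.MP_39a890_nt.MS

open MeasureTheory Finset Filter
open scoped ArithmeticFunction.vonMangoldt
open Pool.Agent.MP_678834_nt Pool.Agent.MP_678834_nt.HL9

namespace UNI

theorem edge {f : ℕ → ℝ} {B : ℝ} {u v D : ℕ} (hB : 0 ≤ B) (h : v ≤ u + D)
    (hf : ∀ n, u < n → n ≤ v → |f n| ≤ B) : |∑ n ∈ Ioc u v, f n| ≤ D * B := by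
  refine (abs_sum_le_sum_abs _ _).trans ((sum_le_card_nsmul _ _ B fun n hn =>
    hf n (mem_Ioc.1 hn).1 (mem_Ioc.1 hn).2).trans ?_)
  rw [nsmul_eq_mul, Nat.card_Ioc]
  gcongr
  omega

theorem tele {f : ℕ → ℝ} {B e : ℝ} {D I y : ℕ} (hB : 0 ≤ B) (he : 0 ≤ e) (hD : 0 < D)
    (hy : y / D ≤ I) (hf : ∀ n, 0 < n → n ≤ y → |f n| ≤ B)
    (h : ∀ l, 1 ≤ l → l ≤ I → |∑ n ∈ Ioc (l * D) ((l + 1) * D), f n| ≤ e) :
    |∑ n ∈ Ioc 0 y, f n| ≤ 2 * (D * B) + I * e := by
  have a : ∀ j, j ≤ y / D → |∑ n ∈ Ioc 0 (j * D), f n| ≤ D * B + j * e := by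
    intro j hj
    induction j with
    | zero => simp; positivity
    | succ j ih =>
      rcases Nat.eq_zero_or_pos j with rfl | h0
      · have := (Nat.le_div_iff_mul_le hD).1 hj
        refine (edge hB (D := D) (by omega) fun n h1 h2 => hf n h1 (h2.trans this)).trans ?_
        simpa using he
      · rw [← sum_Ioc_consecutive f (Nat.zero_le (j * D)) (Nat.mul_le_mul_right D j.le_succ)]
        refine (abs_add_le _ _).trans ((add_le_add (ih (by omega)) (h j h0 (by omega))).trans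
          (le_of_eq ?_))
        push_cast
        ring
  have b := Nat.div_mul_le_self y D
  have c := Nat.lt_div_mul_add (a := y) hD
  rw [← sum_Ioc_consecutive f (Nat.zero_le _) b]
  have d := edge hB c.le fun n h1 h2 => hf n (by omega) h2
  have g : ((y / D : ℕ) : ℝ) * e ≤ I * e := by gcongr
  linarith [abs_add_le (∑ n ∈ Ioc 0 (y / D * D), f n) (∑ n ∈ Ioc (y / D * D) y, f n), a _ le_rfl]

theorem lam_le {m : ℕ} {z : ℝ} (hz : 1 ≤ z) (h : (m : ℝ) ≤ z) : Λ m ≤ Real.log z := by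
  rcases Nat.eq_zero_or_pos m with rfl | h0
  · simpa using Real.log_nonneg hz
  · exact ArithmeticFunction.vonMangoldt_le_log.trans (Real.log_le_log (by exact_mod_cast h0) h)

theorem sing_nn {d : ℕ} (h : 0 < d) : 0 ≤ sing d := by
  obtain ⟨c, hc, h1⟩ := Tp.sing_lower
  by_cases e : Even d
  · exact hc.le.trans (h1 d h e)
  · simp [sing, e]

theorem sh_le (s : Bool) (y b : ℕ) : sh s y b ≤ y + b := by
  cases s
  · simp only [sh_false]; omega
  · simp

end UNI

open UNI in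
theorem uni : ∀ F, Fam F → Mono F → VM2For F → UNIFor F := by
  classical
  intro F hF hM hV K
  obtain ⟨C₁, C, N₀, h⟩ := hV (K + 4) 6
  obtain ⟨x₀, hx₀⟩ := eventually_atTop.1 ((ev_log_pow one_pos 24 1).and ((ev_log 8).and
    ((eventually_ge_atTop 5).and (eventually_ge_atTop (max N₀ 3 ^ 3)))))
  refine ⟨max C₁ 5, 2 * 3 ^ (K + 4) * |C| + 20000, x₀, by positivity,
    fun s x A H hx h1 h2 h3 => ?_⟩
  obtain ⟨e1, hL, x5, e2⟩ := hx₀ x hx
  rw [one_mul, Real.rpow_one] at e1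
  set L := Real.log x with hLx
  have L1 : 1 ≤ L := by linarith
  have L0 : 0 < L := by linarith
  have p5 : L ^ 5 ≤ L ^ max C₁ 5 := pow_le_pow_right₀ L1 (le_max_right _ _)
  have p1 : L ^ C₁ ≤ L ^ max C₁ 5 := pow_le_pow_right₀ L1 (le_max_left _ _)
  have p8 : 8 ≤ L ^ 5 := hL.trans (le_self_pow₀ L1 (by norm_num))
  have A8 : (8 : ℝ) ≤ A := by linarith
  have A0 : (0 : ℝ) < A := by linarith
  have AH : (A : ℝ) ≤ H := le_trans (le_mul_of_one_le_right A0.le (by linarith)) h2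
  have H0 : (0 : ℝ) < H := by linarith
  have q5 : A * H * L ^ 5 ≤ x := le_trans (by gcongr) h3
  have AHx : (A : ℝ) * H ≤ x := le_trans (le_mul_of_one_le_right (by positivity) (by linarith)) q5
  have Hx : (H : ℝ) ≤ x := le_trans (le_mul_of_one_le_left H0.le (by linarith)) AHx
  have x0 : 0 < x := by linarith
  obtain ⟨W, hW⟩ : ∃ W, W = x / A / L ^ 4 := ⟨_, rfl⟩
  have W0 : 0 < W := by rw [hW]; positivity
  have xW : x = W * A * L ^ 4 := by rw [hW]; field_simp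
  have PW : x / A = W * L ^ 4 := by rw [hW]; field_simp
  have W3 : x ≤ W ^ 3 := by
    refine le_of_pow_le_pow_left₀ two_ne_zero (by positivity) ?_
    have a1 : (A : ℝ) ^ 2 ≤ x := le_trans (by rw [sq]; gcongr) AHx
    have a2 : x ^ 6 ≤ (W ^ 3) ^ 2 * x ^ 4 :=
      calc x ^ 6 = (W ^ 3) ^ 2 * ((A ^ 2) ^ 3 * L ^ 24) := by rw [xW]; ring
        _ ≤ (W ^ 3) ^ 2 * (x ^ 3 * x) := by gcongr
        _ = _ := by ring
    exact le_of_mul_le_mul_right (a := x ^ 4) (by linarith) (by positivity)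
  have WN : max N₀ 3 ≤ W := le_of_pow_le_pow_left₀ three_ne_zero W0.le (e2.trans W3)
  have W1 : 3 ≤ W := (le_max_right _ _).trans WN
  have HW : 8 * (H : ℝ) ≤ W := by
    refine le_of_mul_le_mul_right (a := A * L ^ 4) ?_ (by positivity)
    calc 8 * (H : ℝ) * (A * L ^ 4) ≤ L * H * (A * L ^ 4) := by gcongr
      _ = A * H * L ^ 5 := by ring
      _ ≤ _ := by linarith
  obtain ⟨D, hD⟩ : ∃ D, D = ⌈W⌉₊ := ⟨_, rfl⟩
  have D1 : W ≤ D := hD ▸ Nat.le_ceil W
  have D2 : (D : ℝ) ≤ 2 * W := by linarith [hD ▸ Nat.ceil_lt_add_one W0.le]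
  have D0 : 0 < D := by exact_mod_cast W0.trans_le D1
  obtain ⟨I, hI⟩ : ∃ I, I = ⌊2 * L ^ 4⌋₊ := ⟨_, rfl⟩
  have I1 : (I : ℝ) ≤ 2 * L ^ 4 := hI ▸ Nat.floor_le (by positivity)
  have blk : ∀ l : ℕ, ∃ Ex : Finset (ℕ × ℕ), 1 ≤ l → l ≤ I →
      (Ex.card : ℝ) ≤ 3 ^ (K + 4) * |C| * A * H / L ^ (K + 4) ∧
      ∀ a ∈ F (max C₁ 5) ⌊x⌋₊ A, ∀ b ∈ Icc 1 H, a.Coprime b → (a, b) ∉ Ex →
        |∑ n ∈ Ioc (l * D) ((l + 1) * D), (Λ n * Λ (sh s (a * n) b) - sing (a * b))| ≤
          8748 * W / L ^ 2 := by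
    intro l
    by_cases hl : 1 ≤ l ∧ l ≤ I
    swap
    · exact ⟨∅, fun a b => (hl ⟨a, b⟩).elim⟩
    have n1 : W ≤ (l * D : ℕ) := D1.trans (by exact_mod_cast Nat.le_mul_of_pos_left D hl.1)
    have n2 : ((l * D : ℕ) : ℝ) ≤ 4 * (W * L ^ 4) := by
      have : (l : ℝ) ≤ 2 * L ^ 4 := le_trans (by exact_mod_cast hl.2) I1
      calc ((l * D : ℕ) : ℝ) = l * D := Nat.cast_mul _ _
        _ ≤ 2 * L ^ 4 * (2 * W) := by gcongr
        _ = _ := by ring
    have n3 : ((l * D : ℕ) : ℝ) ≤ x := by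
      have : 4 * (W * L ^ 4) ≤ A * (W * L ^ 4) := by gcongr; linarith
      linarith
    have n4 : 3 ≤ l * D := by exact_mod_cast W1.trans n1
    have n5 : l * D ≤ ⌊x⌋₊ := Nat.le_floor n3
    have g1 : Real.log (l * D : ℕ) ≤ L := Real.log_le_log (W0.trans_le n1) n3
    have g2 : L / 3 ≤ Real.log (l * D : ℕ) := by
      have := Real.log_le_log x0 (W3.trans (pow_le_pow_left₀ W0.le n1 3))
      rw [Real.log_pow] at this
      push_cast at this ⊢
      linarith
    have g0 : 0 < L / 3 := by positivity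
    have g3 : Real.log (l * D : ℕ) ^ C₁ ≤ L ^ max C₁ 5 :=
      (pow_le_pow_left₀ (g0.le.trans g2) g1 _).trans p1
    obtain ⟨Ex, c1, c2⟩ := h s (l * D) ((l + 1) * D) A H ((le_max_left _ _).trans (WN.trans n1))
      (Nat.mul_le_mul_right D l.le_succ) (by nlinarith [hl.1]) (g3.trans h1)
      (le_trans (by gcongr) h2) (by exact_mod_cast HW.trans n1)
    refine ⟨Ex, fun _ _ => ⟨c1.trans ?_, fun a ha b hb hc hn => ?_⟩⟩
    · calc _ ≤ |C| * A * H / Real.log (l * D : ℕ) ^ (K + 4) := by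
            have := g0.trans_le g2
            gcongr
            exact le_abs_self C
        _ ≤ |C| * A * H / (L / 3) ^ (K + 4) := by gcongr
        _ = _ := by rw [div_pow]; field_simp
    · have := c2 a (hM _ _ _ _ n4 n5 (hF.anti _ _ _ _ (le_max_left _ _) (n4.trans n5) ha)) b hb hc hn
      rw [sum_sub_distrib, sum_const, Nat.card_Ioc, nsmul_eq_mul,
        Nat.cast_sub (Nat.mul_le_mul_right D l.le_succ), mul_comm _ (sing _)]
      refine this.trans ?_
      calc _ ≤ 3 * (4 * (W * L ^ 4)) / (L / 3) ^ 6 := by gcongr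
        _ = _ := by field_simp; norm_num
  choose Ex hEx using blk
  refine ⟨(Icc 1 I).biUnion Ex, ?_, fun a ha b hb hc hn y hy => ?_⟩
  · calc (((Icc 1 I).biUnion Ex).card : ℝ) ≤ ∑ l ∈ Icc 1 I, ((Ex l).card : ℝ) := by
          exact_mod_cast card_biUnion_le
      _ ≤ (Icc 1 I).card • (3 ^ (K + 4) * |C| * A * H / L ^ (K + 4)) :=
          sum_le_card_nsmul _ _ _ fun l hl => (hEx l (mem_Icc.1 hl).1 (mem_Icc.1 hl).2).1
      _ ≤ 2 * L ^ 4 * (3 ^ (K + 4) * |C| * A * H / L ^ (K + 4)) := by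
          rw [nsmul_eq_mul, Nat.card_Icc, Nat.add_sub_cancel]
          gcongr
      _ = 2 * 3 ^ (K + 4) * |C| * A * H / L ^ K := by rw [pow_add L]; field_simp
      _ ≤ _ := by gcongr; linarith
  · obtain ⟨a1, a2⟩ := mem_Ioc.1 (hF.sub _ _ _ ha)
    obtain ⟨b1, b2⟩ := mem_Icc.1 hb
    have s0 := sing_nn (d := a * b) (Nat.mul_pos (by omega) b1)
    rw [mul_div_assoc, PW] at hy
    have y1 : y / D ≤ I := hI ▸ Nat.le_floor (Nat.cast_div_le.trans (by
      rw [div_le_iff₀ (W0.trans_le D1)]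
      calc (y : ℝ) ≤ 2 * L ^ 4 * W := by linarith
        _ ≤ _ := by gcongr))
    have t := tele (f := fun n => Λ n * Λ (sh s (a * n) b) - sing (a * b))
      (B := L * (2 * L) + sing (a * b)) (e := 8748 * W / L ^ 2) (by positivity) (by positivity) D0 y1
      (fun n _ n2 => by
        have m1 : (n : ℝ) ≤ 2 * (W * L ^ 4) := le_trans (by exact_mod_cast n2) hy
        have m2 : (n : ℝ) ≤ x := by
          have : 2 * (W * L ^ 4) ≤ A * (W * L ^ 4) := by gcongr; linarith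
          linarith
        have m3 : (sh s (a * n) b : ℝ) ≤ x ^ 2 := by
          have a3 : (a : ℝ) ≤ 2 * A := by exact_mod_cast a2
          have b3 : (b : ℝ) ≤ H := by exact_mod_cast b2
          have : (a : ℝ) * n ≤ 2 * A * (2 * (W * L ^ 4)) := by gcongr
          calc (sh s (a * n) b : ℝ) ≤ a * n + b := by exact_mod_cast sh_le s (a * n) b
            _ ≤ 5 * x := by linarith
            _ ≤ _ := by nlinarith
        have m4 := lam_le (by nlinarith) m3
        rw [Real.log_pow, Nat.cast_ofNat] at m4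
        refine (abs_sub _ _).trans (add_le_add ?_ (abs_of_nonneg s0).le)
        rw [abs_of_nonneg (mul_nonneg ArithmeticFunction.vonMangoldt_nonneg
          ArithmeticFunction.vonMangoldt_nonneg)]
        exact mul_le_mul (lam_le (by linarith) m2) m4 ArithmeticFunction.vonMangoldt_nonneg L0.le)
      fun l l1 l2 => (hEx l l1 l2).2 a ha b hb hc fun k =>
        hn (mem_biUnion.2 ⟨l, mem_Icc.2 ⟨l1, l2⟩, k⟩)
    rw [sum_sub_distrib, sum_const, Nat.card_Ioc, nsmul_eq_mul, Nat.sub_zero,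
      mul_comm _ (sing _)] at t
    rw [show Icc 1 y = Ioc 0 y from rfl, PW]
    refine t.trans ?_
    have u1 : (1 : ℝ) ≤ L ^ 2 := one_le_pow₀ L1
    calc _ ≤ 2 * (2 * W * (L * (2 * L) + sing (a * b) * L ^ 2)) + 2 * L ^ 4 * (8748 * W / L ^ 2) := by
          gcongr
          exact le_mul_of_one_le_right s0 u1
      _ = (17504 + 4 * sing (a * b)) * (W * L ^ 2) := by field_simp; ring
      _ ≤ (2 * 3 ^ (K + 4) * |C| + 20000) * (1 + sing (a * b)) * (W * L ^ 2) := by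
          gcongr
          have : 0 ≤ 2 * 3 ^ (K + 4) * |C| * (1 + sing (a * b)) := by positivity
          nlinarith
      _ = _ := by field_simp

end Pool.Agent.MP_39a890_nt.MS

end
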