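import Pool.Agent.MP_39a890_nt.ms.Spec2
import Pool.Agent.MP_39a890_nt.ms.VM

/-! From the bilinear estimate to the asymptotic formula: both signs, any end point. -/

set_option autoImplicit false

noncomputable section

namespace Pool.Agent.MP_39a890_nt.MS

open MeasureTheory Finset Filter
open scoped ArithmeticFunction.vonMangoldt
open Pool.Agent.MP_678834_nt Pool.Agent.MP_678834_nt.HL9

namespace VM2

lemma cut {N M : ℕ} (h : M ≤ 2 * N) (f g : ℕ → ℂ) :
    ∑ n ∈ Ioc N (2 * N), (if n ≤ M then f n else 0) * g n = ∑ n ∈ Ioc N M, f n * g n := by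
  simp only [ite_mul, zero_mul]
  rw [← sum_filter]
  refine sum_congr ?_ fun _ _ => rfl
  ext n
  simp only [mem_filter, mem_Ioc]
  omega

end VM2

theorem vm2 : MT2Stmt → SGStmt → ∀ F, Fam F → TII2For F → VM2For F := by
  classical
  rintro mt ⟨K₀, C₁, sg⟩ F hF tii K J
  obtain ⟨C₀, C₂, N₂, h2⟩ := tii (K + 2 * J + 2) (2 * (K₀ + K + J + 2)) (by omega)
  obtain ⟨C₃, N₃, h3⟩ := mt (J + 1) (2 * (K₀ + K + J + 2) + 1)
  obtain ⟨N₀, hN₀⟩ := eventually_atTop.1 ((ev_log 2).and ((ev_log C₃).and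
    ((eventually_ge_atTop N₂).and ((eventually_ge_atTop N₃).and (eventually_ge_atTop (2 : ℝ))))))
  refine ⟨C₀, 4 * max C₂ 0 + max C₁ 0 * 3 ^ K₀, N₀, fun s N M A H hN hM1 hM2 hA hH hHN => ?_⟩
  obtain ⟨l2, l3, n2, n3, n4⟩ := hN₀ N hN
  set L := Real.log N with hL
  have L0 : 0 < L := by linarith
  have p1 : ∀ k : ℕ, 1 ≤ L ^ k := fun k => one_le_pow₀ (by linarith)
  have A1 : (1 : ℝ) ≤ A := (p1 _).trans hA
  have AH : (A : ℝ) ≤ H := le_trans (le_mul_of_one_le_right (by linarith) (p1 _)) hH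
  have HN : 8 * (H : ℝ) ≤ N := by exact_mod_cast hHN
  obtain ⟨Q, q1, q2⟩ : ∃ Q : ℕ, L ^ (2 * (K₀ + K + J + 2)) ≤ Q ∧
      (Q : ℝ) ≤ L ^ (2 * (K₀ + K + J + 2) + 1) := by
    refine ⟨⌈L ^ (2 * (K₀ + K + J + 2))⌉₊, Nat.le_ceil _,
      (Nat.ceil_lt_add_one (by positivity)).le.trans ?_⟩
    rw [pow_succ]
    nlinarith [p1 (2 * (K₀ + K + J + 2))]
  have Q1 : 1 ≤ Q := by exact_mod_cast (p1 _).trans q1
  let T : ℕ × ℕ → ℂ := fun x => ∑ n ∈ Ioc N (2 * N), (if n ≤ M then ((Λ n : ℝ) : ℂ) else 0) *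
    (((Λ (sh s (x.1 * n) x.2) : ℝ) : ℂ) - lamS Q (sh s (x.1 * n) x.2))
  refine ⟨(F C₀ N A ×ˢ Icc 1 H).filter (fun x => N / L ^ J < ‖T x‖) ∪
    (Ioc A (2 * A) ×ˢ Icc 1 H).filter (fun x : ℕ × ℕ =>
      1 / L ^ J < ‖(sing (x.1 * x.2) : ℂ) - sgm Q (x.1 * x.2)‖), ?_, fun a ha b hb hab hx => ?_⟩
  · have e1 : (((F C₀ N A ×ˢ Icc 1 H).filter fun x => N / L ^ J < ‖T x‖).card : ℝ) ≤
        4 * max C₂ 0 * A * H / L ^ K := by
      have k1 := h2 s N A H Q (fun n => if n ≤ M then ((Λ n : ℝ) : ℂ) else 0) n2 q1 q2 hA hH hHN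
      rw [← sum_product'] at k1
      have k2 : (((F C₀ N A ×ˢ Icc 1 H).filter fun x => N / L ^ J < ‖T x‖).card : ℝ) *
          (N / L ^ J) ^ 2 ≤ ∑ x ∈ F C₀ N A ×ˢ Icc 1 H, ‖T x‖ ^ 2 := by
        rw [← nsmul_eq_mul]
        refine (card_nsmul_le_sum _ (fun x => ‖T x‖ ^ 2) _ fun x hx => ?_).trans
          (sum_le_sum_of_subset_of_nonneg (filter_subset _ _) fun _ _ _ => by positivity)
        exact pow_le_pow_left₀ (by positivity) (mem_filter.1 hx).2.le 2
      have k3 : ∑ n ∈ Ioc N (2 * N), ‖(if n ≤ M then ((Λ n : ℝ) : ℂ) else 0)‖ ^ 2 ≤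
          4 * N * L ^ 2 := by
        refine le_trans (sum_le_sum fun n _ => ?_) (VM.sum_sq N (by exact_mod_cast n4))
        split_ifs
        · exact le_rfl
        · rw [norm_zero, zero_pow two_ne_zero]; positivity
      refine le_of_mul_le_mul_right (k2.trans (k1.trans ?_)) (by positivity : 0 < (N / L ^ J) ^ 2)
      calc _ ≤ max C₂ 0 * A * H * N / L ^ (K + 2 * J + 2) * (4 * N * L ^ 2) := by
            gcongr
            exact le_max_left _ _
        _ = _ := by field_simp; ring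
    have e2 := sg Q A H (1 / L ^ J) Q1 (by exact_mod_cast A1) (by exact_mod_cast A1.trans AH)
      (by positivity)
    have e3 : 1 + Real.log (2 * A * H) ≤ 3 * L := by
      have : Real.log (2 * A * H) ≤ Real.log ((N : ℝ) ^ 2) :=
        Real.log_le_log (by nlinarith) (by nlinarith)
      rw [Real.log_pow] at this
      push_cast at this
      linarith
    have e4 : 0 ≤ 1 + Real.log (2 * A * H) := by
      have : 0 ≤ Real.log (2 * A * H) := Real.log_nonneg (by nlinarith)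
      linarith
    have e5 : L ^ (K₀ + K + J) ≤ √Q := by
      refine Real.le_sqrt_of_sq_le (le_trans ?_ q1)
      rw [← pow_mul]
      exact pow_le_pow_right₀ (by linarith) (by omega)
    have e6 : C₁ * A * H * (1 + Real.log (2 * A * H)) ^ K₀ / (1 / L ^ J * √Q) ≤
        max C₁ 0 * 3 ^ K₀ * A * H / L ^ K :=
      calc _ ≤ max C₁ 0 * A * H * (3 * L) ^ K₀ / (1 / L ^ J * L ^ (K₀ + K + J)) := by
            gcongr
            exact le_max_left _ _
        _ = _ := by rw [mul_pow]; field_simp; ring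
    refine le_trans (by exact_mod_cast card_union_le _ _) ((add_le_add e1 (e2.trans e6)).trans ?_)
    exact le_of_eq (by ring)
  · have ha' := hF.sub _ _ _ ha
    rw [mem_union, not_or, mem_filter, mem_filter, mem_product, mem_product] at hx
    have k1 : ‖T (a, b)‖ ≤ N / L ^ J := not_lt.1 fun h => hx.1 ⟨⟨ha, hb⟩, h⟩
    have k2 : ‖(sing (a * b) : ℂ) - sgm Q (a * b)‖ ≤ 1 / L ^ J :=
      not_lt.1 fun h => hx.2 ⟨⟨ha', hb⟩, h⟩
    have k3 := h3 s N M Q a b n3 hM1 hM2 q2 hab (by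
      have := (mem_Ioc.1 ha').1
      have := (mem_Icc.1 hb).2
      have : N ≤ a * N := Nat.le_mul_of_pos_left _ (by omega)
      omega)
    have k4 : C₃ * N / L ^ (J + 1) ≤ N / L ^ J :=
      calc _ ≤ L * N / L ^ (J + 1) := by gcongr
        _ = _ := by field_simp; ring
    have k5 : ((∑ n ∈ Ioc N M, Λ n * Λ (sh s (a * n) b) - sing (a * b) * ((M : ℝ) - N) : ℝ) : ℂ) =
        T (a, b) + (∑ n ∈ Ioc N M, ((Λ n : ℝ) : ℂ) * lamS Q (sh s (a * n) b) -
          sgm Q (a * b) * ((M : ℂ) - N)) -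
          ((sing (a * b) : ℂ) - sgm Q (a * b)) * (((M : ℝ) - N : ℝ) : ℂ) := by
      simp only [T]
      rw [VM2.cut hM2 (fun n => ((Λ n : ℝ) : ℂ))]
      simp only [mul_sub, sum_sub_distrib]
      push_cast
      ring
    have k6 : ‖((sing (a * b) : ℂ) - sgm Q (a * b)) * (((M : ℝ) - N : ℝ) : ℂ)‖ ≤ N / L ^ J := by
      have m1 : (N : ℝ) ≤ M := by exact_mod_cast hM1
      have m2 : (M : ℝ) ≤ 2 * N := by exact_mod_cast hM2
      rw [norm_mul, Complex.norm_real, Real.norm_of_nonneg (by linarith)]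
      exact (mul_le_mul k2 (by linarith : (M : ℝ) - N ≤ N) (by linarith) (by positivity)).trans
        (le_of_eq (by ring))
    rw [← Real.norm_eq_abs, ← Complex.norm_real, k5]
    refine (norm_sub_le _ _).trans ((add_le_add ((norm_add_le _ _).trans
      (add_le_add k1 (k3.trans k4))) k6).trans (le_of_eq (by ring)))

end Pool.Agent.MP_39a890_nt.MS
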